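import Pool.Agent.Lib.MP_52f683_gt.F.BasicTmp

-- part Pool.Agent.Lib.MP_52f683_gt.CA.A3
section

set_option autoImplicit false
set_option linter.unusedSectionVars false

open Set Topology Filter
open scoped Cardinal

namespace Pool.Agent.Lib.MP_52f683_gt

universe u

variable {S : Type u} [TopologicalSpace S]

/-- relatively open subsets -/
def OpInA (U X : Set S) : Prop := ∃ O, IsOpen O ∧ U = X ∩ O

/-- extremally disconnected subsets -/
def EDsA (X : Set S) : Prop :=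
  ∀ U V, OpInA U X → OpInA V X → Disjoint U V → Disjoint (closure U) (closure V)

/-- clopen parts of translates of `X` -/
def ClA (X a : Set S) : Prop := ∃ g : S ≃ₜ S, ClopIn a (g '' X)

/-- small disjoint families of clopen parts have closed unions -/
def SmA (X : Set S) (l : Cardinal.{u}) : Prop :=
  ∀ (ι : Type u) (W : ι → Set S), #ι < l → (∀ i, ClopIn (W i) X) →
    (Pairwise fun i j => Disjoint (W i) (W j)) → IsClosed (⋃ i, W i)

/-- closed crowded sets with charts -/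
structure CWa (X : Set S) : Prop where
  thin : Thin S
  cl : IsClosed X
  crd : Crd X
  ne : X.Nonempty
  far : ∃ g : S ≃ₜ S, Disjoint X (g '' X)
  chart : ∀ g : S ≃ₜ S, ∀ z ∈ X ∩ g '' X, ∃ P, z ∈ P ∧ P ⊆ X ∩ g '' X ∧
    (ClopIn P X ∨ (ClopIn P (g '' X) ∧ Nwd P X))

lemma exists_max_pairwise_ca {T : Type*} (P : Set T) (r : T → T → Prop) (hr : ∀ a b, r a b → r b a) :
    ∃ A ⊆ P, A.Pairwise r ∧ ∀ t ∈ P, (∀ s ∈ A, r t s) → t ∈ A := by
  obtain ⟨A, hA⟩ := zorn_subset {A : Set T | A ⊆ P ∧ A.Pairwise r} (fun c hc hch =>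
    ⟨⋃₀ c, ⟨sUnion_subset fun s hs => (hc hs).1,
      (hch.pairwise_sUnion).2 fun s hs => (hc hs).2⟩, fun s hs => subset_sUnion_of_mem hs⟩)
  refine ⟨A, hA.prop.1, hA.prop.2, fun t ht h => ?_⟩
  refine hA.le_of_ge (y := insert t A) ⟨insert_subset ht hA.prop.1, ?_⟩ (subset_insert _ _)
    (mem_insert _ _)
  exact hA.prop.2.insert fun s hs _ => ⟨h s hs, hr _ _ (h s hs)⟩

lemma OpInA.sub {U X : Set S} (h : OpInA U X) : U ⊆ X := by
  obtain ⟨O, -, rfl⟩ := h; exact inter_subset_left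

lemma ClopIn.opIn_ca {N X : Set S} (h : ClopIn N X) : OpInA N X :=
  ⟨_, isClosed_closure.isOpen_compl, h.open_eq⟩

lemma opIn_iUnion_ca {ι : Sort*} {U : ι → Set S} {X : Set S} (h : ∀ i, OpInA (U i) X) :
    OpInA (⋃ i, U i) X := by
  choose O hO e using h
  exact ⟨⋃ i, O i, isOpen_iUnion hO, by rw [inter_iUnion]; exact iUnion_congr e⟩

lemma OpInA.trans {U a X : Set S} (h : OpInA U a) (h' : OpInA a X) : OpInA U X := by
  obtain ⟨O, hO, rfl⟩ := h
  obtain ⟨O', hO', rfl⟩ := h'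
  exact ⟨O' ∩ O, hO'.inter hO, inter_assoc _ _ _⟩

lemma OpInA.image {U X : Set S} (h : OpInA U X) (g : S ≃ₜ S) : OpInA (g '' U) (g '' X) := by
  obtain ⟨O, hO, rfl⟩ := h
  exact ⟨g '' O, g.isOpenMap _ hO, img_inter g _ _⟩

lemma OpInA.disj_cl {U V X : Set S} (h : OpInA U X) (hV : V ⊆ X) (hd : Disjoint U V) :
    Disjoint U (closure V) := by
  obtain ⟨O, hO, rfl⟩ := h
  exact (disjoint_cl hO (disjoint_left.2 fun x hx hx' =>
    disjoint_left.1 hd ⟨hV hx', hx⟩ hx')).mono_left inter_subset_right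

lemma opIn_diff_closed_ca {X F : Set S} (hF : IsClosed F) : OpInA (X \ F) X :=
  ⟨Fᶜ, hF.isOpen_compl, rfl⟩

lemma ClopIn.isClosed_ca {N X : Set S} (h : ClopIn N X) (hX : IsClosed X) : IsClosed N :=
  isClosed_of_closure_subset fun _ hx => h.closed ⟨hx, closure_minimal h.1 hX hx⟩

lemma clopIn_of_opIn_ca {N X : Set S} (h : OpInA N X) (hN : IsClosed N) : ClopIn N X :=
  ⟨h.sub, h.disj_cl sdiff_subset disjoint_sdiff_right, by
    rw [hN.closure_eq]; exact disjoint_sdiff_left⟩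

lemma clopIn_empty_ca (X : Set S) : ClopIn ∅ X := by simpa using (clopIn_self X).compl

lemma EDsA.image {X : Set S} (h : EDsA X) (g : S ≃ₜ S) : EDsA (g '' X) := by
  intro U V hU hV hd
  have := h _ _ (by simpa [img_symm_img] using hU.image g.symm)
    (by simpa [img_symm_img] using hV.image g.symm) ((img_disj g.symm).2 hd)
  rwa [← img_cl, ← img_cl, img_disj] at this

lemma EDsA.part {X a : Set S} (h : EDsA X) (ha : OpInA a X) : EDsA a :=
  fun U V hU hV hd => h U V (hU.trans ha) (hV.trans ha) hd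

lemma EDsA.clop {X U : Set S} (h : EDsA X) (hX : IsClosed X) (hU : OpInA U X) :
    ClopIn (closure U) X :=
  ⟨closure_minimal hU.sub hX,
    h U _ hU (opIn_diff_closed_ca isClosed_closure)
      (disjoint_sdiff_right.mono_left subset_closure),
    by rw [closure_closure]; exact disjoint_sdiff_left⟩

lemma cl_of_clop_ca {X a : Set S} (h : ClopIn a X) : ClA X a := ⟨Homeomorph.refl S, by simpa using h⟩

lemma ClA.part {X a n : Set S} (h : ClA X a) (hn : ClopIn n a) : ClA X n :=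
  let ⟨g, hg⟩ := h; ⟨g, hn.trans hg⟩

lemma ClA.image {X a : Set S} (h : ClA X a) (k : S ≃ₜ S) : ClA X (k '' a) :=
  let ⟨g, hg⟩ := h; ⟨g.trans k, by rw [img_trans]; exact hg.image k⟩

lemma ClA.closed {X a : Set S} (h : ClA X a) (hX : IsClosed X) : IsClosed a :=
  let ⟨g, hg⟩ := h; hg.isClosed_ca (g.isClosed_image.2 hX)

lemma ClA.ed {X a : Set S} (h : ClA X a) (hX : EDsA X) : EDsA a :=
  let ⟨g, hg⟩ := h; (hX.image g).part hg.opIn_ca

lemma SmA.part {X a : Set S} {l : Cardinal.{u}} (h : SmA X l) (ha : ClA X a) : SmA a l := by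
  intro ι W h1 h2 h3
  obtain ⟨g, hg⟩ := ha
  have := h ι (fun i => g.symm '' W i) h1
    (fun i => by simpa [img_symm_img] using ((h2 i).trans hg).image g.symm)
    fun i j hij => (img_disj g.symm).2 (h3 hij)
  rwa [← image_iUnion, g.symm.isClosed_image] at this

lemma TauSum.closed_sub_ca {ι : Type*} {W C : ι → Set S} (h : TauSum W) (hC : ∀ i, IsClosed (C i))
    (hs : ∀ i, C i ⊆ W i) (hcl : closure (⋃ i, C i) ⊆ ⋃ i, W i) : IsClosed (⋃ i, C i) := by
  refine isClosed_of_closure_subset fun z hz => ?_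
  obtain ⟨j, hj⟩ := mem_iUnion.1 (hcl hz)
  have : z ∈ closure (C j ∪ ⋃ i ∈ ({j}ᶜ : Set ι), W i) := by
    refine closure_mono (iUnion_subset fun i y hy => ?_) hz
    by_cases hij : i = j
    · exact Or.inl (hij ▸ hy)
    · exact Or.inr (mem_biUnion (x := i) hij (hs i hy))
  rw [closure_union, (hC j).closure_eq] at this
  exact mem_iUnion.2 ⟨j, this.resolve_right (disjoint_left.1 (h j) hj)⟩

/-- a sum of closed sets whose terms embed in the terms of a closed sum is closed -/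
lemma Thin.host_ca (hS : Thin S) {ι : Type*} {W V : ι → Set S} (hW : TauSum W) (hV : TauSum V)
    (hc : ∀ i, IsClosed (W i)) (hcl : IsClosed (⋃ i, V i))
    (he : ∀ i, ∃ g : S ≃ₜ S, g '' W i ⊆ V i) : IsClosed (⋃ i, W i) := by
  choose g hg using he
  obtain ⟨h, hh⟩ := hS.glueF W (fun i => g i '' W i) (fun i => ⟨g i, rfl⟩) hW (hV.mono hg)
  rw [← h.isClosed_image, hh]
  exact hV.closed_sub_ca (fun i => (g i).isClosed_image.2 (hc i)) hg
    (closure_minimal (iUnion_mono hg) hcl)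

variable [T1Space S] [Infinite S]

lemma ClA.crd {X a : Set S} (h : ClA X a) (hX : Crd X) : Crd a :=
  let ⟨g, hg⟩ := h; (hX.image g).clop hg

lemma TauSum.disc_ca {ι : Type*} {W : ι → Set S} (h : TauSum W) {y : ι → S} (hy : ∀ i, y i ∈ W i) :
    Disc (range y) := by
  refine disjoint_left.2 ?_
  rintro _ ⟨i, rfl⟩ hi
  refine disjoint_left.1 (h i) (hy i) (closure_mono ?_ (mem_cl_diff_single hi))
  rintro _ ⟨⟨j, rfl⟩, hj⟩
  exact mem_biUnion (x := j) (fun e => hj (by rw [show j = i from e]; rfl)) (hy j)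

lemma CWa.ed {X : Set S} (h : CWa X) : EDsA X := by
  obtain ⟨g0, hg0⟩ := h.far
  have key : ∀ U, OpInA U X → Disjoint (closure U) (closure (X \ closure U)) := by
    intro U hU
    have hc : closure U ⊆ X := closure_minimal hU.sub h.cl
    have hg : IsClosed (g0 '' X) := g0.isClosed_image.2 h.cl
    have i0 : g0 '' (X \ closure U) ⊆ g0 '' X := image_mono sdiff_subset
    obtain ⟨k, hk⟩ := h.thin.glueE (Eqv.rfl' U) ⟨g0, rfl⟩
      ⟨hU.disj_cl sdiff_subset (disjoint_sdiff_right.mono_left subset_closure), disjoint_sdiff_left⟩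
      (sp_of_closed h.cl hg hU.sub i0 (hg0.mono_left hU.sub) (hg0.symm.mono_left i0))
    have e0 : closure (U ∪ X \ closure U) = X := by
      refine (closure_minimal (union_subset hU.sub sdiff_subset) h.cl).antisymm fun x hx => ?_
      rw [closure_union]
      by_cases hx' : x ∈ closure U
      · exact Or.inl hx'
      · exact Or.inr (subset_closure ⟨hx, hx'⟩)
    have e1 : k '' X = closure U ∪ closure (g0 '' (X \ closure U)) := by
      rw [← closure_union, ← hk, ← img_cl, e0]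
    have e2 : X ∩ k '' X ⊆ closure U := fun x hx =>
      (e1.subset hx.2).resolve_right fun h' => disjoint_left.1 hg0 hx.1 (closure_minimal i0 hg h')
    refine disjoint_left.2 fun z hz hz' => ?_
    obtain ⟨P, p1, p2, p3 | ⟨p3, p4⟩⟩ := h.chart k z ⟨hc hz, e1.superset (Or.inl hz)⟩
    · exact disjoint_left.1 p3.2.1 p1 (closure_mono (sdiff_subset_sdiff_right (p2.trans e2)) hz')
    · obtain ⟨O, hO, rfl⟩ := p3.opIn_ca
      obtain ⟨O', hO', rfl⟩ := hU
      obtain ⟨w, w1, w2⟩ := mem_closure_iff.1 hz O hO p1.2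
      obtain ⟨v, v1, v2⟩ := mem_closure_iff.1 (p4 w2.1) _ (hO.inter hO') ⟨w1, w2.2⟩
      exact v2.2 ⟨e1.superset (Or.inl (subset_closure ⟨v2.1, v1.2⟩)), v1.1⟩
  intro U V hU hV hd
  exact (key U hU).mono_right (closure_mono fun x hx =>
    (Set.mem_sdiff x).2 ⟨hV.sub hx, disjoint_left.1 (hV.disj_cl hU.sub hd.symm) hx⟩)

lemma CWa.chart' {X : Set S} (h : CWa X) (g : S ≃ₜ S) {z : S} (hz : z ∈ X ∩ g '' X) :
    ∃ P, z ∈ P ∧ P ⊆ X ∩ g '' X ∧ ClA X P := by
  obtain ⟨P, p1, p2, p3 | ⟨p3, -⟩⟩ := h.chart g z hz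
  · exact ⟨P, p1, p2, cl_of_clop_ca p3⟩
  · exact ⟨P, p1, p2, g, p3⟩

/-- some disjoint family of clopen parts has a union that is not closed -/
lemma CWa.nc {X : Set S} (h : CWa X) : ∃ (ι : Type u) (W : ι → Set S), (∀ i, ClopIn (W i) X) ∧
    (Pairwise fun i j => Disjoint (W i) (W j)) ∧ ¬ IsClosed (⋃ i, W i) := by
  obtain ⟨x, hx⟩ := h.ne
  obtain ⟨A, a1, a2, a3⟩ := exists_max_pairwise_ca {N : Set S | ClopIn N X ∧ x ∉ N} Disjoint
    fun _ _ h => h.symm
  refine ⟨A, Subtype.val, fun i => (a1 i.2).1, fun i j hij => a2 i.2 j.2 fun e =>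
    hij (Subtype.ext e), fun hcl => ?_⟩
  have hV := (clopIn_of_opIn_ca (opIn_iUnion_ca fun i : A => (a1 i.2).1.opIn_ca) hcl).compl
  set V := X \ ⋃ i : A, i.1 with hVdef
  have hxV : x ∈ V := ⟨hx, fun h' => by
    obtain ⟨i, hi⟩ := mem_iUnion.1 h'
    exact (a1 i.2).2 hi⟩
  have hVc := hV.isClosed_ca h.cl
  have no : ∀ U, OpInA U V → U.Nonempty → x ∈ closure U := by
    intro U hU hne
    by_contra hn
    have hd : ∀ s ∈ A, Disjoint (closure U) s := fun s hs =>
      disjoint_left.2 fun y hy hy' => (closure_minimal hU.sub hVc hy).2 (mem_iUnion.2 ⟨⟨s, hs⟩, hy'⟩)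
    have := hd _ (a3 _ ⟨h.ed.clop h.cl (hU.trans hV.opIn_ca), hn⟩ hd)
    exact hne.closure.ne_empty (by simpa using this)
  obtain ⟨g0, hg0⟩ := h.far
  have hu := h.thin.irr_eq (K := V) ⟨hVc, fun O1 O2 h1 h2 n1 n2 => ?_,
    (h.crd.clop hV).inf ⟨x, hxV⟩⟩
  · exact disjoint_left.1 hg0 (hV.1 (hu ▸ mem_univ (g0 x))) (mem_image_of_mem _ hx)
  · by_contra hn
    refine disjoint_left.1 (h.ed.part hV.opIn_ca _ _ ⟨O1, h1, rfl⟩ ⟨O2, h2, rfl⟩ ?_)
      (no _ ⟨O1, h1, rfl⟩ n1) (no _ ⟨O2, h2, rfl⟩ n2)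
    exact disjoint_left.2 fun y hy hy' => hn ⟨y, hy.1, hy.2, hy'.2⟩

/-- a family of least size -/
lemma CWa.min {X : Set S} (h : CWa X) : ∃ (ι : Type u) (W : ι → Set S), (∀ i, ClopIn (W i) X) ∧
    (∀ i, (W i).Nonempty) ∧ (Pairwise fun i j => Disjoint (W i) (W j)) ∧ ¬ IsClosed (⋃ i, W i) ∧
    SmA X #ι ∧ Infinite ι := by
  let T : Set Cardinal.{u} := {l | ∃ (ι : Type u) (W : ι → Set S), #ι = l ∧ (∀ i, ClopIn (W i) X) ∧
    (Pairwise fun i j => Disjoint (W i) (W j)) ∧ ¬ IsClosed (⋃ i, W i)}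
  have hT : T.Nonempty := let ⟨ι, W, h'⟩ := h.nc; ⟨_, ι, W, rfl, h'⟩
  obtain ⟨ι, W, e, h1, h2, h3⟩ := csInf_mem hT
  have e2 : (⋃ i : {i // (W i).Nonempty}, W i.1) = ⋃ i, W i :=
    Subset.antisymm (iUnion_subset fun i => subset_iUnion W i.1)
      (iUnion_subset fun i y hy => mem_iUnion.2 ⟨⟨i, y, hy⟩, hy⟩)
  refine ⟨{i // (W i).Nonempty}, fun i => W i.1, fun i => h1 i.1, fun i => i.2,
    fun i j hij => h2 fun e => hij (Subtype.ext e), by rwa [e2], fun κ V k1 k2 k3 => ?_, ?_⟩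
  · by_contra hn
    exact (k1.trans_le ((Cardinal.mk_subtype_le _).trans e.le)).not_ge
      (csInf_le' ⟨κ, V, rfl, k2, k3, hn⟩)
  · by_contra hn
    rw [not_infinite_iff_finite] at hn
    exact h3 (e2 ▸ isClosed_iUnion_of_finite fun i => (h1 i.1).isClosed_ca h.cl)

lemma Thin.move_ca (hS : Thin S) {A D D' : Set S} (hA : Crd A) (hD : derivedSet D = ∅)
    (hD' : derivedSet D' = ∅) (e : Eqv D D') (h1 : Disjoint D (closure A))
    (h2 : Disjoint D' (closure A)) : ∃ k : S ≃ₜ S, k '' A = A ∧ k '' D = D' := by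
  have sp : ∀ D : Set S, derivedSet D = ∅ → Disjoint D (closure A) → Sp D A := fun D hD h =>
    ⟨h, by rw [closure_eq_self_union_derivedSet, hD, union_empty]
           exact (h.mono_right subset_closure).symm⟩
  obtain ⟨k, hk⟩ := hS.glueE e (Eqv.rfl' A) (sp D hD h1) (sp D' hD' h2)
  have a : ∀ D : Set S, derivedSet D = ∅ → Disjoint D (closure A) →
      Disjoint D (derivedSet (D ∪ A)) := by
    intro D hD h
    rw [derivedSet_union, hD, empty_union]; exact h.mono_right der_sub_cl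
  have b : ∀ D : Set S, A ⊆ derivedSet (D ∪ A) := fun D => hA.trans (der_mono subset_union_right)
  exact ⟨k, (split_img k hk (a D hD h1) (b D) (a D' hD' h2) (b D')).symm⟩

/-- a host family of the same size with closed union -/
lemma CWa.host {X : Set S} (h : CWa X) {ι : Type u} [Infinite ι] {W : ι → Set S}
    (h1 : ∀ i, ClopIn (W i) X) (h2 : ∀ i, (W i).Nonempty)
    (h3 : Pairwise fun i j => Disjoint (W i) (W j)) (h5 : SmA X #ι)
    (hsel : ∀ y : ι → S, (∀ i, y i ∈ W i) → IsClosed (range y)) :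
    ∃ V : ι → Set S, (∀ i, (V i).Nonempty ∧ ClA X (V i)) ∧ TauSum V ∧ IsClosed (⋃ i, V i) := by
  obtain ⟨g0, hg0⟩ := h.far
  have hg : IsClosed (g0 '' X) := g0.isClosed_image.2 h.cl
  have tau : TauSum W := tauSum_of_clop h1 h3
  set U := ⋃ i, W i with hUdef
  have hU : OpInA U X := opIn_iUnion_ca fun i => (h1 i).opIn_ca
  have hUc : closure U ⊆ X := closure_minimal hU.sub h.cl
  have hRX : Rem U ⊆ X := sdiff_subset.trans hUc
  have hR : IsClosed (Rem U) := by
    obtain ⟨O, hO, e⟩ := hU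
    have : Rem U = closure U \ O := by
      ext x
      exact ⟨fun hx => ⟨hx.1, fun h' => hx.2 (e ▸ ⟨hUc hx.1, h'⟩)⟩,
        fun hx => ⟨hx.1, fun h' => hx.2 (e.subset h').2⟩⟩
    rw [this]
    exact isClosed_closure.sdiff hO
  by_cases hc : Crd (Rem U)
  · choose y hy using h2
    have hY : derivedSet (range y) = ∅ := by
      rw [← subset_empty_iff]
      exact fun z hz => disjoint_left.1 (tau.disc_ca hy) (der_sub_closed (hsel y hy) subset_rfl hz) hz
    have hYU : range y ⊆ U := by rintro _ ⟨i, rfl⟩; exact mem_iUnion.2 ⟨i, hy i⟩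
    obtain ⟨k, k1, k2⟩ := h.thin.move_ca hc (D := g0 '' range y) (D' := range y)
      (by rw [← img_der, hY, image_empty]) hY (Eqv.symm ⟨g0, rfl⟩)
      (hg0.symm.mono (image_mono (hYU.trans hU.sub)) (closure_minimal hRX h.cl))
      (by rw [hR.closure_eq]; exact disjoint_sdiff_right.mono_left hYU)
    have hMR : Disjoint ((g0.trans k) '' X) (Rem U) := by
      rw [← k1, img_trans, img_disj]
      exact hg0.symm.mono_right hRX
    choose P p1 p2 p3 using fun i => h.chart' (g0.trans k) (z := y i)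
      ⟨(h1 i).1 (hy i), by
        rw [img_trans]
        exact image_mono (image_mono (hYU.trans hU.sub)) (k2.superset (mem_range_self i))⟩
    have cV : ∀ i, ClA X (W i ∩ P i) := fun i =>
      (p3 i).part ((h1 i).trace ((p2 i).trans inter_subset_left))
    refine ⟨fun i => W i ∩ P i, fun i => ⟨⟨y i, hy i, p1 i⟩, cV i⟩,
      tau.mono fun i => inter_subset_left,
      tau.closed_sub_ca (fun i => (cV i).closed h.cl) (fun i => inter_subset_left) fun z hz => ?_⟩
    by_contra hn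
    exact disjoint_left.1 hMR (closure_minimal (iUnion_subset fun i x hx => (p2 i hx.2).2)
      ((g0.trans k).isClosed_image.2 h.cl) hz)
      ⟨closure_mono (iUnion_mono fun i => inter_subset_left) hz, hn⟩
  · obtain ⟨e0, he0, he0'⟩ := not_subset.1 hc
    obtain ⟨x, hx⟩ := h.ne
    have sp : ∀ v, v ∉ closure (Rem U \ {e0}) → Sp (Rem U \ {e0}) {v} := fun v hv =>
      ⟨by rw [closure_singleton]; exact disjoint_singleton_right.2 fun h' => hv (subset_closure h'),
        disjoint_singleton_left.2 hv⟩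
    obtain ⟨k, hk⟩ := h.thin.glueE (Eqv.rfl' (Rem U \ {e0}))
      ((h.thin.homog e0 (g0 x)).imp fun g hg => by simp [hg])
      (sp e0 fun h' => he0' (by
        rwa [mem_derivedSet, accPt_principal_iff_clusterPt, ← mem_closure_iff_clusterPt]))
      (sp (g0 x) fun h' => disjoint_left.1 hg0
        (closure_minimal (sdiff_subset.trans hRX) h.cl h') (mem_image_of_mem _ hx))
    rw [sdiff_union_of_subset (singleton_subset_iff.2 he0)] at hk
    obtain ⟨e, he, hke⟩ : g0 x ∈ k '' Rem U := hk.superset (Or.inr rfl)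
    have hM : ∀ r ∈ Rem U, r ∈ (g0.trans k.symm) '' X → r = e := by
      intro r hr hr'
      rw [img_trans, ← mem_img k, img_img_symm] at hr'
      apply k.injective
      rw [hke]
      exact (hk.subset (mem_image_of_mem _ hr)).resolve_left fun h' =>
        disjoint_left.1 hg0 (hRX h'.1) hr'
    obtain ⟨P, p1, p2, p3⟩ := h.chart' (g0.trans k.symm) (z := e) ⟨hRX he, by
      rw [img_trans, ← mem_img k, img_img_symm, hke]; exact mem_image_of_mem _ hx⟩
    have pX : P ⊆ X := p2.trans inter_subset_left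
    have cV : ∀ i, ClopIn (W i ∩ P) P := fun i => (h1 i).trace pX
    have dV : Pairwise fun i j => Disjoint (W i ∩ P) (W j ∩ P) := fun i j hij =>
      (h3 hij).mono inter_subset_left inter_subset_left
    have hQ : ∀ z ∈ closure U ∩ P, z ≠ e → ∃ i, z ∈ W i ∩ P := by
      intro z hz hne
      have : z ∈ U := by_contra fun hn => hne (hM z ⟨hz.1, hn⟩ (p2 hz.2).2)
      obtain ⟨i, hi⟩ := mem_iUnion.1 this
      exact ⟨i, hi, hz.2⟩
    have hbig : ¬ #{i // (W i ∩ P).Nonempty} < #ι := by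
      intro hlt
      have c1 := h5.part p3 _ (fun i : {i // (W i ∩ P).Nonempty} => W i.1 ∩ P) hlt
        (fun i => cV i.1) fun i j hij => dV fun e => hij (Subtype.ext e)
      have c2 := mem_cl_diff_single ((p3.crd h.crd).clop ((h.ed.clop h.cl hU).trace pX) ⟨he.1, p1⟩)
      obtain ⟨i, hi⟩ := mem_iUnion.1 (closure_minimal (fun z hz => by
        obtain ⟨i, hi⟩ := hQ z hz.1 hz.2
        exact mem_iUnion.2 ⟨⟨i, z, hi⟩, hi⟩) c1 c2)
      exact he.2 (mem_iUnion.2 ⟨i.1, hi.1⟩)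
    obtain ⟨φ⟩ : Nonempty (ι ⊕ ι ↪ {i // (W i ∩ P).Nonempty}) := (Cardinal.le_def _ _).1 (by
      simpa [Cardinal.add_eq_self (Cardinal.aleph0_le_mk ι)] using not_lt.1 hbig)
    obtain ⟨ψ, hψ, hψe⟩ : ∃ ψ : ι → {i // (W i ∩ P).Nonempty}, Function.Injective ψ ∧
        e ∉ closure (⋃ i, W (ψ i).1 ∩ P) := by
      have := p3.ed h.ed _ _ (opIn_iUnion_ca fun i => (cV (φ (Sum.inl i)).1).opIn_ca)
        (opIn_iUnion_ca fun i => (cV (φ (Sum.inr i)).1).opIn_ca)
        (disjoint_iUnion_left.2 fun i => disjoint_iUnion_right.2 fun j => dV fun e => by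
          simpa using φ.injective (Subtype.ext e))
      by_cases he1 : e ∈ closure (⋃ i, W (φ (Sum.inl i)).1 ∩ P)
      · exact ⟨fun i => φ (Sum.inr i), φ.injective.comp Sum.inr_injective,
          disjoint_left.1 this he1⟩
      · exact ⟨fun i => φ (Sum.inl i), φ.injective.comp Sum.inl_injective, he1⟩
    refine ⟨fun i => W (ψ i).1 ∩ P, fun i => ⟨(ψ i).2, p3.part (cV _)⟩,
      tauSum_of_clop (fun i => cV _) fun i j hij => dV fun e => hij (hψ (Subtype.ext e)),
      isClosed_of_closure_subset fun z hz => ?_⟩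
    obtain ⟨j, hj⟩ := hQ z
      ⟨closure_mono (iUnion_subset fun i => inter_subset_left.trans (subset_iUnion W _)) hz,
        closure_minimal (iUnion_subset fun i => inter_subset_right) (p3.closed h.cl) hz⟩
      fun e' => hψe (e' ▸ hz)
    by_contra hn
    refine disjoint_left.1 (cV j).2.1 hj (closure_mono (iUnion_subset fun i v hv =>
      (Set.mem_sdiff v).2 ⟨hv.2, ?_⟩) hz)
    exact disjoint_left.1 (dV fun e' : (ψ i).1 = j => hn (mem_iUnion.2 ⟨i, e' ▸ hj⟩)) hv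

end Pool.Agent.Lib.MP_52f683_gt
end

-- part Pool.Agent.Lib.MP_52f683_gt.CA.A4
section

set_option autoImplicit false
set_option linter.unusedSectionVars false

open Set Topology Filter
open scoped Cardinal

namespace Pool.Agent.Lib.MP_52f683_gt

universe u

variable {S : Type u} [TopologicalSpace S]

/-- closed crowded sets that meet their translates in clopen parts -/
structure HWa (X : Set S) : Prop where
  thin : Thin S
  cl : IsClosed X
  crd : Crd X
  ne : X.Nonempty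
  far : ∃ g : S ≃ₜ S, Disjoint X (g '' X)
  clop : ∀ g : S ≃ₜ S, ClopIn (X ∩ g '' X) X
  dc : ∀ D ⊆ X, Disc D → IsClosed D

/-- a translate of `a` lies in `b` -/
def EmbA (a b : Set S) : Prop := ∃ g : S ≃ₜ S, g '' a ⊆ b

/-- `a` contains disjoint translates of `c` indexed by `ι` -/
def CopA (ι : Type*) (c a : Set S) : Prop :=
  ∃ g : ι → S ≃ₜ S, (∀ i, g i '' c ⊆ a) ∧ Pairwise fun i j => Disjoint (g i '' c) (g j '' c)

lemma EmbA.trans {a b c : Set S} (h : EmbA a b) (h' : EmbA b c) : EmbA a c := by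
  obtain ⟨g, hg⟩ := h
  obtain ⟨k, hk⟩ := h'
  exact ⟨g.trans k, by rw [img_trans]; exact (image_mono hg).trans hk⟩

lemma emb_of_sub_ca {a b : Set S} (h : a ⊆ b) : EmbA a b := ⟨Homeomorph.refl S, by simpa using h⟩

lemma emb_img_ca (g : S ≃ₜ S) (a : Set S) : EmbA a (g '' a) := ⟨g, subset_rfl⟩

lemma img_emb_ca (g : S ≃ₜ S) (a : Set S) : EmbA (g '' a) a := ⟨g.symm, (img_symm_img g a).le⟩

lemma CopA.mono {ι κ : Type*} {c a : Set S} (h : CopA ι c a) {f : κ → ι}
    (hf : Function.Injective f) : CopA κ c a :=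
  let ⟨g, h1, h2⟩ := h; ⟨fun i => g (f i), fun _ => h1 _, fun _ _ hij => h2 (hf.ne hij)⟩

lemma cop_of_emb_ca {ι : Type*} {c a : Set S} {t : ι → Set S} (h1 : ∀ i, EmbA c (t i))
    (h2 : ∀ i, t i ⊆ a) (h3 : Pairwise fun i j => Disjoint (t i) (t j)) : CopA ι c a := by
  choose g hg using h1
  exact ⟨g, fun i => (hg i).trans (h2 i), fun i j hij => (h3 hij).mono (hg i) (hg j)⟩

lemma Thin.add_ca (hS : Thin S) {ι : Type*} {A B : ι → Set S} (hA : TauSum A) (hB : TauSum B)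
    (h : ∀ i, EmbA (A i) (B i)) : EmbA (closure (⋃ i, A i)) (closure (⋃ i, B i)) := by
  choose g hg using h
  obtain ⟨k, hk⟩ := hS.glueF A (fun i => g i '' A i) (fun i => ⟨g i, rfl⟩) hA (hB.mono hg)
  exact ⟨k, by rw [img_cl, hk]; exact closure_mono (iUnion_mono hg)⟩

lemma clopIn_biUnion_ca {ι : Type*} {X : Set S} {N : ι → Set S} {s : Set ι} (hs : s.Finite)
    (h : ∀ i, ClopIn (N i) X) : ClopIn (⋃ i ∈ s, N i) X := by
  induction s, hs using Set.Finite.induction_on with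
  | empty => simpa using clopIn_empty_ca X
  | insert _ _ ih => rw [biUnion_insert]; exact (h _).union ih

lemma HWa.cw {X : Set S} (h : HWa X) : CWa X :=
  ⟨h.thin, h.cl, h.crd, h.ne, h.far, fun g _ hz => ⟨_, hz, subset_rfl, Or.inl (h.clop g)⟩⟩

lemma HWa.inter {X a b : Set S} (h : HWa X) (ha : ClA X a) (hb : ClA X b) : ClopIn (a ∩ b) a := by
  obtain ⟨g1, h1⟩ := ha
  obtain ⟨g2, h2⟩ := hb
  have h3 := (h.clop (g2.trans g1.symm)).image g1
  rw [img_inter, img_trans, img_img_symm] at h3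
  have h4 := h3.trace h1.1
  have h5 := (h2.trace (Y := g1 '' X ∩ g2 '' X ∩ a) fun x hx => hx.1.2).trans h4
  have e : b ∩ (g1 '' X ∩ g2 '' X ∩ a) = a ∩ b := by
    ext x
    exact ⟨fun hx => ⟨hx.2.2, hx.1⟩, fun hx => ⟨hx.2, ⟨h1.1 hx.1, h2.1 hx.2⟩, hx.1⟩⟩
  rwa [e] at h5

lemma HWa.sub {X a b : Set S} (h : HWa X) (ha : ClA X a) (hb : ClA X b) (hab : a ⊆ b) :
    ClopIn a b := by
  have := h.inter hb ha
  rwa [inter_eq_right.2 hab] at this

lemma HWa.near {X a b : Set S} (h : HWa X) (ha : ClA X a) (hb : ClA X b) {p : S} (hp : p ∈ a)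
    (hne : b.Nonempty) : ∃ (n : Set S) (g : S ≃ₜ S), ClopIn n a ∧ p ∈ n ∧ g '' n ⊆ b := by
  obtain ⟨q, hq⟩ := hne
  obtain ⟨g, rfl⟩ := h.thin.homog p q
  refine ⟨a ∩ g.symm '' b, g, h.inter ha (hb.image _), ⟨hp, g p, hq, by simp⟩, ?_⟩
  exact (image_mono inter_subset_right).trans (img_img_symm g b).le

variable [T1Space S] [Infinite S]

lemma HWa.clU {X a : Set S} (h : HWa X) (ha : ClA X a) {ι : Type*} {N : ι → Set S}
    (hN : ∀ i, ClA X (N i)) (hs : ∀ i, N i ⊆ a) : ClopIn (closure (⋃ i, N i)) a :=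
  (ha.ed h.cw.ed).clop (ha.closed h.cl) (opIn_iUnion_ca fun i => (h.sub (hN i) ha (hs i)).opIn_ca)

lemma HWa.tau {X a : Set S} (h : HWa X) (ha : ClA X a) {ι : Type*} {N : ι → Set S}
    (hN : ∀ i, ClA X (N i)) (hs : ∀ i, N i ⊆ a) (hd : Pairwise fun i j => Disjoint (N i) (N j)) :
    TauSum N :=
  tauSum_of_clop (fun i => h.sub (hN i) ha (hs i)) hd

/-- comparability -/
lemma HWa.cmp {X a b : Set S} (h : HWa X) (ha : ClA X a) (hb : ClA X b) : EmbA a b ∨ EmbA b a := by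
  obtain ⟨A, a1, a2, a3⟩ := exists_max_pairwise_ca
    {t : Set S × (S ≃ₜ S) | ClA X t.1 ∧ t.1 ⊆ a ∧ t.2 '' t.1 ⊆ b}
    (fun t s => Disjoint t.1 s.1 ∧ Disjoint (t.2 '' t.1) (s.2 '' s.1))
    fun _ _ h => ⟨h.1.symm, h.2.symm⟩
  have pw : ∀ i j : A, i ≠ j → Disjoint i.1.1 j.1.1 ∧ Disjoint (i.1.2 '' i.1.1) (j.1.2 '' j.1.1) :=
    fun i j hij => a2 i.2 j.2 fun e => hij (Subtype.ext e)
  have c1 := h.clU ha (fun i : A => (a1 i.2).1) fun i => (a1 i.2).2.1
  have c2 := h.clU hb (fun i : A => (a1 i.2).1.image i.1.2) fun i => (a1 i.2).2.2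
  obtain ⟨k, hk⟩ := h.thin.glueF (fun i : A => i.1.1) (fun i : A => i.1.2 '' i.1.1)
    (fun i => ⟨_, rfl⟩)
    (h.tau ha (fun i : A => (a1 i.2).1) (fun i => (a1 i.2).2.1) fun i j hij => (pw i j hij).1)
    (h.tau hb (fun i : A => (a1 i.2).1.image i.1.2) (fun i => (a1 i.2).2.2)
      fun i j hij => (pw i j hij).2)
  by_cases e1 : a ⊆ closure (⋃ i : A, i.1.1)
  · exact Or.inl ⟨k, (image_mono e1).trans (by rw [img_cl, hk]; exact c2.1)⟩
  by_cases e2 : b ⊆ closure (⋃ i : A, i.1.2 '' i.1.1)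
  · exact Or.inr ⟨k.symm, (image_mono e2).trans (by rw [← hk, ← img_cl, img_symm_img]; exact c1.1)⟩
  obtain ⟨p, hp⟩ := not_subset.1 e1
  obtain ⟨n, g, n1, n2, n3⟩ := h.near (ha.part c1.compl) (hb.part c2.compl) hp (not_subset.1 e2)
  have hd : ∀ s ∈ A, Disjoint n s.1 ∧ Disjoint (g '' n) (s.2 '' s.1) := fun s hs =>
    ⟨disjoint_left.2 fun y hy hy' => (n1.1 hy).2 (subset_closure (mem_iUnion.2 ⟨⟨s, hs⟩, hy'⟩)),
      disjoint_left.2 fun y hy hy' => (n3 hy).2 (subset_closure (mem_iUnion.2 ⟨⟨s, hs⟩, hy'⟩))⟩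
  have := (hd _ (a3 (n, g) ⟨(ha.part c1.compl).part n1, n1.1.trans sdiff_subset,
    n3.trans sdiff_subset⟩ hd)).1
  exact (disjoint_left.1 this n2 n2).elim

lemma HWa.regroup {X a c e : Set S} (h : HWa X) (ha : ClA X a) (hc : ClA X c) {ι κ : Type*}
    (hcop : CopA (κ × ι) c a) (he : ∀ t, ClA X t → CopA ι c t → EmbA e t) : CopA κ e a := by
  obtain ⟨g, g1, g2⟩ := hcop
  have c1 := fun α : κ => h.clU ha (fun β : ι => hc.image (g (α, β))) fun β => g1 _
  refine cop_of_emb_ca (t := fun α => closure (⋃ β, g (α, β) '' c)) (fun α => he _ (ha.part (c1 α))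
    ⟨fun β => g (α, β), fun β => (subset_iUnion (fun β => g (α, β) '' c) β).trans subset_closure,
      fun i j hij => g2 fun e => hij (Prod.ext_iff.1 e).2⟩) (fun α => (c1 α).1) fun i j hij => ?_
  exact ha.ed h.cw.ed _ _ (opIn_iUnion_ca fun β => (h.sub (hc.image _) ha (g1 _)).opIn_ca)
    (opIn_iUnion_ca fun β => (h.sub (hc.image _) ha (g1 _)).opIn_ca)
    (disjoint_iUnion_left.2 fun _ => disjoint_iUnion_right.2 fun _ =>
      g2 fun e => hij (Prod.ext_iff.1 e).1)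

lemma HWa.add {X a t c : Set S} (h : HWa X) (ha : ClA X a) (ht : ClA X t) (hc : ClA X c) {ι : Type*}
    {A : ι → Set S} (h1 : ∀ i, ClA X (A i)) (h2 : ∀ i, A i ⊆ a)
    (h3 : Pairwise fun i j => Disjoint (A i) (A j)) (h4 : ∀ i, EmbA (A i) c) (h5 : CopA ι c t) :
    EmbA (closure (⋃ i, A i)) t := by
  obtain ⟨k, k1, k2⟩ := h5
  exact (h.thin.add_ca (h.tau ha h1 h2 h3) (h.tau ht (fun i => hc.image (k i)) k1 k2)
    fun i => (h4 i).trans (emb_img_ca _ _)).trans
    (emb_of_sub_ca (closure_minimal (iUnion_subset k1) (ht.closed h.cl)))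

lemma HWa.pi {X a c : Set S} (h : HWa X) (ha : ClA X a) (hc : ClA X c) (hne : c.Nonempty)
    (hcop : CopA ℕ c a) : ∃ b ⊆ a, ClA X b ∧ b.Nonempty ∧ CopA ℕ b b := by
  obtain ⟨g, g1, g2⟩ := hcop
  have c1 := h.clU ha (fun n => hc.image (g n)) g1
  have s1 : ∀ n, g n '' c ⊆ closure (⋃ n, g n '' c) := fun n =>
    (subset_iUnion (fun n => g n '' c) n).trans subset_closure
  refine ⟨_, c1.1, ha.part c1, (hne.image _).mono (s1 0), h.regroup (ι := ℕ) (ha.part c1) hc
    (CopA.mono ⟨g, s1, g2⟩ Nat.pairEquiv.injective) fun t ht hct => ?_⟩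
  exact h.add ha ht hc (fun n => hc.image _) g1 g2 (fun n => img_emb_ca _ _) hct

/-- a least type -/
lemma HWa.least {X : Set S} (h : HWa X)
    (H : ∀ a, ClA X a → a.Nonempty → ∃ c, ClA X c ∧ c.Nonempty ∧ CopA ℕ c a) :
    ∃ a, ClA X a ∧ a.Nonempty ∧ ∀ c, ClA X c → c.Nonempty → EmbA a c := by
  have pi : ∀ a, ClA X a → a.Nonempty → ∃ b ⊆ a, ClA X b ∧ b.Nonempty ∧ CopA ℕ b b := by
    intro a ha hne
    obtain ⟨c, c1, c2, c3⟩ := H a ha hne
    exact h.pi ha c1 c2 c3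
  let T : Set Cardinal.{u} := {l | ∃ (a : Set S) (ι : Type u), #ι = l ∧ ClA X a ∧ a.Nonempty ∧
    CopA ℕ a a ∧ ¬ CopA ι a a}
  have hT : T.Nonempty := by
    obtain ⟨b, -, b1, ⟨p, hp⟩, b3⟩ := pi X (cl_of_clop_ca (clopIn_self X)) h.ne
    refine ⟨_, b, Set S, rfl, b1, ⟨p, hp⟩, b3, fun ⟨g, _, g2⟩ => ?_⟩
    refine Function.cantor_injective (fun i => g i p) fun i j e => by_contra fun hij => ?_
    exact disjoint_left.1 (g2 hij) (mem_image_of_mem _ hp) ⟨p, hp, e.symm⟩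
  obtain ⟨a, ι0, e, a1, a2, a3, a4⟩ := csInf_mem hT
  have hmin : ∀ b, ClA X b → b.Nonempty → CopA ℕ b b → ∀ ι : Type u, #ι < #ι0 → CopA ι b b := by
    intro b b1 b2 b3 ι hι
    by_contra hn
    exact (hι.trans_eq e).not_ge (csInf_le' ⟨b, ι, rfl, b1, b2, b3, hn⟩)
  have main : ∀ b ⊆ a, ClA X b → b.Nonempty → CopA ℕ b b → EmbA a b := by
    intro b b0 b1 b2 b3
    obtain ⟨M, m1, m2, m3⟩ := exists_max_pairwise_ca {g : S ≃ₜ S | g '' b ⊆ a}
      (fun g k => Disjoint (g '' b) (k '' b)) fun _ _ h => h.symm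
    have pw : Pairwise fun i j : M => Disjoint (i.1 '' b) (j.1 '' b) :=
      fun i j hij => m2 i.2 j.2 fun e => hij (Subtype.ext e)
    have c1 := h.clU a1 (fun i : M => b1.image i.1) fun i => m1 i.2
    have s1 : ∀ i : M, i.1 '' b ⊆ closure (⋃ i : M, i.1 '' b) := fun i =>
      (subset_iUnion (fun i : M => i.1 '' b) i).trans subset_closure
    have hr : EmbA (a \ closure (⋃ i : M, i.1 '' b)) b := by
      refine (h.cmp (a1.part c1.compl) b1).resolve_right fun ⟨g, hg⟩ => ?_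
      have hd : ∀ k ∈ M, Disjoint (g '' b) (k '' b) := fun k hk =>
        disjoint_left.2 fun y hy hy' => (hg hy).2 (s1 ⟨k, hk⟩ hy')
      obtain ⟨p, hp⟩ := b2.image g
      exact disjoint_left.1 (hd g (m3 g (hg.trans sdiff_subset) hd)) hp hp
    have key : ∀ t, ClA X t → CopA (Option M) b t → EmbA a t := by
      intro t ht hct
      refine (emb_of_sub_ca ?_).trans (h.add a1 ht b1
        (A := fun i : Option M => i.elim (a \ closure (⋃ i : M, i.1 '' b)) fun i => i.1 '' b)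
        ?_ ?_ ?_ ?_ hct)
      · intro z hz
        by_cases hz' : z ∈ closure (⋃ i : M, i.1 '' b)
        · exact closure_mono (iUnion_subset fun i y hy => mem_iUnion.2 ⟨some i, hy⟩) hz'
        · exact subset_closure (mem_iUnion.2 ⟨none, hz, hz'⟩)
      · rintro (_ | i)
        · exact a1.part c1.compl
        · exact b1.image _
      · rintro (_ | i)
        · exact sdiff_subset
        · exact m1 i.2
      · rintro (_ | i) (_ | j) hij
        · exact absurd rfl hij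
        · exact disjoint_sdiff_left.mono_right (s1 j)
        · exact disjoint_sdiff_right.mono_left (s1 i)
        · exact pw fun e => hij (by rw [e])
      · rintro (_ | i)
        · exact hr
        · exact img_emb_ca _ _
    by_cases hlt : #(Option M) < #ι0
    · exact key b b1 (hmin b b1 b2 b3 _ hlt)
    refine (a4 ?_).elim
    have hle := not_lt.1 hlt
    rcases finite_or_infinite M with hM | hM
    · obtain ⟨f⟩ := (Cardinal.le_def _ _).1 hle
      obtain ⟨f', hf'⟩ := exists_injective_nat (Option M)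
      exact a3.mono (hf'.comp f.injective)
    · have e1 : #(Option M) = #M := by
        rw [Cardinal.mk_option, Cardinal.add_one_eq (Cardinal.aleph0_le_mk M)]
      obtain ⟨φ⟩ : Nonempty (ι0 × Option M ↪ M) := (Cardinal.le_def _ _).1 (by
        rw [Cardinal.mk_prod, Cardinal.lift_id, Cardinal.lift_id, e1]
        refine (mul_le_mul_left (hle.trans e1.le) _).trans ?_
        rw [Cardinal.mul_eq_self (Cardinal.aleph0_le_mk M)])
      exact h.regroup a1 b1 (CopA.mono ⟨Subtype.val, fun i : M => m1 i.2, pw⟩ φ.injective) key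
  refine ⟨a, a1, a2, fun c c1 c2 => ?_⟩
  obtain ⟨p, hp⟩ := a2
  obtain ⟨n, g, n1, n2, n3⟩ := h.near a1 c1 hp c2
  obtain ⟨b, b0, b1, b2, b3⟩ := pi n (a1.part n1) ⟨p, n2⟩
  exact (main b (b0.trans n1.1) b1 b2 b3).trans ⟨g, (image_mono b0).trans n3⟩

lemma exists_block_ca {s : ℕ → ℕ} (hs : StrictMono s) {n : ℕ} (hn : s 0 ≤ n) :
    ∃ k, s k ≤ n ∧ n < s (k + 1) := by
  classical
  have ex : ∃ k, n < s (k + 1) := ⟨n, hs.le_apply⟩
  refine ⟨Nat.find ex, ?_, Nat.find_spec ex⟩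
  rcases hk : Nat.find ex with _ | k
  · exact hn
  · exact not_lt.1 (Nat.find_min ex (by omega))

/-- a countable sum inside a set without infinitely many disjoint copies -/
lemma HWa.blocks {X a : Set S} (h : HWa X) (ha : ClA X a)
    (H : ∀ c, ClA X c → c.Nonempty → ¬ CopA ℕ c a) {Z V : ℕ → Set S} (z1 : ∀ n, ClopIn (Z n) a)
    (z2 : Pairwise fun i j => Disjoint (Z i) (Z j)) (v1 : ∀ i, (V i).Nonempty ∧ ClA X (V i))
    (v2 : TauSum V) (v3 : IsClosed (⋃ i, V i)) : IsClosed (⋃ n, Z n) := by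
  let B : ℕ → ℕ → Set S := fun m m' => ⋃ n ∈ Ico m m', Z n
  have b1 : ∀ m m', ClopIn (B m m') a := fun m m' => clopIn_biUnion_ca (finite_Ico m m') z1
  have b2 : ∀ {s : ℕ → ℕ}, StrictMono s →
      Pairwise fun i j => Disjoint (B (s i) (s (i + 1))) (B (s j) (s (j + 1))) := by
    intro s hs i j hij
    refine disjoint_iUnion₂_left.2 fun m hm => disjoint_iUnion₂_right.2 fun n hn => z2 ?_
    rintro rfl
    rcases lt_or_gt_of_ne hij with h' | h'
    · exact (hm.2.trans_le (hs.monotone (Nat.succ_le_of_lt h'))).not_ge hn.1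
    · exact (hn.2.trans_le (hs.monotone (Nat.succ_le_of_lt h'))).not_ge hm.1
  have th : ∀ k, ∃ m, ∀ m', EmbA (B m m') (V k) := by
    intro k
    by_contra hn
    push Not at hn
    choose f hf using hn
    have lt : ∀ m, m < f m := fun m => not_le.1 fun hle => hf m (emb_of_sub_ca
      (iUnion₂_subset fun n hn => absurd (hn.1.trans_lt hn.2) (not_lt.2 hle)))
    let s : ℕ → ℕ := fun n => f^[n] 0
    have hs : ∀ n, s (n + 1) = f (s n) := fun n => Function.iterate_succ_apply' _ _ _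
    exact H _ (v1 k).2 (v1 k).1 (cop_of_emb_ca (t := fun n => B (s n) (s (n + 1)))
      (fun n => (h.cmp (v1 k).2 (ha.part (b1 _ _))).resolve_right (by rw [hs]; exact hf _))
      (fun n => (b1 _ _).1) (b2 (strictMono_nat_of_lt_succ fun n => by rw [hs]; exact lt _)))
  choose m hm using th
  let s : ℕ → ℕ := fun k => Nat.rec (m 0) (fun k r => r + m (k + 1) + 1) k
  have hs : StrictMono s := strictMono_nat_of_lt_succ fun n => by
    show s n < s n + m (n + 1) + 1
    omega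
  have hms : ∀ k, m k ≤ s k := by
    rintro (_ | k)
    · exact le_rfl
    · show m (k + 1) ≤ s k + m (k + 1) + 1
      omega
  have c1 := h.thin.host_ca (tauSum_of_clop (fun k => b1 (s k) (s (k + 1))) (b2 hs)) v2
    (fun k => (b1 _ _).isClosed_ca (ha.closed h.cl)) v3 fun k =>
      (emb_of_sub_ca (biUnion_subset_biUnion_left (Ico_subset_Ico_left (hms k)))).trans (hm k _)
  have e : (⋃ n, Z n) = B 0 (s 0) ∪ ⋃ k, B (s k) (s (k + 1)) := by
    refine Subset.antisymm (iUnion_subset fun n z hz => ?_) (union_subset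
      (iUnion₂_subset fun n _ => subset_iUnion Z n)
      (iUnion_subset fun k => iUnion₂_subset fun n _ => subset_iUnion Z n))
    rcases lt_or_ge n (s 0) with hn | hn
    · exact Or.inl (mem_biUnion (x := n) ⟨Nat.zero_le _, hn⟩ hz)
    · obtain ⟨k, hk⟩ := exists_block_ca hs hn
      exact Or.inr (mem_iUnion.2 ⟨k, mem_biUnion (x := n) hk hz⟩)
  rw [e]
  exact ((b1 _ _).isClosed_ca (ha.closed h.cl)).union c1

/-- when countable sums are closed, infinitely many disjoint parts contain copies of one part -/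
lemma HWa.copies {X a : Set S} (h : HWa X) {l : Cardinal.{u}} (hl : ℵ₀ < l) (hsm : SmA X l)
    {c : ℕ → Set S} (c1 : ∀ n, ClA X (c n)) (c2 : ∀ n, (c n).Nonempty) (c3 : ∀ n, c n ⊆ a)
    (c4 : Pairwise fun i j => Disjoint (c i) (c j)) : ∃ N, ClA X N ∧ N.Nonempty ∧ CopA ℕ N a := by
  obtain ⟨p, hp⟩ := h.ne
  choose n g n1 n2 n3 using fun i => h.near (cl_of_clop_ca (clopIn_self X)) (c1 i) hp (c2 i)
  let F : ℕ → Set S := fun i => (X \ n i) \ ⋃ j ∈ Iio i, X \ n j
  have f1 : ∀ i, ClopIn (F i) X := fun i =>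
    (n1 i).compl.diff (clopIn_biUnion_ca (finite_Iio i) fun j => (n1 j).compl)
  have f2 : ∀ i j, i < j → Disjoint (F i) (F j) := fun i j hij =>
    disjoint_left.2 fun z hz hz' => hz'.2 (mem_biUnion (x := i) hij hz.1)
  have f3 := hsm (ULift.{u} ℕ) (fun i => F i.down) (by simpa using hl) (fun i => f1 _)
    fun i j hij => by
      rcases lt_or_gt_of_ne (fun e => hij (ULift.down_injective e)) with h' | h'
      · exact f2 _ _ h'
      · exact (f2 _ _ h').symm
  have f4 := (clopIn_of_opIn_ca (opIn_iUnion_ca fun i : ULift.{u} ℕ => (f1 i.down).opIn_ca) f3).compl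
  refine ⟨_, cl_of_clop_ca f4, ⟨p, hp, fun h' => ?_⟩, cop_of_emb_ca (fun i => ⟨g i, ?_⟩) c3 c4⟩
  · obtain ⟨i, hi⟩ := mem_iUnion.1 h'
    exact hi.1.2 (n2 _)
  · refine (image_mono fun z hz => ?_).trans (n3 i)
    induction i using Nat.strong_induction_on with
    | _ i ih =>
      by_contra hn
      refine hz.2 (mem_iUnion.2 ⟨⟨i⟩, ⟨hz.1, hn⟩, fun h' => ?_⟩)
      obtain ⟨j, hj, hj'⟩ := mem_iUnion₂.1 h'
      exact hj'.2 (ih j hj)

/-- there is no homogeneous world -/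
theorem HWa.false {X : Set S} (h : HWa X) : False := by
  obtain ⟨ι, W, w1, w2, w3, w4, w5, w6⟩ := h.cw.min
  obtain ⟨V, v1, v2, v3⟩ := h.cw.host w1 w2 w3 w5 fun y hy =>
    h.dc _ (by rintro _ ⟨i, rfl⟩; exact (w1 i).1 (hy i)) ((tauSum_of_clop w1 w3).disc_ca hy)
  obtain ⟨r, r1, r2⟩ : ∃ r, r ∈ closure (⋃ i, W i) ∧ r ∉ ⋃ i, W i :=
    not_subset.1 fun h' => w4 (isClosed_of_closure_subset h')
  have hX := cl_of_clop_ca (clopIn_self X)
  have sX : (⋃ i, W i) ⊆ X := iUnion_subset fun i => (w1 i).1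
  have loc : ∀ a, ClA X a → a.Nonempty → ∃ Z : ι → Set S, (∀ i, ClopIn (Z i) a) ∧
      (Pairwise fun i j => Disjoint (Z i) (Z j)) ∧ ¬ IsClosed (⋃ i, Z i) := by
    intro a ha hne
    obtain ⟨n, g, n1, n2, n3⟩ := h.near hX ha (closure_minimal sX h.cl r1) hne
    refine ⟨fun i => g '' (W i ∩ n), fun i => h.sub ((cl_of_clop_ca ((w1 i).inter n1)).image g) ha
      ((image_mono inter_subset_right).trans n3), fun i j hij => (img_disj g).2
      ((w3 hij).mono inter_subset_left inter_subset_left), fun hc => ?_⟩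
    rw [← image_iUnion, g.isClosed_image, ← iUnion_inter] at hc
    have : r ∈ closure ((⋃ i, W i) ∩ n ∪ X \ n) := closure_mono (fun z hz => by
      by_cases hz' : z ∈ n
      · exact Or.inl ⟨hz, hz'⟩
      · exact Or.inr ⟨sX hz, hz'⟩) r1
    rw [closure_union, hc.closure_eq] at this
    exact this.elim (fun h' => r2 h'.1) (disjoint_left.1 n1.2.1 n2)
  by_cases H : ∀ a, ClA X a → a.Nonempty → ∃ c, ClA X c ∧ c.Nonempty ∧ CopA ℕ c a
  · obtain ⟨a, a1, a2, a3⟩ := h.least H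
    obtain ⟨Z, z1, z2, z3⟩ := loc a a1 a2
    exact z3 (h.thin.host_ca (tauSum_of_clop z1 z2) v2 (fun i => (z1 i).isClosed_ca (a1.closed h.cl)) v3
      fun i => (emb_of_sub_ca (z1 i).1).trans (a3 _ (v1 i).2 (v1 i).1))
  · push Not at H
    obtain ⟨a, a1, a2, a3⟩ := H
    obtain ⟨Z, z1, z2, z3⟩ := loc a a1 a2
    rcases (Cardinal.aleph0_le_mk ι).eq_or_lt with e | e
    · obtain ⟨φ⟩ : Nonempty (ℕ ≃ ι) := by
        have := Cardinal.mk_le_aleph0_iff.1 e.ge
        exact nonempty_equiv_of_countable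
      refine z3 ?_
      rw [← φ.surjective.iUnion_comp Z]
      refine h.blocks a1 a3 (fun n => z1 _) (fun i j hij => z2 (φ.injective.ne hij))
        (V := fun n => V (φ n)) (fun n => v1 _) (fun n => (v2 (φ n)).mono_right
          (closure_mono (iUnion₂_subset fun j hj => subset_biUnion_of_mem
            (u := V) (φ.injective.ne hj)))) ?_
      rwa [φ.surjective.iUnion_comp V]
    · have hi : {i | (Z i).Nonempty}.Infinite := fun hf => z3 (by
        have e2 : (⋃ i, Z i) = ⋃ i ∈ {i | (Z i).Nonempty}, Z i :=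
          Subset.antisymm (iUnion_subset fun i z hz => mem_biUnion (x := i) ⟨z, hz⟩ hz)
            (iUnion₂_subset fun i _ => subset_iUnion Z i)
        rw [e2]
        exact (clopIn_biUnion_ca hf z1).isClosed_ca (a1.closed h.cl))
      obtain ⟨N, n1, n2, n3⟩ := h.copies e w5 (c := fun n => Z (hi.natEmbedding _ n).1)
        (fun n => a1.part (z1 _)) (fun n => (hi.natEmbedding _ n).2) (fun n => (z1 _).1)
        fun i j hij => z2 fun e => hij ((hi.natEmbedding _).injective (Subtype.ext e))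
      exact a3 N n1 n2 n3

end Pool.Agent.Lib.MP_52f683_gt
end

-- part Pool.Agent.Lib.MP_52f683_gt.F.M1
section

set_option autoImplicit false
set_option linter.unusedSectionVars false

open Set Topology Filter

namespace Pool.Agent.Lib.MP_52f683_gt

variable {S : Type*} [TopologicalSpace S] [T1Space S] [Infinite S]

/-- discrete sets of the same size are equivalent -/
lemma Thin.m1_eqv (hS : Thin S) {A B : Set S} (hA : Disc A) (hB : Disc B)
    (h : Cardinal.mk A = Cardinal.mk B) : Eqv A B := by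
  have := discreteTopology_of_noAccPts (E := A) fun x hx h => disjoint_left.1 hA hx h
  have := discreteTopology_of_noAccPts (E := B) fun x hx h => disjoint_left.1 hB hx h
  obtain ⟨e⟩ := Cardinal.eq.1 h
  exact hS A B ⟨e.toHomeomorphOfDiscrete⟩

lemma m1_ne_univ {A F : Set S} (h : A ⊆ F) (hF : F ≠ univ) : A ≠ univ :=
  fun e => hF (eq_univ_of_univ_subset (e ▸ h))

/-- a member through one point that misses another -/
lemma CB.m1_pair (hS : CB S) {x y : S} (h : x ≠ y) : ∃ M, Mem M ∧ x ∈ M ∧ y ∉ M := by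
  obtain ⟨K, hK⟩ := hS.exists_mem
  obtain ⟨U, V, hU, hV, ⟨u, hu⟩, ⟨v, hv⟩, hd⟩ := hS.reducible hK
  have m1 := mem_of_crd (hK.crd.inter_open hU) ⟨u, hu⟩ hK.cl hK.sm inter_subset_left
  have m2 := mem_of_crd (hK.crd.inter_open hV) ⟨v, hv⟩ hK.cl hK.sm inter_subset_left
  have a1 : v ∉ closure (K ∩ U) := disjoint_right.1 (hd.closure_left hV) hv.2
  have a2 : u ∉ closure (K ∩ V) := disjoint_right.1 (Disjoint.closure_left (s := K ∩ V)
    (disjoint_left.2 fun z hz hz' => disjoint_left.1 hd ⟨hz.1, hz'⟩ hz.2) hU) hu.2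
  obtain ⟨g, ⟨rfl, rfl⟩ | ⟨rfl, rfl⟩⟩ := hS.thin.pair (a := u) (b := v)
    (fun e => a1 (e ▸ subset_closure hu)) h
  · exact ⟨_, m1.image g, mem_image_of_mem _ (subset_closure hu), fun k => a1 ((mem_img g).1 k)⟩
  · exact ⟨_, m2.image g, mem_image_of_mem _ (subset_closure hv), fun k => a2 ((mem_img g).1 k)⟩

lemma LFin.m1_inter (hL : LFin (univ : Set S)) {M M' : Set S} {x : S} (h : Mem M) (h' : Mem M')
    (hx : x ∈ M) (hx' : x ∈ M') : Mem (M ∩ M') :=
  ⟨h.cl.inter h'.cl, hL _ _ h h' (subset_univ _) (subset_univ _), ⟨x, hx, hx'⟩,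
    m1_ne_univ inter_subset_left h.sm⟩

/-- points isolated in a set by a member -/
def m1Good (E : Set S) : Set S := {y | y ∈ E ∧ ∃ M, Mem M ∧ y ∈ M ∧ M ∩ E ⊆ {y}}

lemma m1_good_img (E : Set S) (h : S ≃ₜ S) : h '' m1Good E ⊆ m1Good (h '' E) := by
  rintro _ ⟨y, ⟨hy, M, a, b, c⟩, rfl⟩
  refine ⟨mem_image_of_mem _ hy, h '' M, a.image h, mem_image_of_mem _ b, ?_⟩
  rw [← img_inter, ← image_singleton]
  exact image_mono c

lemma m1_good_mono {E E' : Set S} (h : E' ⊆ E) {y : S} (hy : y ∈ m1Good E) (hy' : y ∈ E') :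
    y ∈ m1Good E' :=
  let ⟨_, M, a, b, c⟩ := hy
  ⟨hy', M, a, b, (inter_subset_inter_right _ h).trans c⟩

section
variable (hS : CB S) (hL : LFin (univ : Set S))
include hS hL

lemma CB.m1_fin {D : Set S} (hD : D.Finite) {x : S} :
    ∃ M, Mem M ∧ x ∈ M ∧ M ∩ D ⊆ {x} := by
  induction D, hD using Set.Finite.induction_on with
  | empty =>
    obtain ⟨y, hy⟩ := exists_ne x
    obtain ⟨M, a, b, -⟩ := hS.m1_pair hy.symm
    exact ⟨M, a, b, by simp⟩
  | @insert y D _ _ ih =>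
    obtain ⟨M, a, b, c⟩ := ih
    by_cases e : x = y
    · refine ⟨M, a, b, ?_⟩
      rintro z ⟨h1, rfl | h2⟩
      exacts [e.symm, c ⟨h1, h2⟩]
    obtain ⟨M', a', b', c'⟩ := hS.m1_pair e
    refine ⟨M ∩ M', hL.m1_inter a a' b b', ⟨b, b'⟩, ?_⟩
    rintro z ⟨h1, rfl | h2⟩
    exacts [absurd h1.2 c', c ⟨h1.1, h2⟩]

lemma CB.m1_all (κ : Cardinal) : ∀ E : Set S, Cardinal.mk E = κ → Disc E →
    (m1Good E).Nonempty → E ⊆ m1Good E := by
  induction κ using WellFoundedLT.induction with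
  | ind κ ih =>
  intro E hκ hE hne
  by_cases hf : E.Finite
  · exact fun x hx => ⟨hx, hS.m1_fin hL hf⟩
  have s : m1Good E ⊆ E := fun _ hy => hy.1
  have hi : Cardinal.aleph0 ≤ Cardinal.mk E := Cardinal.infinite_iff.1 (Set.Infinite.to_subtype hf)
  rcases (Cardinal.mk_le_mk_of_subset s).eq_or_lt with e | e
  · obtain ⟨g, hg⟩ := hS.thin.m1_eqv (hE.mono s) hE e
    have := (image_mono fun y hy => m1_good_mono s hy hy).trans (m1_good_img (m1Good E) g)
    rwa [hg] at this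
  exfalso
  have e1 : Cardinal.mk (E \ m1Good E : Set S) = Cardinal.mk E := by
    refine (Cardinal.mk_le_mk_of_subset sdiff_subset).antisymm (not_lt.1 fun k => ?_)
    have := Cardinal.add_lt_of_lt hi k e
    rw [Cardinal.mk_diff_add_mk s] at this
    exact lt_irrefl _ this
  obtain ⟨g, hg⟩ := hS.thin.m1_eqv hE (hE.mono sdiff_subset) e1.symm
  obtain ⟨y, hy⟩ := hne
  have h1 := m1_good_img E g (mem_image_of_mem g hy)
  rw [hg] at h1
  generalize g y = x at h1
  obtain ⟨⟨hx, hx'⟩, M, a, b, c⟩ := h1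
  have s2 : insert x (m1Good E) ⊆ E := insert_subset hx s
  have e2 : Cardinal.mk (insert x (m1Good E) : Set S) < κ := by
    rw [← hκ]
    exact (Cardinal.mk_insert_le).trans_lt
      (Cardinal.add_lt_of_lt hi e (Cardinal.one_lt_aleph0.trans_le hi))
  obtain ⟨-, M', a', b', c'⟩ := ih _ e2 _ rfl (hE.mono s2)
    ⟨y, m1_good_mono s2 hy (Or.inr hy)⟩ (mem_insert x _)
  refine hx' ⟨hx, M ∩ M', hL.m1_inter a a' b b', ⟨b, b'⟩, fun z hz => ?_⟩
  by_cases k : z ∈ m1Good E
  exacts [c' ⟨hz.1.2, Or.inr k⟩, c ⟨hz.1.1, hz.2, k⟩]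

/-- a discrete set off some member is missed by a member through any other point -/
theorem CB.mi (D n : Set S) (x : S) (hD : Disc D) (hn : Mem n) (hd : Disjoint D n) (hx : x ∉ D) :
    ∃ M, Mem M ∧ x ∈ M ∧ Disjoint M D := by
  obtain ⟨z, hz⟩ := hn.ne
  have hzD : z ∉ D := disjoint_right.1 hd hz
  have d1 : ∀ w : S, Disc (insert w D) := fun w => by
    rw [insert_eq]; exact hS.disc_union (disc_single w) hD
  have g1 : z ∈ m1Good (insert z D) := by
    refine ⟨mem_insert _ _, n, hn, hz, ?_⟩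
    rintro w ⟨h1, rfl | h2⟩
    exacts [rfl, absurd h1 (disjoint_left.1 hd h2)]
  obtain ⟨g, hg⟩ := hS.thin.m1_eqv (d1 z) (d1 x)
    (by rw [Cardinal.mk_insert hzD, Cardinal.mk_insert hx])
  have g2 := m1_good_img _ g (mem_image_of_mem g g1)
  rw [hg] at g2
  obtain ⟨-, M, a, b, c⟩ := hS.m1_all hL _ _ rfl (d1 x) ⟨_, g2⟩ (mem_insert x D)
  refine ⟨M, a, b, disjoint_left.2 fun w h1 h2 => hx ?_⟩
  have : w = x := c ⟨h1, Or.inr h2⟩
  exact this ▸ h2

/-- a member through a point whose trace on a crowded closed set lies in a given member -/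
theorem CB.h1 {b F : Set S} {x : S} (hb : Mem b) (hF : IsClosed F) (hF1 : Crd F) (hF' : F ≠ univ)
    (hx : x ∉ F) : ∃ c, Mem c ∧ x ∈ c ∧ c ∩ F ⊆ b := by
  by_cases hxb : x ∈ b
  · exact ⟨b, hb, hxb, inter_subset_left⟩
  obtain ⟨y, hy⟩ := hb.ne
  obtain ⟨m, hm, hxm, hym⟩ := hS.m1_pair (x := x) (y := y) fun e => hxb (e ▸ hy)
  have hA : Crd ((F ∩ m) \ b) := (hL.crd hF hF1 hF' hm.cl hm.crd hm.sm (subset_univ _)
    (subset_univ _)).diff_closed hb.cl
  have hcl : closure ((F ∩ m) \ b) ⊆ F ∩ m := closure_minimal sdiff_subset (hF.inter hm.cl)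
  obtain ⟨k, hkA, hky⟩ := hS.move_pt (x := y) (y := x) hA (fun h => hym (hcl h).2)
    fun h => hx (hcl h).1
  have hxk : x ∈ k '' b := ⟨y, hy, hky⟩
  refine ⟨k '' b ∩ m, hL.m1_inter (hb.image k) hm hxk hxm, ⟨hxk, hxm⟩, ?_⟩
  rintro z ⟨⟨hz1, hz2⟩, hz3⟩
  by_contra hzb
  obtain ⟨a, ha, rfl⟩ : z ∈ k '' ((F ∩ m) \ b) := hkA.symm ▸ ⟨⟨hz3, hz2⟩, hzb⟩
  exact ha.2 ((mem_img k).1 hz1)

end

end Pool.Agent.Lib.MP_52f683_gt
end
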