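import Pool.Agent.Lib.MP_52f683_gt.Irred

-- part Pool.Agent.Lib.MP_52f683_gt.CS.Defs
section

set_option autoImplicit false
set_option linter.unusedSectionVars false

open Set Topology Filter

namespace Pool.Agent.Lib.MP_52f683_gt

variable {S : Type*} [TopologicalSpace S]

/-- discrete subsets -/
def Disc (D : Set S) : Prop := Disjoint D (derivedSet D)

/-- crowded subsets -/
def Crd (A : Set S) : Prop := A ⊆ derivedSet A

/-- members: nonempty crowded closed proper subsets -/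
structure Mem (K : Set S) : Prop where
  cl : IsClosed K
  crd : Crd K
  ne : K.Nonempty
  sm : K ≠ univ

/-- `C` is nowhere dense in `K` -/
def Nwd (C K : Set S) : Prop := K ⊆ closure (K \ C)

/-- remainder -/
def Rem (A : Set S) : Set S := closure A \ A

/-- points where the set is not locally closed -/
def NLC (A : Set S) : Set S := A ∩ closure (Rem A)

/-- isolated points -/
def Iso (A : Set S) : Set S := A \ derivedSet A

/-- clopen parts -/
def ClopIn (N X : Set S) : Prop := N ⊆ X ∧ Sp N (X \ N)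

/-- each set of the family is open in the union -/
def TauSum {ι : Type*} (X : ι → Set S) : Prop :=
  ∀ i, Disjoint (X i) (closure (⋃ j ∈ ({i}ᶜ : Set ι), X j))

/-- members inside `Z` meet in crowded sets -/
def LFin (Z : Set S) : Prop :=
  ∀ a b : Set S, Mem a → Mem b → a ⊆ Z → b ⊆ Z → Crd (a ∩ b)

/-- the difference of a member and a crowded closed proper set -/
structure Whole (X c m : Set S) : Prop where
  mem : Mem c
  cl : IsClosed m
  crd : Crd m
  sm : m ≠ univ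
  eq : X = c \ m
  ne : X.Nonempty

/-- clopen parts decrease to the point -/
def Sharp (X : Set S) (x : S) : Prop :=
  ∃ V : ℕ → Set S, (∀ n, ClopIn (V n) X ∧ x ∈ V n) ∧ Antitone V ∧ ⋂ n, V n = {x}

/-- quasi-component -/
def QC (X : Set S) (x : S) : Set S := {y | y ∈ X ∧ ∀ N, ClopIn N X → x ∈ N → y ∈ N}

/-- a clopen part around `x` embeds in `X` with `x` going to `y` -/
def Below (X : Set S) (x y : S) : Prop :=
  ∃ (g : S ≃ₜ S) (N : Set S), ClopIn N X ∧ x ∈ N ∧ g x = y ∧ g '' N ⊆ X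

/-- members without nowhere dense crowded closed subsets -/
def Nodec (K : Set S) : Prop := Mem K ∧ ∀ C : Set S, IsClosed C → C ⊆ K → Nwd C K → Disc C

/-- a point of a member has a neighbourhood whose closure misses a given discrete set -/
def HasR (S : Type*) [TopologicalSpace S] : Prop :=
  ∀ (K D : Set S) (x : S), Mem K → Disc D → x ∉ D →
    ∃ W : Set S, IsOpen W ∧ x ∈ W ∧ Disjoint (closure (K ∩ W)) D

/-- absorber data -/
structure World (n b : Set S) : Prop where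
  cln : IsClosed n
  crn : Crd n
  sm : n ≠ univ
  clb : IsClosed b
  crb : Crd b
  sub : b ⊆ n
  nwd : Nwd b n

/-- thin spaces all of whose discrete subsets are countable -/
structure Ctx (S : Type*) [TopologicalSpace S] : Prop where
  thin : Thin S
  cs : ∀ D : Set S, Disc D → D.Countable

end Pool.Agent.Lib.MP_52f683_gt
end

-- part Pool.Agent.Lib.MP_52f683_gt.CS.Basic
section

set_option autoImplicit false
set_option linter.unusedSectionVars false

open Set Topology Filter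

namespace Pool.Agent.Lib.MP_52f683_gt

variable {S : Type*} [TopologicalSpace S]

lemma cl_inter_open {A W : Set S} {x : S} (hW : IsOpen W) (hx : x ∈ W) (h : x ∈ closure A) :
    x ∈ closure (A ∩ W) := by
  rw [inter_comm]; exact hW.inter_closure ⟨hx, h⟩

lemma cl_diff_closed {A F : Set S} {x : S} (hF : IsClosed F) (hx : x ∉ F) (h : x ∈ closure A) :
    x ∈ closure (A \ F) := cl_inter_open hF.isOpen_compl hx h

lemma img_rem (h : S ≃ₜ S) (A : Set S) : h '' Rem A = Rem (h '' A) := by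
  unfold Rem; rw [img_diff, img_cl]

lemma img_nlc (h : S ≃ₜ S) (A : Set S) : h '' NLC A = NLC (h '' A) := by
  unfold NLC; rw [img_inter, img_cl, img_rem]

lemma img_iso (h : S ≃ₜ S) (A : Set S) : h '' Iso A = Iso (h '' A) := by
  unfold Iso; rw [img_diff, img_der]

lemma img_symm_img (h : S ≃ₜ S) (A : Set S) : h.symm '' (h '' A) = A := by
  simp [image_image]

lemma img_img_symm (h : S ≃ₜ S) (A : Set S) : h '' (h.symm '' A) = A := by
  simp [image_image]

lemma img_trans (h k : S ≃ₜ S) (A : Set S) : (h.trans k) '' A = k '' (h '' A) := by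
  rw [image_image]; rfl

lemma img_disj (h : S ≃ₜ S) {A B : Set S} : Disjoint (h '' A) (h '' B) ↔ Disjoint A B :=
  disjoint_image_iff h.injective

lemma img_sub (h : S ≃ₜ S) {A B : Set S} : h '' A ⊆ h '' B ↔ A ⊆ B :=
  image_subset_image_iff h.injective

lemma img_ne_univ (h : S ≃ₜ S) {A : Set S} (hA : A ≠ univ) : h '' A ≠ univ := fun e =>
  hA (by rw [← img_symm_img h A, e, image_univ, h.symm.surjective.range_eq])

lemma Eqv.symm {A B : Set S} (h : Eqv A B) : Eqv B A := by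
  obtain ⟨h, rfl⟩ := h; exact ⟨h.symm, img_symm_img h A⟩

lemma Eqv.trans {A B C : Set S} (h : Eqv A B) (h' : Eqv B C) : Eqv A C := by
  obtain ⟨h, rfl⟩ := h; obtain ⟨k, rfl⟩ := h'; exact ⟨h.trans k, img_trans h k A⟩

lemma Sp.mono {A B A' B' : Set S} (h : Sp A B) (hA : A' ⊆ A) (hB : B' ⊆ B) : Sp A' B' :=
  ⟨h.1.mono hA (closure_mono hB), h.2.mono hB (closure_mono hA)⟩

lemma Sp.image {A B : Set S} (h : Sp A B) (g : S ≃ₜ S) : Sp (g '' A) (g '' B) :=
  ⟨by rw [← img_cl]; exact (img_disj g).2 h.1, by rw [← img_cl]; exact (img_disj g).2 h.2⟩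

lemma Sp.union_left {A A' B : Set S} (h : Sp A B) (h' : Sp A' B) : Sp (A ∪ A') B :=
  ⟨disjoint_union_left.2 ⟨h.1, h'.1⟩, by
    rw [closure_union]; exact disjoint_union_right.2 ⟨h.2, h'.2⟩⟩

lemma Sp.union_right {A B B' : Set S} (h : Sp A B) (h' : Sp A B') : Sp A (B ∪ B') :=
  (h.symm.union_left h'.symm).symm

lemma Sp.disj {A B : Set S} (h : Sp A B) : Disjoint A B := h.1.mono_right subset_closure

/-- separation from two closed sets -/
lemma sp_of_closed {A B F G : Set S} (hF : IsClosed F) (hG : IsClosed G) (hA : A ⊆ F) (hB : B ⊆ G)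
    (h1 : Disjoint A G) (h2 : Disjoint B F) : Sp A B :=
  ⟨h1.mono_right (closure_minimal hB hG), h2.mono_right (closure_minimal hA hF)⟩

lemma rem_union {A B : Set S} (h : Sp A B) : Rem (A ∪ B) = Rem A ∪ Rem B := by
  ext x
  simp only [Rem, closure_union, Set.mem_sdiff, mem_union, not_or]
  constructor
  · rintro ⟨h1 | h1, h2, h3⟩
    · exact Or.inl ⟨h1, h2⟩
    · exact Or.inr ⟨h1, h3⟩
  · rintro (⟨h1, h2⟩ | ⟨h1, h2⟩)
    · exact ⟨Or.inl h1, h2, fun h3 => disjoint_left.1 h.2 h3 h1⟩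
    · exact ⟨Or.inr h1, fun h3 => disjoint_left.1 h.1 h3 h1, h2⟩

lemma cl_rem_sub (A : Set S) : closure (Rem A) ⊆ closure A :=
  closure_minimal sdiff_subset isClosed_closure

lemma nlc_union {A B : Set S} (h : Sp A B) : NLC (A ∪ B) = NLC A ∪ NLC B := by
  ext x
  simp only [NLC, rem_union h, closure_union, mem_inter_iff, mem_union]
  constructor
  · rintro ⟨h1 | h1, h2 | h2⟩
    · exact Or.inl ⟨h1, h2⟩
    · exact absurd (cl_rem_sub B h2) (disjoint_left.1 h.1 h1)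
    · exact absurd (cl_rem_sub A h2) (disjoint_left.1 h.2 h1)
    · exact Or.inr ⟨h1, h2⟩
  · rintro (⟨h1, h2⟩ | ⟨h1, h2⟩)
    · exact ⟨Or.inl h1, Or.inl h2⟩
    · exact ⟨Or.inr h1, Or.inr h2⟩

lemma nlc_sub (A : Set S) : NLC A ⊆ A := inter_subset_left

lemma Disc.mono {A B : Set S} (h : Disc A) (hB : B ⊆ A) : Disc B :=
  Disjoint.mono hB (der_mono hB) h

lemma Disc.image {A : Set S} (h : Disc A) (g : S ≃ₜ S) : Disc (g '' A) := by
  unfold Disc; rw [← img_der]; exact (img_disj g).2 h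

lemma disc_empty : Disc (∅ : Set S) := by simp [Disc]

lemma disc_iso (A : Set S) : Disc (Iso A) :=
  disjoint_left.2 fun _ hx hx' => hx.2 (der_mono sdiff_subset hx')

lemma CD.disc {A : Set S} (h : CD A) : Disc A := h.dsc

lemma Crd.image {A : Set S} (h : Crd A) (g : S ≃ₜ S) : Crd (g '' A) := by
  unfold Crd; rw [← img_der]; exact image_mono h

lemma Crd.union {A B : Set S} (h : Crd A) (h' : Crd B) : Crd (A ∪ B) :=
  union_subset (h.trans (der_mono subset_union_left)) (h'.trans (der_mono subset_union_right))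

lemma crd_empty : Crd (∅ : Set S) := empty_subset _

lemma crd_iUnion {ι : Sort*} {A : ι → Set S} (h : ∀ i, Crd (A i)) : Crd (⋃ i, A i) :=
  iUnion_subset fun i => (h i).trans (der_mono (subset_iUnion A i))

lemma Mem.image {K : Set S} (h : Mem K) (g : S ≃ₜ S) : Mem (g '' K) :=
  ⟨g.isClosed_image.2 h.cl, h.crd.image g, h.ne.image _, img_ne_univ g h.sm⟩

lemma Nwd.image {C K : Set S} (h : Nwd C K) (g : S ≃ₜ S) : Nwd (g '' C) (g '' K) := by
  unfold Nwd; rw [← img_diff, ← img_cl]; exact image_mono h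

lemma Nwd.mono {C C' K : Set S} (h : Nwd C K) (hC : C' ⊆ C) : Nwd C' K :=
  h.trans (closure_mono (sdiff_subset_sdiff_right hC))

/-- enlarging the big set keeps nowhere density -/
lemma Nwd.union_right {C K L : Set S} (h : Nwd C K) (hC : C ⊆ K) : Nwd C (K ∪ L) := by
  intro x hx
  by_cases hxC : x ∈ C
  · exact closure_mono (sdiff_subset_sdiff_left subset_union_left) (h (hC hxC))
  · exact subset_closure ⟨hx, hxC⟩

lemma Nwd.union {C C' K : Set S} (h : Nwd C K) (h' : Nwd C' K) (hC : IsClosed C) :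
    Nwd (C ∪ C') K := by
  refine h.trans (closure_minimal (fun y hy => ?_) isClosed_closure)
  have := cl_diff_closed hC hy.2 (h' hy.1)
  rwa [sdiff_sdiff, union_comm] at this

lemma ClopIn.sub {N X : Set S} (h : ClopIn N X) : N ⊆ X := h.1

lemma clopIn_self (X : Set S) : ClopIn X X := ⟨subset_rfl, by simp [Sp]⟩

lemma ClopIn.compl {N X : Set S} (h : ClopIn N X) : ClopIn (X \ N) X :=
  ⟨sdiff_subset, by rw [sdiff_sdiff_right_self, inter_eq_right.2 h.1]; exact h.2.symm⟩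

lemma ClopIn.inter {N N' X : Set S} (h : ClopIn N X) (h' : ClopIn N' X) : ClopIn (N ∩ N') X := by
  refine ⟨inter_subset_left.trans h.1, ?_⟩
  rw [sdiff_inter]
  exact (h.2.mono inter_subset_left subset_rfl).union_right (h'.2.mono inter_subset_right subset_rfl)

lemma ClopIn.diff {N N' X : Set S} (h : ClopIn N X) (h' : ClopIn N' X) : ClopIn (N \ N') X := by
  have : N \ N' = N ∩ (X \ N') := by
    ext x; exact ⟨fun hx => ⟨hx.1, h.1 hx.1, hx.2⟩, fun hx => ⟨hx.1, hx.2.2⟩⟩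
  rw [this]; exact h.inter h'.compl

lemma ClopIn.union {N N' X : Set S} (h : ClopIn N X) (h' : ClopIn N' X) : ClopIn (N ∪ N') X := by
  refine ⟨union_subset h.1 h'.1, ?_⟩
  exact (h.2.mono subset_rfl (sdiff_subset_sdiff_right subset_union_left)).union_left
    (h'.2.mono subset_rfl (sdiff_subset_sdiff_right subset_union_right))

lemma ClopIn.image {N X : Set S} (h : ClopIn N X) (g : S ≃ₜ S) : ClopIn (g '' N) (g '' X) :=
  ⟨image_mono h.1, by rw [← img_diff]; exact h.2.image g⟩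

/-- trace on a subset -/
lemma ClopIn.trace {N X Y : Set S} (h : ClopIn N X) (hY : Y ⊆ X) : ClopIn (N ∩ Y) Y :=
  ⟨inter_subset_right, h.2.mono inter_subset_left fun _ hx => ⟨hY hx.1, fun h' => hx.2 ⟨h', hx.1⟩⟩⟩

lemma ClopIn.trans {N M X : Set S} (h : ClopIn N M) (h' : ClopIn M X) : ClopIn N X := by
  refine ⟨h.1.trans h'.1, ?_⟩
  have : X \ N ⊆ (M \ N) ∪ (X \ M) := fun x hx => by
    by_cases hm : x ∈ M
    · exact Or.inl ⟨hm, hx.2⟩
    · exact Or.inr ⟨hx.1, hm⟩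
  exact (h.2.union_right (h'.2.mono h.1 subset_rfl)).mono subset_rfl this

lemma clopIn_of_sp {A B : Set S} (h : Sp A B) : ClopIn A (A ∪ B) :=
  ⟨subset_union_left, h.mono subset_rfl fun _ hx => hx.1.resolve_left hx.2⟩

lemma ClopIn.closed {N X : Set S} (h : ClopIn N X) : closure N ∩ X ⊆ N := fun x hx => by
  by_contra hn; exact disjoint_left.1 h.2.2 ⟨hx.2, hn⟩ hx.1

lemma ClopIn.open_eq {N X : Set S} (h : ClopIn N X) : N = X ∩ (closure (X \ N))ᶜ := by
  ext x
  exact ⟨fun hx => ⟨h.1 hx, disjoint_left.1 h.2.1 hx⟩,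
    fun hx => by by_contra hn; exact hx.2 (subset_closure ⟨hx.1, hn⟩)⟩

lemma LFin.mono {Z Z' : Set S} (h : LFin Z) (hZ : Z' ⊆ Z) : LFin Z' :=
  fun a b ha hb h1 h2 => h a b ha hb (h1.trans hZ) (h2.trans hZ)

lemma tauSum_of_clop {ι : Type*} {X : Set S} {N : ι → Set S} (h : ∀ i, ClopIn (N i) X)
    (hd : Pairwise fun i j => Disjoint (N i) (N j)) : TauSum N := fun i =>
  (h i).2.1.mono_right (closure_mono (iUnion₂_subset fun j hj y hx =>
    (Set.mem_sdiff y).2 ⟨(h j).1 hx, fun hx' => disjoint_left.1 (hd (Ne.symm hj)) hx' hx⟩))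

lemma TauSum.mono {ι : Type*} {X Y : ι → Set S} (h : TauSum X) (hY : ∀ i, Y i ⊆ X i) : TauSum Y :=
  fun i => (h i).mono (hY i) (closure_mono (iUnion₂_mono fun j _ => hY j))

variable [T1Space S]

lemma der_inter_open {A W : Set S} {x : S} (hW : IsOpen W) (hx : x ∈ W) (h : x ∈ derivedSet A) :
    x ∈ derivedSet (A ∩ W) := by
  simpa using der_diff (B := Wᶜ) h fun h' => der_sub_closed hW.isClosed_compl subset_rfl h' hx

lemma der_diff_closed {A F : Set S} {x : S} (hF : IsClosed F) (hx : x ∉ F) (h : x ∈ derivedSet A) :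
    x ∈ derivedSet (A \ F) := der_inter_open hF.isOpen_compl hx h

lemma Crd.inter_open {A W : Set S} (h : Crd A) (hW : IsOpen W) : Crd (A ∩ W) :=
  fun _ hx => der_inter_open hW hx.2 (h hx.1)

lemma Crd.diff_closed {A F : Set S} (h : Crd A) (hF : IsClosed F) : Crd (A \ F) :=
  h.inter_open hF.isOpen_compl

lemma Crd.closure {A : Set S} (h : Crd A) : Crd (closure A) := by
  unfold Crd; rw [derivedSet_closure, closure_eq_self_union_derivedSet]
  exact union_subset h subset_rfl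

lemma Crd.clop {N X : Set S} (h : Crd X) (hN : ClopIn N X) : Crd N := by
  rw [hN.open_eq]; exact h.inter_open isClosed_closure.isOpen_compl

lemma Crd.inf {A : Set S} (h : Crd A) (hne : A.Nonempty) : A.Infinite :=
  let ⟨_, hx⟩ := hne; inf_of_der (h hx)

lemma Crd.not_disc {A : Set S} (h : Crd A) (hne : A.Nonempty) : ¬ Disc A := fun hd =>
  let ⟨_, hx⟩ := hne; disjoint_left.1 hd hx (h hx)

lemma disc_finite {A : Set S} (h : A.Finite) : Disc A := by simp [Disc, der_finite h]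

lemma disc_single (x : S) : Disc ({x} : Set S) := disc_finite (finite_singleton x)

lemma mem_cl_diff_single {A : Set S} {x : S} (h : x ∈ derivedSet A) : x ∈ closure (A \ {x}) :=
  der_sub_cl (der_diff h (by simp [der_finite (finite_singleton x)]))

lemma mem_of_crd {A : Set S} (h : Crd A) (hne : A.Nonempty) {F : Set S} (hF : IsClosed F)
    (hF' : F ≠ univ) (hA : A ⊆ F) : Mem (closure A) :=
  ⟨isClosed_closure, h.closure, hne.mono subset_closure,
    fun e => hF' (eq_univ_of_univ_subset (e ▸ closure_minimal hA hF))⟩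

lemma Whole.crdX {X c m : Set S} (h : Whole X c m) : Crd X := by
  rw [h.eq]; exact h.mem.crd.diff_closed h.cl

lemma Whole.sub {X c m : Set S} (h : Whole X c m) : X ⊆ c := by rw [h.eq]; exact sdiff_subset

lemma Whole.image {X c m : Set S} (h : Whole X c m) (g : S ≃ₜ S) :
    Whole (g '' X) (g '' c) (g '' m) :=
  ⟨h.mem.image g, g.isClosed_image.2 h.cl, h.crd.image g, img_ne_univ g h.sm,
    by rw [h.eq, img_diff], h.ne.image _⟩

/-- the remainder of a clopen part of a whole set -/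
lemma Whole.rem_eq {X c m N : Set S} (h : Whole X c m) (hN : ClopIn N X) :
    Rem N = closure N ∩ m := by
  ext x
  constructor
  · rintro ⟨h1, h2⟩
    refine ⟨h1, by_contra fun h3 => h2 (hN.closed ⟨h1, ?_⟩)⟩
    rw [h.eq]; exact ⟨closure_minimal (hN.1.trans h.sub) h.mem.cl h1, h3⟩
  · rintro ⟨h1, h2⟩
    exact ⟨h1, fun h3 => by have := hN.1 h3; rw [h.eq] at this; exact this.2 h2⟩

lemma LFin.crd {Z a b : Set S} (h : LFin Z) (ha : IsClosed a) (ha' : Crd a) (hs : a ≠ univ)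
    (hb : IsClosed b) (hb' : Crd b) (hs' : b ≠ univ) (h1 : a ⊆ Z) (h2 : b ⊆ Z) : Crd (a ∩ b) := by
  rcases (a ∩ b).eq_empty_or_nonempty with e | ⟨x, hx⟩
  · rw [e]; exact crd_empty
  · exact h a b ⟨ha, ha', ⟨x, hx.1⟩, hs⟩ ⟨hb, hb', ⟨x, hx.2⟩, hs'⟩ h1 h2

lemma Whole.rem_crd {X c m N : Set S} (h : Whole X c m) (hL : LFin (c ∪ m)) (hN : ClopIn N X) :
    Crd (Rem N) := by
  rw [h.rem_eq hN]
  have hs : closure N ⊆ c := closure_minimal (hN.1.trans h.sub) h.mem.cl
  exact hL.crd isClosed_closure (h.crdX.clop hN).closure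
    (fun e => h.mem.sm (eq_univ_of_univ_subset (e ▸ hs))) h.cl h.crd h.sm
    (hs.trans subset_union_left) subset_union_right

/-- an isolated remainder point is not in the closure of a separated crowded set -/
lemma LFin.iso_not {Z A B : Set S} (h : LFin Z) (hZ : IsClosed Z) (hs : Z ≠ univ) (hA : Crd A)
    (hB : Crd B) (h1 : A ⊆ Z) (h2 : B ⊆ Z) (hsp : Sp A B) {e : S} (he : e ∈ Iso (Rem A)) :
    e ∉ closure B := fun he' => by
  have c1 := closure_minimal h1 hZ
  have c2 := closure_minimal h2 hZ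
  have := h.crd isClosed_closure hA.closure (fun e => hs (eq_univ_of_univ_subset (e ▸ c1)))
    isClosed_closure hB.closure (fun e => hs (eq_univ_of_univ_subset (e ▸ c2))) c1 c2 ⟨he.1.1, he'⟩
  exact he.2 (der_mono (fun y hy =>
    (Set.mem_sdiff y).2 ⟨hy.1, fun hy' => disjoint_left.1 hsp.1 hy' hy.2⟩) this)

variable [Infinite S]

lemma Ctx.der_disc (hS : Ctx S) {D : Set S} (h : Disc D) : derivedSet D = ∅ := by
  by_cases hf : D.Finite
  · exact der_finite hf
  · exact hS.thin.der_empty ⟨hf, hS.cs D h, h⟩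

lemma Ctx.cd (hS : Ctx S) {D : Set S} (h : Disc D) (hi : D.Infinite) : CD D := ⟨hi, hS.cs D h, h⟩

lemma Ctx.closed (hS : Ctx S) {D : Set S} (h : Disc D) : IsClosed D := by
  rw [isClosed_iff_derivedSet_subset, hS.der_disc h]; exact empty_subset _

lemma Ctx.not_der (hS : Ctx S) {D : Set S} (h : Disc D) (x : S) : x ∉ derivedSet D := by
  rw [hS.der_disc h]; exact id

lemma Ctx.disc_union (hS : Ctx S) {D E : Set S} (h : Disc D) (h' : Disc E) : Disc (D ∪ E) := by
  unfold Disc; rw [derivedSet_union, hS.der_disc h, hS.der_disc h']; simp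

lemma Ctx.disc_ne (hS : Ctx S) {D : Set S} (h : Disc D) : D ≠ univ := fun e => by
  obtain ⟨E, -, hE⟩ := hS.thin.exists_cd_closed isClosed_univ (infinite_univ (α := S))
  have hD : CD D := hS.cd h (e ▸ infinite_univ)
  exact hS.thin.cl_ne hD (by rw [e, closure_univ])

lemma Ctx.union_ne (hS : Ctx S) {K L : Set S} (hK : IsClosed K) (hL : IsClosed L) (h1 : K ≠ univ)
    (h2 : L ≠ univ) : K ∪ L ≠ univ := hS.thin.union_ne hK hL h1 h2

lemma Ctx.der_diff_disc (hS : Ctx S) {A D : Set S} {x : S} (h : Disc D) (hx : x ∈ derivedSet A) :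
    x ∈ derivedSet (A \ D) := der_diff hx (hS.not_der h x)

lemma Ctx.crd_diff (hS : Ctx S) {A D : Set S} (hA : Crd A) (h : Disc D) : Crd (A \ D) :=
  fun _ hx => hS.der_diff_disc h (hA hx.1)

lemma Ctx.nwd_disc (hS : Ctx S) {A D : Set S} (hA : Crd A) (h : Disc D) : Nwd D A :=
  fun _ hx => der_sub_cl (hS.der_diff_disc h (hA hx))

/-- derived sets are crowded -/
lemma Ctx.crd_der (hS : Ctx S) (A : Set S) : Crd (derivedSet A) := fun x hx => by
  have h1 : x ∈ derivedSet (closure A) := by rwa [derivedSet_closure]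
  refine der_mono (fun y hy => ?_) (hS.der_diff_disc (disc_iso (closure A)) h1)
  by_contra hn
  exact hy.2 ⟨hy.1, by rwa [derivedSet_closure]⟩

lemma Ctx.disc_of_der (hS : Ctx S) {A : Set S} : Disc A ↔ derivedSet A = ∅ :=
  ⟨hS.der_disc, fun h => by simp [Disc, h]⟩

/-- the kernel of a non-discrete subset of a proper closed set -/
lemma Ctx.mem_der (hS : Ctx S) {A F : Set S} (hF : IsClosed F) (hF' : F ≠ univ) (hA : A ⊆ F)
    (hne : (derivedSet A).Nonempty) : Mem (derivedSet A) :=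
  ⟨isClosed_derivedSet A, hS.crd_der A, hne,
    fun e => hF' (eq_univ_of_univ_subset (e ▸ der_sub_closed hF hA))⟩

lemma Ctx.der_ne (hS : Ctx S) {A : Set S} (h : ¬ Disc A) : (derivedSet A).Nonempty :=
  nonempty_iff_ne_empty.2 fun e => h (hS.disc_of_der.2 e)

lemma Ctx.mem_union (hS : Ctx S) {K L : Set S} (h : Mem K) (h' : Mem L) : Mem (K ∪ L) :=
  ⟨h.cl.union h'.cl, h.crd.union h'.crd, h.ne.mono subset_union_left,
    hS.union_ne h.cl h'.cl h.sm h'.sm⟩

lemma Ctx.exists_mem (hS : Ctx S) : ∃ K : Set S, Mem K := by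
  by_contra hn
  refine hS.thin.not_nodec fun A hA => hS.closed (hS.disc_of_der.2 ?_)
  by_contra h
  exact hn ⟨_, hS.mem_der isClosed_closure hA subset_closure (nonempty_iff_ne_empty.2 h)⟩

/-- members are reducible -/
lemma Ctx.reducible (hS : Ctx S) {K : Set S} (h : Mem K) : ∃ U V : Set S, IsOpen U ∧ IsOpen V ∧
    (K ∩ U).Nonempty ∧ (K ∩ V).Nonempty ∧ Disjoint (K ∩ U) V := by
  by_contra hn
  refine h.sm (hS.thin.irr_eq ⟨h.cl, fun U V hU hV h1 h2 => ?_, h.crd.inf h.ne⟩)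
  by_contra h3
  refine hn ⟨U, V, hU, hV, h1, h2, disjoint_left.2 fun x hx hx' => h3 ⟨x, hx.1, hx.2, hx'⟩⟩

lemma Ctx.exists_cd_crd (hS : Ctx S) {A F : Set S} (hA : Crd A) (hne : A.Nonempty)
    (hF : IsClosed F) (hF' : F ≠ univ) (h : A ⊆ F) : ∃ D ⊆ A, CD D :=
  hS.thin.exists_cd_nondense (hA.inf hne) (mem_of_crd hA hne hF hF' h).sm

lemma Ctx.exists_cd_off (hS : Ctx S) {F : Set S} (hF : IsClosed F) (hF' : F ≠ univ) :
    ∃ D, CD D ∧ Disjoint D F :=
  let ⟨D, h1, h2⟩ := hS.thin.exists_cd_compl hF hF'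
  ⟨D, h2, disjoint_left.2 h1⟩

lemma Ctx.exists_off (_hS : Ctx S) {F : Set S} (hF' : F ≠ univ) : ∃ x, x ∉ F :=
  nonempty_compl.2 hF'

lemma Ctx.sp_disc (hS : Ctx S) {A D : Set S} (hD : Disc D) (h : Disjoint D (closure A)) :
    Sp A D :=
  ⟨by rw [(hS.closed hD).closure_eq]; exact (h.mono_right subset_closure).symm, h⟩

/-- moving discrete sets off a crowded set -/
lemma Ctx.move (hS : Ctx S) {A D D' : Set S} (hA : Crd A) (hD : Disc D) (hD' : Disc D')
    (e : Eqv D D') (h1 : Disjoint D (closure A)) (h2 : Disjoint D' (closure A)) :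
    ∃ k : S ≃ₜ S, k '' A = A ∧ k '' D = D' := by
  obtain ⟨k, hk⟩ := hS.thin.glueE e (Eqv.rfl' A) (hS.sp_disc hD h1).symm (hS.sp_disc hD' h2).symm
  have a : ∀ D : Set S, Disc D → Disjoint D (closure A) → Disjoint D (derivedSet (D ∪ A)) := by
    intro D hD h
    rw [derivedSet_union, hS.der_disc hD, empty_union]; exact h.mono_right der_sub_cl
  have b : ∀ D : Set S, A ⊆ derivedSet (D ∪ A) := fun D => hA.trans (der_mono subset_union_right)
  exact ⟨k, (split_img k hk (a D hD h1) (b D) (a D' hD' h2) (b D')).symm⟩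

lemma Ctx.move_cd (hS : Ctx S) {A D D' : Set S} (hA : Crd A) (hD : CD D) (hD' : CD D')
    (h1 : Disjoint D (closure A)) (h2 : Disjoint D' (closure A)) :
    ∃ k : S ≃ₜ S, k '' A = A ∧ k '' D = D' :=
  hS.move hA hD.dsc hD'.dsc (hS.thin.eqv_cd hD hD') h1 h2

lemma Ctx.move_pt (hS : Ctx S) {A : Set S} {x y : S} (hA : Crd A) (h1 : x ∉ closure A)
    (h2 : y ∉ closure A) : ∃ k : S ≃ₜ S, k '' A = A ∧ k x = y := by
  obtain ⟨k, a, b⟩ := hS.move hA (disc_single x) (disc_single y)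
    ((hS.thin.homog x y).imp fun g hg => by simp [hg]) (disjoint_singleton_left.2 h1)
    (disjoint_singleton_left.2 h2)
  exact ⟨k, a, by simpa using b⟩

/-- padding a discrete set to an infinite one -/
lemma Ctx.pad (hS : Ctx S) {A D F : Set S} (hA : Crd A) (hne : A.Nonempty) (hF : IsClosed F)
    (hF' : F ≠ univ) (h : A ⊆ F) (hD : Disc D) : ∃ E, CD E ∧ D ⊆ E ∧ E ⊆ D ∪ A := by
  obtain ⟨E, h1, h2⟩ := hS.exists_cd_crd hA hne hF hF' h
  exact ⟨D ∪ E, hS.cd (hS.disc_union hD h2.dsc) (h2.inf.mono subset_union_right),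
    subset_union_left, union_subset_union_right D h1⟩

/-- every proper closed set lies in a member -/
lemma Ctx.cover (hS : Ctx S) {F : Set S} (hF : IsClosed F) (hF' : F ≠ univ) :
    ∃ M, Mem M ∧ F ⊆ M := by
  obtain ⟨K, hK⟩ := hS.exists_mem
  obtain ⟨E, hE, h1, -⟩ := hS.pad hK.crd hK.ne hK.cl hK.sm subset_rfl (disc_iso F)
  obtain ⟨E', h2, hE'⟩ := hS.exists_cd_crd hK.crd hK.ne hK.cl hK.sm subset_rfl
  obtain ⟨g, rfl⟩ := hS.thin.eqv_cd hE' hE
  have hg := hK.image g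
  refine ⟨derivedSet F ∪ g '' K, ⟨(isClosed_derivedSet F).union hg.cl,
    (hS.crd_der F).union hg.crd, hg.ne.mono subset_union_right,
    hS.union_ne (isClosed_derivedSet F) hg.cl
      (fun e => hF' (eq_univ_of_univ_subset (e ▸ der_sub_closed hF subset_rfl))) hg.sm⟩,
    fun x hx => ?_⟩
  by_cases hx' : x ∈ derivedSet F
  · exact Or.inl hx'
  · exact Or.inr (image_mono h2 (h1 ⟨hx, hx'⟩))

lemma World.crdP {n b : Set S} (h : World n b) : Crd (n \ b) := h.crn.diff_closed h.clb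

lemma World.clP {n b : Set S} (h : World n b) : closure (n \ b) = n :=
  (closure_minimal sdiff_subset h.cln).antisymm h.nwd

lemma World.fix {n b : Set S} (h : World n b) {k : S ≃ₜ S} (hk : k '' (n \ b) = n \ b) :
    k '' n = n ∧ k '' b = b := by
  have h1 : k '' n = n := by rw [← h.clP, img_cl, hk]
  refine ⟨h1, ?_⟩
  have : b = n \ (n \ b) := by rw [sdiff_sdiff_right_self, inter_eq_right.2 h.sub]
  rw [this, img_diff, hk, h1]

/-- the group of a world is transitive off `n` -/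
lemma Ctx.world_move (hS : Ctx S) {n b : Set S} (h : World n b) {x y : S} (hx : x ∉ n)
    (hy : y ∉ n) : ∃ k : S ≃ₜ S, k '' n = n ∧ k '' b = b ∧ k x = y := by
  obtain ⟨k, a, e⟩ := hS.move_pt (x := x) (y := y) h.crdP (by rwa [h.clP]) (by rwa [h.clP])
  exact ⟨k, (h.fix a).1, (h.fix a).2, e⟩

lemma Ctx.world_empty (_hS : Ctx S) : World (∅ : Set S) ∅ :=
  ⟨isClosed_empty, crd_empty, empty_ne_univ, isClosed_empty, crd_empty, subset_rfl,
    empty_subset _⟩

end Pool.Agent.Lib.MP_52f683_gt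
end

-- part Pool.Agent.Lib.MP_52f683_gt.CS.HP
section

set_option autoImplicit false
set_option linter.unusedSectionVars false

open Set Topology Filter

namespace Pool.Agent.Lib.MP_52f683_gt

variable {S : Type*} [TopologicalSpace S] [T1Space S] [Infinite S]

/-- a distribution of a punctured clopen part over the sets `N k` -/
structure HpDist (X : Set S) (x : S) (N : ℕ → Set S) (M : Set S) (P : ℕ → Set S) : Prop where
  clM : ClopIn M X
  mem : x ∈ M
  cl : ∀ k, ClopIn (P k) X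
  dis : Pairwise fun i j => Disjoint (P i) (P j)
  sub : ∀ k, P k ⊆ N k
  un : ⋃ k, P k = M \ {x}

lemma hp_iso {X c m M : Set S} {x : S} (hX : Whole X c m) (hL : LFin (c ∪ m)) (hM : ClopIn M X)
    (hx : x ∈ M) : Iso (Rem (M \ {x})) = {x} := by
  have h1 : x ∈ closure (M \ {x}) := mem_cl_diff_single (hX.crdX.clop hM hx)
  have h2 : closure (M \ {x}) = closure M := by
    refine (closure_mono sdiff_subset).antisymm (closure_minimal (fun y hy => ?_) isClosed_closure)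
    by_cases e : y = x
    · rw [e]; exact h1
    · exact subset_closure ⟨hy, e⟩
  have h3 : Rem (M \ {x}) = Rem M ∪ {x} := by
    ext y
    simp only [Rem, h2, Set.mem_sdiff, mem_union, mem_singleton_iff]
    constructor
    · rintro ⟨a, b⟩
      by_cases e : y = x
      · exact Or.inr e
      · exact Or.inl ⟨a, fun hy => b ⟨hy, e⟩⟩
    · rintro (⟨a, b⟩ | e)
      · exact ⟨a, fun hy => b hy.1⟩
      · exact ⟨by rw [e]; exact subset_closure hx, fun hy => hy.2 e⟩
  have h4 : x ∉ m := by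
    have := hM.1 hx
    rw [hX.eq] at this
    exact this.2
  have h5 : Rem M ⊆ m := by rw [hX.rem_eq hM]; exact inter_subset_right
  unfold Iso
  rw [h3, derivedSet_union, der_finite (finite_singleton x), union_empty]
  ext y
  constructor
  · rintro ⟨a | a, b⟩
    · exact absurd (hX.rem_crd hL hM a) b
    · exact a
  · rintro rfl
    exact ⟨Or.inr rfl, fun h => h4 (der_sub_closed hX.cl h5 h)⟩

lemma hp_point (hS : Ctx S) {X c m M : Set S} {x : S} (hX : Whole X c m) (hL : LFin (c ∪ m))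
    {N P : ℕ → Set S} {g : ℕ → S ≃ₜ S} (ht : TauSum fun k => g k '' N k)
    (hP : HpDist X x N M P) : ∃ e, Iso (Rem (⋃ k, g k '' P k)) = {e} := by
  obtain ⟨h, hh⟩ := hS.thin.glueF P (fun k => g k '' P k) (fun k => ⟨g k, rfl⟩)
    (tauSum_of_clop hP.cl hP.dis) (ht.mono fun k => image_mono (hP.sub k))
  refine ⟨h x, ?_⟩
  rw [← hh, ← img_rem, ← img_iso, hP.un, hp_iso hX hL hP.clM hP.mem, image_singleton]

lemma hp_sep1 {X : Set S} {N P P' : ℕ → Set S} {g : ℕ → S ≃ₜ S}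
    (ht : TauSum fun k => g k '' N k) (h1 : ∀ k, ClopIn (P k) X) (h2 : ∀ k, ClopIn (P' k) X)
    (s1 : ∀ k, P k ⊆ N k) (s2 : ∀ k, P' k ⊆ N k) (hd : ∀ k, Disjoint (P k) (P' k)) :
    Disjoint (⋃ k, g k '' P k) (closure (⋃ k, g k '' P' k)) := by
  refine disjoint_iUnion_left.2 fun k => ?_
  have hsub : (⋃ j, g j '' P' j) ⊆ g k '' P' k ∪ ⋃ j ∈ ({k}ᶜ : Set ℕ), g j '' N j := by
    refine iUnion_subset fun j y hy => ?_
    by_cases e : j = k
    · exact Or.inl (e ▸ hy)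
    · exact Or.inr (mem_biUnion (x := j) e (image_mono (s2 j) hy))
  refine Disjoint.mono_right (closure_mono hsub) ?_
  rw [closure_union]
  refine disjoint_union_right.2 ⟨?_, (ht k).mono_left (image_mono (s1 k))⟩
  rw [← img_cl, img_disj]
  exact (h1 k).2.1.mono_right (closure_mono fun y hy =>
    (Set.mem_sdiff y).2 ⟨(h2 k).1 hy, fun hy' => disjoint_left.1 (hd k) hy' hy⟩)

lemma hp_not {X c m Z : Set S} (hX : Whole X c m) (hZ : IsClosed Z) (hZ' : Z ≠ univ)
    (hLZ : LFin Z) {N P P' : ℕ → Set S} {g : ℕ → S ≃ₜ S} (hsub : ∀ k, g k '' N k ⊆ Z)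
    (ht : TauSum fun k => g k '' N k) (h1 : ∀ k, ClopIn (P k) X) (h2 : ∀ k, ClopIn (P' k) X)
    (s1 : ∀ k, P k ⊆ N k) (s2 : ∀ k, P' k ⊆ N k) (hd : ∀ k, Disjoint (P k) (P' k)) {e : S}
    (he : e ∈ Iso (Rem (⋃ k, g k '' P k))) :
    Sp (⋃ k, g k '' P k) (⋃ k, g k '' P' k) ∧ e ∉ closure (⋃ k, g k '' P' k) := by
  have hsp : Sp (⋃ k, g k '' P k) (⋃ k, g k '' P' k) :=
    ⟨hp_sep1 ht h1 h2 s1 s2 hd, hp_sep1 ht h2 h1 s2 s1 fun k => (hd k).symm⟩
  exact ⟨hsp, hLZ.iso_not hZ hZ' (crd_iUnion fun k => (hX.crdX.clop (h1 k)).image _)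
    (crd_iUnion fun k => (hX.crdX.clop (h2 k)).image _)
    (iUnion_subset fun k => (image_mono (s1 k)).trans (hsub k))
    (iUnion_subset fun k => (image_mono (s2 k)).trans (hsub k)) hsp he⟩

lemma hp_up {X c m Z : Set S} (hX : Whole X c m) (hZ : IsClosed Z) (hZ' : Z ≠ univ)
    (hLZ : LFin Z) {N P R : ℕ → Set S} {g : ℕ → S ≃ₜ S} (hsub : ∀ k, g k '' N k ⊆ Z)
    (ht : TauSum fun k => g k '' N k) (h1 : ∀ k, ClopIn (P k) X) (h2 : ∀ k, ClopIn (R k) X)
    (s1 : ∀ k, P k ⊆ R k) (s2 : ∀ k, R k ⊆ N k) {e : S}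
    (he : e ∈ Iso (Rem (⋃ k, g k '' P k))) : e ∈ Iso (Rem (⋃ k, g k '' R k)) := by
  obtain ⟨hsp, hn⟩ := hp_not (P' := fun k => R k \ P k) hX hZ hZ' hLZ hsub ht h1
    (fun k => (h2 k).diff (h1 k)) (fun k => (s1 k).trans (s2 k))
    (fun k => sdiff_subset.trans (s2 k)) (fun k => disjoint_sdiff_right) he
  have hu : (⋃ k, g k '' R k) = (⋃ k, g k '' P k) ∪ ⋃ k, g k '' (R k \ P k) := by
    rw [← iUnion_union_distrib]
    exact iUnion_congr fun k => by rw [← image_union, union_sdiff_cancel (s1 k)]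
  rw [hu, rem_union hsp]
  refine ⟨Or.inl he.1, fun h => ?_⟩
  rw [derivedSet_union] at h
  exact h.elim he.2 fun h => hn (cl_rem_sub _ (der_sub_cl h))

lemma hp_fin {X : Set S} {C : ℕ → Set S} (h : ∀ n, ClopIn (C n) X) (j : ℕ) :
    ClopIn (⋂ n ≤ j, C n) X := by
  induction j with
  | zero => simpa using h 0
  | succ j ih => rw [biInter_le_succ]; exact ih.inter (h _)

lemma hp_dist {X : Set S} {x : S} {N M : ℕ → Set S} (h1 : ∀ j, ClopIn (M j) X ∧ x ∈ M j)
    (h2 : Antitone M) (h3 : ⋂ j, M j ⊆ {x}) (h4 : ∀ j, M j ⊆ N j) (i : ℕ) :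
    HpDist X x N (M i) fun j => (M j \ M (j + 1)) ∩ M i := by
  classical
  refine ⟨(h1 i).1, (h1 i).2, fun j => ((h1 j).1.diff (h1 _).1).inter (h1 i).1, ?_,
    fun j y hy => h4 j hy.1.1, ?_⟩
  · have : ∀ a b : ℕ, a < b →
        Disjoint ((M a \ M (a + 1)) ∩ M i) ((M b \ M (b + 1)) ∩ M i) := fun a b hab =>
      disjoint_left.2 fun y hy hy' => hy.1.2 (h2 (Nat.succ_le_of_lt hab) hy'.1.1)
    intro a b hab
    rcases lt_or_gt_of_ne hab with h | h
    · exact this a b h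
    · exact (this b a h).symm
  · ext y
    constructor
    · intro hy
      obtain ⟨j, hj⟩ := mem_iUnion.1 hy
      exact ⟨hj.2, fun e => hj.1.2 (by rw [mem_singleton_iff.1 e]; exact (h1 _).2)⟩
    · rintro ⟨hy, hy'⟩
      have hex : ∃ n, y ∉ M n := by
        by_contra hc
        exact hy' (h3 (mem_iInter.2 fun n => by_contra fun hn => hc ⟨n, hn⟩))
      have h0 : Nat.find hex ≠ 0 := fun e => (e ▸ Nat.find_spec hex) (h2 (Nat.zero_le i) hy)
      obtain ⟨j, hj⟩ := Nat.exists_eq_succ_of_ne_zero h0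
      refine mem_iUnion.2 ⟨j, ⟨?_, ?_⟩, hy⟩
      · exact by_contra fun hn => Nat.find_min hex (by omega : j < Nat.find hex) hn
      · have := Nat.find_spec hex
        rwa [hj] at this

lemma hp_diag {X : Set S} {x : S} (hs : Sharp X x) {N : ℕ → Set S}
    (hN : ∀ k, ClopIn (N k) X ∧ x ∈ N k) (P : ℕ → ℕ → Set S)
    (hP : ∀ i l, ClopIn (P i l) X ∧ x ∉ P i l) :
    ∃ M : ℕ → Set S, (∀ j, ClopIn (M j) X ∧ x ∈ M j) ∧ Antitone M ∧ ⋂ j, M j ⊆ {x} ∧
      (∀ j, M j ⊆ N j) ∧ ∀ j i l, i ≤ j → l ≤ j → Disjoint (M j) (P i l) := by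
  obtain ⟨V, hV, ha, hi⟩ := hs
  refine ⟨fun j => ⋂ l ≤ j, ⋂ i ≤ j, (V j ∩ N l) \ P i l, fun j => ⟨?_, ?_⟩, ?_, ?_, ?_, ?_⟩
  · exact hp_fin (fun l => hp_fin (fun i => ((hV j).1.inter (hN l).1).diff (hP i l).1) j) j
  · exact mem_iInter₂.2 fun l _ => mem_iInter₂.2 fun i _ => ⟨⟨(hV j).2, (hN l).2⟩, (hP i l).2⟩
  · intro j j' hj y hy
    refine mem_iInter₂.2 fun l hl => mem_iInter₂.2 fun i hi' => ?_
    have := mem_iInter₂.1 (mem_iInter₂.1 hy l (hl.trans hj)) i (hi'.trans hj)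
    exact ⟨⟨ha hj this.1.1, this.1.2⟩, this.2⟩
  · intro y hy
    rw [← hi]
    exact mem_iInter.2 fun j =>
      (mem_iInter₂.1 (mem_iInter₂.1 (mem_iInter.1 hy j) j le_rfl) j le_rfl).1.1
  · exact fun j y hy => (mem_iInter₂.1 (mem_iInter₂.1 hy j le_rfl) j le_rfl).1.2
  · exact fun j i l hi' hl => disjoint_left.2 fun y hy =>
      (mem_iInter₂.1 (mem_iInter₂.1 hy l hl) i hi').2

/-- a sharp point has no infinite separated family of hosts -/
theorem Ctx.hplus (hS : Ctx S) {X c m Z : Set S} {x : S} (hX : Whole X c m) (hL : LFin (c ∪ m))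
    (hs : Sharp X x) (hZ : IsClosed Z) (hZ' : Z ≠ univ) (hLZ : LFin Z) (N : ℕ → Set S)
    (g : ℕ → S ≃ₜ S) (hN : ∀ k, ClopIn (N k) X ∧ x ∈ N k) (hsub : ∀ k, g k '' N k ⊆ Z)
    (ht : TauSum fun k => g k '' N k) : False := by
  let E : Set S := {e | ∃ M P, HpDist X x N M P ∧ e ∈ Iso (Rem (⋃ k, g k '' P k))}
  have hc : E.Countable := by
    refine (hS.cs _ (disc_iso (Rem (⋃ k, g k '' N k)))).mono ?_
    rintro e ⟨M, P, hP, he⟩
    exact hp_up hX hZ hZ' hLZ hsub ht hP.cl (fun k => (hN k).1) hP.sub (fun k => subset_rfl) he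
  have hne : E.Nonempty := by
    have h0 : ClopIn (∅ : Set S) X := by simpa using (clopIn_self X).compl
    obtain ⟨M, h1, h2, h3, h4, -⟩ := hp_diag hs hN (fun _ _ => ∅) fun _ _ => ⟨h0, id⟩
    have hd := hp_dist h1 h2 h3 h4 0
    obtain ⟨e, he⟩ := hp_point hS hX hL ht hd
    exact ⟨e, _, _, hd, by rw [he]; rfl⟩
  obtain ⟨f, hf⟩ := hc.exists_eq_range hne
  have hfE : ∀ i, f i ∈ E := fun i => by rw [hf]; exact mem_range_self i
  choose M' P hP hfP using hfE
  obtain ⟨M, h1, h2, h3, h4, h5⟩ := hp_diag hs hN P fun i l => ⟨(hP i).cl l, fun hx => by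
    have : x ∈ M' i \ {x} := by rw [← (hP i).un]; exact mem_iUnion.2 ⟨l, hx⟩
    exact this.2 rfl⟩
  have hd := hp_dist h1 h2 h3 h4
  obtain ⟨e, he⟩ := hp_point hS hX hL ht (hd 0)
  have heE : e ∈ E := ⟨_, _, hd 0, by rw [he]; rfl⟩
  rw [hf] at heE
  obtain ⟨i, rfl⟩ := heE
  obtain ⟨e', he'⟩ := hp_point hS hX hL ht (hd i)
  have m1 : e' ∈ Iso (Rem (⋃ k, g k '' ((M k \ M (k + 1)) ∩ M i))) := by rw [he']; rfl
  have m2 := hp_up hX hZ hZ' hLZ hsub ht (hd i).cl (hd 0).cl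
    (fun k => inter_subset_inter_right _ (h2 (Nat.zero_le i))) (hd 0).sub m1
  rw [he] at m2
  refine (hp_not hX hZ hZ' hLZ hsub ht (hd i).cl (hP i).cl (hd i).sub (hP i).sub
    (fun k => ?_) m1).2 (by rw [mem_singleton_iff.1 m2]; exact (hfP i).1.1)
  rcases le_total i k with h | h
  · exact (h5 k i k h le_rfl).mono_left fun y hy => hy.1.1
  · exact (h5 i i k le_rfl h).mono_left fun y hy => hy.2

end Pool.Agent.Lib.MP_52f683_gt
end

-- part Pool.Agent.Lib.MP_52f683_gt.CS.HL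
section

set_option autoImplicit false
set_option linter.unusedSectionVars false

open Set Topology Filter

namespace Pool.Agent.Lib.MP_52f683_gt

variable {S : Type*} [TopologicalSpace S] [T1Space S] [Infinite S]

/-- the space is hereditarily Lindelof -/
lemma Ctx.lind (hS : Ctx S) (𝒰 : Set (Set S)) (h : ∀ U ∈ 𝒰, IsOpen U) :
    ∃ 𝒱 ⊆ 𝒰, 𝒱.Countable ∧ ⋃₀ 𝒰 ⊆ ⋃₀ 𝒱 := by
  obtain ⟨F, hF⟩ := zorn_subset {F : Set (S × Set S × Set S) |
      (∀ p ∈ F, IsOpen p.2.1 ∧ p.1 ∈ p.2.1 ∧ p.2.1 ⊆ p.2.2 ∧ p.2.2 ∈ 𝒰) ∧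
      ∀ p ∈ F, ∀ q ∈ F, p ≠ q → p.1 ∉ q.2.1} (by
    intro c hc hch
    refine ⟨⋃₀ c, ⟨?_, ?_⟩, fun s hs => subset_sUnion_of_mem hs⟩
    · rintro p ⟨s, hs, hp⟩
      exact (hc hs).1 p hp
    · rintro p ⟨s, hs, hp⟩ q ⟨t, ht, hq⟩
      rcases hch.total hs ht with e | e
      · exact (hc ht).2 p (e hp) q hq
      · exact (hc hs).2 p hp q (e hq))
  obtain ⟨h1, h2⟩ := hF.prop
  have hD : Disc (Prod.fst '' F) := by
    refine disjoint_left.2 ?_
    rintro _ ⟨p, hp, rfl⟩ hd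
    obtain ⟨_, ⟨hy, q, hq, rfl⟩, hne⟩ :=
      accPt_iff_nhds.1 (mem_derivedSet.1 hd) p.2.1 ((h1 p hp).1.mem_nhds (h1 p hp).2.1)
    exact h2 q hq p hp (fun e => hne (by rw [e])) hy
  have hinj : InjOn Prod.fst F := fun p hp q hq e => by
    by_contra hne
    exact h2 p hp q hq hne (by rw [e]; exact (h1 q hq).2.1)
  have hc : F.Countable := countable_of_injective_of_countable_image hinj (hS.cs _ hD)
  refine ⟨(fun p => p.2.2) '' F, ?_, hc.image _, ?_⟩
  · rintro _ ⟨p, hp, rfl⟩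
    exact (h1 p hp).2.2.2
  · rintro y ⟨U, hU, hy⟩
    by_contra hn
    have h3 : ∀ p ∈ F, y ∉ p.2.1 := fun p hp hy' => hn ⟨_, ⟨p, hp, rfl⟩, (h1 p hp).2.2.1 hy'⟩
    have h4 : y ∉ Prod.fst '' F := by
      rintro ⟨p, hp, rfl⟩
      exact h3 p hp (h1 p hp).2.1
    have h5 := hF.le_of_ge (y := insert (y, U \ Prod.fst '' F, U) F) ⟨?_, ?_⟩ (subset_insert _ _)
    · exact h4 ⟨_, h5 (mem_insert _ _), rfl⟩
    · rintro p (rfl | hp)
      · exact ⟨(h U hU).sdiff (hS.closed hD), ⟨hy, h4⟩, sdiff_subset, hU⟩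
      · exact h1 p hp
    · rintro p (rfl | hp) q (rfl | hq) hne
      · exact absurd rfl hne
      · exact h3 q hq
      · exact fun h' => h'.2 ⟨p, hp, rfl⟩
      · exact h2 p hp q hq hne

lemma Ctx.qc_seq (hS : Ctx S) {X : Set S} {x : S} (hx : x ∈ X) :
    ∃ V : ℕ → Set S, (∀ n, ClopIn (V n) X ∧ x ∈ V n) ∧ Antitone V ∧ ⋂ n, V n = QC X x := by
  obtain ⟨𝒱, h1, h2, h3⟩ := hS.lind {U | ∃ N, ClopIn N X ∧ x ∈ N ∧ U = (closure N)ᶜ} (by
    rintro U ⟨N, -, -, rfl⟩
    exact isClosed_closure.isOpen_compl)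
  obtain ⟨f, hf⟩ := (h2.insert (closure X)ᶜ).exists_eq_range (insert_nonempty _ _)
  have h4 : ∀ n, ∃ N, ClopIn N X ∧ x ∈ N ∧ f n = (closure N)ᶜ := fun n => by
    have : f n ∈ insert (closure X)ᶜ 𝒱 := by rw [hf]; exact mem_range_self n
    rcases this with e | e
    · exact ⟨X, clopIn_self X, hx, e⟩
    · exact h1 e
  choose N hN hxN hfN using h4
  refine ⟨fun n => ⋂ i ≤ n, N i, fun n => ⟨?_, mem_iInter₂.2 fun i _ => hxN i⟩,
    fun m n hmn y hy => mem_iInter₂.2 fun i hi => mem_iInter₂.1 hy i (hi.trans hmn), ?_⟩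
  · induction n with
    | zero => simpa using hN 0
    | succ n ih => simp only [biInter_le_succ]; exact ih.inter (hN _)
  · ext y
    constructor
    · intro hy
      have h5 : ∀ i, y ∈ N i := fun i => mem_iInter₂.1 (mem_iInter.1 hy i) i le_rfl
      have hyX : y ∈ X := (hN 0).1 (h5 0)
      refine ⟨hyX, fun M hM hxM => ?_⟩
      by_contra hn
      obtain ⟨U, hU, hyU⟩ := h3 ⟨_, ⟨M, hM, hxM, rfl⟩, fun h' => hn (hM.closed ⟨h', hyX⟩)⟩
      have : U ∈ range f := by rw [← hf]; exact mem_insert_of_mem _ hU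
      obtain ⟨i, rfl⟩ := this
      rw [hfN] at hyU
      exact hyU (subset_closure (h5 i))
    · intro hy
      exact mem_iInter.2 fun n => mem_iInter₂.2 fun i _ => hy.2 _ (hN i) (hxN i)

/-- extremal disconnectedness from disjointness of transversal pairs -/
lemma ed_of_perp {X c n : Set S} (hc : Mem c) (hn : IsClosed n) (hX : X = c \ n)
    (h : ∀ s s' : Set S, Mem s → Mem s' → s ⊆ c → s' ⊆ c → Nwd (s' ∪ n) s → Nwd (s ∪ n) s' →
      s ∩ s' ⊆ n) (W : Set S) (hW : IsOpen W) : ClopIn (closure (X ∩ W) ∩ X) X := by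
  have hXc : X ⊆ c := by rw [hX]; exact sdiff_subset
  have hXn : ∀ y ∈ X, y ∉ n := fun y hy => by rw [hX] at hy; exact hy.2
  have hcr : Crd X := by rw [hX]; exact hc.crd.diff_closed hn
  have e : X \ (closure (X ∩ W) ∩ X) = X \ closure (X ∩ W) := by
    ext y
    exact ⟨fun hy => ⟨hy.1, fun h' => hy.2 ⟨h', hy.1⟩⟩, fun hy => ⟨hy.1, fun h' => hy.2 h'.1⟩⟩
  refine ⟨inter_subset_right, ?_⟩
  rw [e]
  refine ⟨?_, disjoint_left.2 fun y hy hy' =>
    hy.2 (closure_minimal inter_subset_left isClosed_closure hy')⟩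
  rcases (X ∩ W).eq_empty_or_nonempty with e1 | n1
  · simp [e1]
  rcases (X \ closure (X ∩ W)).eq_empty_or_nonempty with e2 | n2
  · simp [e2]
  have hd : Disjoint W (closure (X \ closure (X ∩ W))) :=
    (disjoint_left.2 fun y hy hy' => hy'.2 (subset_closure ⟨hy'.1, hy⟩) :
      Disjoint W (X \ closure (X ∩ W))).closure_right hW
  have key := h _ _
    (mem_of_crd (hcr.inter_open hW) n1 hc.cl hc.sm (inter_subset_left.trans hXc))
    (mem_of_crd (hcr.diff_closed isClosed_closure) n2 hc.cl hc.sm (sdiff_subset.trans hXc))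
    (closure_minimal (inter_subset_left.trans hXc) hc.cl)
    (closure_minimal (sdiff_subset.trans hXc) hc.cl)
    (closure_mono fun y hy => ⟨subset_closure hy, fun h' =>
      h'.elim (disjoint_left.1 hd hy.2) (hXn y hy.1)⟩)
    (closure_mono fun y hy => ⟨subset_closure hy, fun h' => h'.elim hy.2 (hXn y hy.1)⟩)
  exact disjoint_left.2 fun y hy hy' => hXn y hy.2 (key ⟨hy.1, hy'⟩)

lemma tot_of_td {X c n : Set S} (hc : IsClosed c) (hX : X = c \ n)
    (ed : ∀ W : Set S, IsOpen W → ClopIn (closure (X ∩ W) ∩ X) X)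
    (td : ∀ x ∈ X, ∀ y ∈ X, ∃ k : S ≃ₜ S, k '' n = n ∧ k x = y ∧
      closure (X \ k '' c) ∩ closure (k '' X \ c) ⊆ n) :
    ∀ x ∈ X, ∀ y ∈ X, Below X x y ∨ Below X y x := by
  intro x hx y hy
  obtain ⟨k, h1, h2, h3⟩ := td x hx y hy
  have hXn : ∀ z ∈ X, z ∉ n := fun z hz => by rw [hX] at hz; exact hz.2
  have hin : ∀ z ∈ c, z ∉ n → z ∈ X := fun z hz hz' => by rw [hX]; exact ⟨hz, hz'⟩
  have hk : ∀ z, k z ∈ n ↔ z ∈ n := fun z => by
    conv_lhs => rw [← h1]
    exact mem_img k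
  by_cases hy' : y ∈ closure (k '' X \ c)
  · have h4 : y ∉ closure (X \ k '' c) := fun h' => hXn y hy (h3 ⟨h', hy'⟩)
    refine Or.inr ⟨k.symm, _, ed _ (isClosed_closure (s := X \ k '' c)).isOpen_compl,
      ⟨subset_closure ⟨hy, h4⟩, hy⟩, by rw [← h2, k.symm_apply_apply], ?_⟩
    rintro _ ⟨z, hz, rfl⟩
    have h5 : closure (X ∩ (closure (X \ k '' c))ᶜ) ⊆ k '' c :=
      closure_minimal (fun w hw => by_contra fun h' => hw.2 (subset_closure ⟨hw.1, h'⟩))
        (k.isClosed_image.2 hc)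
    obtain ⟨w, hw, rfl⟩ := h5 hz.1
    rw [k.symm_apply_apply]
    exact hin w hw fun h' => hXn _ hz.2 ((hk w).2 h')
  · refine Or.inl ⟨k, _, ed (k ⁻¹' (closure (k '' X \ c))ᶜ)
      (isClosed_closure.isOpen_compl.preimage k.continuous),
      ⟨subset_closure ⟨hx, by rw [mem_preimage, h2]; exact hy'⟩, hx⟩, h2, ?_⟩
    rintro _ ⟨z, hz, rfl⟩
    have h5 : closure (X ∩ k ⁻¹' (closure (k '' X \ c))ᶜ) ⊆ k ⁻¹' c :=
      closure_minimal
        (fun w hw => by_contra fun h' => hw.2 (subset_closure ⟨⟨w, hw.1, rfl⟩, h'⟩))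
        (hc.preimage k.continuous)
    exact hin _ (h5 hz.1) fun h' => hXn _ hz.2 ((hk z).1 h')

end Pool.Agent.Lib.MP_52f683_gt
end

-- part Pool.Agent.Lib.MP_52f683_gt.CS.EN1
section

set_option autoImplicit false
set_option linter.unusedSectionVars false

open Set Topology Filter

namespace Pool.Agent.Lib.MP_52f683_gt

variable {S : Type*} [TopologicalSpace S] [T1Space S] [Infinite S]

lemma en1_pull {N M X : Set S} (g : S ≃ₜ S) (hN : ClopIn N X) (hg : g '' N ⊆ X)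
    (hM : ClopIn M X) : ClopIn (N ∩ g ⁻¹' M) X := by
  have h := (hM.trace hg).image g.symm
  rw [img_symm_img] at h
  have e : g.symm '' (M ∩ g '' N) = N ∩ g ⁻¹' M := by
    ext y
    constructor
    · rintro ⟨z, ⟨h1, w, h2, rfl⟩, rfl⟩
      rw [g.symm_apply_apply]
      exact ⟨h2, h1⟩
    · rintro ⟨h1, h2⟩
      exact ⟨g y, ⟨h2, y, h1, rfl⟩, g.symm_apply_apply y⟩
  rw [e] at h
  exact h.trans hN

lemma en1_sep {X : Set S} (hsep : ∀ x ∈ X, QC X x = {x}) {a b : S} (ha : a ∈ X) (hb : b ∈ X)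
    (hab : b ≠ a) : ∃ N, ClopIn N X ∧ a ∈ N ∧ b ∉ N := by
  by_contra hn
  have h : b ∈ QC X a := ⟨hb, fun N h1 h2 => by_contra fun h3 => hn ⟨N, h1, h2, h3⟩⟩
  rw [hsep a ha] at h
  exact hab h

lemma en1_mem {X : Set S} {x y : S} (h : Below X x y) : y ∈ X := by
  obtain ⟨g, N, -, h1, rfl, h2⟩ := h
  exact h2 ⟨x, h1, rfl⟩

lemma en1_refl {X : Set S} {x : S} (hx : x ∈ X) : Below X x x :=
  ⟨Homeomorph.refl S, X, clopIn_self X, hx, rfl, by rintro _ ⟨y, hy, rfl⟩; exact hy⟩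

lemma en1_trans {X : Set S} {x y z : S} (h : Below X x y) (h' : Below X y z) : Below X x z := by
  obtain ⟨g, N, h1, h2, rfl, h3⟩ := h
  obtain ⟨k, M, k1, k2, rfl, k3⟩ := h'
  refine ⟨g.trans k, N ∩ g ⁻¹' M, en1_pull g h1 h3 k1, ⟨h2, k2⟩, rfl, ?_⟩
  rintro _ ⟨w, hw, rfl⟩
  exact k3 ⟨g w, hw.2, rfl⟩

/-- pairwise disjoint sets from a decreasing chain -/
lemma en1_disj {R M : ℕ → Set S} (h1 : ∀ n, R (n + 1) ⊆ R n) (h2 : ∀ n, M n ⊆ R n)
    (h3 : ∀ n, Disjoint (M n) (R (n + 1))) : Pairwise fun i j => Disjoint (M i) (M j) := by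
  have ha : Antitone R := antitone_nat_of_succ_le h1
  have key : ∀ i j, i < j → Disjoint (M i) (M j) := fun i j hij =>
    (h3 i).mono_right ((h2 j).trans (ha hij))
  intro i j hij
  rcases lt_or_gt_of_ne hij with h | h
  · exact key i j h
  · exact (key j i h).symm

/-- an infinite set meets infinitely many pairwise disjoint clopen parts -/
lemma en1_split {X I : Set S} (hsep : ∀ x ∈ X, QC X x = {x}) (hI : (X ∩ I).Infinite) :
    ∃ (M : ℕ → Set S) (y : ℕ → S), (∀ k, ClopIn (M k) X ∧ y k ∈ M k ∧ y k ∈ I) ∧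
      Pairwise fun i j => Disjoint (M i) (M j) := by
  have step : ∀ R : {R : Set S // ClopIn R X ∧ (R ∩ I).Infinite},
      ∃ (R' : {R : Set S // ClopIn R X ∧ (R ∩ I).Infinite}) (M : Set S) (y : S),
        R'.1 ⊆ R.1 ∧ M ⊆ R.1 ∧ Disjoint M R'.1 ∧ ClopIn M X ∧ y ∈ M ∧ y ∈ I := by
    rintro ⟨R, hR, hi⟩
    obtain ⟨a, ha, b, hb, hab⟩ := hi.nontrivial
    obtain ⟨N, hN, h1, h2⟩ := en1_sep hsep (hR.1 ha.1) (hR.1 hb.1) hab.symm
    have hd : Disjoint (R ∩ N) (R \ N) := disjoint_left.2 fun z h h' => h'.2 h.2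
    by_cases hf : (R ∩ N ∩ I).Infinite
    · exact ⟨⟨R ∩ N, hR.inter hN, hf⟩, R \ N, b, inter_subset_left, sdiff_subset, hd.symm,
        hR.diff hN, ⟨hb.1, h2⟩, hb.2⟩
    · refine ⟨⟨R \ N, hR.diff hN, fun hf' => hi (((not_infinite.1 hf).union hf').subset ?_)⟩,
        R ∩ N, a, sdiff_subset, inter_subset_left, hd, hR.inter hN, ⟨ha.1, h1⟩, ha.2⟩
      intro z hz
      by_cases h : z ∈ N
      · exact Or.inl ⟨⟨hz.1, h⟩, hz.2⟩
      · exact Or.inr ⟨⟨hz.1, h⟩, hz.2⟩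
  choose f M y h1 h2 h3 h4 using step
  let s : ℕ → {R : Set S // ClopIn R X ∧ (R ∩ I).Infinite} :=
    fun n => Nat.rec ⟨X, clopIn_self X, hI⟩ (fun _ p => f p) n
  exact ⟨fun n => M (s n), fun n => y (s n), fun n => h4 (s n),
    en1_disj (R := fun n => (s n).1) (fun n => h1 (s n)) (fun n => h2 (s n)) fun n => h3 (s n)⟩

lemma Ctx.up_finite (hS : Ctx S) {X c m : Set S} (hX : Whole X c m) (hL : LFin (c ∪ m))
    (hsep : ∀ x ∈ X, QC X x = {x}) {x : S} (hx : x ∈ X) : {y | Below X x y}.Finite := by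
  by_contra hinf
  have hI : (X ∩ {y | Below X x y}).Infinite := fun h =>
    hinf (h.subset fun y hy => ⟨en1_mem hy, hy⟩)
  obtain ⟨M, y, h1, h2⟩ := en1_split hsep hI
  choose g N hN hxN hg hgN using fun k => (h1 k).2.2
  obtain ⟨V, hV, hV', hV''⟩ := hS.qc_seq hx
  rw [hsep x hx] at hV''
  have hsub : ∀ k, g k '' (N k ∩ g k ⁻¹' M k) ⊆ M k := fun k => by
    rintro _ ⟨w, hw, rfl⟩
    exact hw.2
  refine hS.hplus hX hL ⟨V, hV, hV', hV''⟩ hX.mem.cl hX.mem.sm (hL.mono subset_union_left)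
    (fun k => N k ∩ g k ⁻¹' M k) g (fun k => ⟨en1_pull _ (hN k) (hgN k) (h1 k).1, hxN k, ?_⟩)
    (fun k => (hsub k).trans ((h1 k).1.1.trans hX.sub))
    ((tauSum_of_clop (fun k => (h1 k).1) h2).mono hsub)
  rw [mem_preimage, hg k]
  exact (h1 k).2.1

/-- the number of points above a point -/
noncomputable def en1_rank (X : Set S) (x : S) : ℕ := {y | Below X x y}.ncard

lemma en1_below {X : Set S} (htot : ∀ x ∈ X, ∀ y ∈ X, Below X x y ∨ Below X y x)
    (hfin : ∀ x ∈ X, {y | Below X x y}.Finite) {x y : S} (hx : x ∈ X) (hy : y ∈ X)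
    (h : en1_rank X y ≤ en1_rank X x) : Below X x y := by
  rcases htot x hx y hy with h1 | h1
  · exact h1
  · have h2 : {z | Below X x z} = {z | Below X y z} :=
      eq_of_subset_of_ncard_le (fun z hz => en1_trans h1 hz) h (hfin y hy)
    have h3 : y ∈ {z | Below X y z} := en1_refl hy
    rw [← h2] at h3
    exact h3

lemma en1_level {X : Set S} (htot : ∀ x ∈ X, ∀ y ∈ X, Below X x y ∨ Below X y x)
    (hfin : ∀ x ∈ X, {y | Below X x y}.Finite) (r : ℕ) :
    {y | y ∈ X ∧ en1_rank X y < r}.Finite := by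
  induction r with
  | zero => exact finite_empty.subset fun y hy => absurd hy.2 (Nat.not_lt_zero _)
  | succ r ih =>
    by_cases h : ∃ x ∈ X, en1_rank X x = r
    · obtain ⟨x, hx, hr⟩ := h
      exact (hfin x hx).subset fun y hy =>
        en1_below htot hfin hx hy.1 (by have := hy.2; omega)
    · refine ih.subset fun y hy => ⟨hy.1, ?_⟩
      have h1 : en1_rank X y ≠ r := fun e => h ⟨y, hy.1, e⟩
      have h2 := hy.2
      omega

lemma en1_least {X R : Set S} {e : S} (hc : Crd X) (hR : ClopIn R X) (he : e ∈ R) :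
    ∃ x ∈ R \ {e}, ∀ y ∈ R \ {e}, en1_rank X x ≤ en1_rank X y := by
  have hne : (R \ {e}).Nonempty :=
    (((hc.clop hR).inf ⟨e, he⟩).sdiff (finite_singleton e)).nonempty
  exact ⟨_, Function.argminOn_mem (en1_rank X) (R \ {e}) hne,
    fun y hy => Function.argminOn_le (en1_rank X) (R \ {e}) hy⟩

/-- states of the greedy construction: the rest, the last part and its point -/
def en1_St (X : Set S) (e : S) (p : Set S × Set S × S) : Prop :=
  ClopIn p.1 X ∧ e ∈ p.1 ∧ ClopIn p.2.1 X ∧ p.2.2 ∈ p.2.1 ∧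
    ∀ y ∈ p.1 \ {e}, en1_rank X p.2.2 ≤ en1_rank X y

/-- the greedy partition -/
lemma par_seq {X : Set S} {e : S} (he : e ∈ X) (hc : Crd X) (hsep : ∀ x ∈ X, QC X x = {x})
    (htot : ∀ x ∈ X, ∀ y ∈ X, Below X x y ∨ Below X y x)
    (hfin : ∀ x ∈ X, {y | Below X x y}.Finite) :
    ∃ (W : ℕ → Set S) (g : ℕ → S ≃ₜ S), (∀ i, ClopIn (W i) X) ∧
      (Pairwise fun i j => Disjoint (W i) (W j)) ∧ (⋃ i, W i) = X \ {e} ∧
      ∀ i, g i '' W (i + 1) ⊆ W i := by
  have step : ∀ p : {p // en1_St X e p}, ∃ (q : {p // en1_St X e p}) (g : S ≃ₜ S),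
      q.1.2.1 ⊆ p.1.1 \ {e} ∧ q.1.1 = p.1.1 \ q.1.2.1 ∧ g '' q.1.2.1 ⊆ p.1.2.1 := by
    rintro ⟨⟨R, W, x⟩, hR, heR, hW, hxW, hmin⟩
    obtain ⟨x', hx', hmin'⟩ := en1_least hc hR heR
    obtain ⟨g, N, hN, h1, h2, h3⟩ :=
      en1_below htot hfin (hR.1 hx'.1) (hW.1 hxW) (hmin x' hx')
    obtain ⟨N', hN', h4, h5⟩ := en1_sep hsep (hR.1 hx'.1) he (Ne.symm hx'.2)
    have hW' : ClopIn (N ∩ g ⁻¹' W ∩ R ∩ N') X := ((en1_pull g hN h3 hW).inter hR).inter hN'
    refine ⟨⟨(R \ (N ∩ g ⁻¹' W ∩ R ∩ N'), N ∩ g ⁻¹' W ∩ R ∩ N', x'), hR.diff hW',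
      ⟨heR, fun h => h5 h.2⟩, hW', ⟨⟨⟨h1, ?_⟩, hx'.1⟩, h4⟩,
      fun y hy => hmin' y ⟨hy.1.1, hy.2⟩⟩, g, ?_, rfl, ?_⟩
    · change g x' ∈ W
      rw [h2]
      exact hxW
    · intro y hy
      refine ⟨hy.1.2, fun h => h5 ?_⟩
      rw [← (h : y = e)]
      exact hy.2
    · rintro _ ⟨w, hw, rfl⟩
      exact hw.1.1.2
  choose f g h1 h2 h3 using step
  obtain ⟨x0, hx0, hmin0⟩ := en1_least hc (clopIn_self X) he
  let s : ℕ → {p // en1_St X e p} := fun n =>
    Nat.rec ⟨(X, X, x0), clopIn_self X, he, clopIn_self X, hx0.1, hmin0⟩ (fun _ p => f p) n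
  have hd : Pairwise fun i j => Disjoint (s (i + 1)).1.2.1 (s (j + 1)).1.2.1 :=
    en1_disj (R := fun n => (s n).1.1) (fun n => (h2 (s n)).subset.trans sdiff_subset)
      (fun n => (h1 (s n)).trans sdiff_subset)
      fun n => disjoint_left.2 fun y hy hy' => ((h2 (s n)).subset hy').2 hy
  refine ⟨fun n => (s (n + 1)).1.2.1, fun n => g (s (n + 1)), fun n => (s (n + 1)).2.2.2.1, hd,
    Subset.antisymm (iUnion_subset fun n y hy => ?_) fun y hy => ?_, fun n => h3 (s (n + 1))⟩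
  · exact ⟨(s n).2.1.1 (h1 (s n) hy).1, (h1 (s n) hy).2⟩
  · by_contra hn
    have hR : ∀ n, y ∈ (s n).1.1 := fun n => by
      induction n with
      | zero => exact hy.1
      | succ n ih => exact (h2 (s n)).superset ⟨ih, fun h => hn (mem_iUnion.2 ⟨n, h⟩)⟩
    have hinj : Function.Injective fun n => (s (n + 1)).1.2.2 := fun i j hij => by
      by_contra hne
      refine disjoint_left.1 (hd hne) (s (i + 1)).2.2.2.2.1 ?_
      rw [show (s (i + 1)).1.2.2 = (s (j + 1)).1.2.2 from hij]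
      exact (s (j + 1)).2.2.2.2.1
    exact infinite_of_injective_forall_mem hinj
      (s := {z | z ∈ X ∧ en1_rank X z < en1_rank X y + 1})
      (fun n => ⟨(s (n + 1)).2.2.2.1.1 (s (n + 1)).2.2.2.2.1,
        Nat.lt_succ_of_le ((s (n + 1)).2.2.2.2.2 y ⟨hR (n + 1), hy.2⟩)⟩) (en1_level htot hfin _)

end Pool.Agent.Lib.MP_52f683_gt
end

-- part Pool.Agent.Lib.MP_52f683_gt.CS.EN
section

set_option autoImplicit false
set_option linter.unusedSectionVars false

open Set Topology Filter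

namespace Pool.Agent.Lib.MP_52f683_gt

variable {S : Type*} [TopologicalSpace S] [T1Space S] [Infinite S]

lemma en_rem_sub {ι : Type*} {A : ι → Set S} (h : TauSum A) (i : ι) :
    Rem (A i) ⊆ Rem (⋃ j, A j) := by
  rintro x ⟨h1, h2⟩
  refine ⟨closure_mono (subset_iUnion A i) h1, fun h3 => ?_⟩
  obtain ⟨j, hj⟩ := mem_iUnion.1 h3
  have hij : i ≠ j := fun e => h2 (e ▸ hj)
  exact disjoint_left.1 (h j) hj
    (closure_mono (subset_biUnion_of_mem (u := A) (s := ({j}ᶜ : Set ι)) hij) h1)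

lemma en_cl_of_mem {ι : Type*} {A V : ι → Set S} (hV : TauSum V) (h : ∀ i, A i ⊆ V i) {i : ι}
    {x : S} (hx : x ∈ V i) (hc : x ∈ closure (⋃ j, A j)) : x ∈ closure (A i) := by
  have h1 : (⋃ j, A j) ⊆ A i ∪ ⋃ j ∈ ({i}ᶜ : Set ι), V j := iUnion_subset fun j y hy => by
    by_cases e : j = i
    · exact Or.inl (e ▸ hy)
    · exact Or.inr (mem_biUnion (x := j) e (h j hy))
  have h2 := closure_mono h1 hc
  rw [closure_union] at h2
  exact h2.resolve_right (disjoint_left.1 (hV i) hx)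

lemma en_sp {X : Set S} {W : ℕ → Set S} (h : ∀ i, ClopIn (W i) X)
    (hd : Pairwise fun i j => Disjoint (W i) (W j)) {ι κ : Type*} {p : ι → ℕ} {q : κ → ℕ}
    (hpq : ∀ i j, p i ≠ q j) : Sp (⋃ i, W (p i)) (⋃ j, W (q j)) :=
  ⟨disjoint_iUnion_left.2 fun i => (h (p i)).2.1.mono_right (closure_mono (iUnion_subset
      fun j y hy => (Set.mem_sdiff y).2
        ⟨(h _).1 hy, fun hy' => disjoint_left.1 (hd (hpq i j)) hy' hy⟩)),
    disjoint_iUnion_left.2 fun j => (h (q j)).2.1.mono_right (closure_mono (iUnion_subset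
      fun i y hy => (Set.mem_sdiff y).2
        ⟨(h _).1 hy, fun hy' => disjoint_left.1 (hd (hpq i j)) hy hy'⟩))⟩

lemma en_iso_part {A B : Set S} (h : Sp A B) {e : S} (he : e ∈ Iso (Rem (A ∪ B)))
    (hB : e ∉ closure B) : e ∈ Iso (Rem A) := by
  rw [rem_union h] at he
  exact ⟨he.1.resolve_right fun h' => hB h'.1, fun h' => he.2 (der_mono subset_union_left h')⟩

lemma en_iso_whole {X c m : Set S} (hX : Whole X c m) {e : S} (he : e ∈ X) :
    e ∈ Iso (Rem (X \ {e})) := by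
  have h1 : Rem (X \ {e}) ⊆ m ∪ {e} := by
    rintro x ⟨a1, a2⟩
    by_contra a3
    refine a2 ⟨?_, fun a4 => a3 (Or.inr a4)⟩
    rw [hX.eq]
    exact ⟨closure_minimal (sdiff_subset.trans hX.sub) hX.mem.cl a1, fun a4 => a3 (Or.inl a4)⟩
  refine ⟨⟨mem_cl_diff_single (hX.crdX he), fun h => h.2 rfl⟩, fun h => ?_⟩
  have h2 := der_mono h1 h
  rw [derivedSet_union, der_finite (finite_singleton e), union_empty] at h2
  have h3 := he
  rw [hX.eq] at h3
  exact h3.2 (der_sub_closed hX.cl subset_rfl h2)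

lemma en_clop {X A B : Set S} {e : S} (h : Sp A B) (hu : A ∪ B = X \ {e})
    (hB : e ∉ closure B) : ClopIn B X := by
  have h1 : B ⊆ X \ {e} := hu ▸ subset_union_right
  have h2 : Sp B {e} :=
    ⟨by rw [closure_singleton]; exact disjoint_singleton_right.2 fun a => (h1 a).2 rfl,
      disjoint_singleton_left.2 hB⟩
  refine ⟨h1.trans sdiff_subset, (h.symm.union_right h2).mono subset_rfl fun x hx => ?_⟩
  by_cases a : x = e
  · exact Or.inr a
  · have h3 : x ∈ A ∪ B := hu ▸ ⟨hx.1, a⟩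
    exact Or.inl (h3.resolve_right hx.2)

/-- a sum with an isolated remainder point has no whole host -/
lemma Ctx.host (hS : Ctx S) {Z : Set S} (hZ : IsClosed Z) (hZ' : Z ≠ univ) (hL : LFin Z)
    (W V : ℕ → Set S) (g : ℕ → S ≃ₜ S) (hW : TauSum W) (hV : TauSum V)
    (hsub : ∀ i, g i '' W i ⊆ V i) (hc : ∀ i, Crd (W i)) (hr : ∀ i, Crd (Rem (W i)))
    (hVZ : (⋃ i, V i) ⊆ Z) (hV1 : IsClosed (Rem (⋃ i, V i))) (hV2 : Crd (Rem (⋃ i, V i)))
    (he : (Iso (Rem (⋃ i, W i))).Nonempty) : False := by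
  have hA : TauSum fun i => g i '' W i := hV.mono hsub
  obtain ⟨h, hh⟩ := hS.thin.glueF W (fun i => g i '' W i) (fun i => ⟨g i, rfl⟩) hW hA
  obtain ⟨e, he⟩ := he
  have h1 : h e ∈ Iso (Rem (⋃ i, g i '' W i)) := by
    rw [← hh, ← img_rem, ← img_iso]
    exact mem_image_of_mem _ he
  by_cases h2 : h e ∈ ⋃ i, V i
  · obtain ⟨i, hi⟩ := mem_iUnion.1 h2
    have h3 : h e ∈ Rem (g i '' W i) :=
      ⟨en_cl_of_mem hV hsub hi h1.1.1, fun a => h1.1.2 (mem_iUnion.2 ⟨i, a⟩)⟩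
    have h4 : Crd (Rem (g i '' W i)) := by
      rw [← img_rem]
      exact (hr i).image _
    exact h1.2 (der_mono (en_rem_sub hA i) (h4 h3))
  · have h3 : (⋃ i, g i '' W i) ⊆ ⋃ i, V i := iUnion_mono hsub
    have c1 : closure (⋃ i, g i '' W i) ⊆ Z := closure_minimal (h3.trans hVZ) hZ
    have c2 : Rem (⋃ i, V i) ⊆ Z := sdiff_subset.trans (closure_minimal hVZ hZ)
    have h4 := hL.crd isClosed_closure (crd_iUnion fun i => (hc i).image (g i)).closure
      (fun a => hZ' (eq_univ_of_univ_subset (a ▸ c1))) hV1 hV2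
      (fun a => hZ' (eq_univ_of_univ_subset (a ▸ c2))) c1 c2
      ⟨h1.1.1, closure_mono h3 h1.1.1, h2⟩
    exact h1.2 (der_mono (fun y hy => (Set.mem_sdiff y).2 ⟨hy.1, fun a => hy.2.2 (h3 a)⟩) h4)

theorem Ctx.the_end (hS : Ctx S) {X c m : Set S} (hX : Whole X c m) (hL : LFin (c ∪ m))
    (hsep : ∀ x ∈ X, QC X x = {x}) (htot : ∀ x ∈ X, ∀ y ∈ X, Below X x y ∨ Below X y x) :
    False := by
  obtain ⟨e, he⟩ := hX.ne
  obtain ⟨W, g, hW, hd, hu, hg⟩ :=
    par_seq he hX.crdX hsep htot fun x hx => hS.up_finite hX hL hsep hx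
  have hZ : IsClosed (c ∪ m) := hX.mem.cl.union hX.cl
  have hZ' : c ∪ m ≠ univ := hS.union_ne hX.mem.cl hX.cl hX.mem.sm hX.sm
  have hc : ∀ i, Crd (W i) := fun i => hX.crdX.clop (hW i)
  have hsub : ∀ p : ℕ → ℕ, (⋃ i, W (p i)) ⊆ c ∪ m := fun p =>
    iUnion_subset fun i => ((hW _).1.trans hX.sub).trans subset_union_left
  have hτ : ∀ p : ℕ → ℕ, Function.Injective p → TauSum fun i => W (p i) := fun p hp =>
    tauSum_of_clop (fun i => hW (p i)) fun i j hij => hd fun a => hij (hp a)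
  have key : ∀ p : ℕ → ℕ, Function.Injective p → ClopIn (⋃ i, W (p i)) X →
      e ∈ Iso (Rem (⋃ i, W (p i + 1))) → False := fun p hp h1 h2 =>
    hS.host hZ hZ' hL (fun i => W (p i + 1)) (fun i => W (p i)) (fun i => g (p i))
      (hτ _ fun i j a => hp (Nat.succ_injective a)) (hτ p hp) (fun i => hg _) (fun i => hc _)
      (fun i => hX.rem_crd hL (hW _)) (hsub p)
      (by rw [hX.rem_eq h1]; exact isClosed_closure.inter hX.cl) (hX.rem_crd hL h1) ⟨e, h2⟩
  have hsp : Sp (⋃ i, W (2 * i)) (⋃ i, W (2 * i + 1)) := en_sp hW hd fun i j => by omega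
  have hun : (⋃ i, W (2 * i)) ∪ (⋃ i, W (2 * i + 1)) = X \ {e} := by
    rw [← hu]
    refine (union_subset (iUnion_subset fun i => subset_iUnion W _)
      (iUnion_subset fun i => subset_iUnion W _)).antisymm (iUnion_subset fun i x hx => ?_)
    obtain ⟨j, rfl | rfl⟩ := Nat.even_or_odd' i
    · exact Or.inl (mem_iUnion.2 ⟨j, hx⟩)
    · exact Or.inr (mem_iUnion.2 ⟨j, hx⟩)
  have hiso := en_iso_whole hX he
  rw [← hun] at hiso
  by_cases h0 : e ∈ closure (⋃ i, W (2 * i))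
  · have h1 : e ∈ Iso (Rem (⋃ i, W (2 * i))) := by
      refine ⟨⟨h0, fun a => hiso.1.2 (Or.inl a)⟩, fun a => hiso.2 (der_mono ?_ a)⟩
      rw [rem_union hsp]
      exact subset_union_left
    have h2 := hL.iso_not hZ hZ' (crd_iUnion fun i => hc _) (crd_iUnion fun i => hc _) (hsub _)
      (hsub _) hsp h1
    have h3 : Sp (⋃ i, W (2 * i + 1 + 1)) (⋃ _ : Unit, W 0) := en_sp hW hd fun i j => by omega
    have h4 : (⋃ i, W (2 * i)) = (⋃ i, W (2 * i + 1 + 1)) ∪ ⋃ _ : Unit, W 0 := by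
      refine (iUnion_subset fun i x hx => ?_).antisymm (union_subset
        (iUnion_subset fun i => subset_iUnion (fun i => W (2 * i)) (i + 1))
        (iUnion_subset fun _ => subset_iUnion (fun i => W (2 * i)) 0))
      rcases i with _ | i
      · exact Or.inr (mem_iUnion.2 ⟨(), hx⟩)
      · exact Or.inl (mem_iUnion.2 ⟨i, hx⟩)
    refine key (fun i => 2 * i + 1) (fun i j a => by simpa using a) (en_clop hsp hun h2)
      (en_iso_part h3 (h4 ▸ h1) fun a => ?_)
    rw [iUnion_const] at a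
    have h5 : e ∈ X \ {e} := hu ▸ mem_iUnion.2 ⟨0, (hW 0).closed ⟨a, he⟩⟩
    exact h5.2 rfl
  · rw [union_comm] at hiso hun
    exact key (fun i => 2 * i) (fun i j a => by simpa using a) (en_clop hsp.symm hun h0)
      (en_iso_part hsp.symm hiso h0)

end Pool.Agent.Lib.MP_52f683_gt
end

-- part Pool.Agent.Lib.MP_52f683_gt.F.BasicTmp
section

set_option autoImplicit false
set_option linter.unusedSectionVars false

open Set Topology Filter

namespace Pool.Agent.Lib.MP_52f683_gt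

variable {S : Type*} [TopologicalSpace S] [T1Space S]

/-- thin spaces all of whose discrete subsets are closed -/
structure CB (S : Type*) [TopologicalSpace S] : Prop where
  thin : Thin S
  cl : ∀ D : Set S, Disc D → IsClosed D

variable [Infinite S]

lemma CB.der_disc (hS : CB S) {D : Set S} (h : Disc D) : derivedSet D = ∅ :=
  eq_empty_of_forall_notMem fun _ hx =>
    disjoint_left.1 h (der_sub_closed (hS.cl D h) subset_rfl hx) hx

lemma CB.closed (hS : CB S) {D : Set S} (h : Disc D) : IsClosed D := by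
  rw [isClosed_iff_derivedSet_subset, hS.der_disc h]; exact empty_subset _

lemma CB.not_der (hS : CB S) {D : Set S} (h : Disc D) (x : S) : x ∉ derivedSet D := by
  rw [hS.der_disc h]; exact id

lemma CB.disc_union (hS : CB S) {D E : Set S} (h : Disc D) (h' : Disc E) : Disc (D ∪ E) := by
  unfold Disc; rw [derivedSet_union, hS.der_disc h, hS.der_disc h']; simp

lemma CB.union_ne (hS : CB S) {K L : Set S} (hK : IsClosed K) (hL : IsClosed L) (h1 : K ≠ univ)
    (h2 : L ≠ univ) : K ∪ L ≠ univ := hS.thin.union_ne hK hL h1 h2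

lemma CB.der_diff_disc (hS : CB S) {A D : Set S} {x : S} (h : Disc D) (hx : x ∈ derivedSet A) :
    x ∈ derivedSet (A \ D) := der_diff hx (hS.not_der h x)

lemma CB.crd_diff (hS : CB S) {A D : Set S} (hA : Crd A) (h : Disc D) : Crd (A \ D) :=
  fun _ hx => hS.der_diff_disc h (hA hx.1)

lemma CB.nwd_disc (hS : CB S) {A D : Set S} (hA : Crd A) (h : Disc D) : Nwd D A :=
  fun _ hx => der_sub_cl (hS.der_diff_disc h (hA hx))

/-- derived sets are crowded -/
lemma CB.crd_der (hS : CB S) (A : Set S) : Crd (derivedSet A) := fun x hx => by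
  have h1 : x ∈ derivedSet (closure A) := by rwa [derivedSet_closure]
  refine der_mono (fun y hy => ?_) (hS.der_diff_disc (disc_iso (closure A)) h1)
  by_contra hn
  exact hy.2 ⟨hy.1, by rwa [derivedSet_closure]⟩

lemma CB.disc_of_der (hS : CB S) {A : Set S} : Disc A ↔ derivedSet A = ∅ :=
  ⟨hS.der_disc, fun h => by simp [Disc, h]⟩

/-- the kernel of a non-discrete subset of a proper closed set -/
lemma CB.mem_der (hS : CB S) {A F : Set S} (hF : IsClosed F) (hF' : F ≠ univ) (hA : A ⊆ F)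
    (hne : (derivedSet A).Nonempty) : Mem (derivedSet A) :=
  ⟨isClosed_derivedSet A, hS.crd_der A, hne,
    fun e => hF' (eq_univ_of_univ_subset (e ▸ der_sub_closed hF hA))⟩

lemma CB.der_ne (hS : CB S) {A : Set S} (h : ¬ Disc A) : (derivedSet A).Nonempty :=
  nonempty_iff_ne_empty.2 fun e => h (hS.disc_of_der.2 e)

lemma CB.mem_union (hS : CB S) {K L : Set S} (h : Mem K) (h' : Mem L) : Mem (K ∪ L) :=
  ⟨h.cl.union h'.cl, h.crd.union h'.crd, h.ne.mono subset_union_left,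
    hS.union_ne h.cl h'.cl h.sm h'.sm⟩

lemma CB.exists_mem (hS : CB S) : ∃ K : Set S, Mem K := by
  by_contra hn
  refine hS.thin.not_nodec fun A hA => hS.closed (hS.disc_of_der.2 ?_)
  by_contra h
  exact hn ⟨_, hS.mem_der isClosed_closure hA subset_closure (nonempty_iff_ne_empty.2 h)⟩

/-- members are reducible -/
lemma CB.reducible (hS : CB S) {K : Set S} (h : Mem K) : ∃ U V : Set S, IsOpen U ∧ IsOpen V ∧
    (K ∩ U).Nonempty ∧ (K ∩ V).Nonempty ∧ Disjoint (K ∩ U) V := by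
  by_contra hn
  refine h.sm (hS.thin.irr_eq ⟨h.cl, fun U V hU hV h1 h2 => ?_, h.crd.inf h.ne⟩)
  by_contra h3
  refine hn ⟨U, V, hU, hV, h1, h2, disjoint_left.2 fun x hx hx' => h3 ⟨x, hx.1, hx.2, hx'⟩⟩

lemma CB.exists_cd_crd (hS : CB S) {A F : Set S} (hA : Crd A) (hne : A.Nonempty)
    (hF : IsClosed F) (hF' : F ≠ univ) (h : A ⊆ F) : ∃ D ⊆ A, CD D :=
  hS.thin.exists_cd_nondense (hA.inf hne) (mem_of_crd hA hne hF hF' h).sm

lemma CB.exists_cd_off (hS : CB S) {F : Set S} (hF : IsClosed F) (hF' : F ≠ univ) :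
    ∃ D, CD D ∧ Disjoint D F :=
  let ⟨D, h1, h2⟩ := hS.thin.exists_cd_compl hF hF'
  ⟨D, h2, disjoint_left.2 h1⟩

lemma CB.exists_off (_hS : CB S) {F : Set S} (hF' : F ≠ univ) : ∃ x, x ∉ F :=
  nonempty_compl.2 hF'

lemma CB.sp_disc (hS : CB S) {A D : Set S} (hD : Disc D) (h : Disjoint D (closure A)) :
    Sp A D :=
  ⟨by rw [(hS.closed hD).closure_eq]; exact (h.mono_right subset_closure).symm, h⟩

/-- moving discrete sets off a crowded set -/
lemma CB.move (hS : CB S) {A D D' : Set S} (hA : Crd A) (hD : Disc D) (hD' : Disc D')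
    (e : Eqv D D') (h1 : Disjoint D (closure A)) (h2 : Disjoint D' (closure A)) :
    ∃ k : S ≃ₜ S, k '' A = A ∧ k '' D = D' := by
  obtain ⟨k, hk⟩ := hS.thin.glueE e (Eqv.rfl' A) (hS.sp_disc hD h1).symm (hS.sp_disc hD' h2).symm
  have a : ∀ D : Set S, Disc D → Disjoint D (closure A) → Disjoint D (derivedSet (D ∪ A)) := by
    intro D hD h
    rw [derivedSet_union, hS.der_disc hD, empty_union]; exact h.mono_right der_sub_cl
  have b : ∀ D : Set S, A ⊆ derivedSet (D ∪ A) := fun D => hA.trans (der_mono subset_union_right)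
  exact ⟨k, (split_img k hk (a D hD h1) (b D) (a D' hD' h2) (b D')).symm⟩

lemma CB.move_cd (hS : CB S) {A D D' : Set S} (hA : Crd A) (hD : CD D) (hD' : CD D')
    (h1 : Disjoint D (closure A)) (h2 : Disjoint D' (closure A)) :
    ∃ k : S ≃ₜ S, k '' A = A ∧ k '' D = D' :=
  hS.move hA hD.dsc hD'.dsc (hS.thin.eqv_cd hD hD') h1 h2

lemma CB.move_pt (hS : CB S) {A : Set S} {x y : S} (hA : Crd A) (h1 : x ∉ closure A)
    (h2 : y ∉ closure A) : ∃ k : S ≃ₜ S, k '' A = A ∧ k x = y := by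
  obtain ⟨k, a, b⟩ := hS.move hA (disc_single x) (disc_single y)
    ((hS.thin.homog x y).imp fun g hg => by simp [hg]) (disjoint_singleton_left.2 h1)
    (disjoint_singleton_left.2 h2)
  exact ⟨k, a, by simpa using b⟩

/-- the group of a world is transitive off `n` -/
lemma CB.world_move (hS : CB S) {n b : Set S} (h : World n b) {x y : S} (hx : x ∉ n)
    (hy : y ∉ n) : ∃ k : S ≃ₜ S, k '' n = n ∧ k '' b = b ∧ k x = y := by
  obtain ⟨k, a, e⟩ := hS.move_pt (x := x) (y := y) h.crdP (by rwa [h.clP]) (by rwa [h.clP])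
  exact ⟨k, (h.fix a).1, (h.fix a).2, e⟩

lemma CB.world_empty (_hS : CB S) : World (∅ : Set S) ∅ :=
  ⟨isClosed_empty, crd_empty, empty_ne_univ, isClosed_empty, crd_empty, subset_rfl,
    empty_subset _⟩

end Pool.Agent.Lib.MP_52f683_gt
end
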