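import Pool.Agent.Lib.MP_52f683_gt.F.BasicTmp

-- part Pool.Agent.Lib.MP_52f683_gt.F.R0
section

set_option autoImplicit false
set_option linter.unusedSectionVars false

open Set Topology Filter

namespace Pool.Agent.Lib.MP_52f683_gt

variable {S : Type*} [TopologicalSpace S]

/-- the resolvable case -/
structure RC (S : Type*) [TopologicalSpace S] : Prop where
  thin : Thin S
  closed : ∀ D : Set S, Disc D → IsClosed D
  lf : LFin (univ : Set S)
  mi : ∀ (D n : Set S) (x : S), Disc D → Mem n → Disjoint D n → x ∉ D →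
    ∃ M, Mem M ∧ x ∈ M ∧ Disjoint M D
  ns : ∀ (X c m : Set S) (x : S), Whole X c m → ¬ Sharp X x
  res : ∀ K : Set S, Mem K → ∃ B ⊆ K, K ⊆ closure B ∧ K ⊆ closure (K \ B)

/-- crowded closed proper subsets, possibly empty -/
structure Cs (K : Set S) : Prop where
  cl : IsClosed K
  crd : Crd K
  sm : K ≠ univ

/-- a member with a far copy over a base -/
structure Wd (n c : Set S) (γ : S ≃ₜ S) : Prop where
  base : Cs n
  mem : Mem c
  nc : Nwd c n
  cn : Nwd n c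
  fix : γ '' n = n
  far : γ '' c ∩ c ⊆ n

/-- relatively open parts -/
def Opn (A X : Set S) : Prop := A ⊆ X ∧ Disjoint A (closure (X \ A))

lemma Mem.cs {K : Set S} (h : Mem K) : Cs K := ⟨h.cl, h.crd, h.sm⟩

lemma Cs.mem {K : Set S} (h : Cs K) (hne : K.Nonempty) : Mem K := ⟨h.cl, h.crd, hne, h.sm⟩

lemma Cs.image {K : Set S} (h : Cs K) (g : S ≃ₜ S) : Cs (g '' K) :=
  ⟨g.isClosed_image.2 h.cl, h.crd.image g, img_ne_univ g h.sm⟩

lemma r_ne_univ {A F : Set S} (h : A ⊆ F) (hF : F ≠ univ) : A ≠ univ :=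
  fun e => hF (eq_univ_of_univ_subset (e ▸ h))

lemma r_fix_mem {n : Set S} {k : S ≃ₜ S} (hk : k '' n = n) (x : S) : k x ∈ n ↔ x ∈ n := by
  conv_lhs => rw [← hk]
  exact mem_img k

lemma r_fix_symm {n : Set S} {k : S ≃ₜ S} (hk : k '' n = n) : k.symm '' n = n := by
  conv_lhs => rw [← hk]
  exact img_symm_img k n

lemma r_fix_trans {n : Set S} {h k : S ≃ₜ S} (hh : h '' n = n) (hk : k '' n = n) :
    (h.trans k) '' n = n := by rw [img_trans, hh, hk]

lemma r_fix_refl (n : Set S) : (Homeomorph.refl S) '' n = n := by simp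

lemma r_mem_img (k : S ≃ₜ S) {A : Set S} {y : S} : y ∈ k '' A ↔ k.symm y ∈ A := by
  conv_lhs => rw [← k.apply_symm_apply y]
  exact mem_img k

lemma r_mem_symm (k : S ≃ₜ S) {A : Set S} {y : S} : y ∈ k.symm '' A ↔ k y ∈ A := by
  rw [r_mem_img, Homeomorph.symm_symm]

lemma r_cl_img (k : S ≃ₜ S) {A : Set S} {y : S} : k y ∈ closure (k '' A) ↔ y ∈ closure A := by
  rw [← img_cl, mem_img]

lemma r_eqv_img (k : S ≃ₜ S) (A : Set S) : Eqv A (k '' A) := ⟨k, rfl⟩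

lemma r_nwd_left {C K L : Set S} (h : Nwd C K) (h' : Nwd C L) : Nwd C (K ∪ L) :=
  union_subset (h.trans (closure_mono (sdiff_subset_sdiff_left subset_union_left)))
    (h'.trans (closure_mono (sdiff_subset_sdiff_left subset_union_right)))

/-- a set that misses `C` has a closure in which `C` is nowhere dense -/
lemma r_nwd_cl {A C : Set S} (h : Disjoint A C) : Nwd C (closure A) :=
  closure_mono fun _ hx => ⟨subset_closure hx, disjoint_left.1 h hx⟩

lemma r_nwd_disj {C K : Set S} (h : Disjoint K C) : Nwd C K :=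
  fun _ hx => subset_closure ⟨hx, disjoint_left.1 h hx⟩

lemma r_nwd_eq {C K : Set S} (h : Nwd C K) (hK : IsClosed K) : closure (K \ C) = K :=
  (closure_minimal sdiff_subset hK).antisymm h

lemma r_nlc_empty {A O : Set S} (hO : IsOpen O) (h1 : A ⊆ O) (h2 : closure A ∩ O ⊆ A) :
    NLC A = ∅ :=
  eq_empty_of_forall_notMem fun _ hx =>
    closure_minimal (t := Oᶜ) (fun _ hy hyO => hy.2 (h2 ⟨hy.1, hyO⟩)) hO.isClosed_compl hx.2
      (h1 hx.1)

lemma r_nlc_diff {K F : Set S} (hK : IsClosed K) (hF : IsClosed F) : NLC (K \ F) = ∅ :=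
  r_nlc_empty hF.isOpen_compl (fun _ h => h.2)
    fun _ h => ⟨closure_minimal sdiff_subset hK h.1, h.2⟩

lemma r_nlc_closed {K : Set S} (hK : IsClosed K) : NLC K = ∅ := by
  simpa using r_nlc_diff hK isClosed_empty

lemma r_nlc_union {A B : Set S} (h : Sp A B) (hA : NLC A = ∅) (hB : NLC B = ∅) :
    NLC (A ∪ B) = ∅ := by rw [nlc_union h, hA, hB, empty_union]

lemma ClopIn.opn {N X : Set S} (h : ClopIn N X) : Opn N X := ⟨h.1, h.2.1⟩

lemma opn_inter {X W : Set S} (hW : IsOpen W) : Opn (X ∩ W) X :=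
  ⟨inter_subset_left, disjoint_left.2 fun _ hx hx' =>
    closure_minimal (t := Wᶜ) (fun _ hy h => hy.2 ⟨hy.1, h⟩) hW.isClosed_compl hx' hx.2⟩

lemma opn_diff {X F : Set S} (hF : IsClosed F) : Opn (X \ F) X := opn_inter hF.isOpen_compl

lemma Opn.eq {A X : Set S} (h : Opn A X) : A = X ∩ (closure (X \ A))ᶜ := by
  ext x
  exact ⟨fun hx => ⟨h.1 hx, disjoint_left.1 h.2 hx⟩,
    fun hx => by by_contra hn; exact hx.2 (subset_closure ⟨hx.1, hn⟩)⟩

lemma opn_iUnion {ι : Sort*} {A : ι → Set S} {X : Set S} (h : ∀ i, Opn (A i) X) :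
    Opn (⋃ i, A i) X :=
  ⟨iUnion_subset fun i => (h i).1, disjoint_iUnion_left.2 fun i =>
    (h i).2.mono_right (closure_mono (sdiff_subset_sdiff_right (subset_iUnion A i)))⟩

lemma Opn.inter {A B X : Set S} (h : Opn A X) (h' : Opn B X) : Opn (A ∩ B) X := by
  refine ⟨inter_subset_left.trans h.1, ?_⟩
  rw [sdiff_inter, closure_union]
  exact disjoint_union_right.2 ⟨h.2.mono_left inter_subset_left, h'.2.mono_left inter_subset_right⟩

lemma Opn.disj {A B X : Set S} (h : Opn A X) (hB : B ⊆ X) (hd : Disjoint A B) :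
    Disjoint A (closure B) :=
  h.2.mono_right (closure_mono fun y hy =>
    (Set.mem_sdiff y).2 ⟨hB hy, fun h' => disjoint_left.1 hd h' hy⟩)

lemma Opn.clop {A X : Set S} (h : Opn A X) (h' : closure A ∩ X ⊆ A) : ClopIn A X :=
  ⟨h.1, h.2, disjoint_left.2 fun _ hx hx' => hx.2 (h' ⟨hx', hx.1⟩)⟩

lemma Opn.nlc {A c n : Set S} (h : Opn A (c \ n)) (hc : IsClosed c) (hn : IsClosed n) :
    NLC A = ∅ := by
  have : A = c \ (n ∪ closure ((c \ n) \ A)) := by
    rw [← sdiff_sdiff]; exact h.eq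
  rw [this]
  exact r_nlc_diff hc (hn.union isClosed_closure)

lemma clopIn_empty (X : Set S) : ClopIn ∅ X := ⟨empty_subset _, by simp [Sp]⟩

/-- two labelled pieces are matched -/
lemma Thin.label (hS : Thin S) {A A' B B' : Set S} (hA : Eqv A A') (hB : Eqv B B') (h : Sp A B)
    (h' : Sp A' B') (a : NLC A = ∅) (b : NLC B = B) : ∃ k : S ≃ₜ S, k '' A = A' ∧ k '' B = B' := by
  obtain ⟨k, hk⟩ := hS.glueE hA hB h h'
  have a' : NLC A' = ∅ := by obtain ⟨g, rfl⟩ := hA; rw [← img_nlc, a, image_empty]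
  have b' : NLC B' = B' := by obtain ⟨g, rfl⟩ := hB; rw [← img_nlc, b]
  have e : k '' B = B' := by
    have := img_nlc k (A ∪ B)
    rwa [hk, nlc_union h, nlc_union h', a, a', b, b', empty_union, empty_union] at this
  refine ⟨k, ?_, e⟩
  rw [← union_sdiff_cancel_right (s := A) (t := B) h.disj.le_bot, img_diff, hk, e,
    union_sdiff_cancel_right h'.disj.le_bot]

variable [T1Space S]

lemma cs_cl {A F : Set S} (h : Crd A) (hF : IsClosed F) (hF' : F ≠ univ) (hA : A ⊆ F) :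
    Cs (closure A) :=
  ⟨isClosed_closure, h.closure, r_ne_univ (closure_minimal hA hF) hF'⟩

lemma Opn.crd {A X : Set S} (h : Opn A X) (hX : Crd X) : Crd A := by
  rw [h.eq]; exact hX.inter_open isClosed_closure.isOpen_compl

lemma r_disc_sel {ι : Type*} {W : ι → Set S} (h : TauSum W) {x : ι → S} (hx : ∀ i, x i ∈ W i) :
    Disc (range x) := by
  refine disjoint_left.2 ?_
  rintro _ ⟨i, rfl⟩ hd
  refine disjoint_left.1 (h i) (hx i) (closure_mono ?_ (mem_cl_diff_single hd))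
  rintro _ ⟨⟨j, rfl⟩, hj⟩
  exact mem_biUnion (x := j) (fun e => hj (by rw [mem_singleton_iff.1 e]; rfl)) (hx j)

variable [Infinite S]

lemma cs_empty : Cs (∅ : Set S) := ⟨isClosed_empty, crd_empty, empty_ne_univ⟩

section
variable (hS : RC S)
include hS

lemma RC.not_der {D : Set S} (h : Disc D) (x : S) : x ∉ derivedSet D := fun hx =>
  disjoint_left.1 h (der_sub_closed (hS.closed D h) subset_rfl hx) hx

lemma RC.der_disc {D : Set S} (h : Disc D) : derivedSet D = ∅ :=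
  eq_empty_of_forall_notMem (hS.not_der h)

lemma RC.disc_union {D E : Set S} (h : Disc D) (h' : Disc E) : Disc (D ∪ E) := by
  unfold Disc; rw [derivedSet_union, hS.der_disc h, hS.der_disc h']; simp

lemma RC.union_ne {K L : Set S} (hK : IsClosed K) (hL : IsClosed L) (h1 : K ≠ univ)
    (h2 : L ≠ univ) : K ∪ L ≠ univ := hS.thin.union_ne hK hL h1 h2

lemma RC.disc_ne {D : Set S} (h : Disc D) : D ≠ univ := fun e => by
  obtain ⟨x, y, hxy⟩ := exists_pair_ne S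
  refine hS.union_ne (K := {x}) (L := {x}ᶜ) isClosed_singleton
    (hS.closed _ (h.mono (e ▸ subset_univ _))) (fun a => ?_) (fun a => ?_) (union_compl_self _)
  · exact hxy (mem_singleton_iff.1 (a ▸ mem_univ y)).symm
  · exact (a ▸ mem_univ x : x ∈ ({x}ᶜ : Set S)) rfl

lemma RC.crd_diff {A D : Set S} (hA : Crd A) (h : Disc D) : Crd (A \ D) :=
  fun _ hx => der_diff (hA hx.1) (hS.not_der h _)

lemma RC.nwd_disc {A D : Set S} (hA : Crd A) (h : Disc D) : Nwd D A :=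
  fun _ hx => der_sub_cl (der_diff (hA hx) (hS.not_der h _))

lemma RC.crd_der (A : Set S) : Crd (derivedSet A) := fun x hx => by
  have h1 : x ∈ derivedSet (closure A) := by rwa [derivedSet_closure]
  refine der_mono (fun y hy => ?_) (der_diff h1 (hS.not_der (disc_iso (closure A)) x))
  by_contra hn
  exact hy.2 ⟨hy.1, by rwa [derivedSet_closure]⟩

lemma RC.cs_der {A F : Set S} (hF : IsClosed F) (hF' : F ≠ univ) (hA : A ⊆ F) :
    Cs (derivedSet A) :=
  ⟨isClosed_derivedSet A, hS.crd_der A, r_ne_univ (der_sub_closed hF hA) hF'⟩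

lemma RC.cs_union {K L : Set S} (h : Cs K) (h' : Cs L) : Cs (K ∪ L) :=
  ⟨h.cl.union h'.cl, h.crd.union h'.crd, hS.union_ne h.cl h'.cl h.sm h'.sm⟩

lemma RC.cs_inter {K L : Set S} (h : Cs K) (h' : Cs L) : Cs (K ∩ L) :=
  ⟨h.cl.inter h'.cl, hS.lf.crd h.cl h.crd h.sm h'.cl h'.crd h'.sm (subset_univ _) (subset_univ _),
    r_ne_univ inter_subset_left h.sm⟩

lemma RC.exists_mem : ∃ K : Set S, Mem K := by
  by_contra hn
  refine hS.thin.not_nodec fun A hA => hS.closed _ ?_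
  by_contra h
  obtain ⟨x, -, hx⟩ := not_disjoint_iff.1 h
  exact hn ⟨_, (hS.cs_der isClosed_closure hA subset_closure).mem ⟨x, hx⟩⟩

lemma RC.exists_off {F : Set S} (hF : IsClosed F) (hF' : F ≠ univ) (x : S) : ∃ z, z ∉ F ∧ z ≠ x := by
  obtain ⟨z, hz⟩ := nonempty_compl.2
    (hS.union_ne hF isClosed_singleton hF' (hS.disc_ne (disc_single x)))
  exact ⟨z, fun h => hz (Or.inl h), fun h => hz (Or.inr h)⟩

lemma RC.sp_disc {A D : Set S} (hD : Disc D) (h : Disjoint D (closure A)) : Sp A D :=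
  ⟨by rw [(hS.closed D hD).closure_eq]; exact (h.mono_right subset_closure).symm, h⟩

lemma RC.iso_union {A D : Set S} (hA : Crd A) (hD : Disc D) (h : Disjoint D (closure A)) :
    Iso (A ∪ D) = D := by
  unfold Iso
  rw [derivedSet_union, hS.der_disc hD, union_empty]
  exact Subset.antisymm (fun x hx => hx.1.resolve_left fun h' => hx.2 (hA h'))
    fun x hx => ⟨Or.inr hx, fun h' => disjoint_left.1 h hx (der_sub_cl h')⟩

/-- a map of a crowded set with a discrete set onto another one respects the two parts -/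
lemma RC.split {A A' D D' : Set S} {k : S ≃ₜ S} (e : k '' (A ∪ D) = A' ∪ D') (hA : Crd A)
    (hA' : Crd A') (hD : Disc D) (hD' : Disc D') (h : Disjoint D (closure A))
    (h' : Disjoint D' (closure A')) : k '' A = A' ∧ k '' D = D' := by
  have e1 : k '' D = D' := by
    rw [← hS.iso_union hA hD h, img_iso, e, hS.iso_union hA' hD' h']
  refine ⟨?_, e1⟩
  rw [← union_sdiff_cancel_right (s := A) (t := D) (h.mono_right subset_closure).symm.le_bot,
    img_diff, e, e1, union_sdiff_cancel_right (h'.mono_right subset_closure).symm.le_bot]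

lemma RC.move_pt {A : Set S} {x y : S} (hA : Crd A) (h1 : x ∉ closure A) (h2 : y ∉ closure A) :
    ∃ k : S ≃ₜ S, k '' A = A ∧ k x = y := by
  have d1 := disjoint_singleton_left.2 h1
  have d2 := disjoint_singleton_left.2 h2
  obtain ⟨k, hk⟩ := hS.thin.glueE (Eqv.rfl' A)
    ((hS.thin.homog x y).imp fun g hg => (by simp [hg] : g '' {x} = {y}))
    (hS.sp_disc (disc_single x) d1) (hS.sp_disc (disc_single y) d2)
  obtain ⟨a, b⟩ := hS.split hk hA hA (disc_single x) (disc_single y) d1 d2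
  exact ⟨k, a, by simpa using b⟩

lemma RC.move_off {n : Set S} {x y : S} (hn : Cs n) (h1 : x ∉ n) (h2 : y ∉ n) :
    ∃ k : S ≃ₜ S, k '' n = n ∧ k x = y :=
  hS.move_pt hn.crd (by rwa [hn.cl.closure_eq]) (by rwa [hn.cl.closure_eq])

/-- the isolated remainder point of a punctured part -/
lemma RC.iso_rem {U F : Set S} {x : S} (hU : Cs U) (hF : Cs F) (hx : x ∈ U) (hxF : x ∉ F) :
    x ∈ Rem ((U \ F) \ {x}) ∧ ∃ R, Cs R ∧ R ⊆ U ∩ F ∧ Rem ((U \ F) \ {x}) = R ∪ {x} := by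
  have h1 : Crd (U \ F) := hU.crd.diff_closed hF.cl
  have h2 : Crd ((U \ F) \ {x}) := h1.diff_closed isClosed_singleton
  have h3 : closure ((U \ F) \ {x}) ⊆ U := closure_minimal (sdiff_subset.trans sdiff_subset) hU.cl
  have h4 : x ∈ Rem ((U \ F) \ {x}) := ⟨mem_cl_diff_single (h1 ⟨hx, hxF⟩), fun h => h.2 rfl⟩
  refine ⟨h4, closure ((U \ F) \ {x}) ∩ F, hS.cs_inter (cs_cl h2 hU.cl hU.sm
    (sdiff_subset.trans sdiff_subset)) hF, inter_subset_inter_left _ h3, ?_⟩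
  refine Subset.antisymm (fun y hy => ?_) (union_subset (fun y hy => ⟨hy.1, fun h => h.1.2 hy.2⟩)
    (singleton_subset_iff.2 h4))
  by_contra hn
  exact hy.2 ⟨⟨h3 hy.1, fun h => hn (Or.inl ⟨hy.1, h⟩)⟩, fun h => hn (Or.inr h)⟩

/-- a dense label that is nowhere locally closed -/
lemma RC.label {K F : Set S} (hK : Cs K) (hF : IsClosed F) (h : Nwd F K) :
    ∃ B ⊆ K \ F, closure B = K ∧ NLC B = B := by
  rcases K.eq_empty_or_nonempty with rfl | hne
  · exact ⟨∅, empty_subset _, closure_empty, by simp [NLC]⟩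
  obtain ⟨B, b1, b2, b3⟩ := hS.res K (hK.mem hne)
  have e : closure (B \ F) = K := (closure_minimal (sdiff_subset.trans b1) hK.cl).antisymm
    (h.trans (closure_minimal (fun y hy => cl_diff_closed hF hy.2 (b2 hy.1)) isClosed_closure))
  refine ⟨B \ F, sdiff_subset_sdiff_left b1, e, Subset.antisymm (nlc_sub _) fun y hy => ⟨hy, ?_⟩⟩
  refine closure_mono (fun z hz => ?_) (b3 (b1 hy.1))
  exact ⟨e ▸ hz.1, fun h' => hz.2 h'.1⟩

/-- moving locally closed sets while the base is fixed -/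
lemma RC.pin {n F A A' : Set S} (hn : Cs n) (hF : IsClosed F) (h : Nwd F n) (e : Eqv A A')
    (a : NLC A = ∅) (h1 : A ⊆ F \ n) (h2 : A' ⊆ F \ n) :
    ∃ k : S ≃ₜ S, k '' n = n ∧ k '' A = A' := by
  obtain ⟨B, b1, b2, b3⟩ := hS.label hn hF h
  have sp : ∀ A : Set S, A ⊆ F \ n → Sp A B := fun A hA =>
    sp_of_closed hF hn.cl (hA.trans sdiff_subset) (b1.trans sdiff_subset)
      (disjoint_left.2 fun _ hx => (hA hx).2) (disjoint_left.2 fun _ hx => (b1 hx).2)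
  obtain ⟨k, k1, k2⟩ := hS.thin.label e (Eqv.rfl' B) (sp A h1) (sp A' h2) a b3
  exact ⟨k, by rw [← b2, img_cl, k2], k1⟩

/-- nested traces are equal -/
lemma RC.nest {p q : Set S} (g : S ≃ₜ S) (hp : Cs p) (hq : IsClosed q) (h1 : Nwd (q ∪ g '' q) p)
    (h2 : Nwd p q) (h3 : g '' q ∩ p ⊆ g '' p) : g '' (q ∩ p) ⊆ p := by
  have hgq := g.isClosed_image.2 hq
  obtain ⟨B, b1, b2, b3⟩ := hS.label hp (hq.union hgq) h1
  have s1 : Sp (q \ p) B := sp_of_closed hq hp.cl sdiff_subset (b1.trans sdiff_subset)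
    disjoint_sdiff_left (disjoint_left.2 fun _ hx hx' => (b1 hx).2 (Or.inl hx'))
  have s2 : Sp (g '' (q \ p)) B := sp_of_closed hgq hp.cl (image_mono sdiff_subset)
    (b1.trans sdiff_subset)
    (disjoint_left.2 fun y hy hy' => by
      rw [img_diff] at hy
      exact hy.2 (h3 ⟨hy.1, hy'⟩))
    (disjoint_left.2 fun _ hx hx' => (b1 hx).2 (Or.inr hx'))
  obtain ⟨k, k1, k2⟩ := hS.thin.label (r_eqv_img g _) (Eqv.rfl' B) s1 s2 (r_nlc_diff hq hp.cl) b3
  have kp : k '' p = p := by rw [← b2, img_cl, k2]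
  have kq : k '' q = g '' q := by
    rw [← r_nwd_eq h2 hq, img_cl, img_cl, k1]
  have : g '' (q ∩ p) = k '' (q ∩ p) := by
    rw [← sdiff_sdiff_right_self, img_diff, img_diff k, kq, k1]
  rw [this, img_inter, kp]
  exact inter_subset_right

/-- the stabilizer of a point is transitive on the other points -/
lemma RC.two {a b a' b' : S} (h : a ≠ b) (h' : a' ≠ b') : ∃ k : S ≃ₜ S, k a = a' ∧ k b = b' := by
  have key : ∀ x y z : S, x ≠ y → x ≠ z → ∃ k : S ≃ₜ S, k x = x ∧ k y = z := by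
    intro x y z hy hz
    by_cases e : y = z
    · exact ⟨Homeomorph.refl S, rfl, e⟩
    obtain ⟨K, hK⟩ := hS.exists_mem
    obtain ⟨u, hu, -⟩ := hS.exists_off hK.cl hK.sm x
    obtain ⟨v, hv, huv⟩ := hS.exists_off hK.cl hK.sm u
    obtain ⟨g, hg⟩ := hS.thin.pair huv e
    have hd : Disjoint ({y, z} : Set S) (g '' K) := by
      refine disjoint_left.2 fun w hw hw' => ?_
      rcases hg with ⟨rfl, rfl⟩ | ⟨rfl, rfl⟩ <;> rcases hw with rfl | rfl <;>
        first | exact hu ((mem_img g).1 hw') | exact hv ((mem_img g).1 hw')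
    obtain ⟨M, hM, hxM, hd'⟩ := hS.mi {y, z} _ x (disc_finite (toFinite _)) (hK.image g) hd
      (by simp [hy, hz])
    have c : closure (M \ {x}) = M := r_nwd_eq (hS.nwd_disc hM.crd (disc_single x)) hM.cl
    obtain ⟨k, k1, k2⟩ := hS.move_pt (x := y) (y := z) (hM.crd.diff_closed (isClosed_singleton (x := x)))
      (by rw [c]; exact disjoint_right.1 hd' (by simp))
      (by rw [c]; exact disjoint_right.1 hd' (by simp))
    have kM : k '' M = M := by rw [← c, img_cl, k1]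
    refine ⟨k, ?_, k2⟩
    by_contra hn
    have : k x ∈ k '' (M \ {x}) := by
      rw [k1]; exact ⟨kM ▸ mem_image_of_mem _ hxM, hn⟩
    exact ((mem_img k).1 this).2 rfl
  obtain ⟨g, rfl⟩ := hS.thin.homog a a'
  obtain ⟨k, k1, k2⟩ := key (g a) (g b) b' (fun e => h (g.injective e)) h'
  exact ⟨g.trans k, k1, k2⟩

end

section
variable {n c : Set S} {γ : S ≃ₜ S} (hW : Wd n c γ)
include hW

lemma Wd.whole : Whole (c \ n) c n :=
  ⟨hW.mem, hW.base.cl, hW.base.crd, hW.base.sm, rfl, by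
    by_contra h
    have := hW.cn
    rw [Nwd, not_nonempty_iff_eq_empty.1 h, closure_empty] at this
    exact hW.mem.ne.ne_empty (subset_empty_iff.1 this)⟩

lemma Wd.crdX : Crd (c \ n) := hW.whole.crdX

lemma Wd.cl_sub {A : Set S} (h : A ⊆ c \ n) : closure A ⊆ c :=
  closure_minimal (h.trans sdiff_subset) hW.mem.cl

lemma Wd.cs_cl {A : Set S} (h : A ⊆ c \ n) (hA : Crd A) : Cs (closure A) :=
  Pool.Agent.Lib.MP_52f683_gt.cs_cl hA hW.mem.cl hW.mem.sm (h.trans sdiff_subset)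

/-- the far copy misses the part off the base -/
lemma Wd.off {x : S} (hx : x ∈ c \ n) : x ∉ γ '' c := fun h => hx.2 (hW.far ⟨h, hx.1⟩)

lemma Wd.off' {x : S} (hx : x ∈ c \ n) : γ x ∉ c ∧ γ x ∉ n :=
  have h := mt (r_fix_mem hW.fix x).1 hx.2
  ⟨fun h' => h (hW.far ⟨mem_image_of_mem _ hx.1, h'⟩), h⟩

lemma Wd.nwd_img {k : S ≃ₜ S} (hk : k '' n = n) : Nwd (k '' c) n := by
  have := hW.nc.image k
  rwa [hk] at this

lemma Wd.sp {A B : Set S} (hA : A ⊆ c \ n) (hB : B ⊆ c \ n) : Sp A (γ '' B) :=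
  sp_of_closed hW.mem.cl (hW.mem.image γ).cl (hA.trans sdiff_subset)
    (image_mono (hB.trans sdiff_subset)) (disjoint_left.2 fun _ hx => hW.off (hA hx))
    (disjoint_left.2 (by rintro _ ⟨y, hy, rfl⟩; exact (hW.off' (hB hy)).1))

lemma Wd.img_sub {B : Set S} (hB : B ⊆ c \ n) : γ '' B ⊆ (c ∪ γ '' c) \ n := by
  rintro _ ⟨y, hy, rfl⟩
  exact ⟨Or.inr (mem_image_of_mem _ (hB hy).1), (hW.off' (hB hy)).2⟩

lemma Wd.sub_sub {B : Set S} (hB : B ⊆ c \ n) : B ⊆ (c ∪ γ '' c) \ n :=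
  hB.trans (sdiff_subset_sdiff_left subset_union_left)

variable (hS : RC S)
include hS

lemma RC.wpin {A A' : Set S} (e : Eqv A A') (a : NLC A = ∅) (h1 : A ⊆ (c ∪ γ '' c) \ n)
    (h2 : A' ⊆ (c ∪ γ '' c) \ n) : ∃ k : S ≃ₜ S, k '' n = n ∧ k '' A = A' :=
  hS.pin hW.base (hW.mem.cl.union (hW.mem.image γ).cl)
    (hW.nc.union (hW.nwd_img hW.fix) hW.mem.cl) e a h1 h2

/-- a member of the world through a point that misses a discrete set -/
lemma RC.wmi {D : Set S} {x : S} (hD : Disc D) (h : D ⊆ c \ n) (hx : x ∈ c) (hxD : x ∉ D) :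
    ∃ U, Mem U ∧ U ⊆ c ∧ x ∈ U ∧ Disjoint U D := by
  obtain ⟨M, m1, m2, m3⟩ := hS.mi D _ x hD (hW.mem.image γ)
    (disjoint_left.2 fun _ hy => hW.off (h hy)) hxD
  exact ⟨M ∩ c, (hS.cs_inter m1.cs hW.mem.cs).mem ⟨x, m2, hx⟩, inter_subset_right, ⟨m2, hx⟩,
    m3.mono_left inter_subset_left⟩

/-- transversal parts of two copies meet inside the base -/
lemma RC.td {k : S ≃ₜ S} (hk : k '' n = n) {s s' : Set S} (hs : Cs s) (hs' : IsClosed s')
    (h1 : s ⊆ c) (h2 : s' ⊆ k '' c) (n1 : Nwd (s' ∪ n) s) (n2 : Nwd (s ∪ n) s') : s ∩ s' ⊆ n := by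
  have hg : (k.symm.trans γ) '' n = n := r_fix_trans (r_fix_symm hk) hW.fix
  have h3 : (k.symm.trans γ) '' s' ⊆ γ '' c := by
    rw [img_trans]; exact image_mono ((image_mono h2).trans (img_symm_img k c).subset)
  have key := hS.nest (p := s ∪ n) (q := s') (k.symm.trans γ) (hS.cs_union hs hW.base) hs'
    (r_nwd_left
      (n1.trans (closure_mono fun y hy => ⟨hy.1, fun h => h.elim (fun h => hy.2 (Or.inl h))
        fun h => hy.2 (Or.inr (hW.far ⟨h3 h, h1 hy.1⟩))⟩))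
      (((hW.nwd_img hk).union (hW.nwd_img hW.fix) (hW.mem.image k).cl).mono
        (union_subset_union h2 h3))) n2
    (fun y hy => by
      rw [image_union, hg]
      exact Or.inr (hy.2.elim (fun h => hW.far ⟨h3 hy.1, h1 h⟩) id))
  intro y hy
  have h4 := mem_image_of_mem (k.symm.trans γ) (show y ∈ s' ∩ (s ∪ n) from ⟨hy.2, Or.inl hy.1⟩)
  refine (r_fix_mem hg y).1 ((key h4).elim (fun h => hW.far ⟨h3 ?_, h1 h⟩) id)
  exact mem_image_of_mem _ hy.2

lemma RC.ed {A : Set S} (h : Opn A (c \ n)) : ClopIn (closure A ∩ (c \ n)) (c \ n) := by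
  rw [h.eq]
  exact ed_of_perp hW.mem hW.base.cl rfl (fun s s' hs hs' a a' n1 n2 =>
    hS.td hW (r_fix_refl n) hs.cs hs'.cl a (by simpa using a') n1 n2) _
    isClosed_closure.isOpen_compl

lemma RC.ed_disj {A B : Set S} (h : Opn A (c \ n)) (h' : Opn B (c \ n)) (hd : Disjoint A B) :
    closure A ∩ closure B ⊆ n := fun y hy => by
  by_contra hn
  refine disjoint_left.1 ((hS.ed hW h).opn.disj h'.1 ?_) ⟨hy.1, hW.cl_sub h.1 hy.1, hn⟩ hy.2
  exact ((h'.disj h.1 hd.symm).symm).mono_left inter_subset_left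

/-- a clopen neighbourhood inside a closed neighbourhood -/
lemma RC.nbhd {F : Set S} {x : S} (hF : IsClosed F) (hx : x ∈ c \ n)
    (h : x ∉ closure ((c \ n) \ F)) : ∃ N, ClopIn N (c \ n) ∧ x ∈ N ∧ N ⊆ F := by
  refine ⟨_, (hS.ed hW (opn_diff hF)).compl, ⟨hx, fun a => h a.1⟩, fun y hy => ?_⟩
  by_contra hn
  exact hy.2 ⟨subset_closure ⟨hy.1, hn⟩, hy.1⟩

/-- comparison of two copies at a point -/
lemma RC.cmp {k : S ≃ₜ S} (hk : k '' n = n) {x : S} (hx : x ∈ c \ n) (hy : k x ∈ c \ n) :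
    (∃ N, ClopIn N (c \ n) ∧ x ∈ N ∧ k '' N ⊆ c \ n) ∨
      ∃ N, ClopIn N (c \ n) ∧ k x ∈ N ∧ k.symm '' N ⊆ c \ n := by
  have hc := hW.mem.image k
  have a' : k '' (c \ n) \ c ⊆ k '' c := sdiff_subset.trans (image_mono sdiff_subset)
  have key := hS.td hW hk (s := closure ((c \ n) \ k '' c)) (s' := closure (k '' (c \ n) \ c))
    (hW.cs_cl sdiff_subset (hW.crdX.diff_closed hc.cl)) isClosed_closure (hW.cl_sub sdiff_subset)
    (closure_minimal a' hc.cl)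
    (r_nwd_cl (disjoint_left.2 fun y hy h =>
      h.elim (fun h => hy.2 (closure_minimal a' hc.cl h)) hy.1.2))
    (r_nwd_cl (disjoint_left.2 fun y hy h => h.elim (fun h => hy.2 (hW.cl_sub sdiff_subset h))
      fun h => by
        obtain ⟨⟨w, hw, rfl⟩, -⟩ := hy
        exact hw.2 ((r_fix_mem hk w).1 h)))
  by_cases h : k x ∈ closure ((c \ n) \ k '' c)
  · left
    have h1 : x ∉ closure ((c \ n) \ k.symm '' c) := fun h1 => by
      rw [← r_cl_img k, img_diff, img_img_symm] at h1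
      exact hy.2 (key ⟨h, h1⟩)
    obtain ⟨N, n1, n2, n3⟩ := hS.nbhd hW (hW.mem.image k.symm).cl hx h1
    refine ⟨N, n1, n2, ?_⟩
    rintro _ ⟨w, hw, rfl⟩
    exact ⟨(r_mem_symm k).1 (n3 hw), mt (r_fix_mem hk w).1 (n1.1 hw).2⟩
  · right
    obtain ⟨N, n1, n2, n3⟩ := hS.nbhd hW hc.cl hy h
    refine ⟨N, n1, n2, ?_⟩
    rintro _ ⟨w, hw, rfl⟩
    exact ⟨(r_mem_img k).1 (n3 hw), mt (r_fix_mem (r_fix_symm hk) w).1 (n1.1 hw).2⟩

/-- a copy through a discrete set that misses a crowded closed set -/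
lemma RC.push {D R : Set S} (hD : Disc D) (h1 : D ⊆ c \ n) (hR : Crd R) (h2 : R ⊆ c \ n)
    (h3 : closure R \ n ⊆ R) (hd : Disjoint D R) :
    ∃ k : S ≃ₜ S, k '' n = n ∧ k '' D = D ∧ Disjoint (k '' c) R := by
  have d1 : Disjoint D (closure R) :=
    disjoint_left.2 fun y hy hy' => disjoint_left.1 hd hy (h3 ⟨hy', (h1 hy).2⟩)
  have s1 := hW.sp h2 h1
  obtain ⟨k, k1, k2⟩ := hS.wpin hW (A := R ∪ γ '' D) (A' := R ∪ D)
    (hS.thin.glueE (Eqv.rfl' R) (r_eqv_img γ D).symm s1 (hS.sp_disc hD d1))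
    (r_nlc_union s1 (r_nlc_empty hW.base.cl.isOpen_compl (fun _ h => (h2 h).2) h3)
      (r_nlc_closed (hS.closed _ (hD.image γ))))
    (union_subset (hW.sub_sub h2) (hW.img_sub h1)) (union_subset (hW.sub_sub h2) (hW.sub_sub h1))
  obtain ⟨e1, e2⟩ := hS.split k2 hR hR (hD.image γ) hD s1.2 d1
  refine ⟨γ.trans k, r_fix_trans hW.fix k1, by rw [img_trans, e2], ?_⟩
  rw [img_trans, ← e1, img_disj]
  exact disjoint_right.2 fun y hy => hW.off (h2 hy)

/-- gluing along two families of parts, with the base fixed -/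
lemma RC.wglue {ι : Type*} {P C : ι → Set S} (g : ι → S ≃ₜ S) (hP : ∀ i, ClopIn (P i) (c \ n))
    (dP : Pairwise fun i j => Disjoint (P i) (P j)) (hC : ∀ i, ClopIn (C i) (c \ n))
    (dC : Pairwise fun i j => Disjoint (C i) (C j)) (hg : ∀ i, g i '' P i ⊆ C i) :
    ∃ k : S ≃ₜ S, k '' n = n ∧ k '' (⋃ i, P i) = ⋃ i, g i '' P i :=
  hS.wpin hW (hS.thin.glueF P _ (fun i => r_eqv_img (g i) _) (tauSum_of_clop hP dP)
      ((tauSum_of_clop hC dC).mono hg))
    ((opn_iUnion fun i => (hP i).opn).nlc hW.mem.cl hW.base.cl)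
    (hW.sub_sub (iUnion_subset fun i => (hP i).1))
    (hW.sub_sub (iUnion_subset fun i => (hg i).trans (hC i).1))

/-- a sum that is hosted without remainder is closed -/
lemma RC.whost {ι : Type*} {P C : ι → Set S} (g : ι → S ≃ₜ S) (hP : ∀ i, ClopIn (P i) (c \ n))
    (dP : Pairwise fun i j => Disjoint (P i) (P j)) (hC : ∀ i, ClopIn (C i) (c \ n))
    (dC : Pairwise fun i j => Disjoint (C i) (C j)) (hg : ∀ i, g i '' P i ⊆ C i)
    (hn : ∀ i, g i '' n = n) (hcl : closure (⋃ i, g i '' P i) \ n ⊆ ⋃ i, C i) :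
    closure (⋃ i, P i) \ n ⊆ ⋃ i, P i := by
  obtain ⟨k, k1, k2⟩ := hS.wglue hW g hP dP hC dC hg
  rintro y ⟨h1, h2⟩
  rw [← r_cl_img k, k2] at h1
  have h3 := mt (r_fix_mem k1 y).1 h2
  obtain ⟨i, hi⟩ := mem_iUnion.1 (hcl ⟨h1, h3⟩)
  have h4 := en_cl_of_mem (tauSum_of_clop hC dC) hg hi h1
  rw [← img_cl] at h4
  obtain ⟨w, hw, e⟩ := h4
  rw [← mem_img k, k2, ← e]
  refine mem_iUnion.2 ⟨i, mem_image_of_mem _ ((hP i).closed ⟨hw, hW.cl_sub (hP i).1 hw, ?_⟩)⟩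
  exact fun h => h3 (e ▸ (r_fix_mem (hn i) w).2 h)

end

end Pool.Agent.Lib.MP_52f683_gt
end

-- part Pool.Agent.Lib.MP_52f683_gt.F.Z1
section

set_option autoImplicit false
set_option linter.unusedSectionVars false

open Set Topology Filter

namespace Pool.Agent.Lib.MP_52f683_gt

universe u

variable {S : Type u} [TopologicalSpace S] [T1Space S] [Infinite S]

/-- the size of a set -/
abbrev sz (A : Set S) : Cardinal.{u} := Cardinal.mk A

/-- discrete sets of a given size -/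
def DS (κ : Cardinal.{u}) (D : Set S) : Prop := Disc D ∧ sz D = κ

/-- a discrete set of the given size misses `F` -/
def ZG (κ : Cardinal.{u}) (F : Set S) : Prop := ∃ D, DS κ D ∧ Disjoint D F

/-- every member is missed by a discrete set of the given size -/
def AG (S : Type u) [TopologicalSpace S] (κ : Cardinal.{u}) : Prop := ∀ M : Set S, Mem M → ZG κ M

lemma z_sz_img (g : S ≃ₜ S) (A : Set S) : sz (g '' A) = sz A := Cardinal.mk_image_eq g.injective

lemma z_sz_mono {A B : Set S} (h : A ⊆ B) : sz A ≤ sz B := Cardinal.mk_le_mk_of_subset h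

lemma DS.image {κ : Cardinal.{u}} {D : Set S} (h : DS κ D) (g : S ≃ₜ S) : DS κ (g '' D) :=
  ⟨h.1.image g, (z_sz_img g D).trans h.2⟩

lemma DS.sub {κ μ : Cardinal.{u}} {D : Set S} (h : DS κ D) (hμ : μ ≤ κ) : ∃ E ⊆ D, DS μ E := by
  obtain ⟨E, h1, h2⟩ := Cardinal.le_mk_iff_exists_subset.1 (hμ.trans h.2.ge)
  exact ⟨E, h1, h.1.mono h1, h2⟩

lemma ZG.image {κ : Cardinal.{u}} {F : Set S} (h : ZG κ F) (g : S ≃ₜ S) : ZG κ (g '' F) :=
  let ⟨D, h1, h2⟩ := h
  ⟨g '' D, h1.image g, (img_disj g).2 h2⟩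

lemma ZG.of_image {κ : Cardinal.{u}} {F : Set S} (g : S ≃ₜ S) (h : ZG κ (g '' F)) : ZG κ F := by
  simpa only [img_symm_img] using h.image g.symm

lemma ZG.le {κ μ : Cardinal.{u}} {F : Set S} (h : ZG κ F) (hμ : μ ≤ κ) : ZG μ F :=
  let ⟨_, h1, h2⟩ := h
  let ⟨E, h3, h4⟩ := h1.sub hμ
  ⟨E, h4, h2.mono_left h3⟩

lemma AG.le {κ μ : Cardinal.{u}} (h : AG S κ) (hμ : μ ≤ κ) : AG S μ :=
  fun M hM => (h M hM).le hμ

lemma z_split {κ : Cardinal.{u}} (hκ : Cardinal.aleph0 ≤ κ) {D A B : Set S} (h : sz D = κ)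
    (hs : D ⊆ A ∪ B) : sz (D ∩ A) = κ ∨ sz (D ∩ B) = κ := by
  by_contra hn
  rw [not_or] at hn
  have a1 : sz (D ∩ A) < κ := lt_of_le_of_ne (h ▸ z_sz_mono inter_subset_left) hn.1
  have a2 : sz (D ∩ B) < κ := lt_of_le_of_ne (h ▸ z_sz_mono inter_subset_left) hn.2
  have a3 : sz D ≤ sz (D ∩ A) + sz (D ∩ B) := by
    refine le_trans (z_sz_mono fun x hx => ?_) (Cardinal.mk_union_le _ _)
    exact (hs hx).imp (fun h => ⟨hx, h⟩) fun h => ⟨hx, h⟩
  exact absurd (h ▸ a3) (not_le.2 (Cardinal.add_lt_of_lt hκ a1 a2))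

lemma z_sz_union {κ : Cardinal.{u}} (hκ : Cardinal.aleph0 ≤ κ) {A B : Set S} (hA : sz A ≤ κ)
    (hB : sz B ≤ κ) : sz (A ∪ B) ≤ κ :=
  (Cardinal.mk_union_le _ _).trans (Cardinal.add_le_of_le hκ hA hB)

lemma z_sz_union_lt {κ : Cardinal.{u}} (hκ : Cardinal.aleph0 ≤ κ) {A B : Set S} (hA : sz A < κ)
    (hB : sz B < κ) : sz (A ∪ B) < κ :=
  (Cardinal.mk_union_le _ _).trans_lt (Cardinal.add_lt_of_lt hκ hA hB)

lemma z_sz_single {κ : Cardinal.{u}} (hκ : Cardinal.aleph0 ≤ κ) (x : S) : sz ({x} : Set S) < κ := by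
  rw [sz, Cardinal.mk_singleton]; exact Cardinal.one_lt_aleph0.trans_le hκ

lemma z_sz_diff {κ : Cardinal.{u}} (hκ : Cardinal.aleph0 ≤ κ) {D A : Set S} (h : sz D = κ)
    (hA : sz (D ∩ A) < κ) : sz (D \ A) = κ :=
  (z_split (A := A) (B := Aᶜ) hκ h (by simp)).resolve_left hA.ne

lemma z_half {E : Set S} (h : Cardinal.aleph0 ≤ sz E) :
    ∃ A ⊆ E, ∃ B ⊆ E, Disjoint A B ∧ sz A = sz E ∧ sz B = sz E := by
  obtain ⟨f⟩ : Nonempty (E ⊕ E ≃ E) :=
    Cardinal.eq.1 (by simpa using Cardinal.add_eq_self h)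
  refine ⟨range fun x => (f (Sum.inl x) : S), ?_, range fun x => (f (Sum.inr x) : S), ?_, ?_,
    Cardinal.mk_range_eq _ fun x y e => ?_, Cardinal.mk_range_eq _ fun x y e => ?_⟩
  · rintro _ ⟨x, rfl⟩; exact (f _).2
  · rintro _ ⟨x, rfl⟩; exact (f _).2
  · rw [disjoint_left]
    rintro _ ⟨x, rfl⟩ ⟨y, e⟩
    exact Sum.inr_ne_inl (f.injective (Subtype.ext e))
  · exact Sum.inl_injective (f.injective (Subtype.ext e))
  · exact Sum.inr_injective (f.injective (Subtype.ext e))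

lemma Thin.z_eqv (hS : Thin S) {A B : Set S} (hA : Disc A) (hB : Disc B) (h : sz A = sz B) :
    Eqv A B := by
  have := discreteTopology_of_noAccPts (E := A) fun x hx h => disjoint_left.1 hA hx h
  have := discreteTopology_of_noAccPts (E := B) fun x hx h => disjoint_left.1 hB hx h
  obtain ⟨e⟩ : Nonempty (A ≃ B) := Cardinal.eq.1 h
  exact hS A B ⟨e.toHomeomorphOfDiscrete⟩

lemma CB.z_eqv (hS : CB S) {κ : Cardinal.{u}} {A B : Set S} (hA : DS κ A) (hB : DS κ B) :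
    ∃ g : S ≃ₜ S, g '' A = B := hS.thin.z_eqv hA.1 hB.1 (hA.2.trans hB.2.symm)

lemma CB.z_union (hS : CB S) {κ : Cardinal.{u}} (hκ : Cardinal.aleph0 ≤ κ) {A B : Set S}
    (hA : DS κ A) (hB : Disc B) (h : sz B ≤ κ) : DS κ (A ∪ B) :=
  ⟨hS.disc_union hA.1 hB, (z_sz_union hκ hA.2.le h).antisymm
    (hA.2.ge.trans (z_sz_mono subset_union_left))⟩

/-- a translate of a good set misses a given discrete set -/
lemma CB.z_off (hS : CB S) {κ : Cardinal.{u}} {K E : Set S} (hK : ZG κ K) (hE : DS κ E) :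
    ∃ k : S ≃ₜ S, Disjoint (k '' K) E := by
  obtain ⟨D, h1, h2⟩ := hK
  obtain ⟨k, rfl⟩ := hS.z_eqv h1 hE
  exact ⟨k, (img_disj k).2 h2.symm⟩

/-- the kernel lemma -/
lemma CB.z_ker (hS : CB S) {κ : Cardinal.{u}} (hκ : Cardinal.aleph0 ≤ κ) {F : Set S}
    (h : ZG κ (derivedSet F)) : ZG κ F := by
  obtain ⟨D, hD, hd⟩ := h
  have hF : ∀ A : Set S, Disjoint A (derivedSet F) → Disjoint A (Iso F) → Disjoint A F :=
    fun A h1 h2 => disjoint_left.2 fun x hx hx' =>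
      disjoint_left.1 h2 hx ⟨hx', disjoint_left.1 h1 hx⟩
  rcases z_split (A := (Iso F)ᶜ) (B := Iso F) hκ hD.2 (by simp) with h1 | h1
  · exact ⟨_, ⟨hD.1.mono inter_subset_left, h1⟩, hF _ (hd.mono_left inter_subset_left)
      (disjoint_left.2 fun _ hx => hx.2)⟩
  have h2 : κ ≤ sz (Iso F) := h1.ge.trans (z_sz_mono inter_subset_right)
  obtain ⟨A, hA, B, hB, hAB, e1, e2⟩ := z_half (hκ.trans h2)
  have c : closure (derivedSet F) = derivedSet F := (isClosed_derivedSet F).closure_eq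
  have d : Disjoint (Iso F) (derivedSet F) := disjoint_sdiff_left
  obtain ⟨k, k1, k2⟩ := hS.move (hS.crd_der F) (disc_iso F) ((disc_iso F).mono hA)
    (hS.thin.z_eqv (disc_iso F) ((disc_iso F).mono hA) e1.symm) (by rwa [c])
    (by rw [c]; exact d.mono_left hA)
  refine ZG.le ⟨k.symm '' B, DS.image ⟨(disc_iso F).mono hB, e2⟩ _, hF _ ?_ ?_⟩ h2
  · rw [← img_disj k, img_img_symm, k1]; exact d.mono_left hB
  · rw [← img_disj k, img_img_symm, k2]; exact hAB.symm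

/-- induction on the size of a discrete set -/
lemma CB.z_ind (hS : CB S) (P : S → Set S → Prop)
    (inv : ∀ (g : S ≃ₜ S) y E, P y E → P (g y) (g '' E))
    (mono : ∀ y E E', P y E → E' ⊆ E → P y E')
    (un : ∀ y E E', P y E → P y E' → P y (E ∪ E')) (one : ∀ y p, p ≠ y → P y {p})
    {y0 : S} {E0 : Set S} (h0 : Disc E0) (h1 : P y0 E0) {E : Set S} {y : S} (hE : Disc E)
    (hs : sz E ≤ sz E0) (hy : y ∉ E) : P y E := by
  have fin : ∀ E : Set S, E.Finite → ∀ y ∉ E, P y E := by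
    intro E hf y
    induction E, hf using Set.Finite.induction_on with
    | empty =>
      obtain ⟨p, hp⟩ := exists_ne y
      exact fun _ => mono _ _ _ (one y p hp) (empty_subset _)
    | insert _ _ ih =>
      intro hy
      rw [mem_insert_iff, not_or] at hy
      exact un _ _ _ (one y _ (Ne.symm hy.1)) (ih hy.2)
  generalize hκ : sz E = κ at hs
  induction κ using WellFoundedLT.induction generalizing E y with
  | ind κ ih =>
  by_cases hf : κ < Cardinal.aleph0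
  · exact fin E (Cardinal.lt_aleph0_iff_set_finite.1 (hκ.trans_lt hf)) y hy
  have hi : Cardinal.aleph0 ≤ κ := not_lt.1 hf
  have ins : ∀ (A : Set S) (z : S), DS κ A → DS κ (A ∪ {z}) := fun A z hA =>
    hS.z_union hi hA (disc_single z) (z_sz_single hi z).le
  have hA := ins E y ⟨hE, hκ⟩
  obtain ⟨O, hO⟩ : ∃ O, O = {z | z ∈ E ∪ {y} ∧ P z ((E ∪ {y}) \ {z})} := ⟨_, rfl⟩
  have sO : O ⊆ E ∪ {y} := fun z hz => (hO ▸ hz).1
  have big : sz O = κ := by
    by_contra hn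
    have lt : sz O < κ := lt_of_le_of_ne (hA.2 ▸ z_sz_mono sO) hn
    have h2 : DS κ ((E ∪ {y}) \ O) := ⟨hA.1.mono sdiff_subset,
      z_sz_diff hi hA.2 ((z_sz_mono inter_subset_right).trans_lt lt)⟩
    obtain ⟨E1, s1, d1⟩ := DS.sub ⟨h0, rfl⟩ hs
    obtain ⟨g, hg⟩ := hS.z_eqv (ins E1 y0 d1) h2
    have h3 : g y0 ∈ (E ∪ {y}) \ O := hg ▸ mem_image_of_mem g (Or.inr rfl)
    refine h3.2 (hO ▸ ⟨h3.1, mono _ _ _ (un _ _ _ (inv g _ _ (mono _ _ _ h1 s1))
      (ih _ lt (hA.1.mono sO) h3.2 rfl (lt.le.trans hs))) fun z hz => ?_⟩)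
    by_cases h4 : z ∈ O
    · exact Or.inr h4
    · have h5 : z ∈ g '' (E1 ∪ {y0}) := hg ▸ ⟨hz.1, h4⟩
      obtain ⟨w, hw | hw, rfl⟩ := h5
      · exact Or.inl (mem_image_of_mem g hw)
      · exact absurd (congrArg g hw) hz.2
  obtain ⟨g, hg⟩ := hS.z_eqv ⟨hA.1.mono sO, big⟩ hA
  obtain ⟨w, hw, e⟩ : y ∈ g '' O := hg ▸ Or.inr rfl
  have h6 := inv g _ _ (mono _ _ (O \ {w}) (hO ▸ hw).2 (sdiff_subset_sdiff_left sO))
  rw [img_diff, hg, image_singleton, e] at h6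
  exact mono _ _ _ h6 fun z hz => ⟨Or.inl hz, fun h => hy (mem_singleton_iff.1 h ▸ hz)⟩

/-- two complementary regions of a member -/
lemma CB.z_regions (hS : CB S) {K : Set S} (hK : Mem K) : ∃ r r' : Set S, Mem r ∧ Mem r' ∧
    r ∪ r' = K ∧ Nwd r r' ∧ Nwd r' r := by
  obtain ⟨U, V, hU, hV, h1, ⟨v, hv⟩, h3⟩ := hS.reducible hK
  have s1 : closure (K ∩ U) ⊆ K := closure_minimal inter_subset_left hK.cl
  have s2 : closure (K \ closure (K ∩ U)) ⊆ K := closure_minimal sdiff_subset hK.cl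
  have d : Disjoint U (closure (K \ closure (K ∩ U))) :=
    Disjoint.closure_right (disjoint_left.2 fun z hz hz' => hz'.2 (subset_closure ⟨hz'.1, hz⟩)) hU
  refine ⟨_, _, mem_of_crd (hK.crd.diff_closed isClosed_closure)
      ⟨v, hv.1, disjoint_right.1 (h3.closure_left hV) hv.2⟩ hK.cl hK.sm sdiff_subset,
    mem_of_crd (hK.crd.inter_open hU) h1 hK.cl hK.sm inter_subset_left,
    (union_subset s2 s1).antisymm fun x hx => ?_,
    closure_mono fun z hz => ⟨subset_closure hz, disjoint_left.1 d hz.2⟩,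
    closure_mono fun z hz => ⟨subset_closure hz, hz.2⟩⟩
  by_cases k : x ∈ closure (K ∩ U)
  exacts [Or.inr k, Or.inl (subset_closure ⟨hx, k⟩)]

lemma z_nwd_ne {C K : Set S} (h : Nwd C K) (hK : K.Nonempty) : (K \ C).Nonempty :=
  closure_nonempty_iff.1 (hK.mono h)

/-- a member around a discrete set that misses a given point -/
lemma CB.z_cosep (hS : CB S) {M0 E : Set S} {y : S} (h0 : Mem M0) (hE : Disc E) (hs : E ⊆ M0)
    (hy : y ∉ E) : ∃ M, Mem M ∧ E ⊆ M ∧ y ∉ M := by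
  obtain ⟨y0, hy0⟩ := hS.exists_off h0.sm
  refine hS.z_ind (fun y E => ∃ M, Mem M ∧ E ⊆ M ∧ y ∉ M) ?_ ?_ ?_ ?_ hE ⟨M0, h0, hs, hy0⟩ hE
    le_rfl hy
  · rintro g y E ⟨M, h1, h2, h3⟩
    exact ⟨g '' M, h1.image g, image_mono h2, fun h => h3 ((mem_img g).1 h)⟩
  · rintro y E E' ⟨M, h1, h2, h3⟩ h
    exact ⟨M, h1, h.trans h2, h3⟩
  · rintro y E E' ⟨M, h1, h2, h3⟩ ⟨M', h1', h2', h3'⟩
    exact ⟨M ∪ M', hS.mem_union h1 h1', union_subset_union h2 h2', fun h => h.elim h3 h3'⟩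
  · intro y p hp
    obtain ⟨r, r', m, m', -, n, n'⟩ := hS.z_regions h0
    obtain ⟨a, ha⟩ := z_nwd_ne n' m.ne
    obtain ⟨b, hb⟩ := z_nwd_ne n m'.ne
    obtain ⟨h, ⟨rfl, rfl⟩ | ⟨rfl, rfl⟩⟩ := hS.thin.pair (a := a) (b := b) (c := p) (d := y)
      (fun e => ha.2 (e ▸ hb.1)) hp
    · exact ⟨h '' r, m.image h, singleton_subset_iff.2 (mem_image_of_mem h ha.1),
        fun e => hb.2 ((mem_img h).1 e)⟩
    · exact ⟨h '' r', m'.image h, singleton_subset_iff.2 (mem_image_of_mem h hb.1),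
        fun e => ha.2 ((mem_img h).1 e)⟩

/-- the group of `M \ F` fixes `F` and is transitive off `M` -/
lemma CB.z_hole (hS : CB S) {M F : Set S} {x y : S} (hM : Mem M) (hF : IsClosed F) (hs : F ⊆ M)
    (hn : Nwd F M) (hx : x ∉ M) (hy : y ∉ M) : ∃ k : S ≃ₜ S, k '' F = F ∧ k x = y := by
  have e : closure (M \ F) = M := (closure_minimal sdiff_subset hM.cl).antisymm hn
  obtain ⟨k, k1, k2⟩ := hS.move_pt (x := x) (y := y) (hM.crd.diff_closed hF) (by rwa [e])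
    (by rwa [e])
  have r : Rem (M \ F) = F := by rw [Rem, e, sdiff_sdiff_right_self, inter_eq_right.2 hs]
  exact ⟨k, by rw [← r, img_rem, k1], k2⟩

/-- the group of a discrete set is transitive on the complement -/
lemma CB.z_pt (hS : CB S) {M0 E : Set S} {x y : S} (h0 : Mem M0) (hE : Disc E) (hs : E ⊆ M0)
    (hx : x ∉ E) (hy : y ∉ E) : ∃ k : S ≃ₜ S, k '' E = E ∧ k x = y := by
  obtain ⟨M, m, s, a⟩ := hS.z_cosep h0 hE hs hx
  obtain ⟨M', m', s', a'⟩ := hS.z_cosep h0 hE hs hy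
  obtain ⟨z, hz⟩ := hS.exists_off (hS.mem_union m m').sm
  obtain ⟨k, k1, k2⟩ := hS.z_hole m (hS.closed hE) s (hS.nwd_disc m.crd hE) a fun h => hz (Or.inl h)
  obtain ⟨k', k1', k2'⟩ := hS.z_hole m' (hS.closed hE) s' (hS.nwd_disc m'.crd hE) a'
    fun h => hz (Or.inr h)
  refine ⟨k.trans k'.symm, ?_, ?_⟩
  · rw [img_trans, k1]
    conv_lhs => rw [← k1']
    exact img_symm_img k' E
  · rw [Homeomorph.trans_apply, k2, ← k2', k'.symm_apply_apply]

/-- a pointed translate of a good set missing a discrete set -/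
lemma CB.z_sep (hS : CB S) {M0 E K : Set S} {x0 x : S} (h0 : Mem M0) (hE : Disc E) (hs : E ⊆ M0)
    (hK : ZG (sz E) K) (hx0 : x0 ∈ K) (hx : x ∉ E) :
    ∃ k : S ≃ₜ S, k x0 = x ∧ Disjoint (k '' K) E := by
  obtain ⟨k0, h1⟩ := hS.z_off hK ⟨hE, rfl⟩
  obtain ⟨k, k1, k2⟩ := hS.z_pt h0 hE hs (disjoint_left.1 h1 (mem_image_of_mem k0 hx0)) hx
  refine ⟨k0.trans k, k2, ?_⟩
  rw [img_trans, ← k1]
  exact (img_disj k).2 h1

end Pool.Agent.Lib.MP_52f683_gt
end

-- part Pool.Agent.Lib.MP_52f683_gt.F.Z2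
section

set_option autoImplicit false
set_option linter.unusedSectionVars false

open Set Topology Filter

namespace Pool.Agent.Lib.MP_52f683_gt

universe u

variable {S : Type u} [TopologicalSpace S] [T1Space S] [Infinite S]

/-- a pin with three labels -/
structure ZPin (C M X E : Set S) : Prop where
  cl : IsClosed C
  crd : Crd C
  mem : Mem M
  sub : C ⊆ M
  nwd : Nwd C M
  dX : Disc X
  sX : X ⊆ M
  oX : Disjoint X C
  dE : Disc E
  sE : E ⊆ C

lemma ZPin.image {C M X E : Set S} (h : ZPin C M X E) (g : S ≃ₜ S) :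
    ZPin (g '' C) (g '' M) (g '' X) (g '' E) :=
  ⟨g.isClosed_image.2 h.cl, h.crd.image g, h.mem.image g, image_mono h.sub, h.nwd.image g,
    h.dX.image g, image_mono h.sX, (img_disj g).2 h.oX, h.dE.image g, image_mono h.sE⟩

lemma z_pin0 {M X : Set S} (hM : Mem M) (hX : Disc X) (hs : X ⊆ M) : ZPin ∅ M X ∅ :=
  ⟨isClosed_empty, crd_empty, hM, empty_subset _, by simpa [Nwd] using subset_closure, hX, hs,
    disjoint_empty _, disc_empty, subset_rfl⟩

lemma CB.z_pin (hS : CB S) {C M X E Y Y' : Set S} {q : Cardinal.{u}} (h : ZPin C M X E)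
    (hY : DS q Y) (hY' : DS q Y') (d : Disjoint Y M) (d' : Disjoint Y' M) :
    ∃ k : S ≃ₜ S, k '' C = C ∧ k '' X = X ∧ k '' E = E ∧ k '' Y = Y' := by
  have a1 : Crd (M \ C) := h.mem.crd.diff_closed h.cl
  have a2 : Crd ((M \ C) \ X) := hS.crd_diff a1 h.dX
  have a3 : closure ((M \ C) \ X) = M :=
    (closure_minimal (sdiff_subset.trans sdiff_subset) h.mem.cl).antisymm
      (h.nwd.trans (closure_minimal (hS.nwd_disc a1 h.dX) isClosed_closure))
  have b2 : Crd (((M \ C) \ X) ∪ E) := by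
    refine union_subset (a2.trans (der_mono subset_union_left)) fun x hx => ?_
    refine der_mono subset_union_left ((mem_cl_iff.1 ?_).resolve_left fun h' => h'.1.2 (h.sE hx))
    rw [a3]; exact h.sub (h.sE hx)
  have b3 : closure (((M \ C) \ X) ∪ E) = M := by
    rw [closure_union, a3, (hS.closed h.dE).closure_eq, union_eq_left.2 (h.sE.trans h.sub)]
  obtain ⟨k, e, f⟩ := hS.move b2 hY.1 hY'.1 (hS.z_eqv hY hY') (by rwa [b3]) (by rwa [b3])
  have a4 : Rem (((M \ C) \ X) ∪ E) = X ∪ (C \ E) := by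
    rw [Rem, b3]
    ext z
    constructor
    · rintro ⟨b1, b2⟩
      by_cases b3 : z ∈ C
      · exact Or.inr ⟨b3, fun h' => b2 (Or.inr h')⟩
      · exact Or.inl (by_contra fun h' => b2 (Or.inl ⟨⟨b1, b3⟩, h'⟩))
    · rintro (b | b)
      · exact ⟨h.sX b, fun h' => h'.elim (fun h' => h'.2 b)
          fun h' => disjoint_left.1 h.oX b (h.sE h')⟩
      · exact ⟨h.sub b.1, fun h' => h'.elim (fun h' => h'.1.2 b.1) b.2⟩
  have a0 : closure (C \ E) = C :=
    (closure_minimal sdiff_subset h.cl).antisymm (hS.nwd_disc h.crd h.dE)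
  have a8 : NLC (((M \ C) \ X) ∪ E) = E := by
    rw [NLC, a4, closure_union, (hS.closed h.dX).closure_eq, a0]
    refine Subset.antisymm ?_ fun z hz => ⟨Or.inr hz, Or.inr (h.sE hz)⟩
    rintro z ⟨h1 | h1, h'⟩
    · exact h'.elim (fun h' => absurd h' h1.2) fun h' => absurd h' h1.1.2
    · exact h1
  have a5 : k '' (X ∪ (C \ E)) = X ∪ (C \ E) := by rw [← a4, img_rem, e]
  have a6 : Disjoint X (derivedSet (X ∪ (C \ E))) := by
    rw [derivedSet_union, hS.der_disc h.dX, empty_union]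
    exact h.oX.mono_right (der_sub_closed h.cl sdiff_subset)
  have a7 : C \ E ⊆ derivedSet (X ∪ (C \ E)) :=
    (hS.crd_diff h.crd h.dE).trans (der_mono subset_union_right)
  obtain ⟨c1, c2⟩ := split_img k a5 a6 a7 a6 a7
  exact ⟨k, by rw [← a0, img_cl, c2], c1, by rw [← a8, img_nlc, e], f⟩

lemma z_fix2 {k k' : S ≃ₜ S} {A A' B : Set S} (h : k '' A = B) (h' : k' '' A' = B) :
    (k.trans k'.symm) '' A = A' := by
  rw [img_trans, h, ← h', img_symm_img]

/-- comparing two pins through a third discrete set -/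
lemma CB.z_pin2 (hS : CB S) {C M C' M' X E Y Y' : Set S} {q : Cardinal.{u}} (hq : AG S q)
    (h : ZPin C M X E) (h' : ZPin C' M' X E) (hY : DS q Y) (hY' : DS q Y') (d : Disjoint Y M)
    (d' : Disjoint Y' M') :
    ∃ k : S ≃ₜ S, (C' = C → k '' C = C) ∧ k '' X = X ∧ k '' E = E ∧ k '' Y = Y' := by
  obtain ⟨W, hW, dW⟩ := hq _ (hS.mem_union h.mem h'.mem)
  obtain ⟨k, a1, a2, a3, a4⟩ := hS.z_pin h hY hW d (dW.mono_right subset_union_left)
  obtain ⟨k', b1, b2, b3, b4⟩ := hS.z_pin h' hY' hW d' (dW.mono_right subset_union_right)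
  exact ⟨k.trans k'.symm, fun e => z_fix2 a1 (e ▸ b1), z_fix2 a2 b2, z_fix2 a3 b3, z_fix2 a4 b4⟩

/-- pairs with a witness form one orbit -/
lemma CB.z_orb (hS : CB S) {M W W' N V V' : Set S} {p q : Cardinal.{u}} (hq : AG S q) (hM : Mem M)
    (hW : DS p W) (s : W ⊆ M) (hW' : DS q W') (d : Disjoint W' M) (hN : Mem N) (hV : DS p V)
    (s' : V ⊆ N) (hV' : DS q V') (d' : Disjoint V' N) :
    ∃ k : S ≃ₜ S, k '' W = V ∧ k '' W' = V' := by
  obtain ⟨k0, rfl⟩ := hS.z_eqv hW hV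
  obtain ⟨k, -, a, -, b⟩ := hS.z_pin2 hq (z_pin0 (hM.image k0) hV.1 (image_mono s))
    (z_pin0 hN hV.1 s') (hW'.image k0) hV' ((img_disj k0).2 d) d'
  exact ⟨k0.trans k, by rw [img_trans, a], by rw [img_trans, b]⟩

/-- light sizes -/
def ZL (S : Type u) [TopologicalSpace S] (μ : Cardinal.{u}) : Prop :=
  ∃ A : Set S, Mem A ∧ ∀ B, Mem B → ¬ A ⊆ B → ∃ D ⊆ A \ B, DS μ D

lemma CB.z_ag (hS : CB S) {μ : Cardinal.{u}} (h : ZL S μ) : AG S μ := fun M hM => by
  obtain ⟨A, hA, h⟩ := h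
  obtain ⟨x, hx⟩ := hA.ne
  obtain ⟨y, hy⟩ := hS.exists_off hM.sm
  obtain ⟨g, rfl⟩ := hS.thin.homog y x
  obtain ⟨D, h1, h2⟩ := h _ (hM.image g) fun e => hy ((mem_img g).1 (e hx))
  exact ZG.of_image g ⟨D, h2, disjoint_left.2 fun z hz => (h1 hz).2⟩

/-- two-sided avoidance with two sizes -/
lemma CB.z_mx (hS : CB S) {p q : Cardinal.{u}} (hp : ZL S p) (hq : AG S q) {K L D E : Set S}
    (hK : Mem K) (hL : Mem L) (hD : DS p D) (hE : DS q E) (s : D ⊆ K) (s' : E ⊆ L) :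
    ∃ k : S ≃ₜ S, Disjoint (k '' K) E ∧ Disjoint (k '' D) L := by
  have ap := hS.z_ag hp
  obtain ⟨A, hA, h⟩ := hp
  obtain ⟨W2, c2, d2⟩ := hq A hA
  obtain ⟨x, hx⟩ := hA.ne
  obtain ⟨g, hg⟩ := hS.z_eqv hE c2
  obtain ⟨B, hB, s2, hxB⟩ := hS.z_cosep (hL.image g) c2.1 (hg ▸ image_mono s')
    (disjoint_right.1 d2 hx)
  obtain ⟨W1, s1, c1⟩ := h B hB fun e => hxB (e hx)
  obtain ⟨D', cD', dD'⟩ := ap L hL
  obtain ⟨k, e, f⟩ := hS.z_orb ap hL hE s' cD' dD' hB c2 s2 c1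
    (disjoint_left.2 fun z hz => (s1 hz).2)
  obtain ⟨E0, cE0, dE0⟩ := hq K hK
  obtain ⟨k', e', f'⟩ := hS.z_orb hq hK hD s cE0 dE0 (hA.image k.symm) cD'
    (by rw [← img_sub k, img_img_symm, f]; exact s1.trans sdiff_subset) hE
    (by rw [← img_disj k, img_img_symm, e]; exact d2)
  exact ⟨k', by rw [← f']; exact (img_disj k').2 dE0.symm, by rw [e']; exact dD'⟩

/-- the data of a labelled triple -/
structure ZTau (p q ν : Cardinal.{u}) (Y X E : Set S) : Prop where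
  dY : DS p Y
  dX : DS q X
  dE : DS ν E
  ex : ∃ N M, Mem N ∧ Mem M ∧ X ⊆ N ∧ Disjoint Y N ∧ E ⊆ M ∧ Disjoint (X ∪ Y) M

lemma CB.z_tau1 (hS : CB S) {p q ν : Cardinal.{u}} (hq : AG S q) (hi : Cardinal.aleph0 ≤ q)
    (hpq : p ≤ q) {C0 M0 E0 : Set S} (c0 : Mem C0) (m0 : Mem M0) (s0 : C0 ⊆ M0) (n0 : Nwd C0 M0)
    (e0 : DS ν E0) (t0 : E0 ⊆ C0) {Y X E : Set S} (h : ZTau p q ν Y X E) :
    ∃ C M, Mem C ∧ ZPin C M X E ∧ Disjoint Y M := by
  obtain ⟨N, M, hN, hM, a1, a2, a3, a4⟩ := h.ex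
  obtain ⟨W, hW, dW⟩ := hq M0 m0
  obtain ⟨k, k1, k2⟩ := hS.z_orb hq m0 e0 (t0.trans s0) hW dW hM h.dE a3
    (hS.z_union hi h.dX h.dY.1 (h.dY.2.le.trans hpq)) a4
  have d : Disjoint (X ∪ Y) (k '' M0) := k2 ▸ (img_disj k).2 dW
  exact ⟨k '' C0, k '' M0 ∪ N, c0.image k, ⟨(c0.image k).cl, (c0.image k).crd,
    hS.mem_union (m0.image k) hN, (image_mono s0).trans subset_union_left,
    (n0.image k).union_right (image_mono s0), h.dX.1, a1.trans subset_union_right,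
    d.mono subset_union_left (image_mono s0), h.dE.1, k1 ▸ image_mono t0⟩,
    disjoint_union_right.2 ⟨d.mono_left subset_union_right, a2⟩⟩

/-- labelled triples form one orbit -/
lemma CB.z_tau (hS : CB S) {p q ν : Cardinal.{u}} (hq : AG S q) (hi : Cardinal.aleph0 ≤ q)
    (hpq : p ≤ q) {C0 M0 E0 : Set S} (c0 : Mem C0) (m0 : Mem M0) (s0 : C0 ⊆ M0) (n0 : Nwd C0 M0)
    (e0 : DS ν E0) (t0 : E0 ⊆ C0) {Y X E Y' X' E' : Set S} (h : ZTau p q ν Y X E)
    (h' : ZTau p q ν Y' X' E') : ∃ g : S ≃ₜ S, g '' Y = Y' ∧ g '' X = X' ∧ g '' E = E' := by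
  obtain ⟨C, M, c, a, d⟩ := hS.z_tau1 hq hi hpq c0 m0 s0 n0 e0 t0 h
  obtain ⟨C', M', c', a', d'⟩ := hS.z_tau1 hq hi hpq c0 m0 s0 n0 e0 t0 h'
  obtain ⟨k0, rfl, rfl⟩ := hS.z_orb hq c h.dE a.sE h.dX a.oX c' h'.dE a'.sE h'.dX a'.oX
  obtain ⟨k, -, b1, b2, b3⟩ := hS.z_pin2 (hq.le hpq) (a.image k0) a' (h.dY.image k0) h'.dY
    ((img_disj k0).2 d) d'
  exact ⟨k0.trans k, by rw [img_trans, b3], by rw [img_trans, b1], by rw [img_trans, b2]⟩

/-- two-sided avoidance fixing a point -/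
lemma CB.z_ts_pt (hS : CB S) {p : Cardinal.{u}} (hp : ZL S p) (hi : Cardinal.aleph0 ≤ p)
    {C0 M0 : Set S} (c0 : Mem C0) (m0 : Mem M0) (s0 : C0 ⊆ M0) (n0 : Nwd C0 M0) {K L D E : Set S}
    {x : S} (hK : Mem K) (hL : Mem L) (hD : DS p D) (hE : DS p E) (s : D ⊆ K) (s' : E ⊆ L)
    (xK : x ∈ K) (xL : x ∈ L) (xD : x ∉ D) (xE : x ∉ E) :
    ∃ k : S ≃ₜ S, k x = x ∧ Disjoint (k '' K) E ∧ Disjoint (k '' D) L := by
  have ap := hS.z_ag hp
  obtain ⟨k0, a, b⟩ := hS.z_mx hp ap hK hL hD hE s s'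
  have one : ∀ y : S, DS 1 ({y} : Set S) := fun y => ⟨disc_single y, Cardinal.mk_singleton y⟩
  have tau : ∀ {N N' X Y : Set S}, Mem N → Mem N' → DS p X → DS p Y → X ⊆ N → Y ⊆ N' →
      Disjoint Y N → x ∉ X → x ∉ Y → ZTau p p 1 Y X {x} := by
    intro N N' X Y hN hN' hX hY s1 s2 d x1 x2
    have u := hS.z_union hi hX hY.1 hY.2.le
    obtain ⟨k, k1, k2⟩ := hS.z_sep (hS.mem_union hN hN') u.1 (union_subset_union s1 s2)
      (u.2.symm ▸ ap K hK) xK fun h => h.elim x1 x2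
    exact ⟨hY, hX, one x, N, k '' K, hN, hK.image k, s1, d,
      singleton_subset_iff.2 ⟨x, xK, k1⟩, k2.symm⟩
  have a' : Disjoint K (k0.symm '' E) := by rwa [← img_disj k0, img_img_symm]
  obtain ⟨y, hy⟩ := c0.ne
  obtain ⟨g, g1, g2, g3⟩ := hS.z_tau ap hi le_rfl c0 m0 s0 n0 (one y) (singleton_subset_iff.2 hy)
    (tau (hL.image k0.symm) hK (hE.image k0.symm) hD (image_mono s') s
      (by rwa [← img_disj k0, img_img_symm]) (disjoint_left.1 a' xK) xD)
    (tau hL (hK.image k0) hE (hD.image k0) s' (image_mono s) b xE (disjoint_right.1 b xL))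
  exact ⟨g, by simpa using g3, g2 ▸ (img_disj g).2 a', g1 ▸ b⟩

/-- two-sided avoidance fixing a nowhere dense member -/
lemma CB.z_ts_mem (hS : CB S) {p : Cardinal.{u}} (hp : ZL S p) {c K L D E : Set S} (hc : Mem c)
    (hK : Mem K) (hL : Mem L) (cK : c ⊆ K) (nK : Nwd c K) (KL : K ⊆ L) (hD : DS p D) (hE : DS p E)
    (s : D ⊆ K) (s' : E ⊆ L) (dD : Disjoint D c) (dE : Disjoint E c) :
    ∃ k : S ≃ₜ S, k '' c = c ∧ Disjoint (k '' K) E ∧ Disjoint (k '' D) L := by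
  have ap := hS.z_ag hp
  obtain ⟨k0, a, b⟩ := hS.z_mx hp ap hK hL hD hE s s'
  have a' : Disjoint K (k0.symm '' E) := by rwa [← img_disj k0, img_img_symm]
  have b' : Disjoint D (k0.symm '' L) := by rwa [← img_disj k0, img_img_symm]
  obtain ⟨D1, c1, d1⟩ := ap K hK
  obtain ⟨k1, e1, f1⟩ := hS.move hc.crd c1.1 hD.1 (hS.z_eqv c1 hD)
    (by rw [hc.cl.closure_eq]; exact d1.mono_right cK) (by rwa [hc.cl.closure_eq])
  obtain ⟨k2, e2, f2⟩ := hS.move hc.crd (hE.image k0.symm).1 hE.1 (hS.z_eqv (hE.image _) hE)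
    (by rw [hc.cl.closure_eq]; exact a'.symm.mono_right cK) (by rwa [hc.cl.closure_eq])
  have s1 : c ⊆ k1 '' K := e1 ▸ image_mono cK
  have n1 : Nwd c (k1 '' K) := e1 ▸ nK.image k1
  have p1 : ZPin c (k1 '' K ∪ k0.symm '' L) (k0.symm '' E) ∅ :=
    ⟨hc.cl, hc.crd, hS.mem_union (hK.image _) (hL.image _), s1.trans subset_union_left,
      n1.union_right s1, (hE.image _).1, (image_mono s').trans subset_union_right,
      a'.symm.mono_right cK, disc_empty, empty_subset _⟩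
  have p2 := p1.image k2
  rw [e2, f2, image_empty] at p2
  have nL : Nwd c L := union_eq_right.2 KL ▸ nK.union_right (L := L) cK
  obtain ⟨k, g0, g1, -, g2⟩ := hS.z_pin2 ap p2
    ⟨hc.cl, hc.crd, hL, cK.trans KL, nL, hE.1, s', dE, disc_empty, empty_subset _⟩
    (hD.image k2) (hD.image k0)
    ((img_disj k2).2 (disjoint_union_right.2 ⟨f1 ▸ (img_disj k1).2 d1, b'⟩)) b
  refine ⟨k2.trans k, by rw [img_trans, e2, g0 rfl], ?_, by rwa [img_trans, g2]⟩
  rw [img_trans, ← g1, img_disj, ← f2, img_disj]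
  exact a'

end Pool.Agent.Lib.MP_52f683_gt
end

-- part Pool.Agent.Lib.MP_52f683_gt.F.ZD
section

set_option autoImplicit false
set_option linter.unusedSectionVars false

open Set Topology Filter

namespace Pool.Agent.Lib.MP_52f683_gt

universe u

variable {S : Type u} [TopologicalSpace S] [T1Space S] [Infinite S]

/-- members that are nowhere dense in some member -/
def NM (K : Set S) : Prop := Mem K ∧ ∃ M, Mem M ∧ K ⊆ M ∧ Nwd K M

/-- such members can be shrunk at a point so as to miss `D` -/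
def Rd (D : Set S) : Prop :=
  ∀ (K : Set S) (x : S), NM K → x ∈ K → x ∉ D → ∃ t, Mem t ∧ t ⊆ K ∧ x ∈ t ∧ Disjoint t D

/-- poor sets -/
def Pr (A : Set S) : Prop := ∀ D ⊆ A, Disc D → Rd D

/-- free members that are poor off `b` -/
def ZF (n b t : Set S) : Prop := NM t ∧ t ∩ n ⊆ b ∧ Pr (t \ b)

lemma NM.sub {K t : Set S} (h : NM K) (ht : Mem t) (hs : t ⊆ K) : NM t :=
  let ⟨_, M, h1, h2, h3⟩ := h
  ⟨ht, M, h1, hs.trans h2, h3.mono hs⟩

lemma NM.image {K : Set S} (h : NM K) (g : S ≃ₜ S) : NM (g '' K) :=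
  let ⟨h0, M, h1, h2, h3⟩ := h
  ⟨h0.image g, g '' M, h1.image g, image_mono h2, h3.image g⟩

lemma z_nwd_union {C C' M M' : Set S} (hC : IsClosed C) (hC' : IsClosed C') (s : C ⊆ M)
    (s' : C' ⊆ M') (h : Nwd C M) (h' : Nwd C' M') : Nwd (C ∪ C') (M ∪ M') :=
  (h.union_right s).union (by rw [union_comm]; exact h'.union_right s') hC

lemma CB.nm_union (hS : CB S) {K L : Set S} (h : NM K) (h' : NM L) : NM (K ∪ L) :=
  let ⟨h0, M, h1, h2, h3⟩ := h
  let ⟨h0', M', h1', h2', h3'⟩ := h'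
  ⟨hS.mem_union h0 h0', M ∪ M', hS.mem_union h1 h1', union_subset_union h2 h2',
    z_nwd_union h0.cl h0'.cl h2 h2' h3 h3'⟩

lemma Rd.union {D E : Set S} (h : Rd D) (h' : Rd E) : Rd (D ∪ E) := fun K x hK hx hx' => by
  obtain ⟨t, m, s, e, d⟩ := h K x hK hx fun a => hx' (Or.inl a)
  obtain ⟨t', m', s', e', d'⟩ := h' t x (hK.sub m s) e fun a => hx' (Or.inr a)
  exact ⟨t', m', s'.trans s, e', disjoint_union_right.2 ⟨d.mono_left s', d'⟩⟩

lemma Rd.image {D : Set S} (h : Rd D) (g : S ≃ₜ S) : Rd (g '' D) := fun K x hK hx hx' => by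
  obtain ⟨t, m, s, e, d⟩ := h (g.symm '' K) (g.symm x) (hK.image _) (mem_image_of_mem _ hx)
    fun a => hx' ⟨_, a, g.apply_symm_apply x⟩
  exact ⟨g '' t, m.image g, by simpa only [img_img_symm] using image_mono (f := g) s,
    ⟨_, e, g.apply_symm_apply x⟩, (img_disj g).2 d⟩

lemma Pr.mono {A B : Set S} (h : Pr A) (hB : B ⊆ A) : Pr B := fun D h1 => h D (h1.trans hB)

lemma Pr.image {A : Set S} (h : Pr A) (g : S ≃ₜ S) : Pr (g '' A) := fun D h1 h2 => by
  obtain ⟨E, h3, rfl⟩ := subset_image_iff.1 h1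
  refine (h E h3 ?_).image g
  simpa only [img_symm_img] using h2.image g.symm

lemma Pr.union {A B : Set S} (h : Pr A) (h' : Pr B) : Pr (A ∪ B) := fun D h1 h2 => by
  rw [← inter_eq_left.2 h1, inter_union_distrib_left]
  exact (h _ inter_subset_right (h2.mono inter_subset_left)).union
    (h' _ inter_subset_right (h2.mono inter_subset_left))

end Pool.Agent.Lib.MP_52f683_gt
end

-- part Pool.Agent.Lib.MP_52f683_gt.F.Z4
section

set_option autoImplicit false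
set_option linter.unusedSectionVars false

open Set Topology Filter

namespace Pool.Agent.Lib.MP_52f683_gt

universe u

variable {S : Type u} [TopologicalSpace S] [T1Space S] [Infinite S]

lemma z_iso_der {F : Set S} {x : S} (h : x ∈ F) (h' : x ∉ Iso F) : x ∈ derivedSet F :=
  by_contra fun a => h' ⟨h, a⟩

/-- a member with a dense open poor part absorbs a translate -/
lemma CB.z_abs (hS : CB S) {n W : Set S} (hn : NM n) (hW : IsOpen W) (hd : n ⊆ closure (n ∩ W))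
    (hp : Pr (n ∩ W)) : ∃ d, NM d ∧ ¬ d ⊆ n ∧ Pr (d \ n) := by
  have cF : IsClosed (n \ W) := hn.1.cl.sdiff hW
  have dF : derivedSet (n \ W) ⊆ n \ W := der_sub_closed cF subset_rfl
  have nF : Nwd (n \ W) n := by rwa [Nwd, sdiff_sdiff_right_self]
  obtain ⟨y, hy⟩ := closure_nonempty_iff.1 (hn.1.ne.mono hd)
  obtain ⟨z0, hz0⟩ := hS.exists_off hn.1.sm
  have c : closure (derivedSet (n \ W)) = derivedSet (n \ W) := (isClosed_derivedSet _).closure_eq
  obtain ⟨k0, a1, a2⟩ := hS.move_pt (x := z0) (y := y) (hS.crd_der (n \ W))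
    (by rw [c]; exact fun h => hz0 (dF h).1) (by rw [c]; exact fun h => (dF h).2 hy.2)
  obtain ⟨M2, m2, s2, y2⟩ := hS.z_cosep (y := y) hn.1 (disc_iso (n \ W))
    (sdiff_subset.trans sdiff_subset) fun h => h.1.2 hy.2
  have s1 : derivedSet (n \ W) ⊆ k0 '' n := a1 ▸ image_mono (dF.trans sdiff_subset)
  have n1 : Nwd (derivedSet (n \ W)) (k0 '' n) := a1 ▸ (nF.mono dF).image k0
  have e : n \ W ⊆ derivedSet (n \ W) ∪ Iso (n \ W) := fun x hx =>
    (em (x ∈ Iso (n \ W))).elim Or.inr fun h => Or.inl (z_iso_der hx h)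
  have hM := hS.mem_union (hn.1.image k0) m2
  obtain ⟨z, hz⟩ := hS.exists_off (hS.mem_union hM hn.1).sm
  obtain ⟨k, k1, k2⟩ := hS.z_hole (x := y) (y := z) hM cF (e.trans (union_subset_union s1 s2))
    ((z_nwd_union (isClosed_derivedSet _) (hS.closed (disc_iso _)) s1 s2 n1
      (hS.nwd_disc m2.crd (disc_iso _))).mono e)
    (fun h => h.elim (fun h => hz0 ((mem_img k0).1 (a2 ▸ h))) y2) fun h => hz (Or.inl h)
  refine ⟨k '' n, hn.image k, fun h => hz (Or.inr (h ⟨y, hy.1, k2⟩)), (hp.image k).mono ?_⟩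
  rintro _ ⟨⟨v, hv, rfl⟩, h⟩
  refine mem_image_of_mem k ⟨hv, by_contra fun h' => h ?_⟩
  have : k v ∈ n \ W := k1 ▸ mem_image_of_mem k ⟨hv, h'⟩
  exact this.1

lemma CB.z_world (hS : CB S) {n F : Set S} (hn : Mem n) (hF : IsClosed F) (s : F ⊆ n)
    (h : Nwd F n) : World n (derivedSet F) ∧ (n \ derivedSet F).Nonempty :=
  have a : derivedSet F ⊆ F := der_sub_closed hF subset_rfl
  ⟨⟨hn.cl, hn.crd, hn.sm, isClosed_derivedSet F, hS.crd_der F, a.trans s, h.mono a⟩,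
    z_nwd_ne (h.mono a) hn.ne⟩

lemma z_dense {c W r r' : Set S} (e : r ∪ r' = closure (c ∩ W)) (c' : IsClosed r')
    (h : Nwd r' r) : r ⊆ closure (r ∩ (W ∩ r'ᶜ)) := by
  refine h.trans (closure_minimal (fun x hx => ?_) isClosed_closure)
  refine closure_mono (fun y hy => ?_)
    (cl_inter_open c'.isOpen_compl hx.2 (show x ∈ closure (c ∩ W) from e ▸ Or.inl hx.1))
  have : y ∈ r ∪ r' := e ▸ subset_closure hy.1
  exact ⟨this.resolve_right hy.2, hy.1.2, hy.2⟩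

/-- the first world -/
lemma CB.z_fw (hS : CB S) {c W : Set S} (hc : NM c) (hW : IsOpen W) (hne : (c ∩ W).Nonempty)
    (hp : Pr (c ∩ W)) : ∃ n b U W' : Set S, World n b ∧ (n \ b).Nonempty ∧ NM n ∧ NM U ∧
      U ∩ n ⊆ b ∧ ¬ U ⊆ n ∧ IsOpen W' ∧ n ⊆ closure (n ∩ W') ∧ Pr (n ∩ W') := by
  have hK := mem_of_crd (hc.1.crd.inter_open hW) hne hc.1.cl hc.1.sm inter_subset_left
  have sK : closure (c ∩ W) ⊆ c := closure_minimal inter_subset_left hc.1.cl
  obtain ⟨r, r', m, m', e, n, n'⟩ := hS.z_regions hK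
  have s : r ⊆ c := (e ▸ subset_union_left : r ⊆ closure (c ∩ W)).trans sK
  have s' : r' ⊆ c := (e ▸ subset_union_right : r' ⊆ closure (c ∩ W)).trans sK
  have o : IsOpen (W ∩ r'ᶜ) := hW.inter m'.cl.isOpen_compl
  have o' : IsOpen (W ∩ rᶜ) := hW.inter m.cl.isOpen_compl
  have d := z_dense e m'.cl n'
  have d' := z_dense (union_comm r r' ▸ e) m.cl n
  have p : Pr (r ∩ (W ∩ r'ᶜ)) := hp.mono fun x hx => ⟨s hx.1, hx.2.1⟩
  have p' : Pr (r' ∩ (W ∩ rᶜ)) := hp.mono fun x hx => ⟨s' hx.1, hx.2.1⟩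
  obtain ⟨F, hF⟩ : ∃ F, F = r' \ (W ∩ rᶜ) := ⟨_, rfl⟩
  have cF : IsClosed F := hF ▸ m'.cl.sdiff o'
  have sF : F ⊆ r' := hF ▸ sdiff_subset
  have nF : Nwd F r' := by rwa [hF, Nwd, sdiff_sdiff_right_self]
  have bF : r ∩ r' ⊆ F := fun x hx => hF ▸ ⟨hx.2, fun h => h.2 hx.1⟩
  have hE : Disc (Iso (r ∩ r') ∪ Iso F) := hS.disc_union (disc_iso _) (disc_iso _)
  have sE : Iso (r ∩ r') ∪ Iso F ⊆ F := union_subset (sdiff_subset.trans bF) sdiff_subset
  obtain ⟨x, hx⟩ := closure_nonempty_iff.1 (m'.ne.mono d')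
  have xF : x ∉ F := fun h => (hF ▸ h : x ∈ r' \ (W ∩ rᶜ)).2 hx.2
  obtain ⟨R, hR, gR⟩ : ∃ R, NM R ∧ ZG (sz (Iso (r ∩ r') ∪ Iso F)) R := by
    rcases le_total Cardinal.aleph0 (sz (Iso (r ∩ r') ∪ Iso F)) with hi | hi
    · obtain ⟨D, hD, dD⟩ := hS.z_ker (F := r ∩ r') hi ⟨_, ⟨hE, rfl⟩, disjoint_union_left.2
        ⟨disjoint_sdiff_left, disjoint_sdiff_left.mono_right (der_mono bF)⟩⟩
      rcases z_split (A := rᶜ) (B := r'ᶜ) hi hD.2
        (fun x hx => not_and_or.1 (disjoint_left.1 dD hx)) with h | h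
      · exact ⟨r, hc.sub m s, _, ⟨hD.1.mono inter_subset_left, h⟩, disjoint_left.2 fun _ hx => hx.2⟩
      · exact ⟨r', hc.sub m' s', _, ⟨hD.1.mono inter_subset_left, h⟩,
          disjoint_left.2 fun _ hx => hx.2⟩
    · obtain ⟨D, hD, dD⟩ := hS.exists_cd_off m.cl m.sm
      have := hD.cnt.to_subtype
      have := hD.inf.to_subtype
      exact ⟨r, hc.sub m s, ZG.le ⟨D, ⟨hD.dsc, Cardinal.mk_eq_aleph0 D⟩, dD⟩ hi⟩
  obtain ⟨x0, hx0⟩ := hR.1.ne
  obtain ⟨k, k1, k2⟩ := hS.z_sep m' hE (sE.trans sF) gR hx0 fun h => xF (sE h)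
  have hL := hR.image k
  have xL : x ∈ k '' R := ⟨x0, hx0, k1⟩
  generalize k '' R = L at k2 hL xL
  by_cases hD : Disc (L ∩ (r' ∩ (W ∩ rᶜ)))
  · have a : ∀ y ∈ L, y ∈ r' → y ∉ L ∩ (r' ∩ (W ∩ rᶜ)) → y ∈ derivedSet F := fun y h1 h2 h3 =>
      z_iso_der (hF ▸ ⟨h2, fun h => h3 ⟨h1, h2, h⟩⟩) fun h => disjoint_left.1 k2 h1 (Or.inr h)
    obtain ⟨z, z1, z2⟩ : ∃ z ∈ L, z ∉ r' := not_subset.1 fun h => xF (der_sub_closed cF
      (fun y hy => der_sub_closed cF subset_rfl (a y hy.1 (h hy.1) hy.2))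
      (hS.der_diff_disc hD (hL.1.crd xL)))
    obtain ⟨t, t1, t2, t3, t4⟩ := p' _ inter_subset_right hD L z hL z1 fun h => z2 h.2.1
    obtain ⟨w1, w2⟩ := hS.z_world m' cF sF nF
    exact ⟨r', _, t, _, w1, w2, hc.sub m' s', hL.sub t1 t2,
      fun y hy => a y (t2 hy.1) hy.2 (disjoint_left.1 t4 hy.1), fun h => z2 (h t3), o', d', p'⟩
  · obtain ⟨z, z1, z2⟩ := not_disjoint_iff.1 hD
    have z3 : z ∈ derivedSet (L ∩ r') := der_mono (inter_subset_inter_right _ inter_subset_left) z2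
    have a : derivedSet (L ∩ r') ⊆ L ∩ r' := der_sub_closed (hL.1.cl.inter m'.cl) subset_rfl
    obtain ⟨w1, w2⟩ := hS.z_world m (m.cl.inter m'.cl) inter_subset_left
      (n'.mono inter_subset_right)
    exact ⟨r, _, _, _, w1, w2, hc.sub m s, hL.sub (hS.mem_der hL.1.cl hL.1.sm inter_subset_left
      ⟨z, z3⟩) (a.trans inter_subset_left), fun y hy => z_iso_der ⟨hy.2, (a hy.1).2⟩
      fun h => disjoint_left.1 k2 (a hy.1).1 (Or.inl h), fun h => z1.2.2.2 (h z3), o, d, p⟩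

end Pool.Agent.Lib.MP_52f683_gt
end

-- part Pool.Agent.Lib.MP_52f683_gt.F.R1
section

set_option autoImplicit false
set_option linter.unusedSectionVars false

open Set Topology Filter

namespace Pool.Agent.Lib.MP_52f683_gt

universe u

variable {S : Type u} [TopologicalSpace S] [T1Space S] [Infinite S]

section
variable {n c : Set S} {γ : S ≃ₜ S} (hS : RC S) (hW : Wd n c γ)
include hS hW

/-- points of a world are separated by clopen parts -/
theorem RC.wsep {x y : S} (hx : x ∈ c \ n) (hy : y ∈ c \ n) (hxy : x ≠ y) :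
    ∃ N, ClopIn N (c \ n) ∧ x ∈ N ∧ y ∉ N := by
  have sx : ({x} : Set S) ⊆ c \ n := singleton_subset_iff.2 hx
  have sy : ({y} : Set S) ⊆ c \ n := singleton_subset_iff.2 hy
  obtain ⟨U, hU, hUc, hxU, hyU⟩ := hS.wmi hW (disc_single y) sy hx.1 hxy
  obtain ⟨V, hV, hVc, hyV, hxV⟩ := hS.wmi hW (disc_single x) sx hy.1 hxy.symm
  have hyU' : y ∉ U := disjoint_singleton_right.1 hyU
  have hxV' : x ∉ V := disjoint_singleton_right.1 hxV
  obtain ⟨hzc, hzn⟩ := hW.off' hy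
  have hVn := hS.cs_union hV.cs hW.base
  have hUn := hS.cs_union hU.cs hW.base
  have hx1 : x ∉ V ∪ n := fun h => h.elim hxV' hx.2
  have hy1 : y ∉ U ∪ n := fun h => h.elim hyU' hy.2
  obtain ⟨-, R1, r1, r1s, e1⟩ := hS.iso_rem hU.cs hVn hxU hx1
  obtain ⟨-, R2, r2, r2s, e2⟩ := hS.iso_rem hV.cs hUn hyV hy1
  have c1 : Crd ((U \ (V ∪ n)) \ {x}) := (hU.crd.diff_closed hVn.cl).diff_closed isClosed_singleton
  have c2 : Crd ((V \ (U ∪ n)) \ {y}) := (hV.crd.diff_closed hUn.cl).diff_closed isClosed_singleton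
  have n1 : NLC ((U \ (V ∪ n)) \ {x}) = ∅ := by
    rw [sdiff_sdiff]; exact r_nlc_diff hU.cl (hVn.cl.union isClosed_singleton)
  have n2 : NLC ((V \ (U ∪ n)) \ {y}) = ∅ := by
    rw [sdiff_sdiff]; exact r_nlc_diff hV.cl (hUn.cl.union isClosed_singleton)
  have u1 : (U \ (V ∪ n)) \ {x} ⊆ U := sdiff_subset.trans sdiff_subset
  have u2 : (V \ (U ∪ n)) \ {y} ⊆ V := sdiff_subset.trans sdiff_subset
  have s1 : (U \ (V ∪ n)) \ {x} ⊆ c \ n := fun w hw => ⟨hUc hw.1.1, fun h => hw.1.2 (Or.inr h)⟩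
  have s2 : (V \ (U ∪ n)) \ {y} ⊆ c \ n := fun w hw => ⟨hVc hw.1.1, fun h => hw.1.2 (Or.inr h)⟩
  have p1 : Sp ((U \ (V ∪ n)) \ {x}) ((V \ (U ∪ n)) \ {y}) :=
    sp_of_closed hU.cl hV.cl u1 u2 (disjoint_left.2 fun w hw h => hw.1.2 (Or.inl h))
      (disjoint_left.2 fun w hw h => hw.1.2 (Or.inl h))
  generalize (U \ (V ∪ n)) \ {x} = A1 at *
  generalize (V \ (U ∪ n)) \ {y} = A2 at *
  have p2 : Sp A1 (γ '' A2) := hW.sp s1 s2
  have d1 : Disjoint {γ y} (closure (A1 ∪ A2)) :=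
    disjoint_singleton_left.2 fun h => hzc (hW.cl_sub (union_subset s1 s2) h)
  have d2 : Disjoint {y} (closure (A1 ∪ γ '' A2)) := disjoint_singleton_left.2 fun h => by
    rw [closure_union] at h
    exact h.elim (fun h => hyU' (closure_minimal u1 hU.cl h)) fun h =>
      hW.off hy (closure_minimal (image_mono (u2.trans hVc)) (hW.mem.image γ).cl h)
  have p3 := hS.sp_disc (disc_single (γ y)) d1
  have sz : ({γ y} : Set S) ⊆ (c ∪ γ '' c) \ n := by
    have := hW.img_sub sy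
    rwa [image_singleton] at this
  obtain ⟨h, hn, hh⟩ := hS.wpin hW (A := (A1 ∪ A2) ∪ {γ y}) (A' := (A1 ∪ γ '' A2) ∪ {y})
    (hS.thin.glueE (hS.thin.glueE (Eqv.rfl' A1) (r_eqv_img γ A2) p1 p2) ⟨γ.symm, by simp⟩ p3
      (hS.sp_disc (disc_single y) d2))
    (r_nlc_union p3 (r_nlc_union p1 n1 n2) (r_nlc_closed isClosed_singleton))
    (union_subset (hW.sub_sub (union_subset s1 s2)) sz)
    (union_subset (union_subset (hW.sub_sub s1) (hW.img_sub s2)) (hW.sub_sub sy))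
  obtain ⟨a1, a2⟩ := hS.split hh (c1.union c2) (c1.union (c2.image γ)) (disc_single _)
    (disc_single _) d1 d2
  have hz : h (γ y) = y := by simpa using a2
  have hz' : h.symm y = γ y := by rw [Homeomorph.symm_apply_eq, hz]
  have a3 : h '' ((R1 ∪ R2) ∪ {x, y}) = (R1 ∪ γ '' R2) ∪ {x, γ y} := by
    have := img_rem h (A1 ∪ A2)
    rw [a1, rem_union p1, rem_union p2, ← img_rem γ, e1, e2, image_union γ, image_singleton,
      union_union_union_comm R1 {x} R2, union_union_union_comm R1 {x} (γ '' R2)] at this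
    exact this
  have g2 := r2.image γ
  obtain ⟨-, a4⟩ := hS.split a3 (r1.crd.union r2.crd) (r1.crd.union g2.crd)
    (disc_finite (toFinite _)) (disc_finite (toFinite _))
    (by
      rw [(r1.cl.union r2.cl).closure_eq]
      refine disjoint_left.2 ?_
      rintro w (rfl | rfl) (hw | hw)
      · exact hx1 (r1s hw).2
      · exact hxV' (r2s hw).1
      · exact hyU' (r1s hw).1
      · exact hy1 (r2s hw).2)
    (by
      rw [(r1.cl.union g2.cl).closure_eq]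
      refine disjoint_left.2 ?_
      rintro w (rfl | rfl) (hw | hw)
      · exact hx1 (r1s hw).2
      · exact hW.off hx (image_mono (fun u hu => hVc (r2s hu).1) hw)
      · exact hzc (hUc (r1s hw).1)
      · exact hy1 (r2s ((mem_img γ).1 hw)).2)
  have b1 : h x ∈ ({x, γ y} : Set S) := a4 ▸ mem_image_of_mem h (Or.inl rfl)
  have b2 : h y ∈ ({x, γ y} : Set S) := a4 ▸ mem_image_of_mem h (Or.inr rfl)
  have b3 : h x ≠ h y := fun e => hxy (h.injective e)
  have k2 : ∀ N : Set S, h.symm '' N ⊆ c \ n → y ∉ N := fun N hN hyN =>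
    hzc (hz' ▸ (hN (mem_image_of_mem _ hyN)).1)
  have k1 : ∀ (N : Set S) (w : S), h '' N ⊆ c \ n → h w = γ y → w ∉ N := fun N w hN e hw =>
    hzc (e ▸ (hN (mem_image_of_mem _ hw)).1)
  rcases b1 with b1 | b1
  · have b4 : h y = γ y := b2.resolve_left fun e => b3 (b1.trans e.symm)
    rcases hS.cmp hW hn hx (b1.symm ▸ hx) with ⟨N, m1, m2, m3⟩ | ⟨N, m1, m2, m3⟩
    · exact ⟨N, m1, m2, k1 N y m3 b4⟩
    · exact ⟨N, m1, b1 ▸ m2, k2 N m3⟩
  · have b4 : h y = x := b2.resolve_right fun e => b3 (Eq.trans b1 (Eq.symm e))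
    rcases hS.cmp hW hn hy (b4.symm ▸ hx) with ⟨N, m1, m2, m3⟩ | ⟨N, m1, m2, m3⟩
    · exact ⟨_, m1.compl, ⟨hx, k1 N x m3 b1⟩, fun e => e.2 m2⟩
    · exact ⟨N, m1, b4 ▸ m2, k2 N m3⟩

lemma RC.wqc : ∀ x ∈ c \ n, QC (c \ n) x = {x} := by
  intro x hx
  refine Subset.antisymm (fun y hy => ?_) (singleton_subset_iff.2 ⟨hx, fun _ _ h => h⟩)
  by_contra hn
  obtain ⟨N, n1, n2, n3⟩ := hS.wsep hW hx hy.1 fun e => hn e.symm
  exact n3 (hy.2 N n1 n2)

end

end Pool.Agent.Lib.MP_52f683_gt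
end
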