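import Pool.Agent.Lib.MP_52f683_gt.F.S0
import Pool.Agent.Lib.MP_52f683_gt.F.BasicTmp
import Pool.Agent.Lib.MP_52f683_gt.CS.W1
import Pool.Agent.Lib.MP_52f683_gt.F.R1

-- part Pool.Agent.Lib.MP_52f683_gt.CS.L21
section

set_option autoImplicit false
set_option linter.unusedSectionVars false

open Set Topology Filter

namespace Pool.Agent.Lib.MP_52f683_gt

variable {S : Type*} [TopologicalSpace S] [T1Space S] [Infinite S]

/-- a splitting with discrete boundary -/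
structure DSplit (K a b : Set S) : Prop where
  ma : Mem a
  mb : Mem b
  eq : a ∪ b = K
  disc : Disc (a ∩ b)

lemma Nodec.sub {K c : Set S} (h : Nodec K) (hc : Mem c) (hs : c ⊆ K) : Nodec c :=
  ⟨hc, fun C hC h1 h2 => h.2 C hC (h1.trans hs) (union_eq_right.2 hs ▸ h2.union_right h1)⟩

lemma Nodec.image {K : Set S} (h : Nodec K) (g : S ≃ₜ S) : Nodec (g '' K) := by
  refine ⟨h.1.image g, fun C hC h1 h2 => ?_⟩
  obtain ⟨C, h3, rfl⟩ := subset_image_iff.1 h1
  have h4 := h2.image g.symm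
  rw [img_symm_img, img_symm_img] at h4
  exact (h.2 C (g.isClosed_image.1 hC) h3 h4).image g

lemma Ctx.dsplit (hS : Ctx S) {K : Set S} (h : Nodec K) : ∃ a b, DSplit K a b := by
  obtain ⟨U, V, hU, hV, h1, ⟨v, hv⟩, h3⟩ := hS.reducible h.1
  have s1 : closure (K ∩ U) ⊆ K := closure_minimal inter_subset_left h.1.cl
  have s2 : closure (K \ closure (K ∩ U)) ⊆ K := closure_minimal sdiff_subset h.1.cl
  refine ⟨_, _, mem_of_crd (h.1.crd.inter_open hU) h1 h.1.cl h.1.sm inter_subset_left,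
    mem_of_crd (h.1.crd.diff_closed isClosed_closure)
      ⟨v, hv.1, disjoint_right.1 (h3.closure_left hV) hv.2⟩ h.1.cl h.1.sm sdiff_subset,
    (union_subset s1 s2).antisymm fun x hx => ?_,
    h.2 _ (isClosed_closure.inter isClosed_closure) (inter_subset_left.trans s1) fun x hx => ?_⟩
  · by_cases k : x ∈ closure (K ∩ U)
    exacts [Or.inl k, Or.inr (subset_closure ⟨hx, k⟩)]
  · by_cases k : x ∈ closure (K ∩ U)
    · refine closure_mono (fun y hy => (Set.mem_sdiff y).2 ⟨hy.1, fun e => ?_⟩) k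
      obtain ⟨z, hz⟩ := closure_nonempty_iff.1 ⟨y, cl_inter_open hU hy.2 e.2⟩
      exact hz.1.2 (subset_closure ⟨hz.1.1, hz.2⟩)
    · exact subset_closure ⟨hx, fun e => k e.1⟩

section
variable (hS : Ctx S) (hl : ∀ K L : Set S, Nodec K → Nodec L → (K ∩ L).Nonempty)
include hS hl

/-- closed subsets that are not discrete meet -/
lemma Ctx.l21_meet {K F G : Set S} (h : Nodec K) (hF : IsClosed F) (hG : IsClosed G) (h1 : F ⊆ K)
    (h2 : G ⊆ K) (n1 : ¬ Disc F) (n2 : ¬ Disc G) : (F ∩ G).Nonempty :=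
  (hl _ _ (h.sub (hS.mem_der h.1.cl h.1.sm h1 (hS.der_ne n1)) (der_sub_closed h.1.cl h1))
    (h.sub (hS.mem_der h.1.cl h.1.sm h2 (hS.der_ne n2)) (der_sub_closed h.1.cl h2))).mono
    (inter_subset_inter (der_sub_closed hF subset_rfl) (der_sub_closed hG subset_rfl))

/-- a closed set missing the boundary meets `K` in a discrete set -/
lemma Ctx.disc_of_miss {K a b Y : Set S} (h : Nodec K) (hs : DSplit K a b) (hY : IsClosed Y)
    (hd : Disjoint Y (a ∩ b)) : Disc (Y ∩ K) := by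
  have s1 : a ⊆ K := hs.eq ▸ subset_union_left
  have s2 : b ⊆ K := hs.eq ▸ subset_union_right
  rw [← hs.eq, inter_union_distrib_left]
  refine hS.disc_union (by_contra fun n => ?_) (by_contra fun n => ?_)
  · obtain ⟨x, hx⟩ := hS.l21_meet hl h (hY.inter hs.ma.cl) hs.mb.cl (inter_subset_right.trans s1)
      s2 n (hs.mb.crd.not_disc hs.mb.ne)
    exact disjoint_left.1 hd hx.1.1 ⟨hx.1.2, hx.2⟩
  · obtain ⟨x, hx⟩ := hS.l21_meet hl h (hY.inter hs.mb.cl) hs.ma.cl (inter_subset_right.trans s2)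
      s1 n (hs.ma.crd.not_disc hs.ma.ne)
    exact disjoint_left.1 hd hx.1.1 ⟨hx.2, hx.1.2⟩

/-- removing a discrete set off the boundary leaves a connected set -/
lemma Ctx.conn_diff {K a b E : Set S} (h : Nodec K) (hs : DSplit K a b) (hE : Disc E)
    (hd : Disjoint E (a ∩ b)) : IsPreconnected (K \ E) := by
  have s1 : a ⊆ K := hs.eq ▸ subset_union_left
  have s2 : b ⊆ K := hs.eq ▸ subset_union_right
  refine isPreconnected_closed_iff.2 fun t t' ht ht' hc n1 n2 => by_contra fun hn => ?_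
  have row : ∀ c, Mem c → c ⊆ K → Disc (c ∩ t) → ¬ Disc (c ∩ t') := fun c m s d d' =>
    m.crd.not_disc m.ne ((hS.disc_union (hS.disc_union d d') hE).mono fun x hx => by
      by_cases e : x ∈ E
      · exact Or.inr e
      · exact Or.inl ((hc ⟨s hx, e⟩).imp (⟨hx, ·⟩) (⟨hx, ·⟩)))
  have col : ∀ u u', IsClosed u' → K \ E ⊆ u ∪ u' → (K \ E ∩ u).Nonempty →
      ¬ (K \ E ∩ (u ∩ u')).Nonempty → Disc (a ∩ u) → ¬ Disc (b ∩ u) :=
    fun u u' k1 k2 ⟨x, hx⟩ k3 d d' =>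
      ((hS.crd_diff h.1.crd hE).diff_closed k1).not_disc ⟨x, hx.1, fun e => k3 ⟨x, hx.1, hx.2, e⟩⟩
        ((hS.disc_union d d').mono fun y hy => by
          have e := (k2 hy.1).resolve_right hy.2
          exact (hs.eq.ge hy.1.1).imp (⟨·, e⟩) (⟨·, e⟩))
  have diag : ∀ u u', IsClosed u → IsClosed u' → ¬ (K \ E ∩ (u ∩ u')).Nonempty →
      ¬ Disc (a ∩ u) → ¬ Disc (b ∩ u') → False := fun u u' k1 k2 k3 d d' => by
    obtain ⟨x, hx⟩ := hS.l21_meet hl h (hs.ma.cl.inter k1) (hs.mb.cl.inter k2)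
      (inter_subset_left.trans s1) (inter_subset_left.trans s2) d d'
    exact k3 ⟨x, ⟨s1 hx.1.1, fun e => disjoint_left.1 hd e ⟨hx.1.1, hx.2.1⟩⟩, hx.1.2, hx.2.2⟩
  have hn' : ¬ (K \ E ∩ (t' ∩ t)).Nonempty := by rwa [inter_comm t' t]
  have c1 := col t t' ht' hc n1 hn
  have c2 := col t' t ht (union_comm t t' ▸ hc) n2 hn'
  have r1 := row a hs.ma s1
  have r2 := row b hs.mb s2
  have d1 := diag t t' ht ht' hn
  have d2 := diag t' t ht' ht hn'
  tauto

end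

end Pool.Agent.Lib.MP_52f683_gt
end

-- part Pool.Agent.Lib.MP_52f683_gt.CS.L22
section

set_option autoImplicit false
set_option linter.unusedSectionVars false

open Set Topology Filter

namespace Pool.Agent.Lib.MP_52f683_gt

variable {S : Type*} [TopologicalSpace S] [T1Space S] [Infinite S]

lemma l22_part {C X Y : Set S} (hC : IsPreconnected C) (h : Sp X Y) (hs : C ⊆ X ∪ Y) :
    C ⊆ X ∨ C ⊆ Y := by
  by_contra hn
  rw [not_or, not_subset, not_subset] at hn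
  obtain ⟨⟨y, hy, hy'⟩, x, hx, hx'⟩ := hn
  obtain ⟨z, hz, h1, h2⟩ := isPreconnected_closed_iff.1 hC (closure X) (closure Y) isClosed_closure
    isClosed_closure (hs.trans (union_subset_union subset_closure subset_closure))
    ⟨x, hx, subset_closure ((hs hx).resolve_right hx')⟩
    ⟨y, hy, subset_closure ((hs hy).resolve_left hy')⟩
  rcases hs hz with k | k
  · exact disjoint_left.1 h.1 k h2
  · exact disjoint_left.1 h.2 k h1

lemma l22_eq {C D X Y : Set S} (e : C ∪ D = X ∪ Y) (h : Disjoint X Y) (h1 : C ⊆ X) (h2 : D ⊆ Y) :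
    C = X ∧ D = Y :=
  ⟨h1.antisymm fun x hx => ((e ▸ Or.inl hx : x ∈ C ∪ D)).resolve_right fun k =>
      disjoint_left.1 h hx (h2 k),
    h2.antisymm fun x hx => ((e ▸ Or.inr hx : x ∈ C ∪ D)).resolve_left fun k =>
      disjoint_left.1 h (h1 k) hx⟩

lemma l22_match {C D X Y : Set S} (hC : IsPreconnected C) (hD : IsPreconnected D) (h : Sp X Y)
    (e : C ∪ D = X ∪ Y) (hX : X.Nonempty) (hY : Y.Nonempty) :
    (C = X ∧ D = Y) ∨ (C = Y ∧ D = X) := by
  rcases l22_part hC h (e ▸ subset_union_left) with h1 | h1 <;>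
    rcases l22_part hD h (e ▸ subset_union_right) with h2 | h2
  · obtain ⟨y, hy⟩ := hY
    exact absurd hy (disjoint_left.1 h.disj (union_subset h1 h2 (e ▸ Or.inr hy : y ∈ C ∪ D)))
  · exact Or.inl (l22_eq e h.disj h1 h2)
  · exact Or.inr (l22_eq (e.trans (union_comm _ _)) h.disj.symm h1 h2)
  · obtain ⟨x, hx⟩ := hX
    exact absurd (union_subset h1 h2 (e ▸ Or.inl hx : x ∈ C ∪ D)) (disjoint_left.1 h.disj hx)

lemma l22_cl (hS : Ctx S) {K D : Set S} (hK : Mem K) (hD : Disc D) (hs : D ⊆ K) :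
    closure (K \ D) = K ∧ Rem (K \ D) = D ∧ (K \ D).Nonempty := by
  have e : closure (K \ D) = K :=
    (closure_minimal sdiff_subset hK.cl).antisymm (hS.nwd_disc hK.crd hD)
  refine ⟨e, ?_, closure_nonempty_iff.1 (e.symm ▸ hK.ne)⟩
  rw [Rem, e, sdiff_sdiff_right_self]
  exact inter_eq_right.2 hs

section
variable (hS : Ctx S) (hl : ∀ K L : Set S, Nodec K → Nodec L → (K ∩ L).Nonempty)
include hS hl

lemma Ctx.l2_final {q r c : Set S} (hq : Nodec q) (hs : DSplit q r c) (he : Eqv r q) : False := by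
  obtain ⟨g, hg⟩ := he
  have hrq : r ⊆ q := hs.eq ▸ subset_union_left
  have hcq : c ⊆ q := hs.eq ▸ subset_union_right
  obtain ⟨k, k1, k2⟩ := hS.ts hq.1.cl hq.1.sm hq.1.cl hq.1.sm hs.disc
    (hS.disc_union hs.disc (hs.disc.image g.symm))
  have ha : Nodec (k '' q) := hq.image k
  have hsa : DSplit (k '' q) (k '' r) (k '' c) := ⟨hs.ma.image k, hs.mb.image k,
    by rw [← image_union, hs.eq], by rw [← img_inter]; exact hs.disc.image k⟩
  rw [img_inter] at k2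
  generalize k '' q = a at k1 ha hsa
  generalize k '' r = a1 at k2 hsa
  generalize k '' c = a2 at k2 hsa
  obtain ⟨k3, k4⟩ := disjoint_union_right.1 k1
  have hE : Disc (a ∩ q) := hS.disc_of_miss hl hq hs ha.1.cl k3
  have hgq : g.symm '' q = r := by rw [← hg, img_symm_img]
  set H : Set S := (a ∩ r) ∪ g.symm '' (a ∩ q) with hH
  have hHr : H ⊆ r := union_subset inter_subset_right (hgq ▸ image_mono inter_subset_right)
  have hHd : Disc H := hS.disc_union (hE.mono (inter_subset_inter_right _ hrq)) (hE.image _)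
  obtain ⟨F, F1, F2, F3⟩ : ∃ F : Set S, F ⊆ a \ (a ∩ q ∪ a1 ∩ a2) ∧ F.Subsingleton ∧
      (F.Nonempty ↔ ¬ (H \ a).Nonempty) := by
    by_cases h0 : (H \ a).Nonempty
    · exact ⟨∅, empty_subset _, subsingleton_empty, by simp [h0]⟩
    · obtain ⟨z, hz⟩ := (l22_cl hS ha.1 (hS.disc_union hE hsa.disc) (union_subset inter_subset_left
        (inter_subset_left.trans (hsa.eq ▸ subset_union_left)))).2.2
      exact ⟨{z}, singleton_subset_iff.2 hz, subsingleton_singleton, by simp [h0]⟩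
  have F4 : ∀ x ∈ F, x ∉ q := fun x hx h => (F1 hx).2 (Or.inl ⟨(F1 hx).1, h⟩)
  have hEF : Disc (a ∩ q ∪ F) := hS.disc_union hE (disc_finite F2.finite)
  obtain ⟨A1, A2, A3⟩ := l22_cl hS ha.1 hEF
    (union_subset inter_subset_left (F1.trans sdiff_subset))
  obtain ⟨B1, B2, -⟩ := l22_cl hS hs.ma hHd hHr
  obtain ⟨C1, -, C3⟩ := l22_cl hS hq.1 (hHd.image g) (hg ▸ image_mono hHr)
  have hgH : g '' H = g '' (a ∩ r) ∪ a ∩ q := by rw [hH, image_union, img_img_symm]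
  have cA : IsPreconnected (a \ (a ∩ q ∪ F)) := hS.conn_diff hl ha hsa hEF
    (disjoint_union_left.2 ⟨k2.symm.mono_left inter_subset_right,
      disjoint_left.2 fun x hx h => (F1 hx).2 (Or.inr h)⟩)
  have cC : IsPreconnected (q \ g '' H) := hS.conn_diff hl hq hs (hHd.image g) (by
    rw [hgH]
    refine disjoint_union_left.2 ⟨?_, k3.mono_left inter_subset_left⟩
    rw [← img_img_symm g (r ∩ c), img_disj]
    exact k4.mono_left inter_subset_left)
  have eB : g '' (r \ H) = q \ g '' H := by rw [img_diff, hg]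
  have cB : IsPreconnected (r \ H) := by
    rw [← img_symm_img g (r \ H), eB]
    exact cC.image _ g.symm.continuous.continuousOn
  have s0 : Disjoint (a \ (a ∩ q ∪ F)) q :=
    disjoint_left.2 fun x hx h => hx.2 (Or.inl ⟨hx.1, h⟩)
  have s1 : Sp (a \ (a ∩ q ∪ F)) (r \ H) := sp_of_closed ha.1.cl hs.ma.cl sdiff_subset
    sdiff_subset (s0.mono_right hrq) (disjoint_left.2 fun x hx h => hx.2 (Or.inl ⟨h, hx.1⟩))
  have s2 : Sp (a \ (a ∩ q ∪ F)) (q \ g '' H) := sp_of_closed ha.1.cl hq.1.cl sdiff_subset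
    sdiff_subset s0 (disjoint_left.2 fun x hx h => hx.2 (hgH ▸ Or.inr ⟨h, hx.1⟩))
  obtain ⟨h, hh⟩ := hS.thin.glueE (Eqv.rfl' _) ⟨g, eB⟩ s1 s2
  rw [image_union] at hh
  rcases l22_match (cA.image _ h.continuous.continuousOn) (cB.image _ h.continuous.continuousOn)
    s2 hh A3 C3 with ⟨e1, e2⟩ | ⟨e1, e2⟩
  · have e3 : h '' r = q := by rw [← B1, img_cl, e2, C1]
    have e4 : h '' (a ∩ q ∪ F) = a ∩ q ∪ F := by rw [← A2, img_rem, e1]
    have key : ∀ x ∈ a ∩ q ∪ F, x ∉ r → h x ∈ F := fun x hx hr =>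
      ((e4 ▸ mem_image_of_mem h hx : h x ∈ a ∩ q ∪ F)).resolve_left fun k =>
        hr ((mem_img h).1 (e3 ▸ k.2))
    obtain ⟨p, p1, p2⟩ := hl a c ha (hq.sub hs.mb hcq)
    have p3 := key p (Or.inl ⟨p1, hcq p2⟩) fun k => disjoint_left.1 k3 p1 ⟨k, p2⟩
    have p4 := key _ (Or.inr p3) fun k => F4 _ p3 (hrq k)
    have p5 : p = h p := h.injective (F2 p3 p4)
    exact F4 _ p3 (p5 ▸ hcq p2)
  · have e3 : h '' a = q := by rw [← A1, img_cl, e1, C1]
    have e4 : h '' H = a ∩ q ∪ F := by rw [← B2, img_rem, e2, A2]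
    have e5 : h '' (H \ a) = F := by
      rw [img_diff, e3, e4]
      exact Subset.antisymm (fun x hx => hx.1.resolve_left fun k => hx.2 k.2)
        fun x hx => ⟨Or.inr hx, F4 x hx⟩
    rw [← e5, image_nonempty] at F3
    exact iff_not_self F3

end

end Pool.Agent.Lib.MP_52f683_gt
end

-- part Pool.Agent.Lib.MP_52f683_gt.CS.L2
section

set_option autoImplicit false
set_option linter.unusedSectionVars false

open Set Topology Filter

namespace Pool.Agent.Lib.MP_52f683_gt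

variable {S : Type*} [TopologicalSpace S] [T1Space S] [Infinite S]

/-- a connected set inside a separated union lies in one part -/
lemma l2_or {A B C : Set S} (hC : IsPreconnected C) (h : Sp A B) (hs : C ⊆ A ∪ B) :
    C ⊆ A ∨ C ⊆ B := by
  by_contra hn
  obtain ⟨⟨x, hx, hx'⟩, y, hy, hy'⟩ := (not_or.1 hn).imp not_subset.1 not_subset.1
  obtain ⟨z, hz, h1, h2⟩ := isPreconnected_closed_iff.1 hC _ _ isClosed_closure isClosed_closure
    (hs.trans (union_subset_union subset_closure subset_closure))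
    ⟨y, hy, subset_closure ((hs hy).resolve_right hy')⟩
    ⟨x, hx, subset_closure ((hs hx).resolve_left hx')⟩
  exact (hs hz).elim (fun k => disjoint_left.1 h.1 k h2) fun k => disjoint_left.1 h.2 k h1

lemma Ctx.l2_cl (hS : Ctx S) {K E : Set S} (hK : Mem K) (hE : Disc E) : closure (K \ E) = K :=
  (closure_minimal sdiff_subset hK.cl).antisymm (hS.nwd_disc hK.crd hE)

lemma Ctx.l2_ne (_hS : Ctx S) {K E : Set S} (hK : Mem K) (hE : Disc E) : (K \ E).Nonempty :=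
  nonempty_iff_ne_empty.2 fun e => hK.crd.not_disc hK.ne (hE.mono (sdiff_eq_empty.1 e))

/-- a clopen part of a member minus a discrete set -/
lemma Ctx.l2_part (hS : Ctx S) {p p' q E C : Set S} (e : Eqv p' p) (hp : Mem p') (hE : Disc E)
    (hC : ClopIn C (p' \ E)) (hne : C.Nonempty) (hq : Eqv (closure C) q) :
    Eqv p q ∨ ∃ r r', DSplit p r r' ∧ Eqv r q := by
  have hP := hS.crd_diff hp.crd hE
  have hu : closure C ∪ closure ((p' \ E) \ C) = p' := by
    rw [← closure_union, union_sdiff_cancel hC.1, hS.l2_cl hp hE]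
  rcases ((p' \ E) \ C).eq_empty_or_nonempty with h | h
  · rw [h, closure_empty, union_empty] at hu
    exact Or.inl (e.symm.trans (hu ▸ hq))
  obtain ⟨g, rfl⟩ := e
  refine Or.inr ⟨g '' closure C, g '' closure ((p' \ E) \ C), ⟨?_, ?_, ?_, ?_⟩,
    (Eqv.symm ⟨g, rfl⟩).trans hq⟩
  · exact (mem_of_crd (hP.clop hC) hne hp.cl hp.sm (hC.1.trans sdiff_subset)).image g
  · exact (mem_of_crd (hP.clop hC.compl) h hp.cl hp.sm (sdiff_subset.trans sdiff_subset)).image g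
  · rw [← image_union, hu]
  · rw [← img_inter]
    refine (hE.mono fun x hx => by_contra fun hn => ?_).image g
    have h1 : x ∈ p' \ E := ⟨hu ▸ Or.inl hx.1, hn⟩
    exact disjoint_left.1 hC.2.1 (hC.closed ⟨hx.1, h1⟩) hx.2

/-- the final comparison of two triples -/
lemma Ctx.l2_main (hS : Ctx S) {p q p1 p3 : Set S} (g : S ≃ₜ S) (hq : Mem q) (h1 : Mem p1)
    (h3 : Mem p3) (e1 : Eqv p1 p) (e3 : Eqv p3 p) (d1 : Disc (p1 ∩ q)) (d2 : Disc (g '' p3 ∩ q))
    (d13 : Disc (p1 ∩ p3)) (d12 : Disc (p1 ∩ g '' p3)) (h3q : p3 ∩ q = p1 ∩ q)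
    (hne : ¬ g '' p3 ∩ q ⊆ p1 ∩ q) (hc : IsPreconnected (q \ (p1 ∩ q ∪ g '' p3 ∩ q))) :
    Eqv p q ∨ ∃ r r', DSplit p r r' ∧ Eqv r q := by
  have h2 := h3.image g
  have dq := hS.disc_union d1 d2
  have dp := hS.disc_union (hS.disc_union d1 d13) d12
  have d3 := hS.disc_union (hS.disc_union d13 d1) ((hS.disc_union d12 d2).image g.symm)
  obtain ⟨Q, hQ⟩ : ∃ Q, Q = q \ (p1 ∩ q ∪ g '' p3 ∩ q) := ⟨_, rfl⟩
  obtain ⟨P, hP⟩ : ∃ P, P = p1 \ (p1 ∩ q ∪ p1 ∩ p3 ∪ p1 ∩ g '' p3) := ⟨_, rfl⟩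
  obtain ⟨K, hK⟩ : ∃ K, K = p3 \ (p1 ∩ p3 ∪ p1 ∩ q ∪ g.symm '' (p1 ∩ g '' p3 ∪ g '' p3 ∩ q)) :=
    ⟨_, rfl⟩
  have m3 : ∀ x ∈ p3, x ∈ q → x ∈ p1 := fun x a b => (h3q.subset ⟨a, b⟩).1
  have mQ : ∀ x ∈ Q, x ∈ q ∧ x ∉ p1 ∧ x ∉ p3 ∧ x ∉ g '' p3 := fun x hx => by
    rw [hQ] at hx
    exact ⟨hx.1, fun k => hx.2 (Or.inl ⟨k, hx.1⟩), fun k => hx.2 (Or.inl ⟨m3 x k hx.1, hx.1⟩),
      fun k => hx.2 (Or.inr ⟨k, hx.1⟩)⟩
  have mP : ∀ x ∈ P, x ∈ p1 ∧ x ∉ q ∧ x ∉ p3 ∧ x ∉ g '' p3 := fun x hx => by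
    rw [hP] at hx
    exact ⟨hx.1, fun k => hx.2 (Or.inl (Or.inl ⟨hx.1, k⟩)),
      fun k => hx.2 (Or.inl (Or.inr ⟨hx.1, k⟩)), fun k => hx.2 (Or.inr ⟨hx.1, k⟩)⟩
  have mK : ∀ x ∈ K, x ∈ p3 ∧ x ∉ p1 ∧ x ∉ q := fun x hx => by
    rw [hK] at hx
    exact ⟨hx.1, fun k => hx.2 (Or.inl (Or.inl ⟨k, hx.1⟩)),
      fun k => hx.2 (Or.inl (Or.inr ⟨m3 x hx.1 k, k⟩))⟩
  have mK' : ∀ x ∈ g '' K, x ∈ g '' p3 ∧ x ∉ p1 ∧ x ∉ q := by
    rintro _ ⟨x, hx, rfl⟩
    rw [hK] at hx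
    have k0 : g x ∈ g '' p3 := mem_image_of_mem g hx.1
    exact ⟨k0, fun k => hx.2 (Or.inr ⟨g x, Or.inl ⟨k, k0⟩, by simp⟩),
      fun k => hx.2 (Or.inr ⟨g x, Or.inr ⟨k0, k⟩, by simp⟩)⟩
  have sQP : Sp Q P := sp_of_closed hq.cl h1.cl (fun x hx => (mQ x hx).1)
    (fun x hx => (mP x hx).1) (disjoint_left.2 fun x hx => (mQ x hx).2.1)
    (disjoint_left.2 fun x hx => (mP x hx).2.1)
  have sQK : Sp Q K := sp_of_closed hq.cl h3.cl (fun x hx => (mQ x hx).1)
    (fun x hx => (mK x hx).1) (disjoint_left.2 fun x hx => (mQ x hx).2.2.1)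
    (disjoint_left.2 fun x hx => (mK x hx).2.2)
  have sPK : Sp P K := sp_of_closed h1.cl h3.cl (fun x hx => (mP x hx).1)
    (fun x hx => (mK x hx).1) (disjoint_left.2 fun x hx => (mP x hx).2.2.1)
    (disjoint_left.2 fun x hx => (mK x hx).2.1)
  have sQK' : Sp Q (g '' K) := sp_of_closed hq.cl h2.cl (fun x hx => (mQ x hx).1)
    (fun x hx => (mK' x hx).1) (disjoint_left.2 fun x hx => (mQ x hx).2.2.2)
    (disjoint_left.2 fun x hx => (mK' x hx).2.2)
  have sPK' : Sp P (g '' K) := sp_of_closed h1.cl h2.cl (fun x hx => (mP x hx).1)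
    (fun x hx => (mK' x hx).1) (disjoint_left.2 fun x hx => (mP x hx).2.2.2)
    (disjoint_left.2 fun x hx => (mK' x hx).2.1)
  have cQ : closure Q = q := hQ ▸ hS.l2_cl hq dq
  have cP : closure P = p1 := hP ▸ hS.l2_cl h1 dp
  have cK : closure K = p3 := hK ▸ hS.l2_cl h3 d3
  obtain ⟨h, hh⟩ := (hS.thin.glueE (Eqv.rfl' _) ⟨g, rfl⟩ (sQK.union_left sPK)
    (sQK'.union_left sPK')).symm
  rw [union_assoc, union_assoc] at hh
  have hC : ClopIn (h '' Q) (Q ∪ (P ∪ K)) :=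
    hh ▸ (clopIn_of_sp (sQP.union_right sQK')).image h
  have hn : (h '' Q).Nonempty := (hQ ▸ hS.l2_ne hq dq).image h
  have hc' : IsPreconnected (h '' Q) := (hQ ▸ hc).image h h.continuous.continuousOn
  have he : Eqv (closure (h '' Q)) q := Eqv.symm ⟨h, by rw [← img_cl, cQ]⟩
  have tr : ∀ X, X ⊆ Q ∪ (P ∪ K) → h '' Q ⊆ X → ClopIn (h '' Q) X := fun X a b => by
    simpa only [inter_eq_left.2 b] using hC.trace a
  rcases l2_or hc' (sQP.union_right sQK) hC.1 with k | k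
  swap
  · rcases l2_or hc' sPK k with k | k
    · exact hS.l2_part e1 h1 dp (hP ▸ tr P (fun x hx => Or.inr (Or.inl hx)) k) hn he
    · exact hS.l2_part e3 h3 d3 (hK ▸ tr K (fun x hx => Or.inr (Or.inr hx)) k) hn he
  have a1 : h '' Q = Q := k.antisymm ((l2_or (hQ ▸ hc) (tr Q subset_union_left k).2
    (union_sdiff_cancel k).superset).resolve_right fun k' =>
      let ⟨_, hx⟩ := hn; (k' (k hx)).2 hx)
  have a2 : h '' q = q := by rw [← cQ, img_cl, a1]
  have a3 : h '' (P ∪ g '' K) = P ∪ K := by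
    rw [← (sQP.union_right sQK').disj.sdiff_eq_right, ← union_sdiff_left, img_diff, hh, a1,
      union_sdiff_left, (sQP.union_right sQK).disj.sdiff_eq_right]
  have a4 : h '' (p1 ∪ g '' p3) = p1 ∪ p3 := by
    rw [← cP, ← cK, img_cl g, ← closure_union, img_cl, a3, closure_union]
  have a5 : h '' (p1 ∩ q ∪ g '' p3 ∩ q) = p1 ∩ q := by
    rw [← union_inter_distrib_right, img_inter, a4, a2, union_inter_distrib_right, h3q, union_self]
  have a6 : q \ Q = p1 ∩ q ∪ g '' p3 ∩ q := by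
    rw [hQ, sdiff_sdiff_right_self]
    exact inter_eq_right.2 (union_subset inter_subset_right inter_subset_right)
  rw [← a6, img_diff, a2, a1, a6] at a5
  exact absurd (subset_union_right.trans a5.subset) hne

section
variable (hS : Ctx S) (hl : ∀ K L : Set S, Nodec K → Nodec L → (K ∩ L).Nonempty)
include hS hl

lemma Ctx.l2_triple {p q : Set S} (hp : Nodec p) (hq : Nodec q) :
    Eqv p q ∨ ∃ r r', DSplit p r r' ∧ Eqv r q := by
  obtain ⟨a, b, hs⟩ := hS.dsplit hq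
  obtain ⟨k1, m1, -⟩ := hS.ts hp.1.cl hp.1.sm isClosed_empty empty_ne_univ disc_empty hs.disc
  have n1 := hp.image k1
  have d1 := hS.disc_of_miss hl hq hs n1.1.cl m1
  obtain ⟨a1, b1, hs1⟩ := hS.dsplit n1
  obtain ⟨k2, m2, -⟩ := hS.ts hp.1.cl hp.1.sm isClosed_empty empty_ne_univ disc_empty
    (hS.disc_union (hS.disc_union hs.disc d1) hs1.disc)
  rw [disjoint_union_right, disjoint_union_right] at m2
  have n2 := hp.image k2
  have d2 := hS.disc_of_miss hl hq hs n2.1.cl m2.1.1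
  have d12 := hS.disc_of_miss hl n1 hs1 n2.1.cl m2.2
  rw [inter_comm] at d12
  obtain ⟨g, -, mg⟩ := hS.ts isClosed_empty empty_ne_univ (n1.1.cl.union hq.1.cl)
    (hS.union_ne n1.1.cl hq.1.cl n1.1.sm hq.1.sm) d12 disc_empty
  rw [disjoint_union_right] at mg
  have cq := hS.l2_cl hq.1 d1
  obtain ⟨k, e1, e2⟩ := hS.move (hS.crd_diff hq.1.crd d1) d12 (d12.image g) ⟨g, rfl⟩
    (cq.symm ▸ disjoint_left.2 fun x hx hx' => disjoint_left.1 m2.1.2 hx.2 ⟨hx.1, hx'⟩)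
    (cq.symm ▸ mg.2)
  have e3 : k '' q = q := by rw [← cq, img_cl, e1]
  have e4 : q \ (q \ (k1 '' p ∩ q)) = k1 '' p ∩ q := by
    rw [sdiff_sdiff_right_self]
    exact inter_eq_right.2 inter_subset_right
  have e5 : k '' (k1 '' p) ∩ q = k1 '' p ∩ q := by
    rw [← e4, ← e1]
    nth_rewrite 1 2 [← e3]
    rw [← img_inter, ← img_diff, e4]
  have d13 : Disc (k1 '' p ∩ k '' (k1 '' p)) := by
    by_contra hn
    have c1 := hS.mem_der n1.1.cl n1.1.sm inter_subset_left (hS.der_ne hn)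
    have c2 : k.symm '' derivedSet (k1 '' p ∩ k '' (k1 '' p)) ⊆ k1 '' p :=
      (image_mono (der_sub_closed (n1.image k).1.cl inter_subset_right)).trans
        (img_symm_img k _).subset
    obtain ⟨x, hx, hx'⟩ := hl _ _ (n1.sub (c1.image k.symm) c2) n2
    have c3 : k x ∈ g '' (k1 '' p ∩ k2 '' p) := e2 ▸ mem_image_of_mem k ⟨c2 hx, hx'⟩
    obtain ⟨y, hy, rfl⟩ := hx
    rw [k.apply_symm_apply] at c3
    exact disjoint_left.1 mg.1 c3 (der_sub_closed n1.1.cl inter_subset_left hy)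
  have e6 : ((k.symm.trans k1.symm).trans k2) '' (k '' (k1 '' p)) = k2 '' p := by
    rw [img_trans, img_trans, img_symm_img, img_symm_img]
  refine hS.l2_main ((k.symm.trans k1.symm).trans k2) hq.1 n1.1 (n1.image k).1
    (Eqv.symm ⟨k1, rfl⟩) (Eqv.symm ⟨k1.trans k, img_trans _ _ _⟩) d1 (e6.symm ▸ d2) d13
    (e6.symm ▸ d12) e5 ?_ ?_
  · rw [e6]
    obtain ⟨x, hx⟩ := hl _ _ n2 hq
    exact fun h => disjoint_left.1 m2.1.2 hx.1 (h hx)
  · rw [e6]
    exact hS.conn_diff hl hq hs (hS.disc_union d1 d2) (disjoint_union_left.2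
      ⟨m1.mono_left inter_subset_left, m2.1.1.mono_left inter_subset_left⟩)

theorem Ctx.nodec_linked {K : Set S} (hK : Nodec K) : False := by
  obtain ⟨a, b, hs⟩ := hS.dsplit hK
  have ha : a ⊆ K := hs.eq ▸ subset_union_left
  rcases hS.l2_triple hl (hK.sub hs.ma ha) hK with h | ⟨r, r', h1, h2⟩
  · exact hS.l2_final hl hK hs h
  · refine hS.l2_final hl hK (r := r) (c := r' ∪ b) ⟨h1.ma, hS.mem_union h1.mb hs.mb, ?_, ?_⟩ h2
    · rw [← union_assoc, h1.eq, hs.eq]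
    · rw [inter_union_distrib_left]
      exact hS.disc_union h1.disc
        (hs.disc.mono (inter_subset_inter_left _ (h1.eq ▸ subset_union_left)))

end

end Pool.Agent.Lib.MP_52f683_gt
end

-- part Pool.Agent.Lib.MP_52f683_gt.F.L21
section

set_option autoImplicit false
set_option linter.unusedSectionVars false

open Set Topology Filter

namespace Pool.Agent.Lib.MP_52f683_gt

variable {S : Type*} [TopologicalSpace S] [T1Space S] [Infinite S]

lemma CB.dsplit (hS : CB S) {K : Set S} (h : Nodec K) : ∃ a b, DSplit K a b := by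
  obtain ⟨U, V, hU, hV, h1, ⟨v, hv⟩, h3⟩ := hS.reducible h.1
  have s1 : closure (K ∩ U) ⊆ K := closure_minimal inter_subset_left h.1.cl
  have s2 : closure (K \ closure (K ∩ U)) ⊆ K := closure_minimal sdiff_subset h.1.cl
  refine ⟨_, _, mem_of_crd (h.1.crd.inter_open hU) h1 h.1.cl h.1.sm inter_subset_left,
    mem_of_crd (h.1.crd.diff_closed isClosed_closure)
      ⟨v, hv.1, disjoint_right.1 (h3.closure_left hV) hv.2⟩ h.1.cl h.1.sm sdiff_subset,
    (union_subset s1 s2).antisymm fun x hx => ?_,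
    h.2 _ (isClosed_closure.inter isClosed_closure) (inter_subset_left.trans s1) fun x hx => ?_⟩
  · by_cases k : x ∈ closure (K ∩ U)
    exacts [Or.inl k, Or.inr (subset_closure ⟨hx, k⟩)]
  · by_cases k : x ∈ closure (K ∩ U)
    · refine closure_mono (fun y hy => (Set.mem_sdiff y).2 ⟨hy.1, fun e => ?_⟩) k
      obtain ⟨z, hz⟩ := closure_nonempty_iff.1 ⟨y, cl_inter_open hU hy.2 e.2⟩
      exact hz.1.2 (subset_closure ⟨hz.1.1, hz.2⟩)
    · exact subset_closure ⟨hx, fun e => k e.1⟩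

lemma CB.l22_cl (hS : CB S) {K D : Set S} (hK : Mem K) (hD : Disc D) (hs : D ⊆ K) :
    closure (K \ D) = K ∧ Rem (K \ D) = D ∧ (K \ D).Nonempty := by
  have e : closure (K \ D) = K :=
    (closure_minimal sdiff_subset hK.cl).antisymm (hS.nwd_disc hK.crd hD)
  refine ⟨e, ?_, closure_nonempty_iff.1 (e.symm ▸ hK.ne)⟩
  rw [Rem, e, sdiff_sdiff_right_self]
  exact inter_eq_right.2 hs

lemma CB.l2_cl (hS : CB S) {K E : Set S} (hK : Mem K) (hE : Disc E) : closure (K \ E) = K :=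
  (closure_minimal sdiff_subset hK.cl).antisymm (hS.nwd_disc hK.crd hE)

lemma CB.l2_ne (_hS : CB S) {K E : Set S} (hK : Mem K) (hE : Disc E) : (K \ E).Nonempty :=
  nonempty_iff_ne_empty.2 fun e => hK.crd.not_disc hK.ne (hE.mono (sdiff_eq_empty.1 e))

/-- a clopen part of a member minus a discrete set -/
lemma CB.l2_part (hS : CB S) {p p' q E C : Set S} (e : Eqv p' p) (hp : Mem p') (hE : Disc E)
    (hC : ClopIn C (p' \ E)) (hne : C.Nonempty) (hq : Eqv (closure C) q) :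
    Eqv p q ∨ ∃ r r', DSplit p r r' ∧ Eqv r q := by
  have hP := hS.crd_diff hp.crd hE
  have hu : closure C ∪ closure ((p' \ E) \ C) = p' := by
    rw [← closure_union, union_sdiff_cancel hC.1, hS.l2_cl hp hE]
  rcases ((p' \ E) \ C).eq_empty_or_nonempty with h | h
  · rw [h, closure_empty, union_empty] at hu
    exact Or.inl (e.symm.trans (hu ▸ hq))
  obtain ⟨g, rfl⟩ := e
  refine Or.inr ⟨g '' closure C, g '' closure ((p' \ E) \ C), ⟨?_, ?_, ?_, ?_⟩,
    (Eqv.symm ⟨g, rfl⟩).trans hq⟩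
  · exact (mem_of_crd (hP.clop hC) hne hp.cl hp.sm (hC.1.trans sdiff_subset)).image g
  · exact (mem_of_crd (hP.clop hC.compl) h hp.cl hp.sm (sdiff_subset.trans sdiff_subset)).image g
  · rw [← image_union, hu]
  · rw [← img_inter]
    refine (hE.mono fun x hx => by_contra fun hn => ?_).image g
    have h1 : x ∈ p' \ E := ⟨hu ▸ Or.inl hx.1, hn⟩
    exact disjoint_left.1 hC.2.1 (hC.closed ⟨hx.1, h1⟩) hx.2

/-- the final comparison of two triples -/
lemma CB.l2_main (hS : CB S) {p q p1 p3 : Set S} (g : S ≃ₜ S) (hq : Mem q) (h1 : Mem p1)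
    (h3 : Mem p3) (e1 : Eqv p1 p) (e3 : Eqv p3 p) (d1 : Disc (p1 ∩ q)) (d2 : Disc (g '' p3 ∩ q))
    (d13 : Disc (p1 ∩ p3)) (d12 : Disc (p1 ∩ g '' p3)) (h3q : p3 ∩ q = p1 ∩ q)
    (hne : ¬ g '' p3 ∩ q ⊆ p1 ∩ q) (hc : IsPreconnected (q \ (p1 ∩ q ∪ g '' p3 ∩ q))) :
    Eqv p q ∨ ∃ r r', DSplit p r r' ∧ Eqv r q := by
  have h2 := h3.image g
  have dq := hS.disc_union d1 d2
  have dp := hS.disc_union (hS.disc_union d1 d13) d12
  have d3 := hS.disc_union (hS.disc_union d13 d1) ((hS.disc_union d12 d2).image g.symm)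
  obtain ⟨Q, hQ⟩ : ∃ Q, Q = q \ (p1 ∩ q ∪ g '' p3 ∩ q) := ⟨_, rfl⟩
  obtain ⟨P, hP⟩ : ∃ P, P = p1 \ (p1 ∩ q ∪ p1 ∩ p3 ∪ p1 ∩ g '' p3) := ⟨_, rfl⟩
  obtain ⟨K, hK⟩ : ∃ K, K = p3 \ (p1 ∩ p3 ∪ p1 ∩ q ∪ g.symm '' (p1 ∩ g '' p3 ∪ g '' p3 ∩ q)) :=
    ⟨_, rfl⟩
  have m3 : ∀ x ∈ p3, x ∈ q → x ∈ p1 := fun x a b => (h3q.subset ⟨a, b⟩).1
  have mQ : ∀ x ∈ Q, x ∈ q ∧ x ∉ p1 ∧ x ∉ p3 ∧ x ∉ g '' p3 := fun x hx => by
    rw [hQ] at hx
    exact ⟨hx.1, fun k => hx.2 (Or.inl ⟨k, hx.1⟩), fun k => hx.2 (Or.inl ⟨m3 x k hx.1, hx.1⟩),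
      fun k => hx.2 (Or.inr ⟨k, hx.1⟩)⟩
  have mP : ∀ x ∈ P, x ∈ p1 ∧ x ∉ q ∧ x ∉ p3 ∧ x ∉ g '' p3 := fun x hx => by
    rw [hP] at hx
    exact ⟨hx.1, fun k => hx.2 (Or.inl (Or.inl ⟨hx.1, k⟩)),
      fun k => hx.2 (Or.inl (Or.inr ⟨hx.1, k⟩)), fun k => hx.2 (Or.inr ⟨hx.1, k⟩)⟩
  have mK : ∀ x ∈ K, x ∈ p3 ∧ x ∉ p1 ∧ x ∉ q := fun x hx => by
    rw [hK] at hx
    exact ⟨hx.1, fun k => hx.2 (Or.inl (Or.inl ⟨k, hx.1⟩)),
      fun k => hx.2 (Or.inl (Or.inr ⟨m3 x hx.1 k, k⟩))⟩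
  have mK' : ∀ x ∈ g '' K, x ∈ g '' p3 ∧ x ∉ p1 ∧ x ∉ q := by
    rintro _ ⟨x, hx, rfl⟩
    rw [hK] at hx
    have k0 : g x ∈ g '' p3 := mem_image_of_mem g hx.1
    exact ⟨k0, fun k => hx.2 (Or.inr ⟨g x, Or.inl ⟨k, k0⟩, by simp⟩),
      fun k => hx.2 (Or.inr ⟨g x, Or.inr ⟨k0, k⟩, by simp⟩)⟩
  have sQP : Sp Q P := sp_of_closed hq.cl h1.cl (fun x hx => (mQ x hx).1)
    (fun x hx => (mP x hx).1) (disjoint_left.2 fun x hx => (mQ x hx).2.1)
    (disjoint_left.2 fun x hx => (mP x hx).2.1)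
  have sQK : Sp Q K := sp_of_closed hq.cl h3.cl (fun x hx => (mQ x hx).1)
    (fun x hx => (mK x hx).1) (disjoint_left.2 fun x hx => (mQ x hx).2.2.1)
    (disjoint_left.2 fun x hx => (mK x hx).2.2)
  have sPK : Sp P K := sp_of_closed h1.cl h3.cl (fun x hx => (mP x hx).1)
    (fun x hx => (mK x hx).1) (disjoint_left.2 fun x hx => (mP x hx).2.2.1)
    (disjoint_left.2 fun x hx => (mK x hx).2.1)
  have sQK' : Sp Q (g '' K) := sp_of_closed hq.cl h2.cl (fun x hx => (mQ x hx).1)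
    (fun x hx => (mK' x hx).1) (disjoint_left.2 fun x hx => (mQ x hx).2.2.2)
    (disjoint_left.2 fun x hx => (mK' x hx).2.2)
  have sPK' : Sp P (g '' K) := sp_of_closed h1.cl h2.cl (fun x hx => (mP x hx).1)
    (fun x hx => (mK' x hx).1) (disjoint_left.2 fun x hx => (mP x hx).2.2.2)
    (disjoint_left.2 fun x hx => (mK' x hx).2.1)
  have cQ : closure Q = q := hQ ▸ hS.l2_cl hq dq
  have cP : closure P = p1 := hP ▸ hS.l2_cl h1 dp
  have cK : closure K = p3 := hK ▸ hS.l2_cl h3 d3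
  obtain ⟨h, hh⟩ := (hS.thin.glueE (Eqv.rfl' _) ⟨g, rfl⟩ (sQK.union_left sPK)
    (sQK'.union_left sPK')).symm
  rw [union_assoc, union_assoc] at hh
  have hC : ClopIn (h '' Q) (Q ∪ (P ∪ K)) :=
    hh ▸ (clopIn_of_sp (sQP.union_right sQK')).image h
  have hn : (h '' Q).Nonempty := (hQ ▸ hS.l2_ne hq dq).image h
  have hc' : IsPreconnected (h '' Q) := (hQ ▸ hc).image h h.continuous.continuousOn
  have he : Eqv (closure (h '' Q)) q := Eqv.symm ⟨h, by rw [← img_cl, cQ]⟩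
  have tr : ∀ X, X ⊆ Q ∪ (P ∪ K) → h '' Q ⊆ X → ClopIn (h '' Q) X := fun X a b => by
    simpa only [inter_eq_left.2 b] using hC.trace a
  rcases l2_or hc' (sQP.union_right sQK) hC.1 with k | k
  swap
  · rcases l2_or hc' sPK k with k | k
    · exact hS.l2_part e1 h1 dp (hP ▸ tr P (fun x hx => Or.inr (Or.inl hx)) k) hn he
    · exact hS.l2_part e3 h3 d3 (hK ▸ tr K (fun x hx => Or.inr (Or.inr hx)) k) hn he
  have a1 : h '' Q = Q := k.antisymm ((l2_or (hQ ▸ hc) (tr Q subset_union_left k).2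
    (union_sdiff_cancel k).superset).resolve_right fun k' =>
      let ⟨_, hx⟩ := hn; (k' (k hx)).2 hx)
  have a2 : h '' q = q := by rw [← cQ, img_cl, a1]
  have a3 : h '' (P ∪ g '' K) = P ∪ K := by
    rw [← (sQP.union_right sQK').disj.sdiff_eq_right, ← union_sdiff_left, img_diff, hh, a1,
      union_sdiff_left, (sQP.union_right sQK).disj.sdiff_eq_right]
  have a4 : h '' (p1 ∪ g '' p3) = p1 ∪ p3 := by
    rw [← cP, ← cK, img_cl g, ← closure_union, img_cl, a3, closure_union]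
  have a5 : h '' (p1 ∩ q ∪ g '' p3 ∩ q) = p1 ∩ q := by
    rw [← union_inter_distrib_right, img_inter, a4, a2, union_inter_distrib_right, h3q, union_self]
  have a6 : q \ Q = p1 ∩ q ∪ g '' p3 ∩ q := by
    rw [hQ, sdiff_sdiff_right_self]
    exact inter_eq_right.2 (union_subset inter_subset_right inter_subset_right)
  rw [← a6, img_diff, a2, a1, a6] at a5
  exact absurd (subset_union_right.trans a5.subset) hne

section
variable (hS : CB S) (hl : ∀ K L : Set S, Nodec K → Nodec L → (K ∩ L).Nonempty)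
include hS hl

/-- closed subsets that are not discrete meet -/
lemma CB.l21_meet {K F G : Set S} (h : Nodec K) (hF : IsClosed F) (hG : IsClosed G) (h1 : F ⊆ K)
    (h2 : G ⊆ K) (n1 : ¬ Disc F) (n2 : ¬ Disc G) : (F ∩ G).Nonempty :=
  (hl _ _ (h.sub (hS.mem_der h.1.cl h.1.sm h1 (hS.der_ne n1)) (der_sub_closed h.1.cl h1))
    (h.sub (hS.mem_der h.1.cl h.1.sm h2 (hS.der_ne n2)) (der_sub_closed h.1.cl h2))).mono
    (inter_subset_inter (der_sub_closed hF subset_rfl) (der_sub_closed hG subset_rfl))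

/-- a closed set missing the boundary meets `K` in a discrete set -/
lemma CB.disc_of_miss {K a b Y : Set S} (h : Nodec K) (hs : DSplit K a b) (hY : IsClosed Y)
    (hd : Disjoint Y (a ∩ b)) : Disc (Y ∩ K) := by
  have s1 : a ⊆ K := hs.eq ▸ subset_union_left
  have s2 : b ⊆ K := hs.eq ▸ subset_union_right
  rw [← hs.eq, inter_union_distrib_left]
  refine hS.disc_union (by_contra fun n => ?_) (by_contra fun n => ?_)
  · obtain ⟨x, hx⟩ := hS.l21_meet hl h (hY.inter hs.ma.cl) hs.mb.cl (inter_subset_right.trans s1)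
      s2 n (hs.mb.crd.not_disc hs.mb.ne)
    exact disjoint_left.1 hd hx.1.1 ⟨hx.1.2, hx.2⟩
  · obtain ⟨x, hx⟩ := hS.l21_meet hl h (hY.inter hs.mb.cl) hs.ma.cl (inter_subset_right.trans s2)
      s1 n (hs.ma.crd.not_disc hs.ma.ne)
    exact disjoint_left.1 hd hx.1.1 ⟨hx.2, hx.1.2⟩

/-- removing a discrete set off the boundary leaves a connected set -/
lemma CB.conn_diff {K a b E : Set S} (h : Nodec K) (hs : DSplit K a b) (hE : Disc E)
    (hd : Disjoint E (a ∩ b)) : IsPreconnected (K \ E) := by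
  have s1 : a ⊆ K := hs.eq ▸ subset_union_left
  have s2 : b ⊆ K := hs.eq ▸ subset_union_right
  refine isPreconnected_closed_iff.2 fun t t' ht ht' hc n1 n2 => by_contra fun hn => ?_
  have row : ∀ c, Mem c → c ⊆ K → Disc (c ∩ t) → ¬ Disc (c ∩ t') := fun c m s d d' =>
    m.crd.not_disc m.ne ((hS.disc_union (hS.disc_union d d') hE).mono fun x hx => by
      by_cases e : x ∈ E
      · exact Or.inr e
      · exact Or.inl ((hc ⟨s hx, e⟩).imp (⟨hx, ·⟩) (⟨hx, ·⟩)))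
  have col : ∀ u u', IsClosed u' → K \ E ⊆ u ∪ u' → (K \ E ∩ u).Nonempty →
      ¬ (K \ E ∩ (u ∩ u')).Nonempty → Disc (a ∩ u) → ¬ Disc (b ∩ u) :=
    fun u u' k1 k2 ⟨x, hx⟩ k3 d d' =>
      ((hS.crd_diff h.1.crd hE).diff_closed k1).not_disc ⟨x, hx.1, fun e => k3 ⟨x, hx.1, hx.2, e⟩⟩
        ((hS.disc_union d d').mono fun y hy => by
          have e := (k2 hy.1).resolve_right hy.2
          exact (hs.eq.ge hy.1.1).imp (⟨·, e⟩) (⟨·, e⟩))
  have diag : ∀ u u', IsClosed u → IsClosed u' → ¬ (K \ E ∩ (u ∩ u')).Nonempty →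
      ¬ Disc (a ∩ u) → ¬ Disc (b ∩ u') → False := fun u u' k1 k2 k3 d d' => by
    obtain ⟨x, hx⟩ := hS.l21_meet hl h (hs.ma.cl.inter k1) (hs.mb.cl.inter k2)
      (inter_subset_left.trans s1) (inter_subset_left.trans s2) d d'
    exact k3 ⟨x, ⟨s1 hx.1.1, fun e => disjoint_left.1 hd e ⟨hx.1.1, hx.2.1⟩⟩, hx.1.2, hx.2.2⟩
  have hn' : ¬ (K \ E ∩ (t' ∩ t)).Nonempty := by rwa [inter_comm t' t]
  have c1 := col t t' ht' hc n1 hn
  have c2 := col t' t ht (union_comm t t' ▸ hc) n2 hn'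
  have r1 := row a hs.ma s1
  have r2 := row b hs.mb s2
  have d1 := diag t t' ht ht' hn
  have d2 := diag t' t ht' ht hn'
  tauto

end

end Pool.Agent.Lib.MP_52f683_gt
end

-- part Pool.Agent.Lib.MP_52f683_gt.F.L2
section

set_option autoImplicit false
set_option linter.unusedSectionVars false

open Set Topology Filter

namespace Pool.Agent.Lib.MP_52f683_gt

variable {S : Type*} [TopologicalSpace S] [T1Space S] [Infinite S]

/-- a class of discrete sets that can be placed freely -/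
structure LS (Lt : Set S → Prop) : Prop where
  mono : ∀ D E, Lt D → E ⊆ D → Lt E
  union : ∀ D E, Lt D → Lt E → Lt (D ∪ E)
  image : ∀ D (g : S ≃ₜ S), Lt D → Lt (g '' D)
  ts : ∀ K L D E, Mem K → Mem L → Lt D → Lt E →
    ∃ k : S ≃ₜ S, Disjoint (k '' K) E ∧ Disjoint (k '' D) L
  sep : ∀ K D x0 x, Mem K → Lt D → x ∉ D → ∃ k : S ≃ₜ S, k x0 = x ∧ Disjoint (k '' K) D

/-- all discrete subsets are in the class -/
def Poor (Lt : Set S → Prop) (A : Set S) : Prop := ∀ D ⊆ A, Disc D → Lt D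

lemma Poor.mono {Lt : Set S → Prop} {A B : Set S} (h : Poor Lt A) (hB : B ⊆ A) : Poor Lt B :=
  fun D h1 h2 => h D (h1.trans hB) h2

lemma Poor.image {Lt : Set S → Prop} {A : Set S} (h : Poor Lt A) (hT : LS Lt) (g : S ≃ₜ S) :
    Poor Lt (g '' A) := fun D h1 h2 => by
  obtain ⟨E, h3, rfl⟩ := subset_image_iff.1 h1
  refine hT.image _ g (h E h3 ?_)
  simpa only [img_symm_img] using h2.image g.symm

section
variable (hS : CB S) {Lt : Set S → Prop} (hT : LS Lt)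
  (hl : ∀ K L : Set S, Nodec K → Nodec L → (K ∩ L).Nonempty)
include hS hT hl

lemma CB.l2_final {q r c : Set S} (hq : Nodec q) (pq : Poor Lt q) (hs : DSplit q r c)
    (he : Eqv r q) : False := by
  obtain ⟨g, hg⟩ := he
  have hrq : r ⊆ q := hs.eq ▸ subset_union_left
  have hcq : c ⊆ q := hs.eq ▸ subset_union_right
  have l0 : Lt (r ∩ c) := pq _ (inter_subset_left.trans hrq) hs.disc
  obtain ⟨k, k1, k2⟩ := hT.ts _ _ _ _ hq.1 hq.1 l0 (hT.union _ _ l0 (hT.image _ g.symm l0))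
  have ha : Nodec (k '' q) := hq.image k
  have hsa : DSplit (k '' q) (k '' r) (k '' c) := ⟨hs.ma.image k, hs.mb.image k,
    by rw [← image_union, hs.eq], by rw [← img_inter]; exact hs.disc.image k⟩
  rw [img_inter] at k2
  generalize k '' q = a at k1 ha hsa
  generalize k '' r = a1 at k2 hsa
  generalize k '' c = a2 at k2 hsa
  obtain ⟨k3, k4⟩ := disjoint_union_right.1 k1
  have hE : Disc (a ∩ q) := hS.disc_of_miss hl hq hs ha.1.cl k3
  have hgq : g.symm '' q = r := by rw [← hg, img_symm_img]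
  set H : Set S := (a ∩ r) ∪ g.symm '' (a ∩ q) with hH
  have hHr : H ⊆ r := union_subset inter_subset_right (hgq ▸ image_mono inter_subset_right)
  have hHd : Disc H := hS.disc_union (hE.mono (inter_subset_inter_right _ hrq)) (hE.image _)
  obtain ⟨F, F1, F2, F3⟩ : ∃ F : Set S, F ⊆ a \ (a ∩ q ∪ a1 ∩ a2) ∧ F.Subsingleton ∧
      (F.Nonempty ↔ ¬ (H \ a).Nonempty) := by
    by_cases h0 : (H \ a).Nonempty
    · exact ⟨∅, empty_subset _, subsingleton_empty, by simp [h0]⟩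
    · obtain ⟨z, hz⟩ := (hS.l22_cl ha.1 (hS.disc_union hE hsa.disc) (union_subset inter_subset_left
        (inter_subset_left.trans (hsa.eq ▸ subset_union_left)))).2.2
      exact ⟨{z}, singleton_subset_iff.2 hz, subsingleton_singleton, by simp [h0]⟩
  have F4 : ∀ x ∈ F, x ∉ q := fun x hx h => (F1 hx).2 (Or.inl ⟨(F1 hx).1, h⟩)
  have hEF : Disc (a ∩ q ∪ F) := hS.disc_union hE (disc_finite F2.finite)
  obtain ⟨A1, A2, A3⟩ := hS.l22_cl ha.1 hEF
    (union_subset inter_subset_left (F1.trans sdiff_subset))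
  obtain ⟨B1, B2, -⟩ := hS.l22_cl hs.ma hHd hHr
  obtain ⟨C1, -, C3⟩ := hS.l22_cl hq.1 (hHd.image g) (hg ▸ image_mono hHr)
  have hgH : g '' H = g '' (a ∩ r) ∪ a ∩ q := by rw [hH, image_union, img_img_symm]
  have cA : IsPreconnected (a \ (a ∩ q ∪ F)) := hS.conn_diff hl ha hsa hEF
    (disjoint_union_left.2 ⟨k2.symm.mono_left inter_subset_right,
      disjoint_left.2 fun x hx h => (F1 hx).2 (Or.inr h)⟩)
  have cC : IsPreconnected (q \ g '' H) := hS.conn_diff hl hq hs (hHd.image g) (by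
    rw [hgH]
    refine disjoint_union_left.2 ⟨?_, k3.mono_left inter_subset_left⟩
    rw [← img_img_symm g (r ∩ c), img_disj]
    exact k4.mono_left inter_subset_left)
  have eB : g '' (r \ H) = q \ g '' H := by rw [img_diff, hg]
  have cB : IsPreconnected (r \ H) := by
    rw [← img_symm_img g (r \ H), eB]
    exact cC.image _ g.symm.continuous.continuousOn
  have s0 : Disjoint (a \ (a ∩ q ∪ F)) q :=
    disjoint_left.2 fun x hx h => hx.2 (Or.inl ⟨hx.1, h⟩)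
  have s1 : Sp (a \ (a ∩ q ∪ F)) (r \ H) := sp_of_closed ha.1.cl hs.ma.cl sdiff_subset
    sdiff_subset (s0.mono_right hrq) (disjoint_left.2 fun x hx h => hx.2 (Or.inl ⟨h, hx.1⟩))
  have s2 : Sp (a \ (a ∩ q ∪ F)) (q \ g '' H) := sp_of_closed ha.1.cl hq.1.cl sdiff_subset
    sdiff_subset s0 (disjoint_left.2 fun x hx h => hx.2 (hgH ▸ Or.inr ⟨h, hx.1⟩))
  obtain ⟨h, hh⟩ := hS.thin.glueE (Eqv.rfl' _) ⟨g, eB⟩ s1 s2
  rw [image_union] at hh
  rcases l22_match (cA.image _ h.continuous.continuousOn) (cB.image _ h.continuous.continuousOn)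
    s2 hh A3 C3 with ⟨e1, e2⟩ | ⟨e1, e2⟩
  · have e3 : h '' r = q := by rw [← B1, img_cl, e2, C1]
    have e4 : h '' (a ∩ q ∪ F) = a ∩ q ∪ F := by rw [← A2, img_rem, e1]
    have key : ∀ x ∈ a ∩ q ∪ F, x ∉ r → h x ∈ F := fun x hx hr =>
      ((e4 ▸ mem_image_of_mem h hx : h x ∈ a ∩ q ∪ F)).resolve_left fun k =>
        hr ((mem_img h).1 (e3 ▸ k.2))
    obtain ⟨p, p1, p2⟩ := hl a c ha (hq.sub hs.mb hcq)
    have p3 := key p (Or.inl ⟨p1, hcq p2⟩) fun k => disjoint_left.1 k3 p1 ⟨k, p2⟩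
    have p4 := key _ (Or.inr p3) fun k => F4 _ p3 (hrq k)
    have p5 : p = h p := h.injective (F2 p3 p4)
    exact F4 _ p3 (p5 ▸ hcq p2)
  · have e3 : h '' a = q := by rw [← A1, img_cl, e1, C1]
    have e4 : h '' H = a ∩ q ∪ F := by rw [← B2, img_rem, e2, A2]
    have e5 : h '' (H \ a) = F := by
      rw [img_diff, e3, e4]
      exact Subset.antisymm (fun x hx => hx.1.resolve_left fun k => hx.2 k.2)
        fun x hx => ⟨Or.inr hx, F4 x hx⟩
    rw [← e5, image_nonempty] at F3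
    exact iff_not_self F3

lemma CB.l2_triple {p q : Set S} (hp : Nodec p) (hq : Nodec q) (pp : Poor Lt p)
    (pq : Poor Lt q) :
    Eqv p q ∨ ∃ r r', DSplit p r r' ∧ Eqv r q := by
  obtain ⟨a, b, hs⟩ := hS.dsplit hq
  have l0 : Lt (a ∩ b) := pq _ (inter_subset_left.trans (hs.eq ▸ subset_union_left)) hs.disc
  have le : Lt ∅ := hT.mono _ _ l0 (empty_subset _)
  obtain ⟨k1, m1, -⟩ := hT.ts _ _ _ _ hp.1 hp.1 le l0
  have p1 := pp.image hT k1
  have n1 := hp.image k1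
  have d1 := hS.disc_of_miss hl hq hs n1.1.cl m1
  obtain ⟨a1, b1, hs1⟩ := hS.dsplit n1
  obtain ⟨k2, m2, -⟩ := hT.ts _ _ _ _ hp.1 hp.1 le (hT.union _ _ (hT.union _ _ l0
    (pq _ inter_subset_right d1))
    (p1 _ (inter_subset_left.trans (hs1.eq ▸ subset_union_left)) hs1.disc))
  rw [disjoint_union_right, disjoint_union_right] at m2
  have n2 := hp.image k2
  have d2 := hS.disc_of_miss hl hq hs n2.1.cl m2.1.1
  have d12 := hS.disc_of_miss hl n1 hs1 n2.1.cl m2.2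
  rw [inter_comm] at d12
  obtain ⟨g, -, mg⟩ := hT.ts _ _ _ _ hp.1 (hS.mem_union n1.1 hq.1) (p1 _ inter_subset_left d12) le
  rw [disjoint_union_right] at mg
  have cq := hS.l2_cl hq.1 d1
  obtain ⟨k, e1, e2⟩ := hS.move (hS.crd_diff hq.1.crd d1) d12 (d12.image g) ⟨g, rfl⟩
    (cq.symm ▸ disjoint_left.2 fun x hx hx' => disjoint_left.1 m2.1.2 hx.2 ⟨hx.1, hx'⟩)
    (cq.symm ▸ mg.2)
  have e3 : k '' q = q := by rw [← cq, img_cl, e1]
  have e4 : q \ (q \ (k1 '' p ∩ q)) = k1 '' p ∩ q := by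
    rw [sdiff_sdiff_right_self]
    exact inter_eq_right.2 inter_subset_right
  have e5 : k '' (k1 '' p) ∩ q = k1 '' p ∩ q := by
    rw [← e4, ← e1]
    nth_rewrite 1 2 [← e3]
    rw [← img_inter, ← img_diff, e4]
  have d13 : Disc (k1 '' p ∩ k '' (k1 '' p)) := by
    by_contra hn
    have c1 := hS.mem_der n1.1.cl n1.1.sm inter_subset_left (hS.der_ne hn)
    have c2 : k.symm '' derivedSet (k1 '' p ∩ k '' (k1 '' p)) ⊆ k1 '' p :=
      (image_mono (der_sub_closed (n1.image k).1.cl inter_subset_right)).trans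
        (img_symm_img k _).subset
    obtain ⟨x, hx, hx'⟩ := hl _ _ (n1.sub (c1.image k.symm) c2) n2
    have c3 : k x ∈ g '' (k1 '' p ∩ k2 '' p) := e2 ▸ mem_image_of_mem k ⟨c2 hx, hx'⟩
    obtain ⟨y, hy, rfl⟩ := hx
    rw [k.apply_symm_apply] at c3
    exact disjoint_left.1 mg.1 c3 (der_sub_closed n1.1.cl inter_subset_left hy)
  have e6 : ((k.symm.trans k1.symm).trans k2) '' (k '' (k1 '' p)) = k2 '' p := by
    rw [img_trans, img_trans, img_symm_img, img_symm_img]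
  refine hS.l2_main ((k.symm.trans k1.symm).trans k2) hq.1 n1.1 (n1.image k).1
    (Eqv.symm ⟨k1, rfl⟩) (Eqv.symm ⟨k1.trans k, img_trans _ _ _⟩) d1 (e6.symm ▸ d2) d13
    (e6.symm ▸ d12) e5 ?_ ?_
  · rw [e6]
    obtain ⟨x, hx⟩ := hl _ _ n2 hq
    exact fun h => disjoint_left.1 m2.1.2 hx.1 (h hx)
  · rw [e6]
    exact hS.conn_diff hl hq hs (hS.disc_union d1 d2) (disjoint_union_left.2
      ⟨m1.mono_left inter_subset_left, m2.1.1.mono_left inter_subset_left⟩)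

theorem CB.nodec_linked {K : Set S} (hK : Nodec K) (pK : Poor Lt K) : False := by
  obtain ⟨a, b, hs⟩ := hS.dsplit hK
  have ha : a ⊆ K := hs.eq ▸ subset_union_left
  rcases hS.l2_triple hT hl (hK.sub hs.ma ha) hK (pK.mono ha) pK with h | ⟨r, r', h1, h2⟩
  · exact hS.l2_final hT hl hK pK hs h
  · refine hS.l2_final hT hl hK pK (r := r) (c := r' ∪ b) ⟨h1.ma, hS.mem_union h1.mb hs.mb, ?_, ?_⟩ h2
    · rw [← union_assoc, h1.eq, hs.eq]
    · rw [inter_union_distrib_left]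
      exact hS.disc_union h1.disc
        (hs.disc.mono (inter_subset_inter_left _ (h1.eq ▸ subset_union_left)))

end

end Pool.Agent.Lib.MP_52f683_gt
end

-- part Pool.Agent.Lib.MP_52f683_gt.F.NB
section

set_option autoImplicit false
set_option linter.unusedSectionVars false

open Set Topology Filter

namespace Pool.Agent.Lib.MP_52f683_gt

variable {S : Type*} [TopologicalSpace S] [T1Space S] [Infinite S]

lemma CB.nb_nwd (hS : CB S) {A B : Set S} (hA : Crd A) (h : Disc (A ∩ B)) : Nwd B A := by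
  have := hS.nwd_disc hA h
  rwa [Nwd, sdiff_self_inter] at this

section
variable (hS : CB S) {Lt : Set S → Prop} (hT : LS Lt)
include hS hT

/-- inside a set with a disjoint member, discrete intersections are empty -/
lemma CB.b1 {t1 t2 Y : Set S} (h1 : Mem t1) (h2 : Mem t2) (hY : Mem Y)
    (hd : Disjoint Y (t1 ∪ t2)) (h : Lt (t1 ∩ t2)) : Disjoint t1 t2 := by
  refine disjoint_left.2 fun e he1 he2 => ?_
  obtain ⟨x0, hx0⟩ := hY.ne
  obtain ⟨k, hk, hk'⟩ := hT.sep Y ((t1 ∩ t2) \ {e}) x0 e hY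
    (hT.mono _ _ h sdiff_subset) fun h => h.2 rfl
  have hU := hY.image k
  have heU : e ∈ k '' Y := ⟨x0, hx0, hk⟩
  have h3 : k '' Y ∩ t1 ∩ t2 ⊆ {e} := fun z hz => by
    by_contra hn
    exact disjoint_left.1 hk' hz.1.1 ⟨⟨hz.1.2, hz.2⟩, hn⟩
  have key : ∀ (a U : Set S) (p : S), IsClosed a → Crd a → IsClosed U → Crd U → p ∈ a → p ∈ U →
      U ⊆ k '' Y → a ⊆ t1 ∪ t2 → U ∩ a ⊆ {p} → False := by
    intro a U p a1 a2 a3 a4 a5 a6 a7 a8 a9
    refine hS.cnt hS.world_empty a1 a2 a3 a4 a5 a6 id inter_subset_right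
      (a9.trans subset_union_right) k.symm (image_empty _) inter_subset_right fun z hz => ?_
    have := image_mono (f := k.symm) a7 hz.1
    rw [img_symm_img] at this
    exact disjoint_left.1 hd this (a8 hz.2)
  by_cases i1 : e ∈ derivedSet (k '' Y ∩ t1)
  · have := der_sub_closed (hU.cl.inter h1.cl) subset_rfl
    exact key t2 _ e h2.cl h2.crd (isClosed_derivedSet _) (hS.crd_der _) he2 i1
      (this.trans inter_subset_left) subset_union_right fun z hz => h3 ⟨this hz.1, hz.2⟩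
  by_cases i2 : e ∈ derivedSet (k '' Y ∩ t2)
  · have := der_sub_closed (hU.cl.inter h2.cl) subset_rfl
    exact key t1 _ e h1.cl h1.crd (isClosed_derivedSet _) (hS.crd_der _) he1 i2
      (this.trans inter_subset_left) subset_union_left
      fun z hz => h3 ⟨⟨(this hz.1).1, hz.2⟩, (this hz.1).2⟩
  obtain ⟨g, u, y, b1, b2, b3, b4, ⟨p, b5, b6⟩, b7, b8, -⟩ := hS.te hS.world_empty hU h1 h2
    inter_subset_right inter_subset_right inter_subset_right heU he1 he2 id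
    (h3.trans subset_union_right) i1 i2 k (image_empty _) (by
      rw [empty_union, ← img_inter, hd.symm.inter_eq, image_empty])
  rw [← b6] at b7 b8
  refine key y u p b2.cl b2.crd b1.cl b1.crd ((mem_img g).1 b7) b5 b3 b4 fun z hz => ?_
  have := b8 ⟨mem_image_of_mem g hz.1, mem_image_of_mem g hz.2⟩
  rw [empty_union] at this
  exact g.injective this

lemma CB.nb_mob {t1 t2 Y : Set S} (h1 : Mem t1) (h2 : Mem t2) (h : Disc (t1 ∩ t2))
    (h' : Lt (t1 ∩ t2))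
    (g : S ≃ₜ S) (hY : Mem Y) (d1 : Disjoint t1 (g '' t2)) (d2 : Disjoint Y (t1 ∪ g '' t2)) :
    Disjoint t1 t2 := by
  obtain ⟨Y', a1, a2⟩ := hS.mob0 h1.cl h2.cl (hS.nb_nwd h1.crd h)
    (hS.nb_nwd h2.crd (inter_comm t1 t2 ▸ h)) g hY d1 d2
  exact hS.b1 hT h1 h2 a1 a2 h'

/-- a nodec member with two disjoint translates and a third disjoint member -/
lemma CB.b2 {Y1 Y2 : Set S} (h1 : Nodec Y1) (p1 : Poor Lt Y1) (h2 : Mem Y2) (hd : Disjoint Y1 Y2) :
    ∃ (X : Set S) (γ : S ≃ₜ S), Mem X ∧ X ⊆ Y1 ∧ γ '' X ⊆ Y1 ∧ Disjoint X (γ '' X) := by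
  obtain ⟨a, b, hs⟩ := hS.dsplit h1
  have ha : a ⊆ Y1 := hs.eq ▸ subset_union_left
  have hb : b ⊆ Y1 := hs.eq ▸ subset_union_right
  have hab : Disjoint a b := hS.b1 hT hs.ma hs.mb h2 (hs.eq ▸ hd.symm)
    (p1 _ (inter_subset_left.trans ha) hs.disc)
  obtain ⟨x, hx⟩ := hs.ma.ne
  obtain ⟨y, hy⟩ := hs.mb.ne
  obtain ⟨k, hk⟩ := hS.thin.homog x y
  have hka := hs.ma.image k
  by_cases hD : Disc (b ∩ k '' a)
  · refine absurd ⟨x, hx, hk⟩ (disjoint_left.1 (hS.nb_mob hT hs.mb hka hD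
      (p1 _ (inter_subset_left.trans hb) hD) k.symm h2 ?_ ?_) hy)
    · rw [img_symm_img]; exact hab.symm
    · rw [img_symm_img]; exact hd.symm.mono_right (union_subset hb ha)
  · have hc := hS.mem_der hs.mb.cl hs.mb.sm inter_subset_left (hS.der_ne hD)
    have h3 := der_sub_closed (hs.mb.cl.inter hka.cl) subset_rfl
    have h4 : k.symm '' derivedSet (b ∩ k '' a) ⊆ a := by
      have := image_mono (f := k.symm) (h3.trans inter_subset_right)
      rwa [img_symm_img] at this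
    refine ⟨_, k, hc.image k.symm, h4.trans ha, ?_, ?_⟩
    · rw [img_img_symm]; exact (h3.trans inter_subset_left).trans hb
    · rw [img_img_symm]; exact hab.mono h4 (h3.trans inter_subset_left)

theorem CB.nodec_dt {Y1 Y2 : Set S} (h1 : Nodec Y1) (p1 : Poor Lt Y1) (h2 : Mem Y2)
    (hd : Disjoint Y1 Y2) : LFin (univ : Set S) := by
  obtain ⟨X, γ, hX, x1, x2, x3⟩ := hS.b2 hT h1 p1 h2 hd
  have perp : ∀ (k : S ≃ₜ S) (s s' : Set S), Mem s → Mem s' → s ⊆ X → s' ⊆ k '' X → Nwd s' s →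
      Disjoint s s' := by
    intro k s s' a1 a2 a3 a4 a5
    have a6 : (k.symm.trans γ) '' s' ⊆ γ '' X := by
      rw [img_trans]
      refine image_mono ?_
      have := image_mono (f := k.symm) a4
      rwa [img_symm_img] at this
    have a7 := (h1.sub a1 (a3.trans x1)).2 _ (a1.cl.inter a2.cl) inter_subset_left
      (a5.mono inter_subset_right)
    exact hS.nb_mob hT a1 a2 a7 (p1 _ (inter_subset_left.trans (a3.trans x1)) a7)
      (k.symm.trans γ) h2 (x3.mono a3 a6)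
      (hd.symm.mono_right (union_subset (a3.trans x1) (a6.trans x2)))
  have dif : ∀ (k : S ≃ₜ S) (a b : Set S), Mem a → Mem b → a ⊆ X → b ⊆ k '' X →
      Disjoint (closure (a \ b)) (closure (b \ a)) := by
    intro k a b a1 a2 a3 a4
    refine disjoint_left.2 fun z z1 z2 => ?_
    have c1 : closure (a \ b) ⊆ a := closure_minimal sdiff_subset a1.cl
    have c2 : closure (b \ a) ⊆ b := closure_minimal sdiff_subset a2.cl
    exact disjoint_left.1 (perp k _ _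
      (mem_of_crd (a1.crd.diff_closed a2.cl) (closure_nonempty_iff.1 ⟨z, z1⟩) a1.cl a1.sm
        sdiff_subset)
      (mem_of_crd (a2.crd.diff_closed a1.cl) (closure_nonempty_iff.1 ⟨z, z2⟩) a2.cl a2.sm
        sdiff_subset) (c1.trans a3) (c2.trans a4)
      (closure_mono fun w hw => ⟨subset_closure hw, fun h => hw.2 (c2 h)⟩)) z1 z2
  have lt : ∀ (k : S ≃ₜ S) (a b : Set S), Mem a → Mem b → a ⊆ X → b ⊆ k '' X → Crd (a ∩ b) := by
    intro k a b a1 a2 a3 a4 e he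
    by_contra hn
    have c1 := der_diff (a1.crd he.1) hn
    have c2 := der_diff (a2.crd he.2) hn
    rw [sdiff_self_inter] at c1
    rw [sdiff_inter_self_eq_sdiff] at c2
    exact disjoint_left.1 (dif k a b a1 a2 a3 a4) (der_sub_cl c1) (der_sub_cl c2)
  have cut : ∀ t F : Set S, Mem t → t ⊆ X → IsClosed F → ∀ e ∈ closure (t \ F),
      Mem (closure (t \ F)) ∧ closure (t \ F) ⊆ t ∧ Lt (closure (t \ F) ∩ F) := by
    intro t F a1 a2 a3 e he
    have c1 : closure (t \ F) ⊆ t := closure_minimal sdiff_subset a1.cl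
    have c2 := mem_of_crd (a1.crd.diff_closed a3) (closure_nonempty_iff.1 ⟨e, he⟩) a1.cl a1.sm
      sdiff_subset
    refine ⟨c2, c1, p1 _ (inter_subset_left.trans (c1.trans (a2.trans x1)))
      ((h1.sub c2 (c1.trans (a2.trans x1))).2 _ (c2.cl.inter a3) inter_subset_left ?_)⟩
    exact closure_mono fun w hw => ⟨subset_closure hw, fun h => hw.2 h.2⟩
  have mixed : ∀ a t : Set S, Mem a → Mem t → t ⊆ X → Crd (a ∩ t) := by
    intro a t ha ht a1 e he
    by_contra hn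
    have c1 := der_diff (ht.crd he.2) hn
    rw [sdiff_inter_self_eq_sdiff] at c1
    obtain ⟨m1, s1, l1⟩ := cut t a ht a1 ha.cl e (der_sub_cl c1)
    obtain ⟨z, hz⟩ := hS.exists_off ha.sm
    obtain ⟨g, rfl⟩ := hS.thin.homog e z
    have e2 : e ∈ closure (closure (t \ a) \ g ⁻¹' a) := subset_closure ⟨der_sub_cl c1, hz⟩
    obtain ⟨m2, s2, l2⟩ := cut _ (g ⁻¹' a) m1 (s1.trans a1) (ha.cl.preimage g.continuous) e e2
    obtain ⟨x0, hx0⟩ := hX.ne
    obtain ⟨k, k1, k2⟩ := hT.sep X _ x0 e hX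
      (hT.union _ _ (hT.mono _ _ l1 (sdiff_subset (t := {e}))) l2)
      (fun h => h.elim (fun h => h.2 rfl) fun h => hz h.2)
    rw [disjoint_union_right] at k2
    refine hS.cnt hS.world_empty ha.cl ha.crd (m2.cl.inter (hX.image k).cl)
      (lt k _ _ m2 (hX.image k) ((s2.trans s1).trans a1) subset_rfl) he.1 ⟨e2, x0, hx0, k1⟩ id
      inter_subset_right (fun y hy => Or.inr (by_contra fun h => ?_)) g (image_empty _)
      inter_subset_right ?_
    · exact disjoint_left.1 k2.1 hy.1.2 ⟨⟨s2 hy.1.1, hy.2⟩, h⟩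
    · rintro _ ⟨⟨y, hy, rfl⟩, hy'⟩
      exact disjoint_left.1 k2.2 hy.2 ⟨hy.1, hy'⟩
  intro a a' ha ha' _ _ e he
  obtain ⟨z, hz⟩ := hX.ne
  obtain ⟨f, rfl⟩ := hS.thin.homog e z
  have i1 := mixed _ X (ha.image f) hX subset_rfl ⟨mem_image_of_mem _ he.1, hz⟩
  have s1 := der_sub_closed ((ha.image f).cl.inter hX.cl) (subset_rfl (a := f '' a ∩ X))
  have i2 := mixed _ _ (ha'.image f) (hS.mem_der hX.cl hX.sm inter_subset_right ⟨_, i1⟩)
    (s1.trans inter_subset_right) ⟨mem_image_of_mem _ he.2, i1⟩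
  have i3 : f e ∈ derivedSet (f '' a ∩ f '' a') :=
    der_mono (fun y hy => mem_inter (s1 hy.2).1 hy.1) i2
  rwa [← img_inter, ← img_der, mem_img] at i3

/-- a poor nodec member inside every nodec member gives local finiteness -/
theorem CB.nodec_lf' {K : Set S} (hK : Nodec K) (pK : Poor Lt K)
    (h : (∀ K L : Set S, Nodec K → Nodec L → (K ∩ L).Nonempty) ∨ ∃ L, Mem L ∧ Disjoint K L) :
    LFin (univ : Set S) := by
  rcases h with h | ⟨L, h1, h2⟩
  · exact (hS.nodec_linked hT h hK pK).elim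
  · exact hS.nodec_dt hT hK pK h1 h2

end

/-- a nodec member gives local finiteness -/
theorem CB.nodec_lf (hS : CB S)
    (H : ∀ q : Set S, Nodec q → ∃ Lt : Set S → Prop, LS Lt ∧ ∃ c, Mem c ∧ c ⊆ q ∧ Poor Lt c)
    {K : Set S} (hK : Nodec K) : LFin (univ : Set S) := by
  by_cases h : ∀ K L : Set S, Nodec K → Nodec L → (K ∩ L).Nonempty
  · obtain ⟨Lt, hT, c, h1, h2, h3⟩ := H K hK
    exact hS.nodec_lf' hT (hK.sub h1 h2) h3 (Or.inl h)
  · push Not at h
    obtain ⟨q, L, hq, hL, hd⟩ := h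
    obtain ⟨Lt, hT, c, h1, h2, h3⟩ := H q hq
    exact hS.nodec_lf' hT (hq.sub h1 h2) h3
      (Or.inr ⟨L, hL.1, (disjoint_iff_inter_eq_empty.2 hd).mono_left h2⟩)

end Pool.Agent.Lib.MP_52f683_gt
end

-- part Pool.Agent.Lib.MP_52f683_gt.F.N1
section

set_option autoImplicit false
set_option linter.unusedSectionVars false

open Set Topology Filter

namespace Pool.Agent.Lib.MP_52f683_gt

universe u

variable {S : Type u} [TopologicalSpace S] [T1Space S] [Infinite S]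

/-- discrete sets below a given size -/
def N1L (μ : Cardinal.{u}) (D : Set S) : Prop := Disc D ∧ sz D < μ

lemma n1_poor_union (hS : CB S) {μ : Cardinal.{u}} (hμ : Cardinal.aleph0 ≤ μ) {A B : Set S}
    (hA : Poor (N1L μ) A) (hB : Poor (N1L μ) B) : Poor (N1L μ) (A ∪ B) := fun D h1 h2 => by
  refine ⟨h2, (z_sz_mono fun x hx => ?_).trans_lt (z_sz_union_lt hμ
    (hA (D ∩ A) inter_subset_right (h2.mono inter_subset_left)).2
    (hB (D ∩ B) inter_subset_right (h2.mono inter_subset_left)).2)⟩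
  exact (h1 hx).imp (fun h => ⟨hx, h⟩) fun h => ⟨hx, h⟩

lemma n1_poor_image {μ : Cardinal.{u}} {A : Set S} (hA : Poor (N1L μ) A) (g : S ≃ₜ S) :
    Poor (N1L μ) (g '' A) := fun D h1 h2 => by
  obtain ⟨E, h3, rfl⟩ := subset_image_iff.1 h1
  refine ⟨h2, (z_sz_img g E).trans_lt (hA E h3 ?_).2⟩
  simpa only [img_symm_img] using h2.image g.symm

lemma n1_poor_light {μ : Cardinal.{u}} {A : Set S} (hA : N1L μ A) : Poor (N1L μ) A :=
  fun _ h1 h2 => ⟨h2, (z_sz_mono h1).trans_lt hA.2⟩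

/-- moving discrete sets off a member while fixing a discrete subset of the member -/
lemma CB.n1_pin (hS : CB S) {κ : Cardinal.{u}} {M W A B : Set S} (hM : Mem M) (hW : Disc W)
    (hs : W ⊆ M) (hA : DS κ A) (hB : DS κ B) (h1 : Disjoint A M) (h2 : Disjoint B M) :
    ∃ k : S ≃ₜ S, k '' W = W ∧ k '' A = B := by
  obtain ⟨e1, e2, -⟩ := hS.l22_cl hM hW hs
  obtain ⟨k, k1, k2⟩ := hS.move (hS.crd_diff hM.crd hW) hA.1 hB.1 (hS.z_eqv hA hB)
    (by rwa [e1]) (by rwa [e1])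
  exact ⟨k, by rw [← e2, img_rem, k1], k2⟩

/-- two-sided avoidance for one size -/
lemma CB.n1_ts (hS : CB S) {κ : Cardinal.{u}} (hG : AG S κ) {M1 M2 W1 W2 : Set S} (m1 : Mem M1)
    (m2 : Mem M2) (c1 : DS κ W1) (c2 : DS κ W2) (s1 : W1 ⊆ M1) (s2 : W2 ⊆ M2)
    (d1 : Disjoint W2 M1) (d2 : Disjoint W1 M2) {K L D E : Set S} (hK : Mem K) (hL : Mem L)
    (cD : DS κ D) (cE : DS κ E) (sD : D ⊆ K) (sE : E ⊆ L) :
    ∃ k : S ≃ₜ S, Disjoint (k '' K) E ∧ Disjoint (k '' D) L := by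
  have orbit : ∀ W M W' V N V' : Set S, Mem M → DS κ W → W ⊆ M → DS κ W' → Disjoint W' M →
      Mem N → DS κ V → V ⊆ N → DS κ V' → Disjoint V' N →
      ∃ k : S ≃ₜ S, k '' W = V ∧ k '' W' = V' := by
    intro W M W' V N V' h1 h2 h3 h4 h5 h6 h7 h8 h9 h10
    obtain ⟨k0, e0⟩ := hS.z_eqv h2 h7
    obtain ⟨W3, c3, d3⟩ := hG _ (hS.mem_union (h1.image k0) h6)
    obtain ⟨k1, e1, f1⟩ := hS.n1_pin (h1.image k0) h7.1 (e0 ▸ image_mono h3) (h4.image k0) c3
      ((img_disj k0).2 h5) (d3.mono_right subset_union_left)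
    obtain ⟨k2, e2, f2⟩ := hS.n1_pin h6 h7.1 h8 c3 h9 (d3.mono_right subset_union_right) h10
    exact ⟨(k0.trans k1).trans k2, by rw [img_trans, img_trans, e0, e1, e2],
      by rw [img_trans, img_trans, f1, f2]⟩
  obtain ⟨D', cD', dD'⟩ := hG _ hL
  obtain ⟨k, e, f⟩ := orbit W2 M2 W1 E L D' m2 c2 s2 c1 d2 hL cE sE cD' dD'
  obtain ⟨E0, cE0, dE0⟩ := hG _ hK
  obtain ⟨k', e', f'⟩ := orbit D K E0 D' (k '' M1) E hK cD sD cE0 dE0 (m1.image k) cD'
    (f ▸ image_mono s1) cE (e ▸ (img_disj k).2 d1)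
  exact ⟨k', by rw [← f']; exact (img_disj k').2 dE0.symm, by rw [e']; exact dD'⟩

/-- the sizes that occur in every whole inside a member form a freely placed class -/
lemma CB.n1_ls (hS : CB S) {q : Set S} (hq : Mem q) {μ : Cardinal.{u}} (hμ : Cardinal.aleph0 < μ)
    (h : ∀ κ < μ, ∀ X c m : Set S, Whole X c m → c ⊆ q → ∃ D ⊆ X, DS κ D) : LS (N1L (S := S) μ) := by
  obtain ⟨y, hy⟩ := hq.ne
  have thru : ∀ x : S, ∃ g : S ≃ₜ S, x ∈ g '' q := fun x =>
    (hS.thin.homog y x).imp fun g hg => ⟨y, hy, hg⟩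
  have ag : ∀ κ < μ, AG S κ := fun κ hκ M hM => by
    obtain ⟨x, hx⟩ := hS.exists_off hM.sm
    obtain ⟨g, hg⟩ := hS.thin.homog x y
    have m := hM.image g
    obtain ⟨D, h1, h2⟩ := h κ hκ _ q _ ⟨hq, m.cl, m.crd, m.sm, rfl,
      y, hy, fun k => hx ((mem_img g).1 (hg.symm ▸ k))⟩ subset_rfl
    exact ZG.of_image g ⟨D, h2, disjoint_left.2 fun z hz => (h1 hz).2⟩
  have ins : ∀ κ < μ, ∀ D : Set S, DS κ D → ∃ g : S ≃ₜ S, D ⊆ g '' q := fun κ hκ D hD => by
    obtain ⟨D', h1, h2⟩ := h κ hκ q q ∅ ⟨hq, isClosed_empty, crd_empty, empty_ne_univ,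
      sdiff_empty.symm, y, hy⟩ subset_rfl
    obtain ⟨g, rfl⟩ := hS.z_eqv h2 hD
    exact ⟨g, image_mono h1⟩
  refine ⟨fun D E a b => ⟨a.1.mono b, (z_sz_mono b).trans_lt a.2⟩,
    fun D E a b => ⟨hS.disc_union a.1 b.1, z_sz_union_lt hμ.le a.2 b.2⟩,
    fun D g a => ⟨a.1.image g, (z_sz_img g D).trans_lt a.2⟩, fun K L D E hK hL hD hE => ?_,
    fun K D x0 x hK hD hx => ?_⟩
  · obtain ⟨κ, k0, k1, k2, k3⟩ : ∃ κ : Cardinal.{u}, Cardinal.aleph0 ≤ κ ∧ κ < μ ∧ sz D ≤ κ ∧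
        sz E ≤ κ := ⟨max Cardinal.aleph0 (max (sz D) (sz E)), le_max_left _ _,
      max_lt hμ (max_lt hD.2 hE.2), (le_max_left _ _).trans (le_max_right _ _),
      (le_max_right _ _).trans (le_max_right _ _)⟩
    obtain ⟨r, r', m, m', e, n, n'⟩ := hS.z_regions hq
    obtain ⟨W1, s1, c1⟩ := h κ k1 _ r r' ⟨m, m'.cl, m'.crd, m'.sm, rfl, z_nwd_ne n' m.ne⟩
      (e ▸ subset_union_left)
    obtain ⟨W2, s2, c2⟩ := h κ k1 _ r' r ⟨m', m.cl, m.crd, m.sm, rfl, z_nwd_ne n m'.ne⟩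
      (e ▸ subset_union_right)
    have d' := hS.z_union k0 c1 hD.1 k2
    have e' := hS.z_union k0 c1 hE.1 k3
    obtain ⟨g, hg⟩ := ins κ k1 _ d'
    obtain ⟨g', hg'⟩ := ins κ k1 _ e'
    obtain ⟨k, a, b⟩ := hS.n1_ts (ag κ k1) m m' c1 c2 (s1.trans sdiff_subset)
      (s2.trans sdiff_subset) (disjoint_left.2 fun z hz => (s2 hz).2)
      (disjoint_left.2 fun z hz => (s1 hz).2) (hS.mem_union hK (hq.image g))
      (hS.mem_union hL (hq.image g')) d' e' (hg.trans subset_union_right)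
      (hg'.trans subset_union_right)
    exact ⟨k, a.mono (image_mono subset_union_left) subset_union_right,
      b.mono (image_mono subset_union_right) subset_union_left⟩
  · obtain ⟨g, hg⟩ := ins _ hD.2 D ⟨hD.1, rfl⟩
    obtain ⟨g', hg'⟩ := thru x0
    obtain ⟨k, a, b⟩ := hS.z_sep (hq.image g) hD.1 hg
      (ag _ hD.2 _ (hS.mem_union hK (hq.image g'))) (Or.inr hg') hx
    exact ⟨k, a, b.mono_left (image_mono subset_union_left)⟩

/-- a set all of whose clopen parts are large is not mixed with a small one -/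
lemma n1_nomix {Lt : Set S → Prop} {A A' B : Set S} (h : S ≃ₜ S) (e : h '' (A ∪ B) = A' ∪ B)
    (s' : Sp A' B) (pA : Poor Lt (h.symm '' A'))
    (hB : ∀ N, ClopIn N B → Poor Lt N → N = ∅) : h '' B ⊆ B := by
  have c1 : ClopIn (h.symm '' A' ∩ B) B := by
    have := (clopIn_of_sp s').image h.symm
    rw [← e, img_symm_img] at this
    exact this.trace subset_union_right
  rintro _ ⟨x, hx, rfl⟩
  have h1 : h x ∈ A' ∪ B := e ▸ mem_image_of_mem h (Or.inr hx)
  exact h1.resolve_left fun k => (hB _ c1 (pA.mono inter_subset_left)).subset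
    ⟨⟨h x, k, h.symm_apply_apply x⟩, hx⟩

/-- the antichain lemma -/
lemma CB.n1_ac (hS : CB S) {μ : Cardinal.{u}} {t a N : Set S} (ht : Mem t) (ha : Mem a)
    (g : S ≃ₜ S) (hN : Disc N) (pa : Poor (N1L μ) (a \ N)) (d : Disc (t ∩ a))
    (hs : t ∩ g '' a ⊆ a) (hB : ∀ C, ClopIn C (t \ a) → Poor (N1L μ) C → C = ∅) :
    t ∩ a ⊆ g '' a := by
  have d' : Disc (t ∩ g '' a) := d.mono fun x hx => ⟨hx.1, hs hx⟩
  have dN := hS.disc_union (hS.disc_union hN d) (d'.image g.symm)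
  have cA := hS.l2_cl ha dN
  have pA : Poor (N1L μ) (a \ (N ∪ t ∩ a ∪ g.symm '' (t ∩ g '' a))) :=
    pa.mono (sdiff_subset_sdiff_right (subset_union_left.trans subset_union_left))
  have s1 : Sp (a \ (N ∪ t ∩ a ∪ g.symm '' (t ∩ g '' a))) (t \ a) :=
    sp_of_closed ha.cl ht.cl sdiff_subset sdiff_subset
      (disjoint_left.2 fun x hx k => hx.2 (Or.inl (Or.inr ⟨k, hx.1⟩))) disjoint_sdiff_left
  have s2 : Sp (g '' (a \ (N ∪ t ∩ a ∪ g.symm '' (t ∩ g '' a)))) (t \ a) := by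
    refine sp_of_closed (ha.image g).cl ht.cl (image_mono sdiff_subset) sdiff_subset
      (disjoint_left.2 ?_) (disjoint_left.2 fun x hx k => hx.2 (hs ⟨hx.1, k⟩))
    rintro _ ⟨x, hx, rfl⟩ k
    exact hx.2 (Or.inr ⟨g x, ⟨k, mem_image_of_mem g hx.1⟩, g.symm_apply_apply x⟩)
  generalize a \ (N ∪ t ∩ a ∪ g.symm '' (t ∩ g '' a)) = A at cA pA s1 s2
  obtain ⟨h, e⟩ := hS.thin.glueE ⟨g, rfl⟩ (Eqv.rfl' (t \ a)) s1 s2
  have m1 := n1_nomix h e s2 (n1_poor_image (n1_poor_image pA g) _) hB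
  have m2 := n1_nomix h.symm (by rw [← e, img_symm_img]) s1 (n1_poor_image pA _) hB
  have e1 : h '' (t \ a) = t \ a := by
    refine m1.antisymm ?_
    have := image_mono (f := h) m2
    rwa [img_img_symm] at this
  have e2 : h '' A = g '' A := by
    have := img_diff h (A ∪ t \ a) (t \ a)
    rwa [e, e1, union_sdiff_right, union_sdiff_right, s1.disj.sdiff_eq_left,
      s2.disj.sdiff_eq_left] at this
  have e3 : h '' a = g '' a := by rw [← cA, img_cl, e2, img_cl]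
  have c : closure (t \ a) = t := by rw [← sdiff_self_inter]; exact hS.l2_cl ht d
  have e4 : h '' t = t := by
    conv_lhs => rw [← c, img_cl, e1, c]
  rw [img_diff, e3, e4] at e1
  intro x hx
  by_contra k
  exact (e1.subset ⟨hx.1, k⟩).2 hx.2

/-- a member that is small off a discrete set contains a small member -/
lemma CB.n1_el (hS : CB S) {μ : Cardinal.{u}} (hμ : Cardinal.aleph0 ≤ μ) {t E : Set S} (ht : Mem t)
    (hE : Disc E) (hs : E ⊆ t) (pt : Poor (N1L μ) (t \ E)) :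
    ∃ c, Mem c ∧ c ⊆ t ∧ Poor (N1L μ) c := by
  by_contra hn
  have no : ∀ c J, Mem c → c ⊆ t → N1L μ J → ∀ C, Poor (N1L μ) C → c ⊆ C ∪ J → False :=
    fun c J h1 h2 h3 C h4 h5 =>
      hn ⟨c, h1, h2, (n1_poor_union hS hμ h4 (n1_poor_light h3)).mono h5⟩
  have big : μ ≤ sz E := not_lt.1 fun k =>
    no t E ht subset_rfl ⟨hE, k⟩ _ pt (subset_sdiff_union t E)
  have inf := hμ.trans big
  have good : ∀ F E' : Set S, Disc E' → Poor (N1L μ) (F \ E') → ZG (sz E) F := by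
    intro F E' h1 h2
    obtain ⟨D, a, b⟩ : ZG (sz E) E' :=
      hS.z_ker inf ⟨E, ⟨hE, rfl⟩, by rw [hS.der_disc h1]; exact disjoint_empty _⟩
    refine ⟨D \ F, ⟨a.1.mono sdiff_subset, z_sz_diff inf a.2 ?_⟩, disjoint_sdiff_left⟩
    exact (h2 _ (fun x hx => ⟨hx.2, disjoint_left.1 b hx.1⟩)
      (a.1.mono inter_subset_left)).2.trans_le big
  have tr : ∀ a : Set S, IsClosed a → Disjoint a E → N1L μ (t ∩ a) := fun a h1 h2 => by
    have p : Poor (N1L μ) (t ∩ a) := pt.mono fun x hx => ⟨hx.1, disjoint_left.1 h2 hx.2⟩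
    refine p _ subset_rfl (by_contra fun k => hn ⟨_, hS.mem_der ht.cl ht.sm inter_subset_left
      (hS.der_ne k), der_sub_closed ht.cl inter_subset_left,
      p.mono (der_sub_closed (ht.cl.inter h1) subset_rfl)⟩)
  have pg : ∀ g : S ≃ₜ S, Poor (N1L μ) (g '' t \ g '' E) := fun g =>
    img_diff g t E ▸ n1_poor_image pt g
  have g0 := good t E hE pt
  obtain ⟨k1, d1⟩ := hS.z_off g0 ⟨hE, rfl⟩
  have m1 := ht.image k1
  have lJ := tr _ m1.cl d1
  obtain ⟨x, hx, hx'⟩ := hS.l2_ne ht (hS.disc_union hE lJ.1)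
  rw [Set.mem_union, not_or] at hx'
  obtain ⟨k2, e2, d2⟩ := hS.z_sep ht hE hs g0 hx hx'.1
  have m2 := ht.image k2
  obtain ⟨x1, hx1, hx1'⟩ := hS.l2_ne m1 lJ.1
  have di : ∀ z : S, Disc (insert z (t ∩ k1 '' t)) := fun z => by
    rw [insert_eq]; exact hS.disc_union (disc_single z) lJ.1
  obtain ⟨k3, e3⟩ := hS.thin.z_eqv (di x1) (di x)
    (by rw [sz, sz, Cardinal.mk_insert hx1', Cardinal.mk_insert hx'.2])
  have s3 : insert x (t ∩ k1 '' t) ⊆ k3 '' (k1 '' t) :=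
    e3 ▸ image_mono (insert_subset hx1 inter_subset_right)
  obtain ⟨W, cW, dW⟩ := good ((k1 '' t ∪ k2 '' t) ∪ k3 '' (k1 '' t))
    ((k1 '' E ∪ k2 '' E) ∪ k3 '' (k1 '' E))
    (hS.disc_union (hS.disc_union (hE.image _) (hE.image _)) ((hE.image _).image _))
    ((n1_poor_union hS hμ (n1_poor_union hS hμ (pg k1) (pg k2))
      (img_trans k1 k3 t ▸ img_trans k1 k3 E ▸ pg (k1.trans k3))).mono (by
        rintro z ⟨(a | a) | a, b⟩
        · exact Or.inl (Or.inl ⟨a, fun k => b (Or.inl (Or.inl k))⟩)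
        · exact Or.inl (Or.inr ⟨a, fun k => b (Or.inl (Or.inr k))⟩)
        · exact Or.inr ⟨a, fun k => b (Or.inr k)⟩))
  obtain ⟨k4, e4, f4⟩ := hS.n1_pin (hS.mem_union m1 m2) (di x)
    (insert_subset (Or.inr ⟨x, hx, e2⟩) (inter_subset_right.trans subset_union_left)) cW ⟨hE, rfl⟩
    (dW.mono_right subset_union_left) (disjoint_union_left.2 ⟨d1, d2⟩).symm
  have s4 : insert x (t ∩ k1 '' t) ⊆ k4 '' (k3 '' (k1 '' t)) := e4 ▸ image_mono s3
  have d4 : Disjoint (k4 '' (k3 '' (k1 '' t))) E :=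
    f4 ▸ (img_disj k4).2 (dW.mono_right subset_union_right).symm
  have m4 := (m1.image k3).image k4
  have l4 := tr _ m4.cl d4
  have eg : (k4.symm.trans k3.symm) '' (k4 '' (k3 '' (k1 '' t))) = k1 '' t := by
    rw [img_trans, img_symm_img, img_symm_img]
  have p4 := n1_poor_image (n1_poor_image (pg k1) k3) k4
  rw [img_diff, img_diff] at p4
  have key := hS.n1_ac ht m4 (k4.symm.trans k3.symm) (((hE.image k1).image k3).image k4) p4 l4.1
    (eg.symm ▸ (subset_insert _ _).trans s4) fun C h1 h2 => by_contra fun k => by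
      have c1 : C ⊆ t := h1.1.trans sdiff_subset
      have c2 : closure C ⊆ t := closure_minimal c1 ht.cl
      refine no _ _ (mem_of_crd ((ht.crd.diff_closed m4.cl).clop h1) (nonempty_iff_ne_empty.2 k)
        ht.cl ht.sm c1) c2 l4 C h2 fun z hz => ?_
      by_cases k' : z ∈ k4 '' (k3 '' (k1 '' t))
      exacts [Or.inr ⟨c2 hz, k'⟩, Or.inl (h1.closed ⟨hz, c2 hz, k'⟩)]
  rw [eg] at key
  exact hx'.2 ⟨hx, key ⟨hx, s4 (mem_insert _ _)⟩⟩

/-- a nodec member contains a member all of whose discrete subsets can be placed freely -/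
theorem CB.poor_nodec (hS : CB S) {q : Set S} (hq : Nodec q) :
    ∃ Lt : Set S → Prop, LS Lt ∧ ∃ c, Mem c ∧ c ⊆ q ∧ Poor Lt c := by
  have hne : {κ : Cardinal.{u} | ∃ X c m : Set S, Whole X c m ∧ c ⊆ q ∧
      ¬ ∃ D ⊆ X, DS κ D}.Nonempty := by
    refine ⟨Order.succ (Cardinal.mk S), q, q, ∅, ⟨hq.1, isClosed_empty, crd_empty, empty_ne_univ,
      sdiff_empty.symm, hq.1.ne⟩, subset_rfl, ?_⟩
    rintro ⟨D, -, -, h⟩
    exact absurd (h.ge.trans (Cardinal.mk_set_le D)) (not_le.2 (Order.lt_succ _))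
  obtain ⟨μ, ⟨X, c, m, hX, hc, hn⟩, hm⟩ := (wellFounded_lt (α := Cardinal.{u})).has_min _ hne
  have hμ : Cardinal.aleph0 < μ := not_le.1 fun k => by
    obtain ⟨D, h1, h2⟩ := hS.exists_cd_crd hX.crdX hX.ne hX.mem.cl hX.mem.sm hX.sub
    obtain ⟨D', h3, h4⟩ := DS.sub (κ := sz D) ⟨h2.dsc, rfl⟩
      (k.trans (Cardinal.infinite_iff.1 h2.inf.to_subtype))
    exact hn ⟨D', h3.trans h1, h4⟩
  have pX : Poor (N1L μ) X := fun D h1 h2 => ⟨h2, not_le.1 fun k =>
    let ⟨D', h3, h4⟩ := DS.sub (κ := sz D) ⟨h2, rfl⟩ k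
    hn ⟨D', h3.trans h1, h4⟩⟩
  have ht := mem_of_crd hX.crdX hX.ne hX.mem.cl hX.mem.sm hX.sub
  have s1 : closure X ⊆ c := closure_minimal hX.sub hX.mem.cl
  have n1 : Nwd (closure X ∩ m) (closure X) := closure_mono fun x hx =>
    ⟨subset_closure hx, fun k => (hX.eq ▸ hx : x ∈ c \ m).2 k.2⟩
  have n2 := n1.union_right (L := q) inter_subset_left
  rw [union_eq_right.2 (s1.trans hc)] at n2
  obtain ⟨c', a1, a2, a3⟩ := hS.n1_el hμ.le ht (hq.2 _ (isClosed_closure.inter hX.cl)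
    (inter_subset_left.trans (s1.trans hc)) n2) inter_subset_left
    (pX.mono fun x hx => hX.eq ▸ ⟨s1 hx.1, fun k => hx.2 ⟨hx.1, k⟩⟩)
  refine ⟨N1L μ, hS.n1_ls hq.1 hμ fun κ hκ X' c' m' h1 h2 => by_contra fun k =>
    hm κ ⟨X', c', m', h1, h2, k⟩ hκ, c', a1, a2.trans (s1.trans hc), a3⟩

end Pool.Agent.Lib.MP_52f683_gt
end
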