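import Pool.Agent.Lib.MP_52f683_gt.F.R1
import Pool.Agent.Lib.MP_52f683_gt.CS.W1

-- part Pool.Agent.Lib.MP_52f683_gt.F.Z5
section

set_option autoImplicit false
set_option linter.unusedSectionVars false

open Set Topology Filter

namespace Pool.Agent.Lib.MP_52f683_gt

universe u

variable {S : Type u} [TopologicalSpace S] [T1Space S] [Infinite S]

lemma Pr.img_diff {c b : Set S} (h : Pr (c \ b)) {g : S ≃ₜ S} (hg : g '' b = b) :
    Pr (g '' c \ b) := by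
  have := h.image g
  rwa [Pool.Agent.Lib.MP_52f683_gt.img_diff, hg] at this

lemma ZF.sub {n b t s : Set S} (h : ZF n b t) (hs : Mem s) (e : s ⊆ t) : ZF n b s :=
  ⟨h.1.sub hs e, (inter_subset_inter_left n e).trans h.2.1,
    h.2.2.mono (sdiff_subset_sdiff_left e)⟩

lemma ZF.image {n b t : Set S} (h : ZF n b t) (g : S ≃ₜ S) (g1 : g '' n = n) (g2 : g '' b = b) :
    ZF n b (g '' t) := ⟨h.1.image g, w0_free_img g g1 g2 h.2.1, h.2.2.img_diff g2⟩

lemma z5_shrink {K D : Set S} {x : S} (hK : NM K) (hD : Rd D) (hx : x ∈ K)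
    (hxD : x ∉ D) : ∃ t, Mem t ∧ t ⊆ K ∧ x ∈ t ∧ Disjoint t D := hD K x hK hx hxD

section
variable (hS : CB S) (hR : ∀ x : S, Rd ({x} : Set S))
include hS hR

/-- a part through `e` and a translate that misses `e` -/
lemma CB.z5_other {n b U : Set S} {e : S} (hW : World n b)
    (hU : NM U) (he : e ∈ U) (hen : e ∉ n) : ∃ (g : S ≃ₜ S) (U' : Set S), g '' n = n ∧
      g '' b = b ∧ Mem U' ∧ U' ⊆ U ∧ e ∈ U' ∧ e ∉ g '' U' := by
  obtain ⟨e2, he2⟩ := hS.exists_off (hS.union_ne hW.cln isClosed_singleton hW.sm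
    (fun h => infinite_univ (h ▸ finite_singleton e)))
  obtain ⟨g, g1, g2, g3⟩ := hS.world_move hW hen fun h => he2 (Or.inl h)
  have hne : e ∉ ({g.symm e} : Set S) := fun h => by
    have h' : g e = e := by
      conv_lhs => rw [mem_singleton_iff.1 h]
      exact g.apply_symm_apply e
    exact he2 (Or.inr (g3.symm.trans h'))
  obtain ⟨U', m, s, e', d⟩ := z5_shrink hU (hR _) he hne
  refine ⟨g, U', g1, g2, m, s, e', ?_⟩
  rintro ⟨y, hy, e''⟩
  exact disjoint_left.1 d hy (by rw [mem_singleton_iff, ← e'', g.symm_apply_apply])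

/-- every member sticking out of `n` contains a free member sticking out of `n` -/
lemma CB.z5_h1d {n b U d : Set S} (hW : World n b) (hU : NM U) (fU : U ∩ n ⊆ b) (hU' : ¬ U ⊆ n)
    (hd : NM d) (hd' : ¬ d ⊆ n)
    (hp : ∀ k : S ≃ₜ S, k '' n = n → k '' b = b → Pr ((k '' U ∩ d) \ n)) :
    ∃ (t : Set S) (k : S ≃ₜ S), Mem t ∧ k '' n = n ∧ k '' b = b ∧ t ⊆ k '' U ∩ d ∧ ¬ t ⊆ n := by
  by_contra hn
  have key : ∀ k : S ≃ₜ S, k '' n = n → k '' b = b → Disc ((k '' U ∩ d) \ n) := fun k k1 k2 => by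
    refine w0_disc fun z hz => ?_
    by_contra hzn
    exact hn ⟨_, k, hS.mem_der hd.1.cl hd.1.sm inter_subset_right ⟨z, hz⟩, k1, k2,
      der_sub_closed ((hU.1.image k).cl.inter hd.1.cl) subset_rfl, fun h' => hzn (h' hz)⟩
  obtain ⟨e, he, hen⟩ := not_subset.1 hd'
  obtain ⟨u, hu, hun⟩ := not_subset.1 hU'
  obtain ⟨k, k1, k2, k3⟩ := hS.world_move hW hun hen
  obtain ⟨g, U', g1, g2, f, sU, e1, e2⟩ := hS.z5_other hR hW (hU.image k) ⟨u, hu, k3⟩ hen
  have f1 : U' ∩ n ⊆ b := (inter_subset_inter_left n sU).trans (w0_free_img k k1 k2 fU)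
  have f2 := w0_free_img g g1 g2 f1
  have q1 : (k.trans g) '' n = n := by rw [img_trans, k1, g1]
  have q2 : (k.trans g) '' b = b := by rw [img_trans, k2, g2]
  have s1 : ((U' ∩ d) \ n) \ {e} ⊆ (k '' U ∩ d) \ n :=
    sdiff_subset.trans (sdiff_subset_sdiff_left (inter_subset_inter_left _ sU))
  have s2 : (g '' U' ∩ d) \ n ⊆ ((k.trans g) '' U ∩ d) \ n := by
    rw [img_trans]
    exact sdiff_subset_sdiff_left (inter_subset_inter_left _ (image_mono sU))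
  obtain ⟨a, m, s, ea, da⟩ := z5_shrink hd
    ((hp k k1 k2 _ s1 ((key k k1 k2).mono s1)).union (hp _ q1 q2 _ s2 ((key _ q1 q2).mono s2))) he
    (by rintro (h | h)
        · exact h.2 rfl
        · exact e2 h.1.1)
  refine hS.cnt hW m.cl m.crd f.cl f.crd ea e1 hen f1 (fun y hy => ?_) g g2 f2
    fun y hy => ?_
  · by_cases h : y ∈ n
    · exact Or.inl (f1 ⟨hy.1, h⟩)
    · by_contra h'
      exact disjoint_left.1 da hy.2 (Or.inl ⟨⟨⟨hy.1, s hy.2⟩, h⟩, fun h'' => h' (Or.inr h'')⟩)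
  · by_cases h : y ∈ n
    · exact f2 ⟨hy.1, h⟩
    · exact absurd (Or.inr ⟨⟨hy.1, s hy.2⟩, h⟩) (disjoint_left.1 da hy.2)

/-- port of the lemma on free parts -/
lemma CB.z_h1d {n b U d : Set S} (hW : World n b)
    (hU : NM U) (fU : U ∩ n ⊆ b) (hU' : ¬ U ⊆ n) (hd : NM d) (hd' : ¬ d ⊆ n)
    (hp : ∀ k : S ≃ₜ S, k '' n = n → k '' b = b → Pr ((k '' U ∩ d) \ n)) :
    ∃ t, ZF n b t ∧ t ⊆ d ∧ ¬ t ⊆ n := by
  obtain ⟨t, k, m, k1, k2, s, o⟩ := hS.z5_h1d hR hW hU fU hU' hd hd' hp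
  have f : t ∩ n ⊆ b :=
    (inter_subset_inter_left n (s.trans inter_subset_left)).trans (w0_free_img k k1 k2 fU)
  exact ⟨t, ⟨hd.sub m (s.trans inter_subset_right), f,
    (hp k k1 k2).mono fun y hy => ⟨s hy.1, fun a => hy.2 (f ⟨hy.1, a⟩)⟩⟩,
    s.trans inter_subset_right, o⟩

omit hR in
/-- moving a member that avoids `n` and `F` through a given point -/
lemma CB.z5_core {n b t0 F : Set S} {x : S} (hW : World n b) (ht : NM t0) (hp : Pr (t0 \ b))
    (ht' : ¬ t0 ⊆ b)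
    (hF : IsClosed F) (hF' : F ≠ univ) (hFn : F ∩ n ⊆ b) (h0 : t0 ∩ (n ∪ derivedSet F) ⊆ b)
    (hx : x ∉ n) (hxF : x ∉ F) : ∃ (k : S ≃ₜ S) (t : Set S), k '' b = b ∧ k '' t0 ∩ n ⊆ b ∧
      Mem t ∧ t ⊆ k '' t0 ∧ x ∈ t ∧ t ∩ F ⊆ b := by
  have hX : Crd (derivedSet F \ n) := (hS.crd_der F).diff_closed hW.cln
  have c1 : closure (derivedSet F \ n) ⊆ derivedSet F :=
    closure_minimal sdiff_subset (isClosed_derivedSet F)
  have c2 : closure (derivedSet F \ n) ⊆ F := c1.trans (der_sub_closed hF subset_rfl)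
  have hW' : World (n ∪ closure (derivedSet F \ n)) b :=
    ⟨hW.cln.union isClosed_closure, hW.crn.union hX.closure,
      hS.union_ne hW.cln isClosed_closure hW.sm fun e => hF' (eq_univ_of_univ_subset (e ▸ c2)),
      hW.clb, hW.crb, hW.sub.trans subset_union_left, hW.nwd.union_right hW.sub⟩
  have h1 : t0 ∩ (n ∪ closure (derivedSet F \ n)) ⊆ b :=
    (inter_subset_inter_right t0 (union_subset_union_right n c1)).trans h0
  obtain ⟨y, hy, hyb⟩ := not_subset.1 ht'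
  obtain ⟨k, k1, k2, k3⟩ := hS.world_move hW' (x := y) (y := x) (fun h => hyb (h1 ⟨hy, h⟩))
    fun h => h.elim hx fun h' => hxF (c2 h')
  have h2 := w0_free_img k k1 k2 h1
  obtain ⟨t, m, s, e, d⟩ := z5_shrink (ht.image k) (hp.img_diff k2 (Iso F ∩ (k '' t0 \ b))
    inter_subset_right ((disc_iso F).mono inter_subset_left)) ⟨y, hy, k3⟩ fun h => hxF h.1.1
  refine ⟨k, t, k2, (inter_subset_inter_right _ subset_union_left).trans h2, m, s, e,
    fun z hz => ?_⟩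
  by_cases h : z ∈ n
  · exact hFn ⟨hz.2, h⟩
  · refine h2 ⟨s hz.1, Or.inr (subset_closure ⟨?_, h⟩)⟩
    by_contra h'
    exact disjoint_left.1 d hz.1 ⟨⟨hz.2, h'⟩, s hz.1, fun a => h (hW.sub a)⟩

/-- a free member through a point, missing a closed set with small trace -/
lemma CB.z5_mi {n b U F : Set S} {x : S} (hW : World n b) (hne : (n \ b).Nonempty) (hn : NM n)
    (hU : ZF n b U)
    (hU' : ¬ U ⊆ n) (hF : IsClosed F) (hF' : F ≠ univ) (hFn : F ∩ n ⊆ b) (hx : x ∉ n)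
    (hxF : x ∉ F) : ∃ t, ZF n b t ∧ x ∈ t ∧ t ∩ F ⊆ b := by
  have hX : Crd (derivedSet F \ n) := (hS.crd_der F).diff_closed hW.cln
  have c2 : closure (derivedSet F \ n) ⊆ F :=
    closure_minimal (sdiff_subset.trans (der_sub_closed hF subset_rfl)) hF
  obtain ⟨y, hy, hyb⟩ := hne
  obtain ⟨z, hz⟩ := hS.exists_off (hS.union_ne hW.cln isClosed_closure hW.sm
    fun e => hF' (eq_univ_of_univ_subset (e ▸ c2)))
  obtain ⟨k, k1, k2⟩ := hS.move_pt hX (x := y) (y := z) (fun h => hyb (hFn ⟨c2 h, hy⟩))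
    fun h => hz (Or.inr h)
  obtain ⟨t0, k0, m0, p1, p2, s0, h0⟩ := hS.z5_h1d hR hW hU.1 hU.2.1 hU' (hn.image k)
    (fun h => hz (Or.inl (h ⟨y, hy, k2⟩))) fun k _ k2 =>
      (hU.2.2.img_diff k2).mono (sdiff_subset_sdiff inter_subset_left hW.sub)
  have f := (hU.image k0 p1 p2).sub m0 (s0.trans inter_subset_left)
  have s := s0.trans inter_subset_right
  have d : Disjoint (k '' n) (derivedSet F \ n) := by
    rw [← k1]
    exact (img_disj k).2 disjoint_sdiff_right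
  obtain ⟨k', t, a0, a1, m, s', e, a2⟩ := hS.z5_core hW f.1 f.2.2
    (fun h => h0 (h.trans hW.sub)) hF hF'
    hFn (fun w hw => by
      by_cases h : w ∈ n
      · exact f.2.1 ⟨hw.1, h⟩
      · exact absurd ⟨hw.2.resolve_left h, h⟩ (disjoint_left.1 d (s hw.1))) hx hxF
  exact ⟨t, ZF.sub ⟨f.1.image k', a1, f.2.2.img_diff a0⟩ m s', e, a2⟩

lemma CB.z5_tiny {n b U : Set S} (hW : World n b) (hne : (n \ b).Nonempty) (hn : NM n)
    (hU : ZF n b U) (hU' : ¬ U ⊆ n) : ∃ (c : Set S) (γ : S ≃ₜ S), ZF n b c ∧ TW n b c γ := by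
  obtain ⟨e, he, hen⟩ := not_subset.1 hU'
  obtain ⟨g, U1, g1, g2, m1, s1, e1, e2⟩ := hS.z5_other hR hW hU.1 he hen
  have f := hU.sub m1 s1
  have f' := f.image g g1 g2
  obtain ⟨t, ft, et, ht⟩ := hS.z5_mi hR hW hne hn hU hU' f'.1.1.cl f'.1.1.sm f'.2.1 hen e2
  by_cases h : derivedSet (t ∩ U1) ⊆ n
  · exfalso
    obtain ⟨a, m, s, ea, da⟩ := z5_shrink ft.1 (ft.2.2 _
      (sdiff_subset.trans (sdiff_subset_sdiff inter_subset_left hW.sub))
      ((w0_disc h).mono (sdiff_subset (t := {e})))) et fun h' => h'.2 rfl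
    refine hS.cnt hW m.cl m.crd m1.cl m1.crd ea e1 hen f.2.1 (fun y hy => ?_) g g2 f'.2.1
      fun y hy => ht ⟨s hy.2, hy.1⟩
    by_cases k : y ∈ n
    · exact Or.inl (f.2.1 ⟨hy.1, k⟩)
    · by_contra h'
      exact disjoint_left.1 da hy.2 ⟨⟨⟨s hy.2, hy.1⟩, k⟩, fun h'' => h' (Or.inr h'')⟩
  · obtain ⟨z, hz, hzn⟩ := not_subset.1 h
    have hcl := ft.1.1.cl.inter m1.cl
    have hs : derivedSet (t ∩ U1) \ n ⊆ t ∩ U1 :=
      sdiff_subset.trans (der_sub_closed hcl subset_rfl)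
    have hs' : closure (derivedSet (t ∩ U1) \ n) ⊆ t ∩ U1 := closure_minimal hs hcl
    have fc := ft.sub (mem_of_crd ((hS.crd_der _).diff_closed hW.cln) ⟨z, hz, hzn⟩ ft.1.1.cl
      ft.1.1.sm (hs.trans inter_subset_left)) (hs'.trans inter_subset_left)
    refine ⟨_, g, fc, hW, hne, ⟨fc.1.1, fc.2.1⟩, fun h' => hzn (h' (subset_closure ⟨hz, hzn⟩)),
      closure_mono fun y hy => ⟨subset_closure hy, hy.2⟩, g1, g2, fun y hy => ?_⟩
    exact ht ⟨(hs' hy.2).1, image_mono (hs'.trans inter_subset_right) hy.1⟩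

end

lemma CB.z5_mob (hS : CB S) {n b c : Set S} {γ : S ≃ₜ S} (h : TW n b c γ) (k1 k2 : S ≃ₜ S)
    (a1 : k1 '' b = b) (a2 : k1 '' c ∩ n ⊆ b) (b1 : k2 '' b = b) :
    ∃ g : S ≃ₜ S, g '' b = b ∧ g '' (k2 '' c) ∩ (n ∪ k1 '' c) ⊆ b := by
  have hc := h.fr.1.cl
  have hc' : IsClosed (k1 '' c) := k1.isClosed_image.2 hc
  have n1 : Nwd b c := h.nwd.mono h.w.sub
  have n2 : Nwd b (k1 '' c) := by simpa only [a1] using n1.image k1
  obtain ⟨f, hf⟩ := hS.thin.glueE (Eqv.rfl' (n \ b))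
    (show Eqv (c \ b) (k1 '' c \ b) from ⟨k1, by rw [img_diff, a1]⟩)
    (w1_sp h.w hc h.fr.2) (w1_sp h.w hc' a2)
  rw [← union_sdiff_distrib, ← union_sdiff_distrib] at hf
  have e1 : f '' (n ∪ c) = n ∪ k1 '' c := by
    rw [← w1_cl h.w hc n1, img_cl, hf, w1_cl h.w hc' n2]
  have e2 : f '' b = b := by
    have e : ∀ X : Set S, b = (n ∪ X) \ ((n ∪ X) \ b) := fun X => by
      rw [sdiff_sdiff_right_self, inter_eq_right.2 (h.w.sub.trans subset_union_left)]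
    conv_lhs => rw [e c]
    rw [img_diff, hf, e1, ← e]
  refine ⟨k2.symm.trans (γ.trans f), ?_, ?_⟩
  · have : k2.symm '' b = b := by
      conv_lhs => rw [← b1]
      exact img_symm_img k2 b
    rw [img_trans, img_trans, this, h.g2, e2]
  · rw [img_trans, img_trans, img_symm_img, ← e1, ← img_inter, ← e2]
    refine image_mono ?_
    rw [inter_union_distrib_left]
    exact union_subset (w1_fr γ h.g1 h.g2 h.fr.2) h.g3

lemma CB.z5_k0 (hS : CB S) {n b c u y : Set S} {γ : S ≃ₜ S} {p : S} (h : TW n b c γ)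
    (hu : Tiny n b c u) (hy : Tiny n b c y) (pu : p ∈ u) (py : p ∈ y) (hp : p ∉ n)
    (hi : u ∩ y ⊆ b ∪ {p}) : False := by
  have f1 := hu.fr
  obtain ⟨hu, k2, b1, -, b3⟩ := hu
  obtain ⟨hy, k1, a1, a2, a3⟩ := hy
  obtain ⟨g, g1, g2⟩ := hS.z5_mob h k1 k2 a1 a2 b1
  exact hS.cnt h.w hy.cl hy.crd hu.cl hu.crd py pu hp f1 hi g g1
    ((inter_subset_inter (image_mono b3) subset_union_left).trans g2)
    ((inter_subset_inter (image_mono b3) (a3.trans subset_union_right)).trans g2)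

section
variable (hS : CB S) (hR : ∀ x : S, Rd ({x} : Set S))
include hS hR

omit hR in
/-- a tiny member through a point, missing a closed subset of a tiny member -/
lemma CB.z5_tmi {n b c t F : Set S} {γ : S ≃ₜ S} {x : S} (h : TW n b c γ) (hc : ZF n b c)
    (ht : Tiny n b c t)
    (hF : IsClosed F) (hFt : F ⊆ t) (hx : x ∉ n) (hxF : x ∉ F) :
    ∃ t', Tiny n b c t' ∧ x ∈ t' ∧ t' ∩ F ⊆ b := by
  have f1 := ht.fr
  obtain ⟨ht, k, a1, a2, a3⟩ := ht
  obtain ⟨g, g1, g2⟩ := hS.z5_mob h k (Homeomorph.refl S) a1 a2 (by simp)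
  have g2' : g '' c ∩ (n ∪ k '' c) ⊆ b := by simpa using g2
  obtain ⟨k', t', c1, c2, c3, c4, c5, c6⟩ := hS.z5_core (t0 := g '' c) h.w (hc.1.image g)
    (hc.2.2.img_diff g1)
    (fun e => h.out (((img_sub g).1 (by rwa [g1])).trans h.w.sub)) hF
    (fun e => ht.sm (eq_univ_of_univ_subset (e ▸ hFt)))
    ((inter_subset_inter_left _ hFt).trans f1)
    ((inter_subset_inter_right _ (union_subset_union_right _
      ((der_sub_closed hF subset_rfl).trans (hFt.trans a3)))).trans g2') hx hxF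
  refine ⟨t', ⟨c3, g.trans k', ?_, ?_, ?_⟩, c5, c6⟩
  · rw [img_trans, g1, c1]
  · rwa [img_trans]
  · rwa [img_trans]

lemma CB.z5_lf_tiny {n b c t1 t2 : Set S} {γ : S ≃ₜ S} {e : S} (h : TW n b c γ) (hN : NM n)
    (hc : ZF n b c)
    (h1 : Tiny n b c t1) (h2 : Tiny n b c t2) (e1 : e ∈ t1) (e2 : e ∈ t2) (he : e ∉ n) :
    e ∈ derivedSet (t1 ∩ t2) := by
  by_contra hn
  have m12 := hS.mem_union h1.1 h2.1
  obtain ⟨z, hz⟩ := hS.exists_off (hS.union_ne h.w.cln m12.cl h.w.sm m12.sm)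
  obtain ⟨g, g1, g2, g3⟩ := hS.world_move h.w (fun e => hz (Or.inl e)) he
  have f12 : (t1 ∪ t2) ∩ n ⊆ b := by
    rw [union_inter_distrib_right]; exact union_subset h1.fr h2.fr
  have heF : e ∉ (t1 ∩ t2) \ {e} ∪ g '' (t1 ∪ t2) := by
    rintro (h' | h')
    · exact h'.2 rfl
    · rw [← g3, mem_img] at h'; exact hz (Or.inr h')
  obtain ⟨U, hU, eU, hUF⟩ := hS.z5_mi hR (F := (t1 ∩ t2) \ {e} ∪ g '' (t1 ∪ t2)) h.w h.ne hN hc
    h.out
    ((w1_closed (h1.1.cl.inter h2.1.cl) hn).union (m12.image g).cl)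
    (fun e' => heF (e' ▸ mem_univ _))
    (by
      rw [union_inter_distrib_right]
      exact union_subset (fun y hy => h1.fr ⟨hy.1.1.1, hy.2⟩) (w1_fr g g1 g2 f12)) he heF
  have h3 : U ∩ t1 ∩ t2 ⊆ b ∪ {e} := fun y hy => by
    by_cases hye : y = e
    · exact Or.inr hye
    · exact Or.inl (hUF ⟨hy.1.1, Or.inl ⟨⟨hy.1.2, hy.2⟩, hye⟩⟩)
  by_cases i1 : e ∈ derivedSet (U ∩ t1)
  · have s1 := der_sub_closed (hU.1.1.cl.inter h1.1.cl) (subset_rfl (a := U ∩ t1))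
    exact hS.z5_k0 h (h1.sub (hS.mem_der h1.1.cl h1.1.sm inter_subset_right ⟨e, i1⟩)
      (s1.trans inter_subset_right)) h2 i1 e2 he ((inter_subset_inter_left _ s1).trans h3)
  by_cases i2 : e ∈ derivedSet (U ∩ t2)
  · have s1 := der_sub_closed (hU.1.1.cl.inter h2.1.cl) (subset_rfl (a := U ∩ t2))
    exact hS.z5_k0 h (h2.sub (hS.mem_der h2.1.cl h2.1.sm inter_subset_right ⟨e, i2⟩)
      (s1.trans inter_subset_right)) h1 i2 e1 he
      fun y hy => h3 ⟨⟨(s1 hy.1).1, hy.2⟩, (s1 hy.1).2⟩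
  obtain ⟨f, u, y, hu, hy, -, -, p1, p2, p3, p4⟩ := hS.te h.w hU.1.1 h1.1 h2.1 hU.2.1 h1.fr h2.fr eU
    e1 e2 he h3 i1 i2 g g2 (by
      rw [inter_union_distrib_left]
      exact union_subset (w1_fr g g1 g2 f12) fun y hy => hUF ⟨hy.2, Or.inr hy.1⟩)
  have hge : g e ∉ n := fun h' => he (by rwa [← g1, mem_img] at h')
  rcases p4 with ⟨q1, q2⟩ | ⟨q1, q2⟩
  · exact hS.z5_k0 h ((h1.image g g1 g2).sub (hu.image f) q1)
      ((h2.image g g1 g2).sub (hy.image f) q2) p1 p2 hge p3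
  · exact hS.z5_k0 h ((h2.image g g1 g2).sub (hu.image f) q1)
      ((h1.image g g1 g2).sub (hy.image f) q2) p1 p2 hge p3

lemma CB.z5_lf_mixed {n b c t a : Set S} {γ : S ≃ₜ S} {e : S} (h : TW n b c γ) (hN : NM n)
    (hc : ZF n b c)
    (h1 : Tiny n b c t) (h2 : Mem a) (e1 : e ∈ t) (e2 : e ∈ a) (he : e ∉ n) :
    e ∈ derivedSet (a ∩ t) := by
  by_contra hn
  obtain ⟨z, hz⟩ := hS.exists_off (hS.union_ne h.w.cln h2.cl h.w.sm h2.sm)
  obtain ⟨g, g1, g2, g3⟩ := hS.world_move h.w he (fun e => hz (Or.inl e))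
  obtain ⟨t', ht', et', hF⟩ := hS.z5_tmi (F := (a ∩ t) \ {e} ∪ (t ∩ g ⁻¹' a)) h hc h1
    ((w1_closed (h2.cl.inter h1.1.cl) hn).union (h1.1.cl.inter (h2.cl.preimage g.continuous)))
    (union_subset (fun y hy => hy.1.2) inter_subset_left) he (by
      rintro (h' | h')
      · exact h'.2 rfl
      · exact hz (Or.inr (g3 ▸ h'.2)))
  have eU := hS.z5_lf_tiny hR h hN hc h1 ht' e1 et' he
  have s1 := der_sub_closed (h1.1.cl.inter ht'.1.cl) (subset_rfl (a := t ∩ t'))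
  have fU : derivedSet (t ∩ t') ∩ n ⊆ b := fun y hy => h1.fr ⟨(s1 hy.1).1, hy.2⟩
  refine hS.cnt h.w h2.cl h2.crd (isClosed_derivedSet _) (hS.crd_der _) e2 eU he fU
    (fun y hy => ?_) g g2 (w1_fr g g1 g2 fU) ?_
  · by_cases hye : y = e
    · exact Or.inr hye
    · exact Or.inl (hF ⟨(s1 hy.1).2, Or.inl ⟨⟨hy.2, (s1 hy.1).1⟩, hye⟩⟩)
  · rintro _ ⟨⟨y, hy, rfl⟩, hy'⟩
    rw [← g2]
    exact mem_image_of_mem _ (hF ⟨(s1 hy).2, Or.inr ⟨(s1 hy).1, hy'⟩⟩)

/-- a world with a poor free member gives crowded intersections -/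
theorem CB.z_lf {n b U : Set S} (hW : World n b) (hne : (n \ b).Nonempty) (hN : NM n)
    (hU : ZF n b U) (hU' : ¬ U ⊆ n) : LFin (univ : Set S) := by
  obtain ⟨c, γ, hc, h⟩ := hS.z5_tiny hR hW hne hN hU hU'
  have c1 := h.fr
  have c2 := h.out
  have key : ∀ (a a' : Set S) (e : S), Mem a → Mem a' → e ∈ a → e ∈ a' → e ∉ n →
      e ∈ derivedSet (a ∩ a') := by
    intro a a' e ha ha' e1 e2 he
    obtain ⟨y, hy, hyn⟩ := not_subset.1 c2
    obtain ⟨k, k1, k2, k3⟩ := hS.world_move hW hyn he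
    have ht : Tiny n b c (k '' c) := ⟨c1.1.image k, k, k2, w1_fr k k1 k2 c1.2, subset_rfl⟩
    have i1 := hS.z5_lf_mixed hR h hN hc ht ha ⟨y, hy, k3⟩ e1 he
    have s1 := der_sub_closed (ha.cl.inter ht.1.cl) (subset_rfl (a := a ∩ k '' c))
    have i2 := hS.z5_lf_mixed hR h hN hc (ht.sub (hS.mem_der ha.cl ha.sm inter_subset_left ⟨e, i1⟩)
      (s1.trans inter_subset_right)) ha' i1 e2 he
    exact der_mono (fun y hy => mem_inter (s1 hy.2).1 hy.1) i2
  intro a a' ha ha' _ _ e he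
  obtain ⟨z, hz⟩ := hS.exists_off hW.sm
  obtain ⟨f, rfl⟩ := hS.thin.homog e z
  have := key _ _ (f e) (ha.image f) (ha'.image f) (mem_image_of_mem _ he.1)
    (mem_image_of_mem _ he.2) hz
  rwa [← img_inter, ← img_der, mem_img] at this

end

end Pool.Agent.Lib.MP_52f683_gt
end

-- part Pool.Agent.Lib.MP_52f683_gt.F.R2
section

set_option autoImplicit false
set_option linter.unusedSectionVars false

open Set Topology Filter

namespace Pool.Agent.Lib.MP_52f683_gt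

universe u

variable {S : Type u} [TopologicalSpace S] [T1Space S] [Infinite S]

/-- a clopen part around `x` embeds with `x` going to `y`, with the base fixed -/
def Bel (n X : Set S) (x y : S) : Prop :=
  ∃ (g : S ≃ₜ S) (N : Set S), g '' n = n ∧ ClopIn N X ∧ x ∈ N ∧ g x = y ∧ g '' N ⊆ X

lemma r2_sharp {X X' : Set S} {e : S} (hX : X' ⊆ X) (he : e ∈ X') (T : ℕ → Set S)
    (hT : ∀ k, ClopIn (T k) X ∧ e ∈ T k) (h : ∀ y ∈ X', (∀ k, y ∈ T k) → y = e) : Sharp X' e := by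
  refine ⟨fun k => (⋂ l ≤ k, T l) ∩ X', fun k => ⟨(hp_fin (fun l => (hT l).1) k).trace hX,
    mem_iInter₂.2 fun l _ => (hT l).2, he⟩, fun j j' hj y hy => ⟨mem_iInter₂.2 fun l hl =>
      mem_iInter₂.1 hy.1 l (hl.trans hj), hy.2⟩, Subset.antisymm (fun y hy => ?_) ?_⟩
  · exact h y (mem_iInter.1 hy 0).2 fun k => mem_iInter₂.1 (mem_iInter.1 hy k).1 k le_rfl
  · rintro _ rfl
    exact mem_iInter.2 fun k => ⟨mem_iInter₂.2 fun l _ => (hT l).2, he⟩

section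
variable {n c : Set S} {γ : S ≃ₜ S} (hS : RC S) (hW : Wd n c γ)
include hS hW

lemma RC.rem_crd (W : ℕ → Set S) (h : ∀ i, ClopIn (W i) (c \ n)) :
    Crd ((closure (⋃ i, W i) \ n) \ ⋃ i, W i) := by
  have hU : (⋃ i, W i) ⊆ c \ n := iUnion_subset fun i => (h i).1
  have hc := hW.cl_sub hU
  have cU := hW.cs_cl hU (crd_iUnion fun i => hW.crdX.clop (h i))
  intro e he
  by_contra hn
  obtain ⟨M, m1, -, m3, m4⟩ := hS.wmi hW
    (D := Iso ((closure (⋃ i, W i) \ n) \ ⋃ i, W i) \ {e}) (x := e)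
    ((disc_iso _).mono sdiff_subset) (fun y hy => ⟨hc hy.1.1.1.1, hy.1.1.1.2⟩) (hc he.1.1)
    fun a => a.2 rfl
  have c1 := hS.cs_inter m1.cs cU
  have c2 := hS.cs_union hW.base (hS.cs_der (A := (closure (⋃ i, W i) \ n) \ ⋃ i, W i)
    hW.mem.cl hW.mem.sm fun y hy => hc hy.1.1)
  have he' : e ∈ (M ∩ closure (⋃ i, W i)) \
      (n ∪ derivedSet ((closure (⋃ i, W i) \ n) \ ⋃ i, W i)) :=
    ⟨⟨m3, he.1.1⟩, fun a => a.elim he.1.2 hn⟩
  refine hS.ns _ _ _ e ⟨c1.mem ⟨e, he'.1⟩, c2.cl, c2.crd, c2.sm, rfl, ⟨e, he'⟩⟩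
    (r2_sharp (X := c \ n) (fun y hy => ⟨hc hy.1.2, fun a => hy.2 (Or.inl a)⟩) he'
      (fun k => (c \ n) \ W k) (fun k => ⟨(h k).compl, ⟨hc he.1.1, he.1.2⟩,
        fun a => he.2 (mem_iUnion.2 ⟨k, a⟩)⟩) fun y hy hk => ?_)
  by_contra hne
  refine disjoint_left.1 m4 hy.1.1 ⟨⟨⟨⟨hy.1.2, fun a => hy.2 (Or.inl a)⟩, fun a => ?_⟩,
    fun a => hy.2 (Or.inr a)⟩, hne⟩
  obtain ⟨k, hk'⟩ := mem_iUnion.1 a
  exact (hk k).2 hk'

lemma RC.bel_total {x y : S} (hx : x ∈ c \ n) (hy : y ∈ c \ n) :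
    Bel n (c \ n) x y ∨ Bel n (c \ n) y x := by
  obtain ⟨k, k1, rfl⟩ := hS.move_off hW.base hx.2 hy.2
  rcases hS.cmp hW k1 hx hy with ⟨N, n1, n2, n3⟩ | ⟨N, n1, n2, n3⟩
  · exact Or.inl ⟨k, N, k1, n1, n2, rfl, n3⟩
  · exact Or.inr ⟨k.symm, N, r_fix_symm k1, n1, n2, k.symm_apply_apply x, n3⟩

lemma RC.layers (W : ℕ → Set S) (h : ∀ i, ClopIn (W i) (c \ n)) {r : S}
    (hr : r ∈ (closure (⋃ i, W i) \ n) \ ⋃ i, W i) (N C : ℕ → Set S) (g : ℕ → S ≃ₜ S)
    (hN : ∀ j, ClopIn (N j) (c \ n) ∧ r ∈ N j) (hC : ∀ j, ClopIn (C j) (c \ n))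
    (dC : Pairwise fun i j => Disjoint (C i) (C j)) (hg : ∀ j, g j '' n = n)
    (hs : ∀ j, g j '' N j ⊆ C j) (hcl : closure (⋃ j, g j '' N j) \ n ⊆ ⋃ j, C j) : False := by
  classical
  obtain ⟨L, hL⟩ : ∃ L : ℕ → Set S, ∀ j, L j = ⋂ l ≤ j, (N l \ W l) := ⟨_, fun _ => rfl⟩
  have l1 : ∀ j, ClopIn (L j) (c \ n) := fun j =>
    hL j ▸ hp_fin (fun l => (hN l).1.diff (h l)) j
  have l2 : ∀ j, r ∈ L j := fun j => hL j ▸ mem_iInter₂.2 fun l _ =>
    ⟨(hN l).2, fun a => hr.2 (mem_iUnion.2 ⟨l, a⟩)⟩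
  have l3 : ∀ j, L (j + 1) ⊆ L j := fun j y hy => by
    rw [hL] at hy ⊢
    exact mem_iInter₂.2 fun l hl => mem_iInter₂.1 hy l (hl.trans (Nat.le_succ j))
  have l4 : ∀ j, L j ⊆ N j \ W j := fun j y hy => by
    rw [hL] at hy
    exact mem_iInter₂.1 hy j le_rfl
  have l5 : (⋃ i, W i) ⊆ (⋃ j, L j \ L (j + 1)) ∪ ((c \ n) \ L 0) := fun y hy => by
    obtain ⟨i, hi⟩ := mem_iUnion.1 hy
    have ex : ∃ j, y ∉ L j := ⟨i, fun a => (l4 i a).2 hi⟩
    have h1 := Nat.find_spec ex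
    rcases e : Nat.find ex with _ | j
    · exact Or.inr ⟨(h i).1 hi, e ▸ h1⟩
    · exact Or.inl (mem_iUnion.2 ⟨j, not_not.1 (Nat.find_min ex (by omega)), e ▸ h1⟩)
  have l6 : r ∈ closure (⋃ j, L j \ L (j + 1)) := by
    have := closure_mono l5 hr.1.1
    rw [closure_union] at this
    exact this.resolve_right (disjoint_left.1 (l1 0).2.1 (l2 0))
  have l7 : ∀ j, g j '' (L j \ L (j + 1)) ⊆ g j '' N j := fun j =>
    image_mono fun y hy => (l4 j hy.1).1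
  have l8 := hS.whost hW g (fun j => (l1 j).diff (l1 (j + 1)))
    (en1_disj l3 (fun j => sdiff_subset) fun j => disjoint_sdiff_left) hC dC
    (fun j => (l7 j).trans (hs j)) hg
    ((sdiff_subset_sdiff_left (closure_mono (iUnion_mono l7))).trans hcl) ⟨l6, hr.1.2⟩
  obtain ⟨j, hj⟩ := mem_iUnion.1 l8
  exact hj.2 (l2 _)

lemma RC.up_fin (W : ℕ → Set S) (h : ∀ i, ClopIn (W i) (c \ n)) {r : S}
    (hr : r ∈ (closure (⋃ i, W i) \ n) \ ⋃ i, W i) : {y | Bel n (c \ n) r y}.Finite := by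
  by_contra hinf
  have hI : ((c \ n) ∩ {y | Bel n (c \ n) r y}).Infinite := fun a =>
    hinf (a.subset fun y hy => ⟨by
      obtain ⟨g, N, -, -, h1, rfl, h2⟩ := hy
      exact h2 ⟨r, h1, rfl⟩, hy⟩)
  obtain ⟨M, y, h1, h2⟩ := en1_split (hS.wqc hW) hI
  choose g N gn hN hr' hg hgN using fun k => (h1 k).2.2
  have hM : ∀ j, ClopIn (M j) (c \ n) := fun j => (h1 j).1
  have hy : ∀ j, y j ∈ c \ n := fun j => (hM j).1 (h1 j).2.1
  have hc := hW.cl_sub (iUnion_subset fun i => (hM i).1)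
  have hR : (closure (⋃ i, M i) \ n) \ ⋃ i, M i ⊆ (c \ n) \ ⋃ i, M i :=
    fun z hz => ⟨⟨hc hz.1.1, hz.1.2⟩, hz.2⟩
  obtain ⟨k, k1, k2, k3⟩ := hS.push hW (r_disc_sel (tauSum_of_clop hM h2) fun j => (h1 j).2.1)
    (range_subset_iff.2 hy) (hS.rem_crd hW M hM) (hR.trans sdiff_subset)
    (fun z hz => ⟨⟨closure_minimal (sdiff_subset.trans sdiff_subset) isClosed_closure hz.1, hz.2⟩,
      fun a => disjoint_left.1 (opn_iUnion fun i => (hM i).opn).2 a (closure_mono hR hz.1)⟩)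
    (disjoint_left.2 (by
      rintro _ ⟨j, rfl⟩ a
      exact a.2 (mem_iUnion.2 ⟨j, (h1 j).2.1⟩)))
  have key : ∀ j, ∃ (g' : S ≃ₜ S) (N' : Set S), g' '' n = n ∧ (ClopIn N' (c \ n) ∧ r ∈ N') ∧
      g' '' N' ⊆ M j ∩ k '' c := fun j => by
    obtain ⟨_, ⟨i, rfl⟩, e⟩ : y j ∈ k '' range y := k2.symm ▸ mem_range_self j
    rcases hS.cmp hW k1 (hy i) (e ▸ hy j) with ⟨N0, n1, n2, n3⟩ | ⟨N0, n1, n2, n3⟩
    · have a1 := en1_pull (g i) (hN i) (hgN i) n1
      have a2 : ((g i).trans k) '' (N i ∩ g i ⁻¹' N0) ⊆ c \ n := by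
        rintro _ ⟨w, hw, rfl⟩
        exact n3 ⟨g i w, hw.2, rfl⟩
      refine ⟨(g i).trans k, _, r_fix_trans (gn i) k1, ⟨en1_pull _ a1 a2 (hM j),
        ⟨hr' i, by rwa [mem_preimage, hg]⟩, ?_⟩, ?_⟩
      · rw [mem_preimage, Homeomorph.trans_apply, hg, e]
        exact (h1 j).2.1
      · rintro _ ⟨w, hw, rfl⟩
        exact ⟨hw.2, g i w, (n1.1 hw.1.2).1, rfl⟩
    · refine ⟨g j, _, gn j, ⟨en1_pull _ (hN j) (hgN j) (n1.inter (hM j)), hr' j, ?_⟩, ?_⟩
      · rw [mem_preimage, hg]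
        exact ⟨e ▸ n2, (h1 j).2.1⟩
      · rintro _ ⟨w, hw, rfl⟩
        exact ⟨hw.2.2, (r_mem_img k).2 (n3 ⟨_, hw.2.1, rfl⟩).1⟩
  choose g' N' a1 a2 a3 using key
  refine hS.layers hW W h hr N' M g' a2 hM h2 a1 (fun j => (a3 j).trans inter_subset_left)
    fun z hz => ?_
  by_contra hn
  exact disjoint_left.1 k3 (closure_minimal
    (iUnion_subset fun j => (a3 j).trans inter_subset_right) (hW.mem.image k).cl hz.1)
    ⟨⟨closure_mono (iUnion_mono fun j => (a3 j).trans inter_subset_left) hz.1, hz.2⟩, hn⟩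

/-- countable unions of clopen parts are clopen -/
theorem RC.om (W : ℕ → Set S) (h : ∀ i, ClopIn (W i) (c \ n)) : ClopIn (⋃ i, W i) (c \ n) := by
  have hU : (⋃ i, W i) ⊆ c \ n := iUnion_subset fun i => (h i).1
  have hc := hW.cl_sub hU
  have cU := hW.cs_cl hU (crd_iUnion fun i => hW.crdX.clop (h i))
  refine (opn_iUnion fun i => (h i).opn).clop fun r hr0 => ?_
  by_contra hn
  have hr : r ∈ (closure (⋃ i, W i) \ n) \ ⋃ i, W i := ⟨⟨hr0.1, hr0.2.2⟩, hn⟩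
  have hX : ∀ y ∈ (closure (⋃ i, W i) \ n) \ ⋃ i, W i, y ∈ c \ n :=
    fun y hy => ⟨hc hy.1.1, hy.1.2⟩
  have hinf := (hS.rem_crd hW W h).inf ⟨r, hr⟩
  have hcount : ((closure (⋃ i, W i) \ n) \ ⋃ i, W i).Countable := by
    refine (countable_iUnion fun i : ℕ =>
      (hS.up_fin hW W h (hinf.natEmbedding _ i).2).countable).mono fun y hy => ?_
    by_contra hy'
    refine infinite_of_injective_forall_mem
      (Subtype.val_injective.comp (hinf.natEmbedding _).injective) (fun i => ?_)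
      (hS.up_fin hW W h hy)
    exact (hS.bel_total hW (hX y hy) (hX _ (hinf.natEmbedding _ i).2)).resolve_right
      fun a => hy' (mem_iUnion.2 ⟨i, a⟩)
  obtain ⟨s, hs⟩ := hcount.exists_eq_range ⟨r, hr⟩
  have key : ∀ k, ∃ N, ClopIn N (c \ n) ∧ r ∈ N ∧ (s k ≠ r → s k ∉ N) := fun k => by
    by_cases e : s k = r
    · exact ⟨_, clopIn_self _, hr0.2, fun a => absurd e a⟩
    · obtain ⟨N, n1, n2, n3⟩ := hS.wsep hW hr0.2 (hX _ (hs ▸ mem_range_self k)) (Ne.symm e)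
      exact ⟨N, n1, n2, fun _ => n3⟩
  choose N n1 n2 n3 using key
  refine hS.ns _ _ _ r ⟨cU.mem ⟨r, hr0.1⟩, hW.base.cl, hW.base.crd, hW.base.sm, rfl, ⟨r, hr.1⟩⟩
    (r2_sharp (X := c \ n) (fun y hy => ⟨hc hy.1, hy.2⟩) hr.1 (fun k => N k \ W k)
      (fun k => ⟨(n1 k).diff (h k), n2 k, fun a => hn (mem_iUnion.2 ⟨k, a⟩)⟩) fun y hy hk => ?_)
  have hy' : y ∈ (closure (⋃ i, W i) \ n) \ ⋃ i, W i := ⟨hy, fun a => by
    obtain ⟨k, hk'⟩ := mem_iUnion.1 a
    exact (hk k).2 hk'⟩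
  rw [hs] at hy'
  obtain ⟨k, rfl⟩ := hy'
  by_contra hne
  exact n3 k hne (hk k).1

lemma RC.om_inter {ι : Type*} [Countable ι] (W : ι → Set S) (h : ∀ i, ClopIn (W i) (c \ n)) :
    ClopIn ((c \ n) ∩ ⋂ i, W i) (c \ n) := by
  rcases isEmpty_or_nonempty ι with hι | hι
  · rw [iInter_of_empty, inter_univ]
    exact clopIn_self _
  obtain ⟨f, hf⟩ := exists_surjective_nat ι
  have := (hS.om hW (fun i => (c \ n) \ W (f i)) fun i => (h _).compl).compl
  have e : (c \ n) ∩ ⋂ i, W i = (c \ n) \ ⋃ i, (c \ n) \ W (f i) := by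
    ext y
    constructor
    · rintro ⟨h1, h2⟩
      refine ⟨h1, fun a => ?_⟩
      obtain ⟨i, hi⟩ := mem_iUnion.1 a
      exact hi.2 (mem_iInter.1 h2 _)
    · rintro ⟨h1, h2⟩
      refine ⟨h1, mem_iInter.2 fun i => ?_⟩
      obtain ⟨j, rfl⟩ := hf i
      by_contra a
      exact h2 (mem_iUnion.2 ⟨j, h1, a⟩)
  rwa [e]

end

end Pool.Agent.Lib.MP_52f683_gt
end

-- part Pool.Agent.Lib.MP_52f683_gt.F.R3
section

set_option autoImplicit false
set_option linter.unusedSectionVars false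

open Set Topology Filter

namespace Pool.Agent.Lib.MP_52f683_gt

universe u

variable {S : Type u} [TopologicalSpace S] [T1Space S] [Infinite S]

/-- colourings of open parts that the map changes -/
def R3Col (X N : Set S) (k : S ≃ₜ S) (V : ℕ → Set S) : Prop :=
  (∀ i, Opn (V i) X ∧ V i ⊆ N) ∧ (∀ i j, i ≠ j → Disjoint (V i) (V j)) ∧
    ∀ i, ∀ y ∈ V i, ∃ j, j ≠ i ∧ k y ∈ V j

lemma r3_max (X N : Set S) (k : S ≃ₜ S) : ∃ V, Maximal (R3Col X N k) V := by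
  refine zorn_le₀ {V | R3Col X N k V} fun C hC hch => ⟨fun i => ⋃ V : C, V.1 i, ⟨fun i => ?_,
    fun i j hij => ?_, fun i y hy => ?_⟩, fun V hV i => subset_iUnion (fun V : C => V.1 i) ⟨V, hV⟩⟩
  · exact ⟨opn_iUnion fun V => ((hC V.2).1 i).1, iUnion_subset fun V => ((hC V.2).1 i).2⟩
  · refine disjoint_iUnion_left.2 fun V => disjoint_iUnion_right.2 fun V' => ?_
    rcases hch.total V.2 V'.2 with h | h
    · exact ((hC V'.2).2.1 i j hij).mono_left (h i)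
    · exact ((hC V.2).2.1 i j hij).mono_right (h j)
  · obtain ⟨V, hV⟩ := mem_iUnion.1 hy
    obtain ⟨j, h1, h2⟩ := (hC V.2).2.2 i y hV
    exact ⟨j, h1, mem_iUnion.2 ⟨V, h2⟩⟩

lemma r3_union {A B X : Set S} (h : Opn A X) (h' : Opn B X) : Opn (A ∪ B) X := by
  rw [union_eq_iUnion]
  exact opn_iUnion fun b => by cases b <;> assumption

lemma r3_add {X N : Set S} {k : S ≃ₜ S} {V : ℕ → Set S} (hV : Maximal (R3Col X N k) V)
    (Z : ℕ → Set S) (h1 : ∀ i, Opn (Z i) X ∧ Z i ⊆ N \ ⋃ j, V j)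
    (h2 : ∀ i j, i ≠ j → Disjoint (Z i) (Z j))
    (h3 : ∀ i, ∀ y ∈ Z i, ∃ j, j ≠ i ∧ k y ∈ V j ∪ Z j) (i : ℕ) (y : S) : y ∉ Z i := fun hy => by
  have d : ∀ i j, Disjoint (Z i) (V j) := fun i j =>
    disjoint_left.2 fun z hz hz' => ((h1 i).2 hz).2 (mem_iUnion.2 ⟨j, hz'⟩)
  have : R3Col X N k fun i => V i ∪ Z i := by
    refine ⟨fun i => ⟨r3_union (hV.1.1 i).1 (h1 i).1,
      union_subset (hV.1.1 i).2 ((h1 i).2.trans sdiff_subset)⟩, fun i j hij => ?_, ?_⟩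
    · exact disjoint_union_left.2 ⟨disjoint_union_right.2 ⟨hV.1.2.1 i j hij, (d j i).symm⟩,
        disjoint_union_right.2 ⟨d i j, h2 i j hij⟩⟩
    · rintro i y (hy | hy)
      · obtain ⟨j, a, b⟩ := hV.1.2.2 i y hy
        exact ⟨j, a, Or.inl b⟩
      · exact h3 i y hy
  exact disjoint_left.1 (d i i) hy (hV.2 this (fun _ => subset_union_left) i (Or.inr hy))

lemma r3_inter {X : Set S}
    (om : ∀ W : ℕ → Set S, (∀ i, ClopIn (W i) X) → ClopIn (⋃ i, W i) X)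
    {ι : Type} [Countable ι] [Nonempty ι] (W : ι → Set S) (h : ∀ i, ClopIn (W i) X) :
    ClopIn (⋂ i, W i) X := by
  obtain ⟨f, hf⟩ := exists_surjective_nat ι
  have e : (⋂ i, W i) = X \ ⋃ j, X \ W (f j) := by
    ext y
    simp only [mem_iInter, Set.mem_sdiff, mem_iUnion, not_exists, not_and, not_not]
    exact ⟨fun a => ⟨(h (f 0)).1 (a _), fun j _ => a _⟩, fun a i => by
      obtain ⟨j, rfl⟩ := hf i
      exact a.2 j a.1⟩
  rw [e]
  exact (om _ fun j => (h _).compl).compl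

/-- the fixed points of a map of a clopen part into itself form a clopen part -/
theorem r_frolik {X N : Set S} (k : S ≃ₜ S)
    (ed : ∀ A, Opn A X → ClopIn (closure A ∩ X) X)
    (om : ∀ W : ℕ → Set S, (∀ i, ClopIn (W i) X) → ClopIn (⋃ i, W i) X)
    (sep : ∀ x ∈ X, ∀ y ∈ X, x ≠ y → ∃ M, ClopIn M X ∧ x ∈ M ∧ y ∉ M)
    (hN : ClopIn N X) (hk : k '' N ⊆ N) : ClopIn {y | y ∈ N ∧ k y = y} X := by
  classical
  obtain ⟨V, hV⟩ := r3_max X N k
  have hkN : ∀ y ∈ N, k y ∈ N := fun y hy => hk (mem_image_of_mem _ hy)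
  have hc : ∀ i, ClopIn (V i) X := by
    have o := fun i => (hV.1.1 i).1
    have : R3Col X N k fun i => closure (V i) ∩ X := by
      refine ⟨fun i => ⟨(ed _ (o i)).opn, fun y hy => hN.closed ⟨closure_mono (hV.1.1 i).2 hy.1, hy.2⟩⟩,
        fun i j hij => ?_, fun i y hy => ?_⟩
      · exact ((ed _ (o i)).opn.disj (o j).1 (((o j).disj (o i).1
          (hV.1.2.1 j i hij.symm)).symm.mono_left inter_subset_left)).mono_right inter_subset_left
      · have h1 := om (fun j => if j = i then ∅ else closure (V j) ∩ X) fun j => by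
          split_ifs
          · exact clopIn_empty X
          · exact ed _ (o j)
        have h2 : k y ∈ closure (⋃ j, if j = i then ∅ else closure (V j) ∩ X) := by
          refine closure_mono ?_ ((r_cl_img k).2 hy.1)
          rintro _ ⟨z, hz, rfl⟩
          obtain ⟨j, a, b⟩ := hV.1.2.2 i z hz
          exact mem_iUnion.2 ⟨j, by rw [if_neg a]; exact ⟨subset_closure b, (o j).1 b⟩⟩
        obtain ⟨j, hj⟩ := mem_iUnion.1 (h1.closed ⟨h2, hN.1 (hkN y
          (hN.closed ⟨closure_mono (hV.1.1 i).2 hy.1, hy.2⟩))⟩)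
        split_ifs at hj with e
        · exact absurd hj id
        · exact ⟨j, e, hj⟩
    exact fun i => (o i).clop (hV.2 this (fun i y hy => ⟨subset_closure hy, (o i).1 hy⟩) i)
  obtain ⟨Y, hY⟩ : ∃ Y, Y = N \ ⋃ j, V j := ⟨_, rfl⟩
  have cY : ClopIn Y X := hY ▸ hN.diff (om V hc)
  have sY : Y ⊆ N := hY ▸ sdiff_subset
  have add := r3_add hV
  rw [← hY] at add
  have kY : ∀ y ∈ Y, k y ∈ Y := fun y hy => by
    rw [hY]
    refine ⟨hkN y (sY hy), fun h => ?_⟩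
    obtain ⟨i, hi⟩ := mem_iUnion.1 h
    refine add (fun j => if j = i + 1 then Y ∩ k ⁻¹' V i else ∅) (fun j => ?_) (fun a b hab => ?_)
      (fun j z hz => ?_) (i + 1) y (by rw [if_pos rfl]; exact ⟨hy, hi⟩)
    · split_ifs
      · exact ⟨(en1_pull k cY ((image_mono sY).trans (hk.trans hN.1)) (hc i)).opn,
          inter_subset_left⟩
      · exact ⟨(clopIn_empty X).opn, empty_subset _⟩
    · split_ifs with h1 h2
      · exact absurd (h1.trans h2.symm) hab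
      all_goals simp
    · split_ifs at hz with h1
      · exact ⟨i, by omega, Or.inl hz.2⟩
      · exact absurd hz id
  have fixY : ∀ y ∈ Y, k y = y := fun y hy => by
    by_contra hne
    have aY : ∀ (m : ℕ) (u : S), u ∈ Y → k^[m] u ∈ Y := fun m => by
      induction m with
      | zero => exact fun _ h => h
      | succ m ih => exact fun u h => ih _ (kY u h)
    have hA : ∀ i j : ℕ, ∃ M, ClopIn M X ∧ (k^[i] y ≠ k^[j] y → k^[i] y ∈ M ∧ k^[j] y ∉ M) := by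
      intro i j
      by_cases e : k^[i] y = k^[j] y
      · exact ⟨X, clopIn_self X, fun h => absurd e h⟩
      · obtain ⟨M, a, b⟩ := sep _ (cY.1 (aY i y hy)) _ (cY.1 (aY j y hy)) e
        exact ⟨M, a, fun _ => b⟩
    choose A hA1 hA2 using hA
    have cT : ∀ (m : ℕ) (M : Set S), ClopIn M X → ClopIn (Y ∩ k^[m] ⁻¹' M) X := fun m M hM => by
      induction m with
      | zero => exact cY.inter hM
      | succ m ih =>
        have := en1_pull k cY (image_subset_iff.2 fun u hu => cY.1 (kY u hu)) ih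
        have e : Y ∩ k ⁻¹' (Y ∩ k^[m] ⁻¹' M) = Y ∩ k^[m + 1] ⁻¹' M :=
          Subset.antisymm (fun u hu => ⟨hu.1, hu.2.2⟩) fun u hu => ⟨hu.1, kY u hu.1, hu.2⟩
        rwa [e] at this
    let At : S → Set S := fun w => {u | u ∈ Y ∧ ∀ m i j, k^[m] u ∈ A i j ↔ k^[m] w ∈ A i j}
    have cAt : ∀ w, ClopIn (At w) X := fun w => by
      have e : At w = ⋂ t : ℕ × ℕ × ℕ, if k^[t.1] w ∈ A t.2.1 t.2.2 then
          Y ∩ k^[t.1] ⁻¹' A t.2.1 t.2.2 else Y \ (Y ∩ k^[t.1] ⁻¹' A t.2.1 t.2.2) := by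
        ext u
        rw [mem_iInter]
        constructor
        · rintro ⟨a, b⟩ ⟨m, i, j⟩
          split_ifs with h
          · exact ⟨a, (b m i j).2 h⟩
          · exact ⟨a, fun h' => h ((b m i j).1 h'.2)⟩
        · intro a
          have u0 : u ∈ Y := by
            have := a (0, 0, 0)
            split_ifs at this <;> exact this.1
          refine ⟨u0, fun m i j => ?_⟩
          have := a (m, i, j)
          split_ifs at this with h
          · exact ⟨fun _ => h, fun _ => this.2⟩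
          · exact ⟨fun h' => absurd ⟨u0, h'⟩ this.2, fun h' => absurd h' h⟩
      rw [e]
      refine r3_inter om _ fun t => ?_
      split_ifs
      · exact cT _ _ (hA1 _ _)
      · exact cY.diff (cT _ _ (hA1 _ _))
    refine add (fun i => if ∀ l < i, k^[l] y ≠ k^[i] y then At (k^[i] y) else ∅) (fun j => ?_)
      (fun a b hab => ?_) (fun j z hz => ?_) 0 y
      (by rw [if_pos (by simp)]; exact ⟨hy, fun _ _ _ => Iff.rfl⟩)
    · split_ifs
      · exact ⟨(cAt _).opn, fun _ h => h.1⟩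
      · exact ⟨(clopIn_empty X).opn, empty_subset _⟩
    · split_ifs with h1 h2
      · have e : k^[a] y ≠ k^[b] y := by
          rcases lt_or_gt_of_ne hab with h | h
          · exact h2 a h
          · exact (h1 b h).symm
        exact disjoint_left.2 fun u hu hu' =>
          (hA2 a b e).2 ((hu'.2 0 a b).1 ((hu.2 0 a b).2 (hA2 a b e).1))
      all_goals simp
    · split_ifs at hz with h1
      · have hex : ∃ l, k^[l] y = k^[j + 1] y := ⟨_, rfl⟩
        refine ⟨Nat.find hex, fun e => hne ?_, Or.inr ?_⟩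
        · have := Nat.find_spec hex
          rw [e, Function.iterate_succ_apply] at this
          exact (k.injective.iterate j this).symm
        · rw [if_pos fun l hl e => Nat.find_min hex hl (e.trans (Nat.find_spec hex)),
            Nat.find_spec hex, Function.iterate_succ_apply']
          exact ⟨kY z hz.1, fun m a b => hz.2 (m + 1) a b⟩
      · exact absurd hz id
  have e : {y | y ∈ N ∧ k y = y} = Y := by
    refine Subset.antisymm (fun y hy => ?_) fun y hy => ⟨sY hy, fixY y hy⟩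
    rw [hY]
    refine ⟨hy.1, fun h => ?_⟩
    obtain ⟨i, hi⟩ := mem_iUnion.1 h
    obtain ⟨j, a, b⟩ := hV.1.2.2 i y hi
    exact disjoint_left.1 (hV.1.2.1 j i a) (hy.2 ▸ b) hi
  rwa [e]

section
variable {n c : Set S} {γ : S ≃ₜ S} (hS : RC S) (hW : Wd n c γ)
include hS hW

lemma RC.r3_fr {k : S ≃ₜ S} {x : S} (e : k x = x) {M : Set S} (h1 : ClopIn M (c \ n)) (h2 : x ∈ M)
    (h3 : k '' M ⊆ c \ n) : ∃ N, ClopIn N (c \ n) ∧ x ∈ N ∧ ∀ y ∈ N, k y = y := by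
  let N : ℕ → Set S := fun j => Nat.rec M (fun _ A => A ∩ k ⁻¹' A) j
  have hN : ∀ j, ClopIn (N j) (c \ n) ∧ x ∈ N j ∧ N j ⊆ M := fun j => by
    induction j with
    | zero => exact ⟨h1, h2, subset_rfl⟩
    | succ j ih =>
      exact ⟨en1_pull k ih.1 ((image_mono ih.2.2).trans h3) ih.1,
        ⟨ih.2.1, by rw [mem_preimage, e]; exact ih.2.1⟩, inter_subset_left.trans ih.2.2⟩
  refine ⟨_, r_frolik k (fun _ => hS.ed hW) (hS.om hW) (fun _ a _ b => hS.wsep hW a b)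
    (r3_inter (hS.om hW) N fun j => (hN j).1) ?_, ⟨mem_iInter.2 fun j => (hN j).2.1, e⟩,
    fun _ h => h.2⟩
  rintro _ ⟨y, hy, rfl⟩
  exact mem_iInter.2 fun j => (mem_iInter.1 hy (j + 1)).2

/-- a map that fixes the base and a point is the identity near the point -/
theorem RC.fr {k : S ≃ₜ S} (hk : k '' n = n) {x : S} (hx : x ∈ c \ n) (e : k x = x) :
    ∃ N, ClopIn N (c \ n) ∧ x ∈ N ∧ ∀ y ∈ N, k y = y := by
  rcases hS.cmp hW hk hx (e.symm ▸ hx) with ⟨M, h1, h2, h3⟩ | ⟨M, h1, h2, h3⟩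
  · exact hS.r3_fr hW e h1 h2 h3
  · obtain ⟨N, a, b, d⟩ := hS.r3_fr hW (k := k.symm) (x := x) (k.symm_apply_eq.2 e.symm) h1
      (e ▸ h2) h3
    exact ⟨N, a, b, fun y hy => (k.symm_apply_eq.1 (d y hy)).symm⟩

end

end Pool.Agent.Lib.MP_52f683_gt
end

-- part Pool.Agent.Lib.MP_52f683_gt.F.R4
section

set_option autoImplicit false
set_option linter.unusedSectionVars false

open Set Topology Filter

namespace Pool.Agent.Lib.MP_52f683_gt

universe u

variable {S : Type u} [TopologicalSpace S] [T1Space S] [Infinite S]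

section
variable {n c : Set S} {γ : S ≃ₜ S} (hS : RC S) (hW : Wd n c γ)
include hS hW

/-- regularity -/
theorem RC.reg {F : Set S} (hF : IsClosed F) {x : S} (hx : x ∈ c \ n) (hxF : x ∉ F) :
    ∃ N, ClopIn N (c \ n) ∧ x ∈ N ∧ Disjoint N F := by
  have hG := hF.inter hW.mem.cl
  have hd := hS.cs_der hG (r_ne_univ inter_subset_right hW.mem.sm) subset_rfl
  have hdG := der_sub_closed hG subset_rfl
  obtain ⟨k, k1, k2, k3⟩ := hS.push hW (R := derivedSet (F ∩ c) \ n) (disc_single x)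
    (singleton_subset_iff.2 hx) (hd.crd.diff_closed hW.base.cl)
    (sdiff_subset_sdiff_left (hdG.trans inter_subset_right))
    (sdiff_subset_sdiff_left (closure_minimal sdiff_subset hd.cl))
    (disjoint_singleton_left.2 fun h => hxF (hdG h.1).1)
  obtain ⟨N1, a1, a2, a3⟩ := hS.fr hW k1 hx (by simpa using k2)
  have hE : Disc (Iso (F ∩ c) \ n) := (disc_iso _).mono sdiff_subset
  have hEX : Iso (F ∩ c) \ n ⊆ c \ n := sdiff_subset_sdiff_left fun _ h => h.1.2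
  obtain ⟨U, u1, u2, u3, u4⟩ := hS.wmi hW hE hEX hx.1 fun h => hxF h.1.1.1
  have hA : Crd ((U \ n) \ {x}) :=
    (u1.crd.diff_closed hW.base.cl).diff_closed isClosed_singleton
  have hAX : (U \ n) \ {x} ⊆ c \ n := sdiff_subset.trans (sdiff_subset_sdiff_left u2)
  have s1 := hS.sp_disc hE
    (u4.symm.mono_right (closure_minimal (sdiff_subset.trans sdiff_subset : (U \ n) \ {x} ⊆ U) u1.cl))
  have s2 := hW.sp hAX hEX
  obtain ⟨h, h1, h2⟩ := hS.wpin hW (hS.thin.glueE (Eqv.rfl' _) (r_eqv_img γ _) s1 s2)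
    (r_nlc_union s1 (by rw [sdiff_sdiff]; exact r_nlc_diff u1.cl (hW.base.cl.union isClosed_singleton))
      (r_nlc_closed (hS.closed _ hE)))
    (union_subset (hW.sub_sub hAX) (hW.sub_sub hEX)) (union_subset (hW.sub_sub hAX) (hW.img_sub hEX))
  obtain ⟨e1, e2⟩ := hS.split h2 hA hA hE (hE.image γ) s1.2 s2.2
  obtain ⟨-, R, r1, r2, r3⟩ := hS.iso_rem u1.cs hW.base u3 hx.2
  have e3 := img_rem h ((U \ n) \ {x})
  rw [e1, r3] at e3
  have d1 : Disjoint {x} (closure R) :=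
    disjoint_singleton_left.2 fun h => hx.2 (r2 (r1.cl.closure_subset h)).2
  obtain ⟨N2, b1, b2, b3⟩ := hS.fr hW h1 hx (by
    simpa using (hS.split e3 r1.crd r1.crd (disc_single x) (disc_single x) d1 d1).2)
  refine ⟨N1 ∩ N2, a1.inter b1, ⟨a2, b2⟩, disjoint_left.2 fun y hy hyF => ?_⟩
  have hyX := a1.1 hy.1
  by_cases hyd : y ∈ derivedSet (F ∩ c)
  · exact disjoint_left.1 k3 ⟨y, hyX.1, a3 y hy.1⟩ ⟨hyd, hyX.2⟩
  · exact hW.off hyX (image_mono (hEX.trans sdiff_subset)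
      (e2.subset ⟨y, ⟨⟨⟨hyF, hyX.1⟩, hyd⟩, hyX.2⟩, b3 y hy.2⟩))

/-- parts of a world are comparable with all members -/
theorem RC.good {a K : Set S} {x : S} (hx : x ∈ c \ n) (ha : Mem a) (hac : a ⊆ c) (hK : Mem K) :
    x ∉ closure (a \ K) ∨ x ∉ closure (K \ a) := by
  have hM := hS.cs_union hK.cs hW.base
  obtain ⟨z, hz, -⟩ := hS.exists_off hM.cl hM.sm x
  obtain ⟨g, g1, rfl⟩ := hS.move_off hW.base hx.2 fun h => hz (Or.inr h)
  obtain ⟨N, n1, n2, n3⟩ := hS.reg hW (hK.image g.symm).cl hx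
    fun h => hz (Or.inl ((r_mem_symm g).1 h))
  by_contra! h
  have a1 : closure (a ∩ N) ⊆ a := closure_minimal inter_subset_left ha.cl
  have q1 : closure (closure (a ∩ N) \ (K ∪ n)) ⊆ closure (a ∩ N) :=
    closure_minimal sdiff_subset isClosed_closure
  have p1 : closure ((K ∪ n) \ closure (a ∩ N)) ⊆ K ∪ n := closure_minimal sdiff_subset hM.cl
  have p2 : n ⊆ closure ((K ∪ n) \ closure (a ∩ N)) :=
    hW.nc.trans (closure_mono (sdiff_subset_sdiff subset_union_right (a1.trans hac)))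
  have q2 : ∀ y ∈ g '' closure (closure (a ∩ N) \ (K ∪ n)), y ∈ K ∪ n → y ∈ n := by
    rintro _ ⟨w, hw, rfl⟩ hy
    by_contra hn
    exact disjoint_left.1 n3 (n1.closed ⟨closure_mono inter_subset_right (q1 hw), hac (a1 (q1 hw)),
      mt (r_fix_mem g1 w).2 hn⟩) ((r_mem_symm g).2 (hy.resolve_right hn))
  have q3 := (q1.trans a1).trans hac
  refine hz (p1 (hS.nest (q := closure (closure (a ∩ N) \ (K ∪ n))) g
    (cs_cl (hM.crd.diff_closed isClosed_closure) hM.cl hM.sm sdiff_subset) isClosed_closure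
    (closure_minimal (fun y hy => ?_) isClosed_closure)
    (r_nwd_cl (disjoint_left.2 fun y hy hy' => hy.2 (p1 hy')))
    (fun y hy => image_mono p2 (g1.superset (q2 y hy.1 (p1 hy.2))))
    (mem_image_of_mem g ⟨?_, closure_mono (sdiff_subset_sdiff subset_union_left a1) h.2⟩)))
  · by_cases hn : y ∈ n
    · exact closure_mono (sdiff_subset_sdiff p2 (union_subset_union q3 (image_mono q3)))
        (hW.nc.union (hW.nwd_img g1) hW.mem.cl hn)
    · exact subset_closure ⟨subset_closure hy, fun h => h.elim (fun h => hy.2 (q1 h))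
        fun h => hn (q2 y h hy.1)⟩
  · refine closure_mono (fun y hy => ?_) (cl_diff_closed isClosed_closure
      (disjoint_left.1 n1.2.1 n2) (cl_diff_closed hW.base.cl hx.2 h.1))
    exact ⟨subset_closure ⟨hy.1.1.1, n1.open_eq.superset ⟨⟨hac hy.1.1.1, hy.1.2⟩, hy.2⟩⟩,
      fun h => h.elim hy.1.1.2 hy.1.2⟩

end

end Pool.Agent.Lib.MP_52f683_gt
end

-- part Pool.Agent.Lib.MP_52f683_gt.F.R5
section

set_option autoImplicit false
set_option linter.unusedSectionVars false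

open Set Topology Filter

namespace Pool.Agent.Lib.MP_52f683_gt

universe u

variable {S : Type u} [TopologicalSpace S] [T1Space S] [Infinite S]

/-- copies of the world agree near common points -/
def Hom (n c : Set S) : Prop :=
  ∀ k : S ≃ₜ S, k '' n = n → ∀ y ∈ c \ n, y ∈ k '' c → y ∉ closure ((c \ n) \ k '' c)

/-- embedding with the base fixed -/
def Emb (n a b : Set S) : Prop := ∃ k : S ≃ₜ S, k '' n = n ∧ k '' a ⊆ b

/-- disjoint copies of a set inside itself -/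
def Dv (n a : Set S) (ι : Type*) : Prop :=
  ∃ g : ι → S ≃ₜ S, (∀ i, g i '' n = n ∧ g i '' a ⊆ a) ∧
    Pairwise fun i j => Disjoint (g i '' a) (g j '' a)

lemma Emb.trans {n a b d : Set S} (h : Emb n a b) (h' : Emb n b d) : Emb n a d := by
  obtain ⟨k, k1, k2⟩ := h
  obtain ⟨g, g1, g2⟩ := h'
  exact ⟨k.trans g, r_fix_trans k1 g1, by rw [img_trans]; exact (image_mono k2).trans g2⟩

lemma emb_of_sub {n a b : Set S} (h : a ⊆ b) : Emb n a b :=
  ⟨Homeomorph.refl S, r_fix_refl n, by simpa using h⟩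

lemma Dv.mono {n a : Set S} {ι κ : Type*} (h : Dv n a ι) {f : κ → ι} (hf : Function.Injective f) :
    Dv n a κ :=
  let ⟨g, g1, g2⟩ := h
  ⟨fun i => g (f i), fun i => g1 (f i), fun _ _ hij => g2 (hf.ne hij)⟩

lemma r5_zorn {α : Type*} (Q : α → Prop) (R : α → α → Prop) : ∃ F : Set α, (∀ p ∈ F, Q p) ∧
    F.Pairwise R ∧ ∀ p, Q p → (∀ q ∈ F, R p q ∧ R q p) → p ∈ F := by
  obtain ⟨F, hF⟩ := zorn_subset {F : Set α | (∀ p ∈ F, Q p) ∧ F.Pairwise R} fun C hC hc =>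
    ⟨⋃₀ C, ⟨fun p ⟨s, hs, hp⟩ => (hC hs).1 p hp, hc.pairwise_sUnion.2 fun s hs => (hC hs).2⟩,
      fun s hs => subset_sUnion_of_mem hs⟩
  exact ⟨F, hF.1.1, hF.1.2, fun p hp h => hF.2 (y := insert p F) ⟨forall_mem_insert.2 ⟨hp, hF.1.1⟩,
    pairwise_insert.2 ⟨hF.1.2, fun q hq _ => h q hq⟩⟩ (subset_insert _ _) (mem_insert _ _)⟩

section
variable {n c : Set S} {γ : S ≃ₜ S} (hS : RC S) (hW : Wd n c γ)
include hS hW

lemma RC.emb_add {ι : Type*} {a b : Set S} (ha : a ⊆ c \ n) (hb : ClopIn b (c \ n))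
    {P C : ι → Set S} (hP : ∀ i, ClopIn (P i) (c \ n))
    (dP : Pairwise fun i j => Disjoint (P i) (P j)) (hC : ∀ i, ClopIn (C i) (c \ n))
    (dC : Pairwise fun i j => Disjoint (C i) (C j)) (cov : a ⊆ closure (⋃ i, P i))
    (hCb : ∀ i, C i ⊆ b) (e : ∀ i, Emb n (P i) (C i)) : Emb n a b := by
  choose g g1 g2 using e
  obtain ⟨k, k1, k2⟩ := hS.wglue hW g hP dP hC dC g2
  refine ⟨k, k1, ?_⟩
  rintro _ ⟨x, hx, rfl⟩
  have h : k x ∈ closure b := closure_mono (k2 ▸ iUnion_subset fun i => (g2 i).trans (hCb i))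
    ((r_cl_img k).2 (cov hx))
  exact hb.closed ⟨h, hW.cl_sub hb.1 h, mt (r_fix_mem k1 x).1 (ha hx).2⟩

lemma RC.dv_of_fam {ι κ τ : Type*} {a : Set S} (ha : ClopIn a (c \ n)) {E : ι → Set S}
    (hE : ∀ i, ClopIn (E i) (c \ n)) (hEa : ∀ i, E i ⊆ a)
    (dE : Pairwise fun i j => Disjoint (E i) (E j)) {P : κ → Set S}
    (hP : ∀ i, ClopIn (P i) (c \ n)) (dP : Pairwise fun i j => Disjoint (P i) (P j))
    (cov : a ⊆ closure (⋃ i, P i)) {φ : τ × κ → ι} (hφ : Function.Injective φ)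
    (e : ∀ l j, Emb n (P j) (E (φ (l, j)))) : Dv n a τ := by
  have ho := fun l => opn_iUnion fun j => (hE (φ (l, j))).opn
  choose g g1 g2 using fun l => hS.emb_add hW ha.1 (hS.ed hW (ho l)) hP dP (fun j => hE _)
    (fun i j h => dE (hφ.ne fun e => h (Prod.ext_iff.1 e).2)) cov
    (fun j => subset_inter (subset_closure.trans' (subset_iUnion_of_subset j subset_rfl)) (hE _).1) (e l)
  refine ⟨g, fun l => ⟨g1 l, (g2 l).trans ((inter_subset_inter_left _ (closure_mono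
    (iUnion_subset fun j => hEa _))).trans ha.closed)⟩, fun l l' h => disjoint_left.2 fun y h1 h2 =>
      (g2 l h1).2.2 (hS.ed_disj hW (ho l) (ho l') ?_ ⟨(g2 l h1).1, (g2 l' h2).1⟩)⟩
  exact disjoint_iUnion_left.2 fun i => disjoint_iUnion_right.2 fun j =>
    dE (hφ.ne fun e => h (Prod.ext_iff.1 e).1)

lemma RC.r5_rest {ι : Type*} {a : Set S} (ha : ClopIn a (c \ n)) {P : ι → Set S}
    (hP : ∀ i, ClopIn (P i) (c \ n)) : ClopIn (a \ closure (⋃ i, P i)) (c \ n) := by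
  have := ha.diff (hS.ed hW (opn_iUnion fun i => (hP i).opn))
  rwa [sdiff_inter, sdiff_eq_empty.2 ha.1, union_empty] at this

variable (hH : Hom n c)
include hH

lemma RC.pull {k : S ≃ₜ S} (hk : k '' n = n) {N M : Set S} (hN : ClopIn N (c \ n))
    (hM : ClopIn M (c \ n)) : ClopIn (N ∩ k ⁻¹' M) (c \ n) := by
  refine Opn.clop ⟨inter_subset_left.trans hN.1, disjoint_left.2 fun y hy h => ?_⟩ fun y hy => ?_
  · have := closure_mono (t := ((c \ n) \ N ∪ (c \ n) \ k.symm '' c) ∪ k ⁻¹' ((c \ n) \ M))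
      (fun w hw => by
        by_contra h
        simp only [mem_union, not_or] at h
        exact hw.2 ⟨not_not.1 fun e => h.1.1 ⟨hw.1, e⟩, not_not.1 fun e => h.2
          ⟨⟨(r_mem_symm k).1 (not_not.1 fun e => h.1.2 ⟨hw.1, e⟩), mt (r_fix_mem hk w).1 hw.1.2⟩, e⟩⟩) h
    rw [closure_union, closure_union, ← k.preimage_closure] at this
    rcases this with (e | e) | e
    exacts [disjoint_left.1 hN.2.1 hy.1 e, hH _ (r_fix_symm hk) y (hN.1 hy.1)
      ((r_mem_symm k).2 (hM.1 hy.2).1) e, disjoint_left.1 hM.2.1 hy.2 e]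
  · have h := closure_mono inter_subset_right hy.1
    rw [← k.preimage_closure] at h
    exact ⟨hN.closed ⟨closure_mono inter_subset_left hy.1, hy.2⟩,
      hM.closed ⟨h, hW.cl_sub hM.1 h, mt (r_fix_mem hk y).1 hy.2.2⟩⟩

lemma RC.img_clop {k : S ≃ₜ S} (hk : k '' n = n) {N : Set S} (hN : ClopIn N (c \ n))
    (h : k '' N ⊆ c \ n) : ClopIn (k '' N) (c \ n) := by
  have := hS.pull hW hH (r_fix_symm hk) (clopIn_self _) hN
  rwa [← k.image_eq_preimage_symm, inter_eq_right.2 h] at this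

lemma RC.emb_total {a b : Set S} (ha : ClopIn a (c \ n)) (hb : ClopIn b (c \ n)) :
    Emb n a b ∨ Emb n b a := by
  obtain ⟨F, f1, f2, f3⟩ := r5_zorn (fun p : Set S × Set S => (ClopIn p.1 (c \ n) ∧ p.1 ⊆ a) ∧
    (ClopIn p.2 (c \ n) ∧ p.2 ⊆ b) ∧ ∃ k : S ≃ₜ S, k '' n = n ∧ k '' p.1 = p.2)
    fun p q => Disjoint p.1 q.1 ∧ Disjoint p.2 q.2
  have c1 := fun p : F => (f1 p p.2).1.1
  have c2 := fun p : F => (f1 p p.2).2.1.1
  have d1 : Pairwise fun p q : F => Disjoint p.1.1 q.1.1 := fun p q h =>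
    (f2 p.2 q.2 (Subtype.coe_ne_coe.2 h)).1
  have d2 : Pairwise fun p q : F => Disjoint p.1.2 q.1.2 := fun p q h =>
    (f2 p.2 q.2 (Subtype.coe_ne_coe.2 h)).2
  by_cases h1 : a ⊆ closure (⋃ p : F, p.1.1)
  · exact Or.inl (hS.emb_add hW ha.1 hb c1 d1 c2 d2 h1 (fun p => (f1 p p.2).2.1.2) fun p =>
      (f1 p p.2).2.2.imp fun k h => ⟨h.1, h.2.subset⟩)
  by_cases h2 : b ⊆ closure (⋃ p : F, p.1.2)
  · refine Or.inr (hS.emb_add hW hb.1 ha c2 d2 c1 d1 h2 (fun p => (f1 p p.2).1.2) fun p => ?_)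
    obtain ⟨k, k1, k2⟩ := (f1 p p.2).2.2
    exact ⟨k.symm, r_fix_symm k1, by rw [← k2, img_symm_img]⟩
  obtain ⟨x, x1, x2⟩ := not_subset.1 h1
  obtain ⟨y, y1, y2⟩ := not_subset.1 h2
  obtain ⟨k, k1, rfl⟩ := hS.move_off hW.base (ha.1 x1).2 (hb.1 y1).2
  have t1 := hS.pull hW hH k1 (hS.r5_rest hW ha c1) (hS.r5_rest hW hb c2)
  have t2 := image_subset_iff.2 (inter_subset_right (s := a \ closure (⋃ p : F, p.1.1))
    (t := k ⁻¹' (b \ closure (⋃ p : F, p.1.2))))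
  have t3 := f3 (_, _) ⟨⟨t1, inter_subset_left.trans sdiff_subset⟩, ⟨hS.img_clop hW hH k1 t1
    (t2.trans (sdiff_subset.trans hb.1)), t2.trans sdiff_subset⟩, k, k1, rfl⟩ fun q hq => by
      simp only [disjoint_comm (a := q.1), disjoint_comm (a := q.2), and_self]
      exact ⟨disjoint_left.2 fun z h h' => h.1.2 (subset_closure (mem_iUnion.2 ⟨⟨q, hq⟩, h'⟩)),
        disjoint_left.2 fun z h h' => (t2 h).2 (subset_closure (mem_iUnion.2 ⟨⟨q, hq⟩, h'⟩))⟩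
  exact (x2 (subset_closure (mem_iUnion.2 ⟨⟨_, t3⟩, ⟨x1, x2⟩, y1, y2⟩))).elim

lemma RC.max_fam {a b : Set S} (ha : ClopIn a (c \ n)) (hb : ClopIn b (c \ n))
    (hne : b.Nonempty) : ∃ (ι : Type u) (P : Option ι → Set S),
      (∀ i, ClopIn (P i) (c \ n) ∧ P i ⊆ a ∧ Emb n (P i) b) ∧
      (Pairwise fun i j => Disjoint (P i) (P j)) ∧ a ⊆ closure (⋃ i, P i) ∧
      ∀ i, Emb n b (P (some i)) := by
  obtain ⟨F, f1, f2, f3⟩ := r5_zorn (fun t : Set S => (ClopIn t (c \ n) ∧ t ⊆ a) ∧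
    ∃ k : S ≃ₜ S, k '' n = n ∧ k '' b = t) Disjoint
  have c1 := hS.r5_rest hW ha fun t : F => (f1 t t.2).1.1
  have d : ∀ t ∈ F, Disjoint (a \ closure (⋃ t : F, t.1)) t := fun t ht =>
    disjoint_left.2 fun z h h' => h.2 (subset_closure (mem_iUnion.2 ⟨⟨t, ht⟩, h'⟩))
  refine ⟨F, fun o => o.elim (a \ closure (⋃ t : F, t.1)) Subtype.val, ?_, ?_, fun x hx => ?_,
    fun t => (f1 t t.2).2.imp fun k h => ⟨h.1, h.2.subset⟩⟩
  · rintro (_ | t)
    · refine ⟨c1, sdiff_subset, (hS.emb_total hW hH c1 hb).resolve_right fun ⟨k, k1, k2⟩ => ?_⟩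
      exact (hne.image k).ne_empty (disjoint_self.1 ((d _ (f3 _ ⟨⟨hS.img_clop hW hH k1 hb
        (k2.trans c1.1), k2.trans sdiff_subset⟩, k, k1, rfl⟩ fun q hq =>
          ⟨(d q hq).mono_left k2, ((d q hq).mono_left k2).symm⟩)).mono_left k2))
    · obtain ⟨h, k, k1, k2⟩ := f1 t t.2
      exact ⟨h.1, h.2, k.symm, r_fix_symm k1, (image_mono k2.superset).trans (img_symm_img k b).subset⟩
  · rintro (_ | s) (_ | t) h
    exacts [absurd rfl h, d t t.2, (d s s.2).symm,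
      f2 s.2 t.2 (Subtype.coe_ne_coe.2 fun e => h (congrArg some e))]
  · by_cases h : x ∈ closure (⋃ t : F, t.1)
    · exact closure_mono (iUnion_subset fun t => subset_iUnion_of_subset (some t) subset_rfl) h
    · exact subset_closure (mem_iUnion.2 ⟨none, hx, h⟩)

lemma RC.dense_dv {b : Set S} (hb : ClopIn b (c \ n)) (hne : b.Nonempty) :
    ∃ a, ClopIn a (c \ n) ∧ a.Nonempty ∧ a ⊆ b ∧ Dv n a ℕ := by
  obtain ⟨M, y, h1, h2⟩ := en1_split (I := b) (hS.wqc hW)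
    (by rw [inter_eq_right.2 hb.1]; exact (hW.crdX.clop hb).inf hne)
  have y1 := fun j => hb.1 (h1 j).2.2
  choose g g1 g2 using fun j => hS.move_off hW.base (y1 0).2 (y1 j).2
  have e1 := hS.om_inter hW _ fun j =>
    hS.pull hW hH (g1 j) (clopIn_self _) ((h1 j).1.inter hb)
  have e2 : y 0 ∈ (c \ n) ∩ ⋂ j, (c \ n) ∩ g j ⁻¹' (M j ∩ b) :=
    ⟨y1 0, mem_iInter.2 fun j => ⟨y1 0, by rw [mem_preimage, g2]; exact (h1 j).2⟩⟩
  have e3 : ∀ i, g i '' ((c \ n) ∩ ⋂ j, (c \ n) ∩ g j ⁻¹' (M j ∩ b)) ⊆ M i ∩ b := fun i =>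
    image_subset_iff.2 fun z hz => (mem_iInter.1 hz.2 i).2
  generalize (c \ n) ∩ ⋂ j, (c \ n) ∩ g j ⁻¹' (M j ∩ b) = e at e1 e2 e3
  have e4 := fun i => hS.img_clop hW hH (g1 i) e1 ((e3 i).trans (inter_subset_right.trans hb.1))
  have e5 := hS.ed hW (opn_iUnion fun i => (e4 i).opn)
  have e6 : ∀ i, g i '' e ⊆ closure (⋃ i, g i '' e) ∩ (c \ n) := fun i =>
    subset_inter (subset_closure.trans' (subset_iUnion_of_subset i subset_rfl)) (e4 i).1
  have e7 : Pairwise fun i j => Disjoint (g i '' e) (g j '' e) := fun i j h =>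
    (h2 h).mono ((e3 i).trans inter_subset_left) ((e3 j).trans inter_subset_left)
  exact ⟨_, e5, ⟨_, e6 0 (mem_image_of_mem _ e2)⟩, (inter_subset_inter_left _ (closure_mono
    (iUnion_subset fun i => (e3 i).trans inter_subset_right))).trans hb.closed,
    hS.dv_of_fam hW e5 e4 e6 e7 e4 e7 inter_subset_left Nat.pairEquiv.injective fun l j =>
      ⟨(g j).symm.trans (g _), r_fix_trans (r_fix_symm (g1 j)) (g1 _), by
        rw [img_trans, img_symm_img]⟩⟩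

end

end Pool.Agent.Lib.MP_52f683_gt
end

-- part Pool.Agent.Lib.MP_52f683_gt.F.R6
section

set_option autoImplicit false
set_option linter.unusedSectionVars false

open Set Topology Filter

namespace Pool.Agent.Lib.MP_52f683_gt

universe u

variable {S : Type u} [TopologicalSpace S] [T1Space S] [Infinite S]

section
variable {n c : Set S} {γ : S ≃ₜ S} (hS : RC S) (hW : Wd n c γ)
include hS hW

lemma RC.not_closed {a : Set S} (ha : ClopIn a (c \ n)) (hne : a.Nonempty) :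
    ∃ (ι : Type u) (W : ι → Set S), (∀ i, ClopIn (W i) (c \ n) ∧ (W i).Nonempty ∧ W i ⊆ a) ∧
      (Pairwise fun i j => Disjoint (W i) (W j)) ∧ ¬ closure (⋃ i, W i) \ n ⊆ ⋃ i, W i := by
  obtain ⟨x, hx⟩ := hne
  obtain ⟨m, hm⟩ := zorn_subset {F : Set (Set S) |
      (∀ t ∈ F, ClopIn t (c \ n) ∧ t.Nonempty ∧ t ⊆ a ∧ x ∉ t) ∧ F.Pairwise Disjoint}
    fun C hC hc => ⟨⋃₀ C, ⟨fun t ⟨F, hF, ht⟩ => (hC hF).1 t ht,
      (Set.pairwise_sUnion hc.directedOn).2 fun F hF => (hC hF).2⟩, fun _ => subset_sUnion_of_mem⟩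
  have h1 := hm.prop.1
  refine ⟨m, Subtype.val, fun i => ⟨(h1 _ i.2).1, (h1 _ i.2).2.1, (h1 _ i.2).2.2.1⟩,
    fun i j hij => hm.prop.2 i.2 j.2 fun e => hij (Subtype.ext e), fun h => ?_⟩
  have h2 : x ∉ closure (⋃ i : m, (i : Set S)) := fun h' => by
    obtain ⟨i, hi⟩ := mem_iUnion.1 (h ⟨h', (ha.1 hx).2⟩)
    exact (h1 _ i.2).2.2.2 hi
  have h3 := ha.diff (hS.ed hW (opn_iUnion fun i : m => (h1 _ i.2).1.opn))
  obtain ⟨y, hy, hyx⟩ := ((hW.crdX.clop h3).inf ⟨x, hx, fun h => h2 h.1⟩).exists_notMem_finite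
    (finite_singleton x)
  obtain ⟨N, n1, n2, n3⟩ := hS.wsep hW (h3.1 hy) (ha.1 hx) hyx
  have h4 : ∀ s ∈ m, Disjoint ((a \ (closure (⋃ i : m, (i : Set S)) ∩ (c \ n))) ∩ N) s :=
    fun s hs => disjoint_left.2 fun z hz hz' =>
      hz.1.2 ⟨subset_closure (mem_iUnion.2 ⟨⟨s, hs⟩, hz'⟩), ha.1 hz.1.1⟩
  have h5 := hm.mem_of_prop_insert (x := (a \ (closure (⋃ i : m, (i : Set S)) ∩ (c \ n))) ∩ N)
    ⟨forall_mem_insert.2 ⟨⟨h3.inter n1, ⟨y, hy, n2⟩, fun _ h => h.1.1, fun h => n3 h.2⟩, h1⟩,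
      hm.prop.2.insert fun s hs _ => ⟨h4 s hs, (h4 s hs).symm⟩⟩
  exact disjoint_left.1 (h4 _ h5) ⟨hy, n2⟩ ⟨hy, n2⟩

variable (hH : Hom n c)
include hH

lemma RC.min_clop : ∃ a, ClopIn a (c \ n) ∧ a.Nonempty ∧
    ∀ b, ClopIn b (c \ n) → b.Nonempty → Emb n a b := by
  obtain ⟨κ, ⟨a, a1, a2, a3, a4⟩, hκ⟩ := Cardinal.lt_wf.has_min {κ : Cardinal.{u} |
      ∃ a, ClopIn a (c \ n) ∧ a.Nonempty ∧ Dv n a ℕ ∧ ¬ Dv n a κ.out} (by
    obtain ⟨a, a1, ⟨x, hx⟩, -, a3⟩ := hS.dense_dv hW hH (clopIn_self _) hW.whole.ne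
    refine ⟨Cardinal.mk (Set S), a, a1, ⟨x, hx⟩, a3, fun h => ?_⟩
    obtain ⟨g, -, g2⟩ := h.mono (Cardinal.outMkEquiv (α := Set S)).symm.injective
    refine Function.cantor_injective (fun i => g i x) fun i j e => ?_
    by_contra hij
    exact disjoint_left.1 (g2 hij) (mem_image_of_mem _ hx) ⟨x, hx, e.symm⟩)
  refine ⟨a, a1, a2, fun b hb hne => ?_⟩
  obtain ⟨b', b1, b2, b3, b4⟩ := hS.dense_dv hW hH hb hne
  obtain ⟨ι, P, p1, p2, p3, p4⟩ := hS.max_fam hW hH a1 b1 b2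
  rcases lt_or_ge (Cardinal.mk (Option ι)) κ with h | h
  · have h1 : Dv n b' (Cardinal.mk (Option ι)).out := by
      by_contra hn
      exact hκ _ ⟨b', b1, b2, b4, hn⟩ h
    obtain ⟨g, g1, g2⟩ := h1.mono (Cardinal.outMkEquiv (α := Option ι)).symm.injective
    exact (hS.emb_add hW a1.1 b1 (fun i => (p1 i).1) p2
      (fun i => hS.img_clop hW hH (g1 i).1 b1 ((g1 i).2.trans b1.1)) g2 p3 (fun i => (g1 i).2)
      fun i => (p1 i).2.2.trans ⟨g i, (g1 i).1, subset_rfl⟩).trans (emb_of_sub b3)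
  · rw [← κ.mk_out] at h
    obtain ⟨f⟩ := (Cardinal.le_def _ _).1 h
    have : Infinite ι := by
      by_contra hn
      have := not_infinite_iff_finite.1 hn
      obtain ⟨e, he⟩ := Countable.exists_injective_nat (Option ι)
      exact a4 (a3.mono (he.comp f.injective))
    have h2 : Cardinal.mk (Option ι × Option ι) ≤ Cardinal.mk ι := by
      have h3 := Cardinal.aleph0_le_mk ι
      simp [Cardinal.add_one_eq h3, Cardinal.mul_eq_self h3]
    obtain ⟨φ⟩ := (Cardinal.le_def _ _).1 h2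
    exact absurd ((hS.dv_of_fam hW a1 (E := fun i => P (some i)) (fun i => (p1 _).1)
      (fun i => (p1 _).2.1) (fun i j hij => p2 fun e => hij (Option.some_injective _ e))
      (fun i => (p1 i).1) p2 p3 φ.injective fun l j => (p1 j).2.2.trans (p4 _)).mono f.injective) a4

theorem RC.max_dead : False := by
  obtain ⟨a, a1, a2, a3⟩ := hS.min_clop hW hH
  have TR : ∀ (ι : Type u) (W C : ι → Set S), (∀ i, ClopIn (W i) (c \ n) ∧ W i ⊆ a) →
      (Pairwise fun i j => Disjoint (W i) (W j)) → (∀ i, ClopIn (C i) (c \ n) ∧ (C i).Nonempty) →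
      (Pairwise fun i j => Disjoint (C i) (C j)) → closure (⋃ i, C i) \ n ⊆ ⋃ i, C i →
      closure (⋃ i, W i) \ n ⊆ ⋃ i, W i := by
    intro ι W C w1 w2 c1 c2 c3
    choose g g1 g2 using fun i => (emb_of_sub (n := n) (w1 i).2).trans (a3 _ (c1 i).1 (c1 i).2)
    exact hS.whost hW g (fun i => (w1 i).1) w2 (fun i => (c1 i).1) c2 g2 g1
      ((sdiff_subset_sdiff_left (closure_mono (iUnion_mono g2))).trans c3)
  obtain ⟨ι, W, w1, w2, w3⟩ := hS.not_closed hW a1 a2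
  have u1 : (⋃ i, W i) ⊆ c \ n := iUnion_subset fun i => (w1 i).1.1
  have r1 : (closure (⋃ i, W i) \ n) \ (⋃ i, W i) ⊆ c \ n :=
    fun y hy => ⟨hW.cl_sub u1 hy.1.1, hy.1.2⟩
  have key : ∀ {N : Set S}, ClopIn N (c \ n) → ∀ {κ : Type u} (f : κ → ι) {y : S},
      y ∈ closure (⋃ j, W (f j) ∩ N) \ n → y ∉ ⋃ j, W (f j) ∩ N →
      y ∈ N ∧ y ∈ (closure (⋃ i, W i) \ n) \ ⋃ i, W i := by
    intro N hN κ f y hy hy'
    have h1 : y ∈ closure (⋃ i, W i) := closure_mono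
      (iUnion_subset fun j => inter_subset_left.trans (subset_iUnion W (f j))) hy.1
    have h2 : y ∈ N := hN.closed
      ⟨closure_mono (iUnion_subset fun j => inter_subset_right) hy.1, hW.cl_sub u1 h1, hy.2⟩
    refine ⟨h2, ⟨h1, hy.2⟩, fun h => ?_⟩
    obtain ⟨i, hi⟩ := mem_iUnion.1 h
    refine disjoint_left.1 ((w1 i).1.opn.disj
      (iUnion_subset fun j => inter_subset_right.trans hN.1) ?_) hi hy.1
    refine disjoint_iUnion_right.2 fun j => (w2 fun e => hy' ?_).mono_right inter_subset_left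
    exact mem_iUnion.2 ⟨j, e ▸ hi, h2⟩
  by_cases hR : Crd ((closure (⋃ i, W i) \ n) \ ⋃ i, W i)
  · choose x hx using fun i => (w1 i).2.1
    have d1 : range x ⊆ ⋃ i, W i := range_subset_iff.2 fun i => mem_iUnion.2 ⟨i, hx i⟩
    obtain ⟨k, k1, k2, k3⟩ := hS.push hW (r_disc_sel (tauSum_of_clop (fun i => (w1 i).1) w2) hx)
      (d1.trans u1) hR r1
      (fun y hy => ⟨⟨closure_minimal (fun _ h => h.1.1) isClosed_closure hy.1, hy.2⟩,
        fun h => disjoint_left.1 ((opn_iUnion fun i => (w1 i).1.opn).disj r1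
          disjoint_sdiff_right) h hy.1⟩)
      (disjoint_sdiff_right.mono_left d1)
    have n1 := (hS.ed hW (opn_diff (hW.mem.image k).cl)).compl
    refine w3 (TR ι W (fun i => W i ∩ _) (fun i => ⟨(w1 i).1, (w1 i).2.2⟩) w2
      (fun i => ⟨(w1 i).1.inter n1, x i, hx i, (w1 i).1.1 (hx i), fun h => ?_⟩)
      (fun i j hij => (w2 hij).mono inter_subset_left inter_subset_left) fun y hy => ?_)
    · refine hH k k1 _ ((w1 i).1.1 (hx i)) ?_ h.1
      exact image_mono ((d1.trans u1).trans sdiff_subset) (k2.symm ▸ mem_range_self i)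
    · by_contra hn
      obtain ⟨h1, h2⟩ := key n1 id hy hn
      refine disjoint_right.1 k3 h2 ?_
      by_contra h3
      exact h1.2 ⟨subset_closure ⟨h1.1, h3⟩, h1.1⟩
  · obtain ⟨e, e1, e2⟩ := not_subset.1 hR
    obtain ⟨N, n1, n2, n3⟩ := hS.reg hW isClosed_closure (r1 e1)
      (F := closure (((closure (⋃ i, W i) \ n) \ ⋃ i, W i) \ {e}))
      fun h => (mem_cl_iff.1 h).elim (fun h => h.2 rfl) fun h => e2 (der_mono sdiff_subset h)
    let J := {i // (W i ∩ N).Nonempty}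
    have e3 : e ∈ closure (⋃ j : J, W j ∩ N) := by
      have h1 : (⋃ i, W i) ⊆ (⋃ j : J, W j ∩ N) ∪ ((c \ n) \ N) := fun y hy => by
        obtain ⟨i, hi⟩ := mem_iUnion.1 hy
        by_cases h : y ∈ N
        · exact Or.inl (mem_iUnion.2 ⟨⟨i, y, hi, h⟩, hi, h⟩)
        · exact Or.inr ⟨u1 hy, h⟩
      have h2 := closure_mono h1 e1.1.1
      rw [closure_union] at h2
      exact h2.resolve_right (disjoint_left.1 n1.2.1 n2)
    have e4 : e ∉ ⋃ j : J, W j ∩ N := fun h => by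
      obtain ⟨j, hj⟩ := mem_iUnion.1 h
      exact e1.2 (mem_iUnion.2 ⟨j, hj.1⟩)
    have : Infinite J := by
      by_contra hn
      have := not_infinite_iff_finite.1 hn
      rw [closure_iUnion_of_finite] at e3
      obtain ⟨j, hj⟩ := mem_iUnion.1 e3
      exact e4 (mem_iUnion.2 ⟨j, ((w1 j).1.inter n1).closed ⟨hj, r1 e1⟩⟩)
    have h2 : Cardinal.mk (J ⊕ J) ≤ Cardinal.mk J := by
      simp [Cardinal.add_eq_self (Cardinal.aleph0_le_mk J)]
    obtain ⟨φ⟩ := (Cardinal.le_def _ _).1 h2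
    have dj : Pairwise fun i j : J => Disjoint (W i ∩ N) (W j ∩ N) := fun i j hij =>
      (w2 fun e => hij (Subtype.ext e)).mono inter_subset_left inter_subset_left
    have half : ∀ f : J → J, f.Injective → e ∈ closure (⋃ j, W (f j) ∩ N) := by
      intro f hf
      by_contra hn
      refine e4 (TR J (fun j => W j ∩ N) (fun j => W (f j) ∩ N)
        (fun j => ⟨(w1 j).1.inter n1, inter_subset_left.trans (w1 j).2.2⟩) dj
        (fun j => ⟨(w1 _).1.inter n1, (f j).2⟩) (fun i j hij => dj (hf.ne hij))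
        (fun y hy => ?_) ⟨e3, e1.1.2⟩)
      by_contra hy'
      obtain ⟨h3, h4⟩ := key n1 (fun j => (f j).1) hy hy'
      refine disjoint_left.1 n3 h3 (subset_closure ⟨h4, fun h => hn ?_⟩)
      exact mem_singleton_iff.1 h ▸ hy.1
    refine e1.1.2 (hS.ed_disj hW (opn_iUnion fun j => ((w1 _).1.inter n1).opn)
      (opn_iUnion fun j => ((w1 _).1.inter n1).opn) ?_
      ⟨half _ (φ.injective.comp Sum.inl_injective), half _ (φ.injective.comp Sum.inr_injective)⟩)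
    exact disjoint_iUnion_left.2 fun i => disjoint_iUnion_right.2 fun j =>
      dj (φ.injective.ne Sum.inl_ne_inr)

end

end Pool.Agent.Lib.MP_52f683_gt
end

-- part Pool.Agent.Lib.MP_52f683_gt.F.R7
section

set_option autoImplicit false
set_option linter.unusedSectionVars false

open Set Topology Filter

namespace Pool.Agent.Lib.MP_52f683_gt

universe u

variable {S : Type u} [TopologicalSpace S] [T1Space S] [Infinite S]

/-- near the point all parts of `K` are comparable with all members -/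
def Gd (K : Set S) (x : S) : Prop :=
  ∃ O : Set S, IsOpen O ∧ x ∈ O ∧ ∀ y ∈ O, ∀ a L : Set S, Mem a → a ⊆ K → Mem L →
    y ∉ closure (a \ L) ∨ y ∉ closure (L \ a)

/-- members above all good germs -/
def PP (T : Set S) : Prop :=
  Mem T ∧ ∀ x ∈ T, ∀ K : Set S, Mem K → Gd K x → x ∉ closure (K \ T)

section
variable (hS : RC S)
include hS

lemma RC.h1 {b F : Set S} {x : S} (hb : Mem b) (hF : Cs F) (hx : x ∉ F) :
    ∃ k k0 : S ≃ₜ S, x ∈ k '' b ∩ k0 '' b ∧ k '' b ∩ k0 '' b ∩ F ⊆ b := by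
  by_cases hxb : x ∈ b
  · refine ⟨Homeomorph.refl S, Homeomorph.refl S, ?_, ?_⟩
    · rw [r_fix_refl]; exact ⟨hxb, hxb⟩
    · rw [r_fix_refl]; exact fun _ h => h.1.1
  obtain ⟨y, hy⟩ := hb.ne
  have hne : y ≠ x := fun e => hxb (e ▸ hy)
  obtain ⟨k0, e1, e2⟩ := hS.two hne hne.symm
  have h0 := hS.cs_inter hF (hb.cs.image k0)
  have hcl : closure ((F ∩ k0 '' b) \ b) ⊆ F ∩ k0 '' b := closure_minimal sdiff_subset h0.cl
  obtain ⟨k, hkA, hky⟩ := hS.move_pt (x := y) (y := x) (h0.crd.diff_closed hb.cl)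
    (fun h => hxb ((mem_img k0).1 (e2 ▸ (hcl h).2))) (fun h => hx (hcl h).1)
  refine ⟨k, k0, ⟨⟨y, hy, hky⟩, ⟨y, hy, e1⟩⟩, ?_⟩
  rintro z ⟨⟨hz1, hz2⟩, hz3⟩
  by_contra hzb
  have hzA : z ∈ k '' ((F ∩ k0 '' b) \ b) := by
    rw [hkA]
    exact ⟨⟨hz3, hz2⟩, hzb⟩
  obtain ⟨a, ha, rfl⟩ := hzA
  exact ha.2 ((mem_img k).1 hz1)

omit hS in
lemma Gd.image {K : Set S} {x : S} (h : Gd K x) (g : S ≃ₜ S) : Gd (g '' K) (g x) := by
  obtain ⟨O, h1, h2, h3⟩ := h
  refine ⟨g '' O, g.isOpenMap O h1, mem_image_of_mem _ h2, ?_⟩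
  rintro _ ⟨y, hy, rfl⟩ a L ha haK hL
  have h4 := h3 y hy _ _ (ha.image g.symm)
    ((image_mono haK).trans (img_symm_img g K).subset) (hL.image g.symm)
  rwa [← r_cl_img g, ← r_cl_img g (y := y), img_diff, img_diff, img_img_symm,
    img_img_symm] at h4

omit hS in
lemma PP.image {T : Set S} (h : PP T) (g : S ≃ₜ S) : PP (g '' T) := by
  refine ⟨h.1.image g, ?_⟩
  rintro _ ⟨x, hx, rfl⟩ K hK hG
  have h1 := hG.image g.symm
  rw [g.symm_apply_apply] at h1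
  have h2 := h.2 x hx _ (hK.image g.symm) h1
  rwa [← r_cl_img g, img_diff, img_img_symm] at h2

lemma RC.pp_inter {T T' : Set S} (h : PP T) (h' : PP T') (hne : (T ∩ T').Nonempty) :
    PP (T ∩ T') := by
  refine ⟨(hS.cs_inter h.1.cs h'.1.cs).mem hne, fun x hx K hK hG => ?_⟩
  rw [sdiff_inter, closure_union]
  exact fun h1 => h1.elim (h.2 x hx.1 K hK hG) (h'.2 x hx.2 K hK hG)

omit hS in
lemma r7_side {p q K : Set S} {x : S} (hp : Cs p) (hq : Cs q) (h1 : Nwd p q) (h2 : Nwd q p)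
    (hxp : x ∈ p) (hxq : x ∈ q) (hK : Mem K) (hG : Gd K x) : x ∉ closure (K \ p) := by
  intro hx
  obtain ⟨O, -, o2, o3⟩ := hG
  have a1 : x ∉ closure (p \ K) :=
    (o3 x o2 K p hK subset_rfl (hp.mem ⟨x, hxp⟩)).resolve_left (not_not.2 hx)
  have a2 : closure (p \ closure (p \ K)) ⊆ p := closure_minimal sdiff_subset hp.cl
  have a3 : closure (p \ closure (p \ K)) ⊆ K := closure_minimal (fun y hy => by
    by_contra hn
    exact hy.2 (subset_closure ⟨hy.1, hn⟩)) hK.cl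
  have a4 : Mem (closure (p \ closure (p \ K))) :=
    (cs_cl (hp.crd.diff_closed isClosed_closure) hp.cl hp.sm sdiff_subset).mem
      ⟨x, subset_closure ⟨hxp, a1⟩⟩
  rcases o3 x o2 _ q a4 a3 (hq.mem ⟨x, hxq⟩) with h | h
  · refine h (closure_mono (fun y hy => ?_) (cl_diff_closed isClosed_closure a1 (h2 hxp)))
    exact ⟨subset_closure ⟨hy.1.1, hy.2⟩, hy.1.2⟩
  · exact h (closure_mono (sdiff_subset_sdiff_right a2) (h1 hxq))

lemma RC.pp_perp {p q : Set S} (hp : Cs p) (hq : Cs q) (h1 : Nwd p q) (h2 : Nwd q p)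
    (hne : (p ∩ q).Nonempty) : PP (p ∩ q) := by
  refine ⟨(hS.cs_inter hp hq).mem hne, fun x hx K hK hG => ?_⟩
  rw [sdiff_inter, closure_union]
  exact fun h => h.elim (r7_side hp hq h1 h2 hx.1 hx.2 hK hG)
    (r7_side hq hp h2 h1 hx.2 hx.1 hK hG)

/-- transversal sets are disjoint -/
theorem RC.nb {p q : Set S} (hp : Cs p) (hq : Cs q) (h1 : Nwd p q) (h2 : Nwd q p) :
    Disjoint p q := by
  by_contra hn
  have hb := hS.pp_perp hp hq h1 h2 (not_disjoint_iff_nonempty_inter.1 hn)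
  obtain ⟨x, hx⟩ := nonempty_compl.2 hp.sm
  obtain ⟨k1, k1', x1, s1⟩ := hS.h1 hb.1 hp hx
  have p1 := hS.pp_inter (hb.image k1) (hb.image k1') ⟨x, x1⟩
  generalize k1 '' (p ∩ q) ∩ k1' '' (p ∩ q) = c1 at x1 s1 p1
  obtain ⟨z, hz⟩ := nonempty_compl.2 (hS.cs_union hp p1.1.cs).sm
  obtain ⟨γ, g1, g2⟩ := hS.move_off (x := z) (y := x) hp (fun h => hz (Or.inl h)) hx
  obtain ⟨k2, k2', x2, s2⟩ := hS.h1 (x := x) hb.1 (hS.cs_union hp (p1.1.cs.image γ))
    (fun h => h.elim hx fun h => hz (Or.inr ((mem_img γ).1 (g2 ▸ h))))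
  have p2 := hS.pp_inter (hb.image k2) (hb.image k2') ⟨x, x2⟩
  generalize k2 '' (p ∩ q) ∩ k2' '' (p ∩ q) = c2 at x2 s2 p2
  have p0 := hS.pp_inter p1 p2 ⟨x, x1, x2⟩
  have c0 : closure ((c1 ∩ c2) \ p) ⊆ c1 ∩ c2 := closure_minimal sdiff_subset p0.1.cl
  have hW : Wd p (closure ((c1 ∩ c2) \ p)) γ :=
    ⟨hp, (cs_cl (p0.1.crd.diff_closed hp.cl) p0.1.cl p0.1.sm sdiff_subset).mem
        ⟨x, subset_closure ⟨⟨x1, x2⟩, hx⟩⟩,
      h2.trans (closure_mono fun y hy => ⟨hy.1, fun h => hy.2 (s1 ⟨(c0 h).1, hy.1⟩).2⟩),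
      r_nwd_cl disjoint_sdiff_left, g1,
      fun y hy => (s2 ⟨(c0 hy.2).2,
        Or.inr (image_mono (c0.trans inter_subset_left) hy.1)⟩).1⟩
  refine hS.max_dead hW fun k hk y hy hy' h => ?_
  have hG : Gd (closure ((c1 ∩ c2) \ p)) y :=
    ⟨pᶜ, hp.cl.isOpen_compl, hy.2, fun w hw a L ha hac hL => by
      by_cases hc : w ∈ closure ((c1 ∩ c2) \ p)
      · exact hS.good hW ⟨hc, hw⟩ ha hac hL
      · exact Or.inl fun h' => hc (closure_minimal (sdiff_subset.trans hac) isClosed_closure h')⟩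
  refine (p0.image k).2 y (image_mono c0 hy') _ hW.mem hG (closure_mono (fun w hw => ?_) h)
  refine ⟨hw.1.1, ?_⟩
  rintro ⟨v, hv, rfl⟩
  exact hw.2 (mem_image_of_mem _ (subset_closure ⟨hv, mt (r_fix_mem hk v).2 hw.1.2⟩))

end

end Pool.Agent.Lib.MP_52f683_gt
end
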