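import Pool.Agent.Lib.MP_52f683_gt.F.S0
import Pool.Agent.Lib.MP_52f683_gt.F.BasicTmp
import Pool.Agent.Lib.MP_52f683_gt.F.R1
import Pool.Agent.Lib.MP_52f683_gt.F.R7

-- part Pool.Agent.Lib.MP_52f683_gt.F.S61
section

set_option autoImplicit false
set_option linter.unusedSectionVars false

open Set Topology Filter

namespace Pool.Agent.Lib.MP_52f683_gt

variable {S : Type*} [TopologicalSpace S] [T1Space S] [Infinite S]

/-- nonempty open parts of members -/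
def LW (U : Set S) : Prop := U.Nonempty ∧ ∃ c W : Set S, Mem c ∧ IsOpen W ∧ U = c ∩ W

/-- sets without resolvable parts -/
def HIr (X : Set S) : Prop :=
  ∀ A B : Set S, A ⊆ X → B ⊆ X → Disjoint A B → A ⊆ closure B → B ⊆ closure A → A = ∅

section
variable (hS : SC S)
include hS

/-- a member is resolvable or contains a hereditarily irresolvable whole set -/
lemma SC.res_or {K : Set S} (hK : Mem K) :
    (∃ B ⊆ K, K ⊆ closure B ∧ K ⊆ closure (K \ B)) ∨ ∃ X m, Whole X K m ∧ HIr X := by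
  obtain ⟨⟨A, B⟩, ⟨hA, hB, hd, h1, h2⟩, hmax⟩ := zorn_le₀
    {p : Set S × Set S | p.1 ⊆ K ∧ p.2 ⊆ K ∧ Disjoint p.1 p.2 ∧ p.1 ⊆ closure p.2 ∧
      p.2 ⊆ closure p.1} (by
    intro c hc hch
    refine ⟨(⋃ p ∈ c, p.1, ⋃ p ∈ c, p.2), ⟨iUnion₂_subset fun p hp => (hc hp).1,
      iUnion₂_subset fun p hp => (hc hp).2.1, disjoint_left.2 fun x hx hx' => ?_,
      iUnion₂_subset fun p hp => (hc hp).2.2.2.1.trans
        (closure_mono (subset_iUnion₂ (s := fun (q : Set S × Set S) (_ : q ∈ c) => q.2) p hp)),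
      iUnion₂_subset fun p hp => (hc hp).2.2.2.2.trans
        (closure_mono (subset_iUnion₂ (s := fun (q : Set S × Set S) (_ : q ∈ c) => q.1) p hp))⟩,
      fun p hp => ⟨subset_iUnion₂ (s := fun (q : Set S × Set S) (_ : q ∈ c) => q.1) p hp,
        subset_iUnion₂ (s := fun (q : Set S × Set S) (_ : q ∈ c) => q.2) p hp⟩⟩
    obtain ⟨p, hp, hxp⟩ := mem_iUnion₂.1 hx
    obtain ⟨q, hq, hxq⟩ := mem_iUnion₂.1 hx'
    rcases hch.total hp hq with h | h
    · exact disjoint_left.1 (hc hq).2.2.1 (h.1 hxp) hxq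
    · exact disjoint_left.1 (hc hp).2.2.1 hxp (h.2 hxq))
  dsimp only at hA hB hd h1 h2
  have hc : Crd A := fun y hy => by
    have a : y ∈ derivedSet B := (mem_cl_iff.1 (h1 hy)).resolve_left (disjoint_left.1 hd hy)
    have b := der_mono h2 a
    rwa [derivedSet_closure] at b
  have hm : closure A ⊆ K := closure_minimal hA hK.cl
  by_cases hKm : K ⊆ closure A
  · refine Or.inl ⟨A, hA, hKm, hKm.trans (closure_minimal (h1.trans (closure_mono ?_))
      isClosed_closure)⟩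
    exact fun y hy => ⟨hB hy, disjoint_right.1 hd hy⟩
  · obtain ⟨x, hx, hx'⟩ := not_subset.1 hKm
    refine Or.inr ⟨K \ closure A, closure A, ⟨hK, isClosed_closure, hc.closure,
      r_ne_univ hm hK.sm, rfl, x, hx, hx'⟩, fun A' B' a1 a2 a3 a4 a5 => ?_⟩
    have key := hmax (y := (A ∪ A', B ∪ B')) ⟨union_subset hA (a1.trans sdiff_subset),
      union_subset hB (a2.trans sdiff_subset), disjoint_union_left.2
        ⟨disjoint_union_right.2 ⟨hd, disjoint_left.2 fun y hy h => (a2 h).2 (subset_closure hy)⟩,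
          disjoint_union_right.2 ⟨disjoint_left.2 fun y hy h => (a1 hy).2 (h2 h), a3⟩⟩,
      union_subset (h1.trans (closure_mono subset_union_left))
        (a4.trans (closure_mono subset_union_right)),
      union_subset (h2.trans (closure_mono subset_union_left))
        (a5.trans (closure_mono subset_union_right))⟩ ⟨subset_union_left, subset_union_left⟩
    exact eq_empty_of_forall_notMem fun y hy =>
      (a1 hy).2 (subset_closure (key.1 (Or.inr hy)))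

/-- a non-discrete subset contains an open part of a member -/
lemma SC.w0 {X c m B : Set S} (hX : Whole X c m) (hi : HIr X) (hB : B ⊆ X) (h : ¬ Disc B) :
    ∃ U ⊆ B, LW U := by
  have hne : (B ∩ derivedSet B).Nonempty := not_disjoint_iff_nonempty_inter.1 h
  have hc : Crd (B ∩ derivedSet B) := fun x hx =>
    der_mono (B := B ∩ derivedSet B) (fun y hy => ⟨hy.1, by_contra fun a => hy.2 ⟨hy.1, a⟩⟩)
      (hS.cb.der_diff_disc (disc_iso B) hx.2)
  have s1 : B ∩ derivedSet B ⊆ X := inter_subset_left.trans hB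
  have hm := mem_of_crd hc hne hX.mem.cl hX.mem.sm (s1.trans hX.sub)
  have s2 : closure (B ∩ derivedSet B) ⊆ c := closure_minimal (s1.trans hX.sub) hX.mem.cl
  have key : ¬ B ∩ derivedSet B ⊆
      closure ((closure (B ∩ derivedSet B) \ m) \ (B ∩ derivedSet B)) := fun a =>
    hne.ne_empty (hi _ _ s1 (fun y hy => hX.eq.superset ⟨s2 hy.1.1, hy.1.2⟩)
      disjoint_sdiff_right a fun y hy => hy.1.1)
  obtain ⟨p, hp, hp'⟩ := not_subset.1 key
  refine ⟨closure (B ∩ derivedSet B) ∩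
    (mᶜ ∩ (closure ((closure (B ∩ derivedSet B) \ m) \ (B ∩ derivedSet B)))ᶜ), fun y hy => ?_,
    ⟨p, subset_closure hp, (hX.eq.subset (s1 hp)).2, hp'⟩, _, _, hm,
    hX.cl.isOpen_compl.inter isClosed_closure.isOpen_compl, rfl⟩
  by_contra a
  exact hy.2.2 (subset_closure ⟨⟨hy.1, hy.2.1⟩, fun b => a b.1⟩)

end

end Pool.Agent.Lib.MP_52f683_gt
end

-- part Pool.Agent.Lib.MP_52f683_gt.F.S6
section

set_option autoImplicit false
set_option linter.unusedSectionVars false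

open Set Topology Filter

namespace Pool.Agent.Lib.MP_52f683_gt

variable {S : Type*} [TopologicalSpace S] [T1Space S] [Infinite S]

lemma s6_crd {U : Set S} (h : LW U) : Crd U := by
  obtain ⟨-, c, W, a, b, rfl⟩ := h
  exact a.crd.inter_open b

lemma s6_open {U O : Set S} (h : LW U) (hO : IsOpen O) (hn : (U ∩ O).Nonempty) : LW (U ∩ O) := by
  obtain ⟨-, c, W, a, b, rfl⟩ := h
  exact ⟨hn, c, W ∩ O, a, b.inter hO, inter_assoc _ _ _⟩

lemma s6_image {U : Set S} (h : LW U) (g : S ≃ₜ S) : LW (g '' U) := by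
  obtain ⟨hn, c, W, a, b, rfl⟩ := h
  exact ⟨hn.image _, _, _, a.image g, g.isOpenMap W b, img_inter g c W⟩

section
variable (hS : SC S)
include hS

lemma SC.s6_inter {U V : Set S} (h : LW U) (h' : LW V) (hn : (U ∩ V).Nonempty) : LW (U ∩ V) := by
  obtain ⟨-, c, W, a, b, rfl⟩ := h
  obtain ⟨-, c', W', a', b', rfl⟩ := h'
  obtain ⟨x, hx⟩ := id hn
  exact ⟨hn, c ∩ c', W ∩ W', hS.mem_inter a a' hx.1.1 hx.2.1, b.inter b',
    inter_inter_inter_comm _ _ _ _⟩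

/-- a part on which some homeomorphism decreases a well-order -/
lemma SC.w1 {X c m U : Set S} (hX : Whole X c m) (hi : HIr X) (r : S → S → Prop)
    (hr : ∀ x y, x ≠ y → r x y ∨ r y x) (hU : LW U) (s : U ⊆ X) :
    ∃ (M : Set S) (g : S ≃ₜ S), LW M ∧ M ⊆ U ∧ g '' M ⊆ X ∧ ∀ y ∈ M, r (g y) y := by
  obtain ⟨A, B, oA, oB, ⟨x, hx⟩, ⟨y, hy⟩, hd⟩ := hS.cb.reducible
    (mem_of_crd (s6_crd hU) hU.1 hX.mem.cl hX.mem.sm (s.trans (hX.eq.subset.trans sdiff_subset)))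
  obtain ⟨p, hp⟩ := mem_closure_iff.1 hx.1 A oA hx.2
  obtain ⟨q, hq⟩ := mem_closure_iff.1 hy.1 B oB hy.2
  obtain ⟨g, rfl⟩ := hS.cb.thin.homog p q
  have h1 := hS.s6_inter (s6_open hU oA ⟨p, hp.symm⟩) (s6_image (s6_open hU oB ⟨_, hq.symm⟩) g.symm)
    ⟨p, hp.symm, (r_mem_symm g).2 hq.symm⟩
  generalize e : U ∩ A ∩ g.symm '' (U ∩ B) = N at h1
  have h2 : ∀ z ∈ N, z ∈ U ∧ g z ∈ U ∧ g z ≠ z := fun z hz => by
    rw [← e, mem_inter_iff, r_mem_symm] at hz
    exact ⟨hz.1.1, hz.2.1, fun a => disjoint_left.1 hd ⟨subset_closure hz.1.1, hz.1.2⟩ (a ▸ hz.2.2)⟩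
  by_cases d1 : Disc {z | z ∈ N ∧ r (g z) z}
  · have d2 : ¬ Disc {z | z ∈ N ∧ r z (g z)} := fun d2 =>
      (s6_crd h1).not_disc h1.1 ((hS.cb.disc_union d1 d2).mono fun z hz =>
        (hr _ _ (h2 z hz).2.2).imp (fun a => ⟨hz, a⟩) fun a => ⟨hz, a⟩)
    obtain ⟨M, m1, m2⟩ := hS.w0 hX hi (fun z hz => s (h2 z hz.1).1) d2
    refine ⟨g '' M, g.symm, s6_image m2 g, ?_, ?_, ?_⟩
    · rintro _ ⟨z, hz, rfl⟩
      exact (h2 z (m1 hz).1).2.1
    · rw [img_symm_img]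
      exact fun z hz => s (h2 z (m1 hz).1).1
    · rintro _ ⟨z, hz, rfl⟩
      rw [g.symm_apply_apply]
      exact (m1 hz).2
  · obtain ⟨M, m1, m2⟩ := hS.w0 hX hi (fun z hz => s (h2 z hz.1).1) d1
    refine ⟨M, g, m2, fun z hz => (h2 z (m1 hz).1).1, ?_, fun z hz => (m1 hz).2⟩
    rintro _ ⟨z, hz, rfl⟩
    exact s (h2 z (m1 hz).1).2.1

/-- a hereditarily irresolvable whole set is a countable union of discrete sets -/
theorem SC.sigma_disc {X c m : Set S} (hX : Whole X c m) (hi : HIr X) :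
    ∃ E : ℕ → Set S, (∀ k, Disc (E k)) ∧ X ⊆ ⋃ k, E k := by
  obtain ⟨r, hr⟩ : ∃ r : S → S → Prop, IsWellOrder S r := ⟨_, WellOrderingRel.isWellOrder⟩
  obtain ⟨lt, hl⟩ : ∃ lt : Set S × (S ≃ₜ S) → Set S × (S ≃ₜ S) → Prop, IsWellOrder _ lt :=
    ⟨_, WellOrderingRel.isWellOrder⟩
  obtain ⟨ad, ha⟩ : ∃ ad : Set S × (S ≃ₜ S) → Prop, ∀ p, ad p ↔
      LW p.1 ∧ p.2 '' p.1 ⊆ X ∧ ∀ y ∈ p.1, r (p.2 y) y := ⟨_, fun _ => Iff.rfl⟩
  obtain ⟨E, e0, e1⟩ : ∃ E : ℕ → Set S, (∀ y, y ∈ E 0 ↔ y ∈ X ∧ ¬ ∃ p, ad p ∧ y ∈ p.1) ∧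
      ∀ k y, y ∈ E (k + 1) ↔ y ∈ X ∧ ∃ p, (ad p ∧ y ∈ p.1) ∧
        (∀ q, ad q ∧ y ∈ q.1 → ¬ lt q p) ∧ p.2 y ∈ E k :=
    ⟨fun k => Nat.rec {y | y ∈ X ∧ ¬ ∃ p, ad p ∧ y ∈ p.1} (fun _ A => {y | y ∈ X ∧ ∃ p,
      (ad p ∧ y ∈ p.1) ∧ (∀ q, ad q ∧ y ∈ q.1 → ¬ lt q p) ∧ p.2 y ∈ A}) k,
      fun _ => Iff.rfl, fun _ _ => Iff.rfl⟩
  refine ⟨E, fun k => ?_, fun y hy => mem_iUnion.2 ?_⟩
  · induction k with
    | zero =>
      by_contra h
      obtain ⟨U, u1, u2⟩ := hS.w0 hX hi (fun y hy => ((e0 y).1 hy).1) h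
      obtain ⟨M, g, a, b, d, e⟩ := hS.w1 hX hi r (fun x y h => by
        rcases trichotomous_of r x y with k | k | k
        exacts [Or.inl k, absurd k h, Or.inr k]) u2 fun y hy => ((e0 y).1 (u1 hy)).1
      obtain ⟨y, hy⟩ := a.1
      exact ((e0 y).1 (u1 (b hy))).2 ⟨(M, g), (ha _).2 ⟨a, d, e⟩, hy⟩
    | succ k ih =>
      by_contra h
      obtain ⟨U, u1, u2⟩ := hS.w0 hX hi (fun y hy => ((e1 k y).1 hy).1) h
      obtain ⟨p, ⟨p1, p2⟩, p3⟩ := hl.wf.has_min {p | ad p ∧ (U ∩ p.1).Nonempty} (by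
        obtain ⟨y, hy⟩ := u2.1
        obtain ⟨-, p, a, -⟩ := (e1 k y).1 (u1 hy)
        exact ⟨p, a.1, y, hy, a.2⟩)
      refine (s6_crd (hS.s6_inter u2 ((ha p).1 p1).1 p2)).not_disc p2
        ((ih.image p.2.symm).mono fun z hz => (r_mem_symm _).2 ?_)
      obtain ⟨-, q, a, b, d⟩ := (e1 k z).1 (u1 hz.1)
      rcases trichotomous_of lt p q with e | rfl | e
      · exact absurd e (b p ⟨p1, hz.2⟩)
      · exact d
      · exact absurd e (p3 q ⟨a.1, z, hz.1, a.2⟩)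
  · induction y using hr.wf.induction with
    | _ y ih =>
      by_cases h : ∃ p, ad p ∧ y ∈ p.1
      · obtain ⟨p, p1, p2⟩ := hl.wf.has_min {p | ad p ∧ y ∈ p.1} h
        obtain ⟨-, a, b⟩ := (ha p).1 p1.1
        obtain ⟨k, hk⟩ := ih _ (b y p1.2) (a (mem_image_of_mem _ p1.2))
        exact ⟨k + 1, (e1 k y).2 ⟨hy, p, p1, p2, hk⟩⟩
      · exact ⟨0, (e0 y).2 ⟨hy, h⟩⟩

end

end Pool.Agent.Lib.MP_52f683_gt
end

-- part Pool.Agent.Lib.MP_52f683_gt.CS.TH1
section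

set_option autoImplicit false
set_option linter.unusedSectionVars false

open Set Topology Filter

namespace Pool.Agent.Lib.MP_52f683_gt

variable {S : Type*} [TopologicalSpace S] [T1Space S] [Infinite S]

/-- every member has a nowhere dense submember -/
def NN (S : Type*) [TopologicalSpace S] : Prop :=
  ∀ K : Set S, Mem K → ∃ C, Mem C ∧ C ⊆ K ∧ Nwd C K

/-- the theta closure of `D` in `F` -/
def Th (F D : Set S) : Set S := ⋂ W ∈ {W : Set S | IsOpen W ∧ D ⊆ W}, closure (F ∩ W)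

/-- a chain of members, each nowhere dense in the one before, above a discrete set -/
structure Deep (K : ℕ → Set S) (D : Set S) : Prop where
  mem : ∀ i, Mem (K i)
  sub : ∀ i, K (i + 1) ⊆ K i
  nwd : ∀ i, Nwd (K (i + 1)) (K i)
  disc : Disc D
  low : D ⊆ K 5

/-- a pinned layer -/
def th1Pin (K : ℕ → Set S) (i : ℕ) (W Q : Set S) : Set S := ((K i \ K (i + 1)) ∩ W) ∪ Q

lemma th1_img (k : S ≃ₜ S) (F E : Set S) : k '' Th F E = Th (k '' F) (k '' E) := by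
  have key : ∀ (k : S ≃ₜ S) (F E : Set S), k '' Th F E ⊆ Th (k '' F) (k '' E) := by
    rintro k F E _ ⟨x, hx, rfl⟩
    refine mem_iInter₂.2 fun W hW => ?_
    have h1 := mem_iInter₂.1 hx (k ⁻¹' W) ⟨hW.1.preimage k.continuous, image_subset_iff.1 hW.2⟩
    rw [← image_inter_preimage, ← img_cl]
    exact mem_image_of_mem _ h1
  refine (key k F E).antisymm fun x hx => ?_
  have := key k.symm _ _ (mem_image_of_mem _ hx)
  rw [img_symm_img, img_symm_img] at this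
  exact ⟨k.symm x, this, by simp⟩

lemma th1_congr {F F' E W0 : Set S} (h0 : IsOpen W0) (hE : E ⊆ W0) (h1 : F' ∩ W0 ⊆ F)
    (h2 : F ∩ W0 ⊆ closure F') : Th F E = Th F' E := by
  refine Subset.antisymm (fun x hx => mem_iInter₂.2 fun W hW => ?_)
    fun x hx => mem_iInter₂.2 fun W hW => ?_
  · have h3 := mem_iInter₂.1 hx (W ∩ W0) ⟨hW.1.inter h0, subset_inter hW.2 hE⟩
    exact closure_minimal (fun y hy => cl_inter_open hW.1 hy.2.1 (h2 ⟨hy.1, hy.2.2⟩))
      isClosed_closure h3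
  · have h3 := mem_iInter₂.1 hx (W ∩ W0) ⟨hW.1.inter h0, subset_inter hW.2 hE⟩
    exact closure_mono (fun y hy => mem_inter (h1 ⟨hy.1, hy.2.2⟩) hy.2.1) h3

lemma th1_iso {D A : Set S} (hD : derivedSet D = ∅) (hA : Crd A) (h : Sp D A) :
    Iso (D ∪ A) = D := by
  unfold Iso
  rw [derivedSet_union, hD, empty_union]
  refine Subset.antisymm (fun x hx => hx.1.resolve_right fun h' => hx.2 (hA h'))
    fun x hx => ⟨Or.inl hx, fun h' => disjoint_left.1 h.1 hx (der_sub_cl h')⟩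

lemma th1_nlc_closed {D : Set S} (hD : IsClosed D) : NLC D = ∅ := by
  rw [NLC, Rem, hD.closure_eq, sdiff_self, closure_empty, inter_empty]

section
variable {K : ℕ → Set S} {D W Q : Set S} (h : Deep K D) (hW : IsOpen W)
include h

lemma th1_anti : Antitone K := antitone_nat_of_succ_le h.sub

lemma th1_sub {i : ℕ} (hQ : Q ⊆ K (i + 1) ∩ W) : th1Pin K i W Q ⊆ K i ∩ W :=
  union_subset (inter_subset_inter_left _ sdiff_subset)
    (hQ.trans (inter_subset_inter_left _ (h.sub i)))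

include hW

lemma th1_dense (i : ℕ) : K i ∩ W ⊆ closure ((K i \ K (i + 1)) ∩ W) :=
  fun _ hx => cl_inter_open hW hx.2 (h.nwd i hx.1)

lemma th1_crd {i : ℕ} (hQ : Q ⊆ K (i + 1) ∩ W) : Crd (th1Pin K i W Q) := by
  have h1 : Crd ((K i \ K (i + 1)) ∩ W) := ((h.mem i).crd.diff_closed (h.mem _).cl).inter_open hW
  intro x hx
  have h2 := h1.closure (th1_dense h hW i (th1_sub h hQ hx))
  rw [derivedSet_closure] at h2
  exact der_mono subset_union_left h2

lemma th1_nlc {i : ℕ} (hQ : Q ⊆ K (i + 1) ∩ W) (hN : Nwd Q (K (i + 1))) :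
    NLC (th1Pin K i W Q) = Q := by
  refine Subset.antisymm (fun x hx => hx.1.resolve_left fun h' => ?_)
    fun x hx => ⟨Or.inr hx, ?_⟩
  · have h1 : Rem (th1Pin K i W Q) ⊆ K (i + 1) ∪ Wᶜ := fun y hy => by
      by_contra hn
      rw [mem_union, not_or, mem_compl_iff, not_not] at hn
      exact hy.2 (Or.inl ⟨⟨closure_minimal ((th1_sub h hQ).trans inter_subset_left) (h.mem i).cl
        hy.1, hn.1⟩, hn.2⟩)
    rcases closure_minimal h1 ((h.mem _).cl.union hW.isClosed_compl) hx.2 with h2 | h2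
    · exact h'.1.2 h2
    · exact h2 h'.2
  · refine closure_mono (fun y hy => ?_) (cl_inter_open hW (hQ hx).2 (hN (hQ hx).1))
    exact ⟨closure_mono subset_union_left (th1_dense h hW i ⟨h.sub i hy.1.1, hy.2⟩),
      fun h' => h'.elim (fun h'' => h''.1.2 hy.1.1) hy.1.2⟩

lemma th1_step {i : ℕ} (hQ : Q ⊆ K (i + 2) ∩ W) :
    th1Pin K i W Q ⊆ K i ∩ W ∧ Crd (th1Pin K i W Q) ∧ NLC (th1Pin K i W Q) = Q := by
  have h1 : Q ⊆ K (i + 1) ∩ W := hQ.trans (inter_subset_inter_left _ (h.sub _))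
  exact ⟨th1_sub h h1, th1_crd h hW h1,
    th1_nlc h hW h1 ((h.nwd (i + 1)).mono (hQ.trans inter_subset_left))⟩

lemma th1_th (hD : D ⊆ W) (g : S ≃ₜ S) {T : Set S} (h1 : g '' th1Pin K 0 W Q ⊆ T)
    (h2 : T ∩ g '' W ⊆ g '' K 0) : g '' Th (K 0) D = Th T (g '' D) := by
  rw [th1_img]
  refine th1_congr (g.isOpen_image.2 hW) (image_mono hD) h2 ?_
  rw [← img_inter]
  refine (image_mono (th1_dense h hW 0)).trans ?_
  rw [img_cl]
  exact closure_mono ((image_mono subset_union_left).trans h1)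

end

lemma th1_triple (hS : Ctx S) {K : ℕ → Set S} {D W1 W2 W3 : Set S} (h : Deep K D)
    (g2 g : S ≃ₜ S) (o1 : IsOpen W1) (o2 : IsOpen W2) (o3 : IsOpen W3) (d1 : D ⊆ W1)
    (d2 : D ⊆ W2) (d3 : D ⊆ W3) (b12 : Disjoint W1 (g2 '' K 0)) (b13 : Disjoint W1 (g '' K 0))
    (b21 : Disjoint (g2 '' W2) (K 0)) (b23 : Disjoint (g2 '' W2) (g '' K 0))
    (b31 : Disjoint (g '' W3) (K 0)) (b32 : Disjoint (g '' W3) (g2 '' K 0)) {A P T : Set S}
    (hA : A = th1Pin K 0 W1 D ∪ g2 '' th1Pin K 0 W2 (th1Pin K 2 W2 D))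
    (hP : P = th1Pin K 0 W3 (th1Pin K 2 W3 (th1Pin K 4 W3 D))) (hT : T = A ∪ g '' P) :
    Sp A (g '' P) ∧ Th (K 0) D = Th T (Iso (NLC T)) ∧
      g2 '' Th (K 0) D = Th T (Iso (NLC (NLC T))) ∧
      g '' Th (K 0) D = Th T (NLC (NLC (NLC T))) := by
  have lo : ∀ {i : ℕ} {W : Set S}, i ≤ 5 → D ⊆ W → D ⊆ K i ∩ W := fun hi hW =>
    subset_inter (h.low.trans (th1_anti h hi)) hW
  obtain ⟨s1, -, n1⟩ := th1_step h o1 (i := 0) (lo (by norm_num) d1)
  obtain ⟨s22, c22, n22⟩ := th1_step h o2 (i := 2) (lo (by norm_num) d2)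
  obtain ⟨s2, -, n2⟩ := th1_step h o2 (i := 0) s22
  have s34 := th1_sub h (i := 4) (lo le_rfl d3)
  have c34 := th1_crd h o3 (i := 4) (lo le_rfl d3)
  have n34 := th1_nlc h o3 (i := 4) (lo le_rfl d3) (hS.nwd_disc (h.mem 5).crd h.disc)
  obtain ⟨s32, c32, n32⟩ := th1_step h o3 (i := 2) s34
  obtain ⟨s3, -, n3⟩ := th1_step h o3 (i := 0) s32
  rw [← hP] at s3 n3
  have k0 := (h.mem 0).cl
  have k2 := g2.isClosed_image.2 k0
  have k3 := g.isClosed_image.2 k0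
  have u1 := s1.trans inter_subset_left
  have u2 := image_mono (f := g2) (s2.trans inter_subset_left)
  have u3 := image_mono (f := g) (s3.trans inter_subset_left)
  have v1 := s1.trans inter_subset_right
  have v2 := image_mono (f := g2) (s2.trans inter_subset_right)
  have v3 := image_mono (f := g) (s3.trans inter_subset_right)
  have p12 := sp_of_closed k0 k2 u1 u2 (b12.mono_left v1) (b21.mono_left v2)
  have p13 := sp_of_closed k0 k3 u1 u3 (b13.mono_left v1) (b31.mono_left v3)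
  have p23 := sp_of_closed k2 k3 u2 u3 (b23.mono_left v2) (b32.mono_left v3)
  have p : Sp A (g '' P) := hA ▸ p13.union_left p23
  have dc := hS.closed h.disc
  have r3 : th1Pin K 2 W3 (th1Pin K 4 W3 D) ⊆ P := hP ▸ subset_union_right
  have q12 := p12.mono subset_union_right (image_mono subset_union_right)
  have q13 := p13.mono subset_union_right (image_mono r3)
  have q23 := p23.mono (image_mono subset_union_right) (image_mono r3)
  have q23' := q23.mono (image_mono subset_union_right) (image_mono subset_union_right)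
  have N1 : NLC T = D ∪ (g2 '' th1Pin K 2 W2 D ∪ g '' th1Pin K 2 W3 (th1Pin K 4 W3 D)) := by
    rw [hT, nlc_union p, hA, nlc_union p12, ← img_nlc, ← img_nlc, n1, n2, n3, union_assoc]
  have N2 : NLC (NLC T) = g2 '' D ∪ g '' th1Pin K 4 W3 D := by
    rw [N1, nlc_union (q12.union_right q13), nlc_union q23, ← img_nlc, ← img_nlc, n22, n32,
      th1_nlc_closed dc, empty_union]
  have N3 : NLC (NLC (NLC T)) = g '' D := by
    rw [N2, nlc_union q23', ← img_nlc, ← img_nlc, n34, th1_nlc_closed dc, image_empty,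
      empty_union]
  have I1 : Iso (NLC T) = D := by
    rw [N1]
    exact th1_iso (hS.der_disc h.disc) ((c22.image g2).union (c32.image g)) (q12.union_right q13)
  have I2 : Iso (NLC (NLC T)) = g2 '' D := by
    rw [N2]
    exact th1_iso (hS.der_disc (h.disc.image g2)) (c34.image g) q23'
  have hs : T ⊆ K 0 ∪ g2 '' K 0 ∪ g '' K 0 := by
    rw [hT, hA]
    exact union_subset_union (union_subset_union u1 u2) u3
  rw [I1, I2, N3]
  refine ⟨p, ?_, th1_th h o2 d2 g2 (Q := th1Pin K 2 W2 D) ?_ fun x hx => ?_,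
    th1_th h o3 d3 g (Q := th1Pin K 2 W3 (th1Pin K 4 W3 D)) ?_ fun x hx => ?_⟩
  · refine th1_congr o1 d1 (fun x hx => ?_) ((th1_dense h o1 0).trans (closure_mono ?_))
    · rcases hs hx.1 with (e | e) | e
      · exact e
      · exact (disjoint_left.1 b12 hx.2 e).elim
      · exact (disjoint_left.1 b13 hx.2 e).elim
    · rw [hT, hA]
      exact fun x hx => Or.inl (Or.inl (Or.inl hx))
  · rw [hT, hA]
    exact fun x hx => Or.inl (Or.inr hx)
  · rcases hs hx.1 with (e | e) | e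
    · exact (disjoint_left.1 b21 hx.2 e).elim
    · exact e
    · exact (disjoint_left.1 b23 hx.2 e).elim
  · rw [hT, hP]
    exact subset_union_right
  · rcases hs hx.1 with (e | e) | e
    · exact (disjoint_left.1 b31 hx.2 e).elim
    · exact (disjoint_left.1 b32 hx.2 e).elim
    · exact e

/-- labelled triples in general position are unique -/
lemma Ctx.labelled (hS : Ctx S) {K : ℕ → Set S} {D : Set S} (h : Deep K D)
    (g2 g3 g4 : S ≃ₜ S)
    (a12 : Disjoint D (g2 '' K 0)) (a21 : Disjoint (g2 '' D) (K 0))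
    (a13 : Disjoint D (g3 '' K 0)) (a31 : Disjoint (g3 '' D) (K 0))
    (a23 : Disjoint (g2 '' D) (g3 '' K 0)) (a32 : Disjoint (g3 '' D) (g2 '' K 0))
    (a14 : Disjoint D (g4 '' K 0)) (a41 : Disjoint (g4 '' D) (K 0))
    (a24 : Disjoint (g2 '' D) (g4 '' K 0)) (a42 : Disjoint (g4 '' D) (g2 '' K 0)) :
    ∃ k : S ≃ₜ S, k '' Th (K 0) D = Th (K 0) D ∧ k '' (g2 '' Th (K 0) D) = g2 '' Th (K 0) D ∧
      k '' (g3 '' Th (K 0) D) = g4 '' Th (K 0) D := by
  have k0 := (h.mem 0).cl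
  have k2 := g2.isClosed_image.2 k0
  have k3 := g3.isClosed_image.2 k0
  have k4 := g4.isClosed_image.2 k0
  have pre : ∀ (g : S ≃ₜ S) {F W : Set S}, W ⊆ g ⁻¹' Fᶜ → Disjoint (g '' W) F := fun g F W hW =>
    disjoint_left.2 (image_subset_iff.2 hW)
  have pre' : ∀ (g : S ≃ₜ S) {F : Set S}, Disjoint (g '' D) F → D ⊆ g ⁻¹' Fᶜ := fun g F hF =>
    image_subset_iff.1 hF.subset_compl_right
  let W1 : Set S := (g2 '' K 0)ᶜ ∩ ((g3 '' K 0)ᶜ ∩ (g4 '' K 0)ᶜ)
  let W2 : Set S := g2 ⁻¹' (K 0)ᶜ ∩ (g2 ⁻¹' (g3 '' K 0)ᶜ ∩ g2 ⁻¹' (g4 '' K 0)ᶜ)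
  let W3 : Set S := (g3 ⁻¹' (K 0)ᶜ ∩ g3 ⁻¹' (g2 '' K 0)ᶜ) ∩ (g4 ⁻¹' (K 0)ᶜ ∩ g4 ⁻¹' (g2 '' K 0)ᶜ)
  have o1 : IsOpen W1 := k2.isOpen_compl.inter (k3.isOpen_compl.inter k4.isOpen_compl)
  have o2 : IsOpen W2 := (k0.isOpen_compl.preimage g2.continuous).inter
    ((k3.isOpen_compl.preimage g2.continuous).inter (k4.isOpen_compl.preimage g2.continuous))
  have o3 : IsOpen W3 :=
    ((k0.isOpen_compl.preimage g3.continuous).inter (k2.isOpen_compl.preimage g3.continuous)).inter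
    ((k0.isOpen_compl.preimage g4.continuous).inter (k2.isOpen_compl.preimage g4.continuous))
  have d1 : D ⊆ W1 := subset_inter a12.subset_compl_right
    (subset_inter a13.subset_compl_right a14.subset_compl_right)
  have d2 : D ⊆ W2 := subset_inter (pre' g2 a21) (subset_inter (pre' g2 a23) (pre' g2 a24))
  have d3 : D ⊆ W3 := subset_inter (subset_inter (pre' g3 a31) (pre' g3 a32))
    (subset_inter (pre' g4 a41) (pre' g4 a42))
  obtain ⟨p, e1, e2, e3⟩ := th1_triple hS h g2 g3 o1 o2 o3 d1 d2 d3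
    (disjoint_left.2 fun x hx => hx.1) (disjoint_left.2 fun x hx => hx.2.1)
    (pre g2 fun x hx => hx.1) (pre g2 fun x hx => hx.2.1) (pre g3 fun x hx => hx.1.1)
    (pre g3 fun x hx => hx.1.2) rfl rfl rfl
  obtain ⟨p', e1', e2', e3'⟩ := th1_triple hS h g2 g4 o1 o2 o3 d1 d2 d3
    (disjoint_left.2 fun x hx => hx.1) (disjoint_left.2 fun x hx => hx.2.2)
    (pre g2 fun x hx => hx.1) (pre g2 fun x hx => hx.2.2) (pre g4 fun x hx => hx.2.1)
    (pre g4 fun x hx => hx.2.2) rfl rfl rfl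
  obtain ⟨k, hk⟩ := hS.thin.glueE (Eqv.rfl' _)
    (Eqv.trans (Eqv.symm ⟨g3, rfl⟩) ⟨g4, rfl⟩) p p'
  refine ⟨k, ?_, ?_, ?_⟩
  · conv_lhs => rw [e1, th1_img, img_iso, img_nlc, hk, ← e1']
  · conv_lhs => rw [e2, th1_img, img_iso, img_nlc, img_nlc, hk, ← e2']
  · conv_lhs => rw [e3, th1_img, img_nlc, img_nlc, img_nlc, hk, ← e3']

end Pool.Agent.Lib.MP_52f683_gt
end

-- part Pool.Agent.Lib.MP_52f683_gt.CS.TH
section

set_option autoImplicit false
set_option linter.unusedSectionVars false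

open Set Topology Filter

namespace Pool.Agent.Lib.MP_52f683_gt

variable {S : Type*} [TopologicalSpace S] [T1Space S] [Infinite S]

lemma th_closed (F D : Set S) : IsClosed (Th F D) :=
  isClosed_biInter fun _ _ => isClosed_closure

lemma th_sub_open {F D W : Set S} (hW : IsOpen W) (hD : D ⊆ W) : Th F D ⊆ closure (F ∩ W) :=
  biInter_subset_of_mem (s := {W : Set S | IsOpen W ∧ D ⊆ W}) (t := fun W => closure (F ∩ W))
    ⟨hW, hD⟩

lemma th_sub {F : Set S} (hF : IsClosed F) (D : Set S) : Th F D ⊆ F :=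
  (th_sub_open isOpen_univ (subset_univ D)).trans (closure_minimal inter_subset_left hF)

lemma th_not_mem {F D : Set S} {x : S} (h : x ∉ Th F D) :
    ∃ W : Set S, IsOpen W ∧ D ⊆ W ∧ x ∉ closure (F ∩ W) := by
  by_contra hn
  refine h (mem_iInter₂.2 fun W hW => ?_)
  by_contra hx
  exact hn ⟨W, hW.1, hW.2, hx⟩

lemma Ctx.theta_deep (hS : Ctx S) {K : ℕ → Set S} {D : Set S} (h : Deep K D) :
    Th (K 0) D ⊆ D := by
  intro t ht
  by_contra htD
  have h0 := h.mem 0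
  have hsub : Th (K 0) D ⊆ K 0 := th_sub h0.cl D
  obtain ⟨g2, e2, b12, a21⟩ := hS.ts_pt (x := t) (h.mem 1) h0 (h.sub 0) (h.nwd 0) h0.cl h0.sm
    h0.cl h0.sm h.disc h.disc htD htD
  have a12 : Disjoint D (g2 '' K 0) := b12.symm
  have hL := hS.mem_union h0 (h0.image g2)
  have hE : Disc (D ∪ g2 '' D) := hS.disc_union h.disc (h.disc.image g2)
  have ht2 : t ∈ g2 '' Th (K 0) D := ⟨t, ht, e2⟩
  have hZc : IsClosed (Th (K 0) D ∩ g2 '' Th (K 0) D) :=
    (th_closed _ _).inter (g2.isClosed_image.2 (th_closed _ _))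
  have key : ∀ (g3 : S ≃ₜ S) (F : Set S), Disjoint (g3 '' K 0) (D ∪ g2 '' D) →
      Disjoint (g3 '' D) (K 0 ∪ g2 '' K 0) → Disc F →
      ∃ k : S ≃ₜ S, k '' (Th (K 0) D ∩ g2 '' Th (K 0) D) = Th (K 0) D ∩ g2 '' Th (K 0) D ∧
        Disjoint (k '' (g3 '' Th (K 0) D)) F := by
    intro g3 F b3 c3 hF
    obtain ⟨g4, b4, c4⟩ := hS.ts h0.cl h0.sm hL.cl hL.sm h.disc (hS.disc_union hE hF)
    have b4' := disjoint_union_right.1 b4
    obtain ⟨k, k1, k2, k3⟩ := hS.labelled h g2 g3 g4 a12 a21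
      (disjoint_union_right.1 b3).1.symm (disjoint_union_right.1 c3).1
      (disjoint_union_right.1 b3).2.symm (disjoint_union_right.1 c3).2
      (disjoint_union_right.1 b4'.1).1.symm (disjoint_union_right.1 c4).1
      (disjoint_union_right.1 b4'.1).2.symm (disjoint_union_right.1 c4).2
    refine ⟨k, by rw [img_inter, k1, k2], ?_⟩
    rw [k3]
    exact b4'.2.mono_left (image_mono hsub)
  by_cases hZ : Disc (Th (K 0) D ∩ g2 '' Th (K 0) D)
  · have htE : t ∉ D ∪ g2 '' D := fun hx =>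
      hx.elim htD fun hx => disjoint_left.1 a21 hx (hsub ht)
    obtain ⟨g3, e3, b3, c3⟩ := hS.ts_pt (x := t) (h.mem 1) h0 (h.sub 0) (h.nwd 0) h0.cl h0.sm
      hL.cl hL.sm h.disc hE htD htE
    obtain ⟨k, k1, k2⟩ := key g3 _ b3 c3 hZ
    refine disjoint_left.1 k2 (mem_image_of_mem k ⟨t, ht, e3⟩) ?_
    rw [← k1]
    exact mem_image_of_mem k ⟨ht, ht2⟩
  · have hc := hS.mem_der h0.cl h0.sm (inter_subset_left.trans hsub) (hS.der_ne hZ)
    have hcZ : derivedSet (Th (K 0) D ∩ g2 '' Th (K 0) D) ⊆ Th (K 0) D ∩ g2 '' Th (K 0) D :=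
      der_sub_closed hZc subset_rfl
    obtain ⟨c, hcdef⟩ : ∃ c, c = derivedSet (Th (K 0) D ∩ g2 '' Th (K 0) D) := ⟨_, rfl⟩
    rw [← hcdef] at hc hcZ
    have hcK : c ⊆ K 0 := hcZ.trans (inter_subset_left.trans hsub)
    have hDc : Disjoint D c :=
      a12.mono_right (hcZ.trans (inter_subset_right.trans (image_mono hsub)))
    have hn : Nwd c (K 0) := by
      intro y hy
      by_cases hyc : y ∈ c
      · exact th_sub_open hc.cl.isOpen_compl (subset_compl_iff_disjoint_right.2 hDc)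
          (hcZ hyc).1
      · exact subset_closure ⟨hy, hyc⟩
    obtain ⟨g3, e3, b3, c3⟩ := hS.ts_mem hc.cl hc.crd h0 hcK hn h0.cl h0.sm hL.cl hL.sm h.disc hE
      hDc (disjoint_union_left.2 ⟨hDc, a21.mono_right hcK⟩)
    obtain ⟨s, hs⟩ := hc.ne
    obtain ⟨k, k1, k2⟩ := key g3 _ b3 c3 (disc_single s)
    have kc : k '' c = c := by rw [hcdef, img_der, k1]
    have h3 : c ⊆ g3 '' Th (K 0) D := by
      rw [← e3]
      exact image_mono (hcZ.trans inter_subset_left)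
    refine disjoint_left.1 k2 (image_mono h3 ?_) (mem_singleton s)
    rw [kc]
    exact hs

lemma th_chain (hN : NN S) {K : Set S} (hK : Mem K) : ∃ C : ℕ → Set S,
    (∀ i, Mem (C i)) ∧ (∀ i, C (i + 1) ⊆ C i) ∧ ∀ i, Nwd (C (i + 1)) (C i) := by
  have : ∀ M : {M : Set S // Mem M}, ∃ M' : {M : Set S // Mem M}, M'.1 ⊆ M.1 ∧ Nwd M'.1 M.1 :=
    fun M => let ⟨C, h1, h2, h3⟩ := hN M.1 M.2; ⟨⟨C, h1⟩, h2, h3⟩
  choose f hf using this
  refine ⟨fun i => (f^[i] ⟨K, hK⟩).1, fun i => (f^[i] ⟨K, hK⟩).2, fun i => ?_, fun i => ?_⟩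
  · simp only [Function.iterate_succ_apply']
    exact (hf _).1
  · simp only [Function.iterate_succ_apply']
    exact (hf _).2

theorem Ctx.hasR (hS : Ctx S) (hN : NN S) : HasR S := by
  intro K D x hK hD hx
  obtain ⟨C, c1, c2, c3⟩ := th_chain hN hK
  obtain ⟨E, hE5, hE⟩ := hS.exists_cd_crd (c1 5).crd (c1 5).ne (c1 5).cl (c1 5).sm subset_rfl
  have hD' : CD (D ∪ (E \ {x})) :=
    hS.cd (hS.disc_union hD (hE.disc.mono sdiff_subset))
      ((hE.inf.sdiff (finite_singleton x)).mono subset_union_right)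
  obtain ⟨g, hg⟩ := hS.thin.eqv_cd hE hD'
  obtain ⟨K', hK'⟩ : ∃ K' : ℕ → Set S, K' = fun i => Nat.casesOn i (g '' C 0 ∪ K)
    (fun j => g '' C (j + 1)) := ⟨_, rfl⟩
  have e0 : K' 0 = g '' C 0 ∪ K := by rw [hK']; rfl
  have e1 : ∀ j, K' (j + 1) = g '' C (j + 1) := fun j => by rw [hK']
  have hdeep : Deep K' (D ∪ (E \ {x})) := by
    refine ⟨fun i => ?_, fun i => ?_, fun i => ?_, hD'.disc, ?_⟩
    · rcases i with _ | i
      · rw [e0]; exact hS.mem_union ((c1 0).image g) hK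
      · rw [e1]; exact (c1 _).image g
    · rcases i with _ | i
      · rw [e0, e1]; exact (image_mono (c2 0)).trans subset_union_left
      · rw [e1, e1]; exact image_mono (c2 _)
    · rcases i with _ | i
      · rw [e0, e1]; exact ((c3 0).image g).union_right (image_mono (c2 0))
      · rw [e1, e1]; exact (c3 _).image g
    · rw [e1 4, ← hg]; exact image_mono hE5
  have hx' : x ∉ D ∪ (E \ {x}) := fun h => h.elim hx fun h => h.2 (mem_singleton x)
  obtain ⟨W, hW, hDW, hxW⟩ := th_not_mem fun h => hx' (hS.theta_deep hdeep h)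
  refine ⟨(closure (K' 0 ∩ W))ᶜ, isClosed_closure.isOpen_compl, hxW, ?_⟩
  have h1 : K ∩ (closure (K' 0 ∩ W))ᶜ ⊆ Wᶜ := fun y hy hyW =>
    hy.2 (subset_closure ⟨by rw [e0]; exact Or.inr hy.1, hyW⟩)
  exact disjoint_left.2 fun y hy hyD =>
    closure_minimal h1 hW.isClosed_compl hy (hDW (Or.inl hyD))

end Pool.Agent.Lib.MP_52f683_gt
end

-- part Pool.Agent.Lib.MP_52f683_gt.F.Z3a
section

set_option autoImplicit false
set_option linter.unusedSectionVars false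

open Set Topology Filter

namespace Pool.Agent.Lib.MP_52f683_gt

variable {S : Type*} [TopologicalSpace S] [T1Space S] [Infinite S]

lemma z_triple (hS : CB S) {K : ℕ → Set S} {D W1 W2 W3 : Set S} (h : Deep K D)
    (g2 g : S ≃ₜ S) (o1 : IsOpen W1) (o2 : IsOpen W2) (o3 : IsOpen W3) (d1 : D ⊆ W1)
    (d2 : D ⊆ W2) (d3 : D ⊆ W3) (b12 : Disjoint W1 (g2 '' K 0)) (b13 : Disjoint W1 (g '' K 0))
    (b21 : Disjoint (g2 '' W2) (K 0)) (b23 : Disjoint (g2 '' W2) (g '' K 0))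
    (b31 : Disjoint (g '' W3) (K 0)) (b32 : Disjoint (g '' W3) (g2 '' K 0)) {A P T : Set S}
    (hA : A = th1Pin K 0 W1 D ∪ g2 '' th1Pin K 0 W2 (th1Pin K 2 W2 D))
    (hP : P = th1Pin K 0 W3 (th1Pin K 2 W3 (th1Pin K 4 W3 D))) (hT : T = A ∪ g '' P) :
    Sp A (g '' P) ∧ Th (K 0) D = Th T (Iso (NLC T)) ∧
      g2 '' Th (K 0) D = Th T (Iso (NLC (NLC T))) ∧
      g '' Th (K 0) D = Th T (NLC (NLC (NLC T))) := by
  have lo : ∀ {i : ℕ} {W : Set S}, i ≤ 5 → D ⊆ W → D ⊆ K i ∩ W := fun hi hW =>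
    subset_inter (h.low.trans (th1_anti h hi)) hW
  obtain ⟨s1, -, n1⟩ := th1_step h o1 (i := 0) (lo (by norm_num) d1)
  obtain ⟨s22, c22, n22⟩ := th1_step h o2 (i := 2) (lo (by norm_num) d2)
  obtain ⟨s2, -, n2⟩ := th1_step h o2 (i := 0) s22
  have s34 := th1_sub h (i := 4) (lo le_rfl d3)
  have c34 := th1_crd h o3 (i := 4) (lo le_rfl d3)
  have n34 := th1_nlc h o3 (i := 4) (lo le_rfl d3) (hS.nwd_disc (h.mem 5).crd h.disc)
  obtain ⟨s32, c32, n32⟩ := th1_step h o3 (i := 2) s34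
  obtain ⟨s3, -, n3⟩ := th1_step h o3 (i := 0) s32
  rw [← hP] at s3 n3
  have k0 := (h.mem 0).cl
  have k2 := g2.isClosed_image.2 k0
  have k3 := g.isClosed_image.2 k0
  have u1 := s1.trans inter_subset_left
  have u2 := image_mono (f := g2) (s2.trans inter_subset_left)
  have u3 := image_mono (f := g) (s3.trans inter_subset_left)
  have v1 := s1.trans inter_subset_right
  have v2 := image_mono (f := g2) (s2.trans inter_subset_right)
  have v3 := image_mono (f := g) (s3.trans inter_subset_right)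
  have p12 := sp_of_closed k0 k2 u1 u2 (b12.mono_left v1) (b21.mono_left v2)
  have p13 := sp_of_closed k0 k3 u1 u3 (b13.mono_left v1) (b31.mono_left v3)
  have p23 := sp_of_closed k2 k3 u2 u3 (b23.mono_left v2) (b32.mono_left v3)
  have p : Sp A (g '' P) := hA ▸ p13.union_left p23
  have dc := hS.closed h.disc
  have r3 : th1Pin K 2 W3 (th1Pin K 4 W3 D) ⊆ P := hP ▸ subset_union_right
  have q12 := p12.mono subset_union_right (image_mono subset_union_right)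
  have q13 := p13.mono subset_union_right (image_mono r3)
  have q23 := p23.mono (image_mono subset_union_right) (image_mono r3)
  have q23' := q23.mono (image_mono subset_union_right) (image_mono subset_union_right)
  have N1 : NLC T = D ∪ (g2 '' th1Pin K 2 W2 D ∪ g '' th1Pin K 2 W3 (th1Pin K 4 W3 D)) := by
    rw [hT, nlc_union p, hA, nlc_union p12, ← img_nlc, ← img_nlc, n1, n2, n3, union_assoc]
  have N2 : NLC (NLC T) = g2 '' D ∪ g '' th1Pin K 4 W3 D := by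
    rw [N1, nlc_union (q12.union_right q13), nlc_union q23, ← img_nlc, ← img_nlc, n22, n32,
      th1_nlc_closed dc, empty_union]
  have N3 : NLC (NLC (NLC T)) = g '' D := by
    rw [N2, nlc_union q23', ← img_nlc, ← img_nlc, n34, th1_nlc_closed dc, image_empty,
      empty_union]
  have I1 : Iso (NLC T) = D := by
    rw [N1]
    exact th1_iso (hS.der_disc h.disc) ((c22.image g2).union (c32.image g)) (q12.union_right q13)
  have I2 : Iso (NLC (NLC T)) = g2 '' D := by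
    rw [N2]
    exact th1_iso (hS.der_disc (h.disc.image g2)) (c34.image g) q23'
  have hs : T ⊆ K 0 ∪ g2 '' K 0 ∪ g '' K 0 := by
    rw [hT, hA]
    exact union_subset_union (union_subset_union u1 u2) u3
  rw [I1, I2, N3]
  refine ⟨p, ?_, th1_th h o2 d2 g2 (Q := th1Pin K 2 W2 D) ?_ fun x hx => ?_,
    th1_th h o3 d3 g (Q := th1Pin K 2 W3 (th1Pin K 4 W3 D)) ?_ fun x hx => ?_⟩
  · refine th1_congr o1 d1 (fun x hx => ?_) ((th1_dense h o1 0).trans (closure_mono ?_))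
    · rcases hs hx.1 with (e | e) | e
      · exact e
      · exact (disjoint_left.1 b12 hx.2 e).elim
      · exact (disjoint_left.1 b13 hx.2 e).elim
    · rw [hT, hA]
      exact fun x hx => Or.inl (Or.inl (Or.inl hx))
  · rw [hT, hA]
    exact fun x hx => Or.inl (Or.inr hx)
  · rcases hs hx.1 with (e | e) | e
    · exact (disjoint_left.1 b21 hx.2 e).elim
    · exact e
    · exact (disjoint_left.1 b23 hx.2 e).elim
  · rw [hT, hP]
    exact subset_union_right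
  · rcases hs hx.1 with (e | e) | e
    · exact (disjoint_left.1 b31 hx.2 e).elim
    · exact (disjoint_left.1 b32 hx.2 e).elim
    · exact e

/-- labelled triples in general position are unique -/
lemma CB.z_lab (hS : CB S) {K : ℕ → Set S} {D : Set S} (h : Deep K D)
    (g2 g3 g4 : S ≃ₜ S)
    (a12 : Disjoint D (g2 '' K 0)) (a21 : Disjoint (g2 '' D) (K 0))
    (a13 : Disjoint D (g3 '' K 0)) (a31 : Disjoint (g3 '' D) (K 0))
    (a23 : Disjoint (g2 '' D) (g3 '' K 0)) (a32 : Disjoint (g3 '' D) (g2 '' K 0))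
    (a14 : Disjoint D (g4 '' K 0)) (a41 : Disjoint (g4 '' D) (K 0))
    (a24 : Disjoint (g2 '' D) (g4 '' K 0)) (a42 : Disjoint (g4 '' D) (g2 '' K 0)) :
    ∃ k : S ≃ₜ S, k '' Th (K 0) D = Th (K 0) D ∧ k '' (g2 '' Th (K 0) D) = g2 '' Th (K 0) D ∧
      k '' (g3 '' Th (K 0) D) = g4 '' Th (K 0) D := by
  have k0 := (h.mem 0).cl
  have k2 := g2.isClosed_image.2 k0
  have k3 := g3.isClosed_image.2 k0
  have k4 := g4.isClosed_image.2 k0
  have pre : ∀ (g : S ≃ₜ S) {F W : Set S}, W ⊆ g ⁻¹' Fᶜ → Disjoint (g '' W) F := fun g F W hW =>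
    disjoint_left.2 (image_subset_iff.2 hW)
  have pre' : ∀ (g : S ≃ₜ S) {F : Set S}, Disjoint (g '' D) F → D ⊆ g ⁻¹' Fᶜ := fun g F hF =>
    image_subset_iff.1 hF.subset_compl_right
  let W1 : Set S := (g2 '' K 0)ᶜ ∩ ((g3 '' K 0)ᶜ ∩ (g4 '' K 0)ᶜ)
  let W2 : Set S := g2 ⁻¹' (K 0)ᶜ ∩ (g2 ⁻¹' (g3 '' K 0)ᶜ ∩ g2 ⁻¹' (g4 '' K 0)ᶜ)
  let W3 : Set S := (g3 ⁻¹' (K 0)ᶜ ∩ g3 ⁻¹' (g2 '' K 0)ᶜ) ∩ (g4 ⁻¹' (K 0)ᶜ ∩ g4 ⁻¹' (g2 '' K 0)ᶜ)
  have o1 : IsOpen W1 := k2.isOpen_compl.inter (k3.isOpen_compl.inter k4.isOpen_compl)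
  have o2 : IsOpen W2 := (k0.isOpen_compl.preimage g2.continuous).inter
    ((k3.isOpen_compl.preimage g2.continuous).inter (k4.isOpen_compl.preimage g2.continuous))
  have o3 : IsOpen W3 :=
    ((k0.isOpen_compl.preimage g3.continuous).inter (k2.isOpen_compl.preimage g3.continuous)).inter
    ((k0.isOpen_compl.preimage g4.continuous).inter (k2.isOpen_compl.preimage g4.continuous))
  have d1 : D ⊆ W1 := subset_inter a12.subset_compl_right
    (subset_inter a13.subset_compl_right a14.subset_compl_right)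
  have d2 : D ⊆ W2 := subset_inter (pre' g2 a21) (subset_inter (pre' g2 a23) (pre' g2 a24))
  have d3 : D ⊆ W3 := subset_inter (subset_inter (pre' g3 a31) (pre' g3 a32))
    (subset_inter (pre' g4 a41) (pre' g4 a42))
  obtain ⟨p, e1, e2, e3⟩ := z_triple hS h g2 g3 o1 o2 o3 d1 d2 d3
    (disjoint_left.2 fun x hx => hx.1) (disjoint_left.2 fun x hx => hx.2.1)
    (pre g2 fun x hx => hx.1) (pre g2 fun x hx => hx.2.1) (pre g3 fun x hx => hx.1.1)
    (pre g3 fun x hx => hx.1.2) rfl rfl rfl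
  obtain ⟨p', e1', e2', e3'⟩ := z_triple hS h g2 g4 o1 o2 o3 d1 d2 d3
    (disjoint_left.2 fun x hx => hx.1) (disjoint_left.2 fun x hx => hx.2.2)
    (pre g2 fun x hx => hx.1) (pre g2 fun x hx => hx.2.2) (pre g4 fun x hx => hx.2.1)
    (pre g4 fun x hx => hx.2.2) rfl rfl rfl
  obtain ⟨k, hk⟩ := hS.thin.glueE (Eqv.rfl' _)
    (Eqv.trans (Eqv.symm ⟨g3, rfl⟩) ⟨g4, rfl⟩) p p'
  refine ⟨k, ?_, ?_, ?_⟩
  · conv_lhs => rw [e1, th1_img, img_iso, img_nlc, hk, ← e1']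
  · conv_lhs => rw [e2, th1_img, img_iso, img_nlc, img_nlc, hk, ← e2']
  · conv_lhs => rw [e3, th1_img, img_nlc, img_nlc, img_nlc, hk, ← e3']

end Pool.Agent.Lib.MP_52f683_gt
end

-- part Pool.Agent.Lib.MP_52f683_gt.F.Z3
section

set_option autoImplicit false
set_option linter.unusedSectionVars false

open Set Topology Filter

namespace Pool.Agent.Lib.MP_52f683_gt

universe u

variable {S : Type u} [TopologicalSpace S] [T1Space S] [Infinite S]

lemma z_lt_off {κ : Cardinal.{u}} {M X : Set S} (h : ¬ ZG κ M) (k : S ≃ₜ S) (hX : Disc X)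
    (d : Disjoint X (k '' M)) : sz X < κ :=
  lt_of_not_ge fun a => h (ZG.of_image k (ZG.le ⟨X, ⟨hX, rfl⟩, d⟩ a))

lemma CB.z_good (hS : CB S) {T : Set S} (g : S ≃ₜ S) (hZ : Disc (T ∩ g '' T))
    (hi : Cardinal.aleph0 ≤ sz (T ∩ g '' T)) : ZG (sz (T ∩ g '' T)) T := by
  obtain ⟨D, hD, d⟩ := hS.z_ker (F := T ∩ g '' T) hi
    ⟨_, ⟨hZ, rfl⟩, by rw [hS.der_disc hZ]; exact disjoint_empty _⟩
  rcases z_split (A := Tᶜ) (B := (g '' T)ᶜ) hi hD.2
    (fun x hx => not_and_or.1 (disjoint_left.1 d hx)) with h | h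
  · exact ⟨_, ⟨hD.1.mono inter_subset_left, h⟩, disjoint_left.2 fun _ hx => hx.2⟩
  · exact ZG.of_image g ⟨_, ⟨hD.1.mono inter_subset_left, h⟩, disjoint_left.2 fun _ hx => hx.2⟩

/-- two-sided avoidance together with a discrete set of any size -/
lemma CB.z_fixz (hS : CB S) {μ : Cardinal.{u}} (hp : ZL S μ) (hi : Cardinal.aleph0 ≤ μ)
    {K L D E T Z : Set S} (hK : NM K) (hL : Mem L) (hD : DS μ D) (hE : DS μ E) (s : D ⊆ K)
    (s' : E ⊆ L) (tK : T ⊆ K) (hZ : Disc Z) (zK : Z ⊆ K) (zL : Z ⊆ L)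
    (hT : Cardinal.aleph0 ≤ sz Z → ZG (sz Z) T) :
    ∃ g : S ≃ₜ S, Disjoint (g '' K) E ∧ Disjoint (g '' D) L ∧ Disjoint (g '' T) Z := by
  have ap := hS.z_ag hp
  by_cases h0 : AG S (sz (E ∪ Z))
  · obtain ⟨g, a, b⟩ := hS.z_mx hp h0 hK.1 hL hD ⟨hS.disc_union hE.1 hZ, rfl⟩ s
      (union_subset s' zL)
    exact ⟨g, a.mono_right subset_union_left, b, a.mono (image_mono tK) subset_union_right⟩
  have h1 : ¬ AG S (sz Z) := fun h => by
    rcases le_total (sz Z) μ with e | e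
    · exact h0 (ap.le (z_sz_union hi hE.2.le e))
    · exact h0 (h.le (z_sz_union (hi.trans e) (hE.2.le.trans e) le_rfl))
  obtain ⟨ζ, z1, z2⟩ := (wellFounded_lt (α := Cardinal.{u})).has_min {κ | ¬ AG S κ} ⟨_, h1⟩
  have z3 : ∀ κ < ζ, AG S κ := fun κ h => by_contra fun h' => z2 κ h' h
  have z4 : ζ ≤ sz Z := not_lt.1 (z2 _ h1)
  have z5 : μ < ζ := lt_of_not_ge fun h => z1 (ap.le h)
  have iZ : Cardinal.aleph0 ≤ sz Z := hi.trans (z5.le.trans z4)
  obtain ⟨Mb, mb, bad⟩ : ∃ M : Set S, Mem M ∧ ¬ ZG ζ M := by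
    by_contra hn
    exact z1 fun M hM => by_contra fun h => hn ⟨M, hM, h⟩
  have cut : ∀ (k : S ≃ₜ S) {X : Set S}, DS (sz Z) X → DS (sz Z) (X ∩ k '' Mb) := fun k X hX =>
    ⟨hX.1.mono inter_subset_left, (z_split (B := (k '' Mb)ᶜ) iZ hX.2 (by simp)).resolve_right
      ((z_lt_off bad k (hX.1.mono inter_subset_left)
        (disjoint_left.2 fun _ hx => hx.2)).trans_le z4).ne⟩
  obtain ⟨Y', cY', dY'⟩ := ap L hL
  obtain ⟨k1, d1⟩ := hS.z_off (ap Mb mb) (hS.z_union hi hE cY'.1 cY'.2.le)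
  have x1 : Disc (E ∪ (Z \ k1 '' Mb)) := hS.disc_union hE.1 (hZ.mono sdiff_subset)
  have x2 : Disjoint (E ∪ (Z \ k1 '' Mb)) (k1 '' Mb) :=
    disjoint_union_left.2 ⟨d1.symm.mono_left subset_union_left, disjoint_sdiff_left⟩
  have x3 : E ∪ (Z \ k1 '' Mb) ⊆ L := union_subset s' (sdiff_subset.trans zL)
  have x4 : μ ≤ sz (E ∪ (Z \ k1 '' Mb)) := hE.2.ge.trans (z_sz_mono subset_union_left)
  have aq := z3 _ (z_lt_off bad k1 x1 x2)
  have cX : DS (sz (E ∪ (Z \ k1 '' Mb))) (E ∪ (Z \ k1 '' Mb)) := ⟨x1, rfl⟩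
  obtain ⟨k, a, b⟩ := hS.z_mx hp aq hK.1 hL hD cX s x3
  obtain ⟨Z0, c0, d0⟩ := hT iZ
  obtain ⟨k2, d2⟩ := hS.z_off (aq Mb mb)
    (hS.z_union (hi.trans x4) (cX.image k.symm) hD.1 (hD.2.le.trans x4))
  obtain ⟨hK1, M0, m0, s0, n0⟩ := hK
  obtain ⟨g, g1, g2, g3⟩ := hS.z_tau aq (hi.trans x4) x4 hK1 m0 s0 n0 ⟨hZ, rfl⟩ zK
    ⟨hD, cX.image k.symm, cut k2 c0, k.symm '' L, k2 '' Mb, hL.image _, mb.image _,
      image_mono x3, by rwa [← img_disj k, img_img_symm], inter_subset_right, d2.symm⟩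
    ⟨cY', cX, cut k1 ⟨hZ, rfl⟩, L, k1 '' Mb, hL, mb.image _, x3, dY', inter_subset_right,
      disjoint_union_left.2 ⟨x2, d1.symm.mono_left subset_union_right⟩⟩
  have a' : Disjoint (g '' K) (E ∪ (Z \ k1 '' Mb)) := by
    rw [← g2, img_disj, ← img_disj k, img_img_symm]; exact a
  have a'' : Disjoint (g '' T) (Z ∩ k1 '' Mb) := by
    rw [← g3, img_disj]; exact d0.symm.mono_right inter_subset_left
  refine ⟨g, a'.mono_right subset_union_left, g1 ▸ dY', disjoint_left.2 fun x hx hx' => ?_⟩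
  by_cases e : x ∈ k1 '' Mb
  · exact disjoint_left.1 a'' hx ⟨hx', e⟩
  · exact disjoint_left.1 a' (image_mono tK hx) (Or.inr ⟨hx', e⟩)

lemma CB.z_theta (hS : CB S) {μ : Cardinal.{u}} (hp : ZL S μ) (hi : Cardinal.aleph0 ≤ μ)
    {K : ℕ → Set S} {D : Set S} (h : Deep K D) (hD : DS μ D) (nm : NM (K 0)) :
    Th (K 0) D ⊆ D := by
  intro t ht
  by_contra htD
  have h0 := h.mem 0
  have hsub : Th (K 0) D ⊆ K 0 := th_sub h0.cl D
  have sD : D ⊆ K 0 := h.low.trans (th1_anti h (Nat.zero_le 5))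
  obtain ⟨g2, e2, b12, a21⟩ := hS.z_ts_pt hp hi (x := t) (h.mem 1) h0 (h.sub 0) (h.nwd 0) h0 h0
    hD hD sD sD (hsub ht) (hsub ht) htD htD
  have a12 : Disjoint D (g2 '' K 0) := b12.symm
  have hL := hS.mem_union h0 (h0.image g2)
  have hE : DS μ (D ∪ g2 '' D) := hS.z_union hi hD (hD.image g2).1 (hD.image g2).2.le
  have sE : D ∪ g2 '' D ⊆ K 0 ∪ g2 '' K 0 := union_subset_union sD (image_mono sD)
  have ht2 : t ∈ g2 '' Th (K 0) D := ⟨t, ht, e2⟩
  have hZc : IsClosed (Th (K 0) D ∩ g2 '' Th (K 0) D) :=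
    (th_closed _ _).inter (g2.isClosed_image.2 (th_closed _ _))
  have key : ∀ (g3 g4 : S ≃ₜ S), Disjoint (g3 '' K 0) (D ∪ g2 '' D) →
      Disjoint (g3 '' D) (K 0 ∪ g2 '' K 0) → Disjoint (g4 '' K 0) (D ∪ g2 '' D) →
      Disjoint (g4 '' D) (K 0 ∪ g2 '' K 0) →
      ∃ k : S ≃ₜ S, k '' (Th (K 0) D ∩ g2 '' Th (K 0) D) = Th (K 0) D ∩ g2 '' Th (K 0) D ∧
        k '' (g3 '' Th (K 0) D) = g4 '' Th (K 0) D := by
    intro g3 g4 b3 c3 b4 c4
    obtain ⟨k, k1, k2, k3⟩ := hS.z_lab h g2 g3 g4 a12 a21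
      (disjoint_union_right.1 b3).1.symm (disjoint_union_right.1 c3).1
      (disjoint_union_right.1 b3).2.symm (disjoint_union_right.1 c3).2
      (disjoint_union_right.1 b4).1.symm (disjoint_union_right.1 c4).1
      (disjoint_union_right.1 b4).2.symm (disjoint_union_right.1 c4).2
    exact ⟨k, by rw [img_inter, k1, k2], k3⟩
  have zK : Th (K 0) D ∩ g2 '' Th (K 0) D ⊆ K 0 := inter_subset_left.trans hsub
  by_cases hZ : Disc (Th (K 0) D ∩ g2 '' Th (K 0) D)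
  · have htE : t ∉ D ∪ g2 '' D := fun hx =>
      hx.elim htD fun hx => disjoint_left.1 a21 hx (hsub ht)
    obtain ⟨g3, e3, b3, c3⟩ := hS.z_ts_pt hp hi (x := t) (h.mem 1) h0 (h.sub 0) (h.nwd 0) h0 hL
      hD hE sD sE (hsub ht) (Or.inl (hsub ht)) htD htE
    obtain ⟨g4, b4, c4, d4⟩ := hS.z_fixz hp hi nm hL hD hE sD sE hsub hZ zK
      (zK.trans subset_union_left) (hS.z_good g2 hZ)
    obtain ⟨k, k1, k2⟩ := key g3 g4 b3 c3 b4 c4
    refine (disjoint_left.1 d4 : ∀ ⦃a⦄, _ → _) (a := k t) ?_ ?_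
    · rw [← k2]; exact mem_image_of_mem k ⟨t, ht, e3⟩
    · rw [← k1]; exact mem_image_of_mem k ⟨ht, ht2⟩
  · have hc := hS.mem_der h0.cl h0.sm zK (hS.der_ne hZ)
    have hcZ : derivedSet (Th (K 0) D ∩ g2 '' Th (K 0) D) ⊆ Th (K 0) D ∩ g2 '' Th (K 0) D :=
      der_sub_closed hZc subset_rfl
    obtain ⟨c, hcdef⟩ : ∃ c, c = derivedSet (Th (K 0) D ∩ g2 '' Th (K 0) D) := ⟨_, rfl⟩
    rw [← hcdef] at hc hcZ
    have hcK : c ⊆ K 0 := hcZ.trans zK
    have hDc : Disjoint D c :=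
      a12.mono_right (hcZ.trans (inter_subset_right.trans (image_mono hsub)))
    have hn : Nwd c (K 0) := by
      intro y hy
      by_cases hyc : y ∈ c
      · exact th_sub_open hc.cl.isOpen_compl (subset_compl_iff_disjoint_right.2 hDc)
          (hcZ hyc).1
      · exact subset_closure ⟨hy, hyc⟩
    obtain ⟨g3, e3, b3, c3⟩ := hS.z_ts_mem hp hc h0 hL hcK hn subset_union_left hD hE sD sE
      hDc (disjoint_union_left.2 ⟨hDc, a21.mono_right hcK⟩)
    obtain ⟨s, hs⟩ := hc.ne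
    obtain ⟨g4, b4, c4⟩ := hS.z_mx hp (hS.z_ag hp) h0 hL hD
      (hS.z_union hi hE (disc_single s) (z_sz_single hi s).le) sD
      (union_subset sE (singleton_subset_iff.2 (Or.inl (hcK hs))))
    obtain ⟨k, k1, k2⟩ := key g3 g4 b3 c3 (b4.mono_right subset_union_left) c4
    have kc : k '' c = c := by rw [hcdef, img_der, k1]
    have h3 : c ⊆ g3 '' Th (K 0) D := by
      rw [← e3]
      exact image_mono (hcZ.trans inter_subset_left)
    refine disjoint_left.1 b4 (image_mono hsub (k2 ▸ image_mono h3 ?_)) (Or.inr (mem_singleton s))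
    rw [kc]
    exact hs

/-- sizes that occur in every nonempty open part of every such member -/
def ZLt (S : Type u) [TopologicalSpace S] (μ : Cardinal.{u}) : Prop :=
  ∀ c W : Set S, NM c → IsOpen W → (c ∩ W).Nonempty → ∃ D ⊆ c ∩ W, DS μ D

lemma ZLt.le {κ μ : Cardinal.{u}} (h : ZLt S κ) (hμ : μ ≤ κ) : ZLt S μ := fun c W h1 h2 h3 =>
  let ⟨_, a, b⟩ := h c W h1 h2 h3
  let ⟨E, a', b'⟩ := b.sub hμ
  ⟨E, a'.trans a, b'⟩

lemma ZLt.zl {μ : Cardinal.{u}} (h : ZLt S μ) {A : Set S} (hA : NM A) : ZL S μ :=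
  ⟨A, hA.1, fun B hB hn => h A Bᶜ hA hB.cl.isOpen_compl (not_subset.1 hn)⟩

lemma CB.z_lt0 (hS : CB S) : ZLt S Cardinal.aleph0 := fun c W h1 h2 h3 => by
  obtain ⟨D, a, b⟩ := hS.exists_cd_crd (h1.1.crd.inter_open h2) h3 h1.1.cl h1.1.sm
    inter_subset_left
  have := b.cnt.to_subtype
  have := b.inf.to_subtype
  exact ⟨D, a, b.dsc, Cardinal.mk_eq_aleph0 D⟩

/-- small discrete sets can be avoided -/
theorem CB.z_rd (hS : CB S) (hN : NN S) {μ : Cardinal.{u}} (hl : ZLt S μ)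
    (hi : Cardinal.aleph0 ≤ μ) {D : Set S} (hD : Disc D) (hs : sz D ≤ μ) : Rd D := by
  intro K x hK xK hx
  obtain ⟨C, c1, c2, c3⟩ := th_chain hN hK.1
  have nm : ∀ i, NM (C (i + 1)) := fun i => ⟨c1 _, C i, c1 i, c2 i, c3 i⟩
  obtain ⟨E, hE5, hE⟩ := hl (C 6) univ (nm 5) isOpen_univ (by simpa using (c1 6).ne)
  have hD' : DS μ ((E \ {x}) ∪ D) := hS.z_union hi ⟨hE.1.mono sdiff_subset,
    z_sz_diff hi hE.2 ((z_sz_mono inter_subset_right).trans_lt (z_sz_single hi x))⟩ hD hs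
  obtain ⟨g, hg⟩ := hS.z_eqv hE hD'
  obtain ⟨K', hK'⟩ : ∃ K' : ℕ → Set S, K' = fun i => Nat.casesOn i (g '' C 1 ∪ K)
    (fun j => g '' C (j + 2)) := ⟨_, rfl⟩
  have e0 : K' 0 = g '' C 1 ∪ K := by rw [hK']; rfl
  have e1 : ∀ j, K' (j + 1) = g '' C (j + 2) := fun j => by rw [hK']
  have hdeep : Deep K' ((E \ {x}) ∪ D) := by
    refine ⟨fun i => ?_, fun i => ?_, fun i => ?_, hD'.1, ?_⟩
    · rcases i with _ | i
      · rw [e0]; exact hS.mem_union ((c1 1).image g) hK.1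
      · rw [e1]; exact (c1 _).image g
    · rcases i with _ | i
      · rw [e0, e1]; exact (image_mono (c2 1)).trans subset_union_left
      · rw [e1, e1]; exact image_mono (c2 _)
    · rcases i with _ | i
      · rw [e0, e1]; exact ((c3 1).image g).union_right (image_mono (c2 1))
      · rw [e1, e1]; exact (c3 _).image g
    · rw [e1 4, ← hg]; exact image_mono (hE5.trans inter_subset_left)
  have hx' : x ∉ (E \ {x}) ∪ D := fun h => h.elim (fun h => h.2 (mem_singleton x)) hx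
  obtain ⟨W, hW, hDW, hxW⟩ := th_not_mem fun h => hx' (hS.z_theta (hl.zl hK) hi hdeep hD'
    (e0 ▸ hS.nm_union ((nm 0).image g) hK) h)
  have h1 : K ∩ (closure (K' 0 ∩ W))ᶜ ⊆ Wᶜ := fun y hy hyW =>
    hy.2 (subset_closure ⟨by rw [e0]; exact Or.inr hy.1, hyW⟩)
  exact ⟨_, mem_of_crd (hK.1.crd.inter_open isClosed_closure.isOpen_compl) ⟨x, xK, hxW⟩ hK.1.cl
    hK.1.sm inter_subset_left, closure_minimal inter_subset_left hK.1.cl,
    subset_closure ⟨xK, hxW⟩, disjoint_left.2 fun y hy hyD =>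
      closure_minimal h1 hW.isClosed_compl hy (hDW (Or.inr hyD))⟩

lemma CB.z_one (hS : CB S) (hN : NN S) (p : S) : Rd ({p} : Set S) :=
  hS.z_rd hN hS.z_lt0 le_rfl (disc_single p) (z_sz_single le_rfl p).le

/-- a poor open part of a member -/
theorem CB.z_poor (hS : CB S) (hN : NN S) :
    ∃ c W : Set S, NM c ∧ IsOpen W ∧ (c ∩ W).Nonempty ∧ Pr (c ∩ W) := by
  obtain ⟨M, hM⟩ := hS.exists_mem
  obtain ⟨A, a1, a2, a3⟩ := hN M hM
  have h1 : ¬ ZLt S (Order.succ (Cardinal.mk S)) := fun h => by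
    obtain ⟨D, -, b⟩ := h A univ ⟨a1, M, hM, a2, a3⟩ isOpen_univ (by simpa using a1.ne)
    exact absurd (b.2.ge.trans (Cardinal.mk_set_le D)) (not_le.2 (Order.lt_succ _))
  obtain ⟨ζ, z1, z2⟩ := (wellFounded_lt (α := Cardinal.{u})).has_min {κ | ¬ ZLt S κ} ⟨_, h1⟩
  have z3 : ∀ κ < ζ, ZLt S κ := fun κ h => by_contra fun h' => z2 κ h' h
  have z4 : Cardinal.aleph0 < ζ := lt_of_not_ge fun h => z1 (hS.z_lt0.le h)
  obtain ⟨c, W, b1, b2, b3, b4⟩ : ∃ c W : Set S, NM c ∧ IsOpen W ∧ (c ∩ W).Nonempty ∧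
      ¬ ∃ D ⊆ c ∩ W, DS ζ D := by
    by_contra hn
    exact z1 fun c W b1 b2 b3 => by_contra fun h => hn ⟨c, W, b1, b2, b3, h⟩
  refine ⟨c, W, b1, b2, b3, fun D s hD => ?_⟩
  have lt : sz D < ζ := lt_of_not_ge fun a =>
    let ⟨E, e1, e2⟩ := DS.sub ⟨hD, rfl⟩ a
    b4 ⟨E, e1.trans s, e2⟩
  exact hS.z_rd hN (z3 _ (max_lt lt z4)) (le_max_right _ _) hD (le_max_left _ _)

end Pool.Agent.Lib.MP_52f683_gt
end

-- part Pool.Agent.Lib.MP_52f683_gt.F.Z6
section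

set_option autoImplicit false
set_option linter.unusedSectionVars false

open Set Topology Filter

namespace Pool.Agent.Lib.MP_52f683_gt

universe u

variable {S : Type u} [TopologicalSpace S] [T1Space S] [Infinite S]

/-- members meet in crowded sets when every member has a nowhere dense submember -/
theorem CB.lf_nn (hS : CB S) (hN : NN S) : LFin (univ : Set S) := by
  have one := hS.z_one hN
  obtain ⟨c, W, c1, c2, c3, c4⟩ := hS.z_poor hN
  obtain ⟨n, b, U, W', hW, hne, hn, hU, fU, hU', o, hd, hp⟩ := hS.z_fw c1 c2 c3 c4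
  obtain ⟨d, d1, d2, d3⟩ := hS.z_abs hn o hd hp
  obtain ⟨t, t1, -, t2⟩ := hS.z_h1d one hW hU fU hU' d1 d2
    fun k _ _ => d3.mono fun z hz => ⟨hz.1.2, hz.2⟩
  exact hS.z_lf one hW hne hn t1 t2

end Pool.Agent.Lib.MP_52f683_gt
end
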