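import Pool.Agent.Lib.MP_52f683_gt.F.S0
import Pool.Agent.Lib.MP_52f683_gt.F.Z6

-- part Pool.Agent.Lib.MP_52f683_gt.F.S1
section

set_option autoImplicit false
set_option linter.unusedSectionVars false

open Set Topology Filter

namespace Pool.Agent.Lib.MP_52f683_gt

variable {S : Type*} [TopologicalSpace S] [T1Space S] [Infinite S]

section
variable (hS : SC S) {n n' b b' a0 a : Set S} {σ τ : S ≃ₜ S}
include hS

/-- moving a discrete set while two labelled discrete sets stay fixed -/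
lemma SC.fix1 (h : Ch n n' b b') {M D u0 u W U U' : Set S} (hM : Cs M) (fM : M ∩ n ⊆ b')
    (hD : Disc D) (sD : D ⊆ M \ n) (h0 : Cs u0) (h1 : Cs u) (fu : u0 ∩ (M ∪ n) ⊆ b')
    (su : u ⊆ u0) (wu : Nwd (u ∪ n) u0) (hW : Disc W) (sW : W ⊆ u \ n) (hU : Disc U)
    (hU' : Disc U') (e : Eqv U U') (dU : Disjoint U (n ∪ M ∪ u0))
    (dU' : Disjoint U' (n ∪ M ∪ u0)) :
    ∃ k : S ≃ₜ S, k '' U = U' ∧ k '' D = D ∧ k '' W = W ∧ k '' b = b ∧ k '' b' = b' := by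
  have p2 := (hS.pc_mk hM h.mn.cs hD sD disc_empty (empty_subset _)).1
  have p3 := (hS.pc_mk h0 (hS.cs_union h1 h.mn.cs) disc_empty (empty_subset _) hW
    fun y hy => ⟨Or.inl (sW hy).1, wu (su (sW hy).1)⟩).1
  have s2 : (M \ n) \ D ∪ ∅ ⊆ M \ n := union_subset sdiff_subset (empty_subset _)
  have s3 : (u0 \ (u ∪ n)) \ ∅ ∪ W ⊆ u0 \ n :=
    union_subset (fun y hy => ⟨hy.1.1, fun a => hy.1.2 (Or.inr a)⟩)
      (sW.trans (sdiff_subset_sdiff_left su))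
  have c3 := closure_minimal (s3.trans sdiff_subset) h0.cl
  have d1 : ∀ y ∈ M \ n, y ∉ u0 := fun y hy a => hy.2 (h.bn' (fu ⟨a, Or.inl hy.1⟩))
  have sp := sp_of_closed hM.cl h0.cl (s2.trans sdiff_subset) (s3.trans sdiff_subset)
    (disjoint_left.2 fun y hy => d1 y (s2 hy))
    (disjoint_left.2 fun y hy a => d1 y ⟨a, (s3 hy).2⟩ (s3 hy).1)
  have p := hS.pc_union p2 p3 sp (disjoint_left.2 fun y hy a => d1 y (sD hy) (c3 a))
    (empty_disjoint _)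
  have sp' := (h.sp (sdiff_subset (t := ∅)) hM.cl fM s2).union_right
    (h.sp (sdiff_subset (t := ∅)) h0.cl (fun y hy => fu ⟨hy.1, Or.inr hy.2⟩) s3)
  have cl : closure (Pin n n' b b' \ ∅ ∪ ((M \ n) \ D ∪ ∅ ∪ ((u0 \ (u ∪ n)) \ ∅ ∪ W))) ⊆
      n ∪ M ∪ u0 := by
    refine closure_minimal ?_ ((h.mn.cl.union hM.cl).union h0.cl)
    rintro y (hy | hy | hy)
    · exact Or.inl (Or.inl (h.pin_sub hy.1).1)
    · exact Or.inl (Or.inr (s2 hy).1)
    · exact Or.inr (s3 hy).1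
  obtain ⟨k, k1, k2⟩ := hS.cb.move
    ((hS.pin_hole h cs_empty (by simp)).1.union p.crd) hU hU' e (dU.mono_right cl)
    (dU'.mono_right cl)
  have dn : Disjoint (D ∪ ∅) n := by
    rw [union_empty]
    exact disjoint_left.2 fun y hy => (sD hy).2
  obtain ⟨a1, a2, a3, a4⟩ := hS.plabel h cs_empty (by simp) p p sp' sp' dn dn k1
  exact ⟨k, k2, by simpa using a4, by simpa using a3, a1, a2⟩

/-- shadows of a discrete set -/
lemma SC.shp (h : Sys n n' b b' a0 a σ τ) {E D M : Set S} (hE : Disc E) (sE : E ⊆ a \ n)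
    (hD : Disc D) (sD : D ⊆ M \ n) (hM : Mem M) (sM : M ⊆ a0) (d : Disjoint M E) :
    ∃ (O : Set S) (q : S ≃ₜ S), IsOpen O ∧ E ⊆ O ∧ q '' D = D ∧
      ∀ y ∈ D, y ∈ closure (a0 ∩ O) → q y ∉ closure (a0 ∩ O) := by
  have ch := h.ch
  have fM : M ∩ n ⊆ b' := fun y hy => h.fr ⟨sM hy.1, hy.2⟩
  have wu : Nwd (a ∪ n) a0 := h.w0.union h.n0 h.m1.cl
  have sE0 : E ⊆ a0 \ n := sE.trans (sdiff_subset_sdiff_left h.sub)
  have far : ∀ ρ : S ≃ₜ S, ρ '' n = n → ρ '' a0 ∩ (a0 ∪ n) ⊆ b' →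
      ∀ y ∈ a0 \ n, ρ y ∉ n ∧ ρ y ∉ a0 ∧ y ∉ ρ '' a0 := fun ρ r1 r2 y hy =>
    have a := mt (r_fix_mem r1 y).1 hy.2
    ⟨a, fun c => a (ch.bn' (r2 ⟨mem_image_of_mem _ hy.1, Or.inl c⟩)),
      fun c => hy.2 (ch.bn' (r2 ⟨c, Or.inl hy.1⟩))⟩
  have fix : ∀ ρ : S ≃ₜ S, ρ '' n = n → ρ '' a0 ∩ (a0 ∪ n) ⊆ b' → ∀ U U' : Set S, Disc U →
      Disc U' → Eqv U U' → Disjoint U (n ∪ M ∪ ρ '' a0) → Disjoint U' (n ∪ M ∪ ρ '' a0) →
      ∃ k : S ≃ₜ S, k '' U = U' ∧ k '' D = D ∧ k '' (ρ '' E) = ρ '' E ∧ k '' b = b ∧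
        k '' b' = b' := fun ρ r1 r2 U U' u1 u2 u3 u4 u5 =>
    hS.fix1 ch hM.cs fM hD sD (h.m0.image ρ).cs (h.m1.image ρ).cs
      ((inter_subset_inter_right _ (union_subset_union_left _ sM)).trans r2) (image_mono h.sub)
      (by have := wu.image ρ; rwa [image_union, r1] at this) (hE.image ρ)
      (by have := image_mono (f := ρ) sE; rwa [img_diff, r1] at this) u1 u2 u3 u4 u5
  have dE : ∀ ρ : S ≃ₜ S, ρ '' n = n → ρ '' a0 ∩ (a0 ∪ n) ⊆ b' →
      Disjoint E (n ∪ M ∪ ρ '' a0) := fun ρ r1 r2 => disjoint_left.2 fun y hy c =>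
    c.elim (fun c => c.elim (sE hy).2 fun c => disjoint_left.1 d c hy) (far ρ r1 r2 y (sE0 hy)).2.2
  have dW : ∀ ρ ρ' : S ≃ₜ S, ρ '' n = n → ρ '' a0 ∩ (a0 ∪ n) ⊆ b' → ρ '' a0 ∩ ρ' '' a0 ⊆ b' →
      Disjoint (ρ '' E) (n ∪ M ∪ ρ' '' a0) := fun ρ ρ' r1 r2 r3 => disjoint_left.2 (by
    rintro _ ⟨y, hy, rfl⟩ ((c | c) | c)
    · exact (far ρ r1 r2 y (sE0 hy)).1 c
    · exact (far ρ r1 r2 y (sE0 hy)).2.1 (sM c)
    · exact (far ρ r1 r2 y (sE0 hy)).1 (ch.bn' (r3 ⟨mem_image_of_mem _ (sE0 hy).1, c⟩)))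
  obtain ⟨k1, a1, a2, a3, a4, a5⟩ := fix τ h.tn h.tf E _ hE (hE.image σ) (r_eqv_img σ E)
    (dE τ h.tn h.tf) (dW σ τ h.sn h.sf h.st)
  obtain ⟨k2, b1, b2, b3, b4, b5⟩ := fix σ h.sn h.sf _ E (hE.image τ) hE (r_eqv_img τ E).symm
    (dW τ σ h.tn h.tf (inter_comm _ _ ▸ h.st)) (dE σ h.sn h.sf)
  obtain ⟨q, q1, q2, q3, q4, q5⟩ : ∃ q : S ≃ₜ S, q '' E = σ '' E ∧ q '' (τ '' E) = E ∧
      q '' D = D ∧ q '' b = b ∧ q '' b' = b' :=
    ⟨k1.trans k2, by rw [img_trans, a1, b3], by rw [img_trans, a3, b1], by rw [img_trans, a2, b2],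
      r_fix_trans a4 b4, r_fix_trans a5 b5⟩
  have ht := h.m0.image q
  have e1 : ∀ y ∈ E, y ∉ q '' a0 := fun y hy c => by
    rw [← q2] at hy
    obtain ⟨_, ⟨w, hw, rfl⟩, rfl⟩ := hy
    exact (far τ h.tn h.tf w (sE0 hw)).2.1 ((mem_img q).1 c)
  have e2 : ∀ y ∈ E, q y ∉ n ∪ a0 := fun y hy c => by
    obtain ⟨w, hw, e⟩ : q y ∈ σ '' E := q1 ▸ mem_image_of_mem _ hy
    rw [← e] at c
    exact c.elim (far σ h.sn h.sf w (sE0 hw)).1 (far σ h.sn h.sf w (sE0 hw)).2.1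
  have ft : q '' a0 ∩ b ⊆ b' := by
    rintro _ ⟨⟨w, hw, rfl⟩, c⟩
    exact (r_fix_mem q5 w).2 (h.fr ⟨hw, ch.bn ((r_fix_mem q4 w).1 c)⟩)
  have hF := (hS.cs_union ch.mn.cs h.m0.cs).image q.symm
  have p2 := (hS.pc_mk h.m0.cs (hS.cs_union ht.cs ch.mn.cs) hE
    (fun y hy => ⟨(sE0 hy).1, fun c => c.elim (e1 y hy) (sE hy).2⟩) disc_empty (empty_subset _)).1
  have p3 := (hS.pc_mk h.m0.cs (hS.cs_union (hS.cs_union h.m1.cs ch.mn.cs) hF) disc_empty
    (empty_subset _) hE fun y hy => ⟨Or.inl (Or.inl (sE hy).1), by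
      rw [← sdiff_sdiff]
      exact cl_diff_closed hF.cl (fun c => e2 y hy ((r_mem_symm q).1 c)) (wu (sE0 hy).1)⟩).1
  set B2 := (a0 \ (q '' a0 ∪ n)) \ E ∪ ∅ with hB2
  set B3 := (a0 \ (a ∪ n ∪ q.symm '' (n ∪ a0))) \ ∅ ∪ E with hB3
  have s2 : B2 ⊆ a0 \ (q '' a0 ∪ n) := union_subset sdiff_subset (empty_subset _)
  have s2' : B2 ⊆ a0 \ n := fun y hy => ⟨(s2 hy).1, fun c => (s2 hy).2 (Or.inr c)⟩
  have s3 : B3 ⊆ a0 \ n :=
    union_subset (fun y hy => ⟨hy.1.1, fun c => hy.1.2 (Or.inl (Or.inr c))⟩) sE0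
  have s4 : ∀ y ∈ q '' B3, y ∉ n ∪ a0 := by
    rintro _ ⟨w, hw | hw, rfl⟩ c
    · exact hw.1.2 (Or.inr ((r_mem_symm q).2 c))
    · exact e2 w hw c
  have s5 : q '' B3 ⊆ q '' a0 := image_mono (s3.trans sdiff_subset)
  have s6 : σ '' B3 ⊆ σ '' a0 \ n := by
    have := image_mono (f := σ) s3
    rwa [img_diff, h.sn] at this
  have hσ := h.m0.image σ
  have d6 : ∀ y ∈ a0 \ n, y ∉ σ '' a0 := fun y hy => (far σ h.sn h.sf y hy).2.2
  have t1 : Sp B2 (q '' B3) := sp_of_closed h.m0.cl ht.cl (s2'.trans sdiff_subset) s5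
    (disjoint_left.2 fun y hy c => (s2 hy).2 (Or.inl c))
    (disjoint_left.2 fun y hy c => s4 y hy (Or.inr c))
  have t2 : Sp B2 (σ '' B3) := sp_of_closed h.m0.cl hσ.cl (s2'.trans sdiff_subset)
    (s6.trans sdiff_subset) (disjoint_left.2 fun y hy => d6 y (s2' hy))
    (disjoint_left.2 fun y hy c => d6 y ⟨c, (s6 hy).2⟩ (s6 hy).1)
  have t0 := ch.sp (sdiff_subset (t := q '' a0)) h.m0.cl h.fr s2'
  have t3 := t0.union_right (sp_of_closed (A := Pin n n' b b' \ q '' a0) ch.mn.cl ht.cl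
    (fun y hy => (ch.pin_sub hy.1).1) s5 disjoint_sdiff_left
    (disjoint_left.2 fun y hy c => s4 y hy (Or.inl c)))
  have t4 := t0.union_right (ch.sp (sdiff_subset (t := q '' a0)) hσ.cl
    (fun y hy => h.sf ⟨hy.1, Or.inr hy.2⟩) s6)
  obtain ⟨f, hf⟩ := hS.cb.thin.glueE (Eqv.rfl' _) (hS.cb.thin.glueE (Eqv.rfl' B2)
    ((r_eqv_img q B3).symm.trans (r_eqv_img σ B3)) t1 t2) t3 t4
  have dn : ∀ ρ : S ≃ₜ S, Disjoint (E ∪ ρ '' ∅) n := fun ρ => by
    rw [image_empty, union_empty]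
    exact disjoint_left.2 fun y hy => (sE hy).2
  obtain ⟨f1, -, f2, f3⟩ := hS.plabel ch ht.cs ft
    (hS.pc_union p2 (p3.image q) t1
      (disjoint_left.2 fun y hy c => e1 y hy (closure_minimal s5 ht.cl c)) (by simp))
    (hS.pc_union p2 (p3.image σ) t2 (disjoint_left.2 fun y hy c =>
      d6 y (sE0 hy) (closure_minimal (s6.trans sdiff_subset) hσ.cl c)) (by simp))
    t3 t4 (dn q) (dn σ) hf
  simp only [image_empty, union_empty, empty_union] at f2 f3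
  have cq : Continuous fun w => f (q w) := f.continuous.comp q.continuous
  have o1 : IsOpen (f ⁻¹' (n ∪ σ '' a0)ᶜ ∩ (q '' a0 ∪ n)ᶜ) :=
    ((ch.mn.cl.union hσ.cl).isOpen_compl.preimage f.continuous).inter
      (ht.cl.union ch.mn.cl).isOpen_compl
  have o2 : IsOpen ((fun w => f (q w)) ⁻¹' (n ∪ a0)ᶜ ∩ (n ∪ q.symm '' (n ∪ a0))ᶜ) :=
    ((ch.mn.cl.union h.m0.cl).isOpen_compl.preimage cq).inter (ch.mn.cl.union hF.cl).isOpen_compl
  refine ⟨_, q.symm, o1.inter o2, fun y hy => ⟨⟨?_, ?_⟩, ?_, ?_⟩, r_fix_symm q3,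
    fun y hy c1 c2 => ?_⟩
  · have : f y ∈ E := f3 ▸ mem_image_of_mem _ hy
    exact fun c => c.elim (sE this).2 (d6 _ (sE0 this))
  · exact fun c => c.elim (e1 y hy) (sE hy).2
  · obtain ⟨w, hw, e⟩ : f (q y) ∈ σ '' E := f2 ▸ mem_image_of_mem _ (mem_image_of_mem _ hy)
    intro (c : f (q y) ∈ n ∪ a0)
    rw [← e] at c
    exact c.elim (far σ h.sn h.sf w (sE0 hw)).1 (far σ h.sn h.sf w (sE0 hw)).2.1
  · exact fun c => c.elim (sE hy).2 fun c => e2 y hy ((r_mem_symm q).1 c)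
  have g1 : f y ∈ a0 := by
    refine closure_minimal (t := f ⁻¹' a0) (fun z hz => ?_) (h.m0.cl.preimage f.continuous) c1
    by_cases hz' : z ∈ E
    · exact (sE0 (f3 ▸ mem_image_of_mem _ hz')).1
    have := hf.subset (mem_image_of_mem f (show z ∈ _ from
      Or.inr (Or.inl (Or.inl ⟨⟨hz.1, hz.2.1.2⟩, hz'⟩))))
    rcases this with c | c | c
    · exact absurd (Or.inl (ch.pin_sub c.1).1) hz.2.1.1
    · exact (s2 c).1
    · exact absurd (Or.inr (s6 c).1) hz.2.1.1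
  have g2 : f (q (q.symm y)) ∈ σ '' a0 := by
    have cl := hσ.cl.preimage cq
    refine closure_minimal (t := (fun w => f (q w)) ⁻¹' (σ '' a0)) (fun z hz => ?_) cl c2
    refine closure_minimal (t := (fun w => f (q w)) ⁻¹' (σ '' a0)) (fun w hw => ?_) cl
      (cl_inter_open o2 hz.2.2 (h.w0 hz.1))
    have hw' : w ∈ B3 := Or.inl ⟨⟨hw.1.1, fun c => c.elim (fun c => c.elim hw.1.2
      fun c => hw.2.2 (Or.inl c)) fun c => hw.2.2 (Or.inr c)⟩, id⟩
    have := hf.subset (mem_image_of_mem f (show q w ∈ _ from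
      Or.inr (Or.inr (mem_image_of_mem q hw'))))
    rcases this with c | c | c
    · exact absurd (Or.inl (ch.pin_sub c.1).1) hw.2.1
    · exact absurd (Or.inr (s2 c).1) hw.2.1
    · exact (s6 c).1
  rw [q.apply_symm_apply] at g2
  exact (sD hy).2 (ch.bn ((r_fix_mem f1 y).1 (ch.s3 (h.sf ⟨g2, Or.inl g1⟩))))

/-- a point is not in the closure of a neighbourhood of a discrete set -/
lemma SC.rr (h : Sys n n' b b' a0 a σ τ) {E : Set S} {x : S} (hE : Disc E) (sE : E ⊆ a \ n)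
    (hx : x ∈ a0 \ n) (hxE : x ∉ E) : ∃ O : Set S, IsOpen O ∧ E ⊆ O ∧ x ∉ closure (a0 ∩ O) := by
  obtain ⟨M, m1, m2, m3⟩ := hS.mi E n x hE h.ch.mn (disjoint_left.2 fun y hy => (sE hy).2) hxE
  obtain ⟨O, q, o1, o2, o3, o4⟩ := hS.shp h hE sE (disc_single x)
    (singleton_subset_iff.2 (show x ∈ (M ∩ a0) \ n from ⟨⟨m2, hx.1⟩, hx.2⟩)) (hS.mem_inter m1 h.m0 m2 hx.1) inter_subset_right
    (m3.mono_left inter_subset_left)
  refine ⟨O, o1, o2, fun c => o4 x rfl c ?_⟩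
  rwa [show q x = x by simpa using o3]

end

end Pool.Agent.Lib.MP_52f683_gt
end

-- part Pool.Agent.Lib.MP_52f683_gt.F.S2
section

set_option autoImplicit false
set_option linter.unusedSectionVars false

open Set Topology Filter

namespace Pool.Agent.Lib.MP_52f683_gt

variable {S : Type*} [TopologicalSpace S] [T1Space S] [Infinite S]

section
variable (hS : SC S) {n n' b b' a0 a : Set S} {σ τ : S ≃ₜ S}
include hS

/-- cutting a member along the boundary of an open part -/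
lemma SC.cut (h : Ch n n' b b') {c W F D E Q : Set S} (hc : Mem c) (nc : Nwd n c)
    (fc : c ∩ n ⊆ b') (hW : IsOpen W) (g : S ≃ₜ S) (o1 : ∀ y ∈ c ∩ W, y ∉ n ∧ g y ∉ n)
    (fg : g '' closure (c ∩ W) ∩ (c ∪ n) ⊆ b') (hF : Cs F) (wF : Nwd F (c ∩ W)) (hD : Disc D)
    (sD : D ⊆ c \ (closure (c ∩ W) ∪ n)) (hE : Disc E) (sE : E ⊆ (c ∩ W) \ F) (hQ : Disc Q)
    (sQ : Q ⊆ c ∩ W ∩ F) :
    ∃ (k : S ≃ₜ S) (N : Set S), k '' (D ∪ E) = D ∪ g '' E ∧ k '' Q = g '' Q ∧ ClopIn N (c \ n) ∧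
      k '' N ⊆ g '' closure (c ∩ W) \ n ∧ (∀ y ∈ N, k y ∈ g '' closure (c ∩ W)) ∧
      ∀ y ∈ c \ n, k y ∈ g '' closure (c ∩ W) → y ∈ N := by
  have hr : Cs (closure (c ∩ W)) := cs_cl (hc.crd.inter_open hW) hc.cl hc.sm inter_subset_left
  set r := closure (c ∩ W) with er
  have rc : r ⊆ c := closure_minimal inter_subset_left hc.cl
  have hr' : Cs (closure (c \ r)) := cs_cl (hc.crd.diff_closed hr.cl) hc.cl hc.sm sdiff_subset
  set r' := closure (c \ r) with er'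
  have rc' : r' ⊆ c := closure_minimal sdiff_subset hc.cl
  have dW : ∀ y ∈ W, y ∉ r' := fun y hy a =>
    closure_minimal (t := Wᶜ) (fun z hz b => hz.2 (subset_closure ⟨hz.1, b⟩)) hW.isClosed_compl a hy
  have hF3 := hS.cs_union (hS.cs_union hr' (hS.cs_union h.mn.cs (h.mn.cs.image g.symm))) hF
  have i1 : (c ∩ W) \ F ⊆ c \ (r' ∪ (n ∪ g.symm '' n) ∪ F) := by
    rintro y hy
    refine ⟨hy.1.1, ?_⟩
    rintro ((a | a | a) | a)
    · exact dW y hy.1.2 a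
    · exact (o1 y hy.1).1 a
    · exact (o1 y hy.1).2 ((r_mem_symm g).1 a)
    · exact hy.2 a
  have i2 : c \ r' ⊆ r := fun y hy => by_contra fun a => hy.2 (subset_closure ⟨hy.1, a⟩)
  have i3 : closure (c \ (r' ∪ (n ∪ g.symm '' n) ∪ F)) = r :=
    (closure_minimal (fun y hy => i2 ⟨hy.1, fun a => hy.2 (Or.inl (Or.inl a))⟩) hr.cl).antisymm
      (closure_minimal (wF.trans (closure_mono i1)) isClosed_closure)
  have i4 : closure (c \ (r ∪ n)) = r' :=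
    (closure_mono (sdiff_subset_sdiff_right subset_union_left)).antisymm
      (closure_minimal (fun y hy => by
        have := cl_diff_closed hr.cl hy.2 (nc hy.1)
        rwa [sdiff_sdiff, union_comm] at this) isClosed_closure)
  obtain ⟨p2, c2⟩ := hS.pc_mk hc.cs (hS.cs_union hr h.mn.cs) hD sD disc_empty (empty_subset _)
  obtain ⟨p3, c3⟩ := hS.pc_mk hc.cs hF3 hE (sE.trans i1) hQ
    fun y hy => ⟨Or.inr (sQ hy).2, i3 ▸ subset_closure (sQ hy).1⟩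
  rw [i4] at c2
  rw [i3] at c3
  set T2 := (c \ (r ∪ n)) \ D ∪ ∅
  set T3 := (c \ (r' ∪ (n ∪ g.symm '' n) ∪ F)) \ E ∪ Q
  have s2 : T2 ⊆ c \ (r ∪ n) := union_subset sdiff_subset (empty_subset _)
  have s2' : T2 ⊆ c \ n := fun y hy => ⟨(s2 hy).1, fun a => (s2 hy).2 (Or.inr a)⟩
  have s3 : ∀ y ∈ T3, y ∈ c ∧ y ∉ r' ∧ y ∉ n ∧ g y ∉ n := by
    rintro y (hy | hy)
    · exact ⟨hy.1.1, fun a => hy.1.2 (Or.inl (Or.inl a)),
        fun a => hy.1.2 (Or.inl (Or.inr (Or.inl a))),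
        fun a => hy.1.2 (Or.inl (Or.inr (Or.inr ((r_mem_symm g).2 a))))⟩
    · exact ⟨(sQ hy).1.1, dW y (sQ hy).1.2, o1 y (sQ hy).1⟩
  have hg := hr.image g
  have s4 : g '' T3 ⊆ g '' r \ n := by
    rintro _ ⟨y, hy, rfl⟩
    exact ⟨mem_image_of_mem _ (c3 ▸ subset_closure hy), (s3 y hy).2.2.2⟩
  have d1 : ∀ y ∈ c \ n, y ∉ g '' r := fun y hy a => hy.2 (h.bn' (fg ⟨a, Or.inl hy.1⟩))
  have t1 : Sp T2 T3 := ⟨c3 ▸ disjoint_left.2 fun y hy a => (s2 hy).2 (Or.inl a),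
    c2 ▸ disjoint_left.2 fun y hy => (s3 y hy).2.1⟩
  have t2 : Sp T2 (g '' T3) := sp_of_closed hc.cl hg.cl (s2'.trans sdiff_subset)
    (s4.trans sdiff_subset) (disjoint_left.2 fun y hy => d1 y (s2' hy))
    (disjoint_left.2 fun y hy a => d1 y ⟨a, (s4 hy).2⟩ (s4 hy).1)
  have t0 := h.sp (sdiff_subset (t := ∅)) hc.cl fc s2'
  have t3 := t0.union_right (h.sp (sdiff_subset (t := ∅)) hc.cl fc
    (A := T3) fun y hy => ⟨(s3 y hy).1, (s3 y hy).2.2.1⟩)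
  have t4 := t0.union_right (h.sp (sdiff_subset (t := ∅)) hg.cl
    (fun y hy => fg ⟨hy.1, Or.inr hy.2⟩) s4)
  obtain ⟨k, hk⟩ := hS.cb.thin.glueE (Eqv.rfl' _) (hS.cb.thin.glueE (Eqv.rfl' T2)
    (r_eqv_img g T3) t1 t2) t3 t4
  have dD : Disjoint D n := disjoint_left.2 fun y hy a => (sD hy).2 (Or.inr a)
  have sD' : D ⊆ c \ n := fun y hy => ⟨(sD hy).1, disjoint_left.1 dD hy⟩
  have gE : ∀ y ∈ g '' E, y ∈ g '' r \ n := by
    rintro _ ⟨y, hy, rfl⟩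
    exact ⟨mem_image_of_mem _ (subset_closure (sE hy).1), (o1 y (sE hy).1).2⟩
  obtain ⟨-, k1, k2, k3⟩ := hS.plabel h cs_empty (by simp)
    (hS.pc_union p2 p3 t1 (c3 ▸ disjoint_left.2 fun y hy a => (sD hy).2 (Or.inl a))
      (c2 ▸ disjoint_left.2 fun y hy => dW y (sE hy).1.2))
    (hS.pc_union p2 (p3.image g) t2
      (disjoint_left.2 fun y hy a => d1 y (sD' hy)
        (closure_minimal (s4.trans sdiff_subset) hg.cl a))
      (c2 ▸ disjoint_left.2 fun y hy a => d1 y ⟨rc' a, (gE y hy).2⟩ (gE y hy).1))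
    t3 t4 (disjoint_union_left.2 ⟨dD, disjoint_left.2 fun y hy => (o1 y (sE hy).1).1⟩)
    (disjoint_union_left.2 ⟨dD, disjoint_left.2 fun y hy => (gE y hy).2⟩) hk
  have u1 : ∀ y ∈ c, k y ∈ n ∪ r' ∪ g '' r := fun y hy => by
    have a : y ∈ closure (Pin n n' b b' \ ∅ ∪ (T2 ∪ T3)) := by
      refine closure_mono subset_union_right ?_
      rw [closure_union, c2, c3]
      exact by_contra fun a => a (Or.inr (i2 ⟨hy, fun e => a (Or.inl e)⟩))
    rw [← r_cl_img k, hk] at a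
    refine closure_minimal ?_ ((h.mn.cl.union hr'.cl).union hg.cl) a
    rintro z (hz | hz | hz)
    · exact Or.inl (Or.inl (h.pin_sub hz.1).1)
    · exact Or.inl (Or.inr (c2 ▸ subset_closure hz))
    · exact Or.inr (s4 hz).1
  have u2 : ∀ y ∈ c \ n, k y ∈ g '' r → k y ∉ n ∪ r' := fun y hy a e =>
    hy.2 (h.bn' ((r_fix_mem k1 y).1 (fg ⟨a, e.elim Or.inr fun e => Or.inl (rc' e)⟩)))
  refine ⟨k, (c \ n) ∩ k ⁻¹' (g '' r), k3, by simpa using k2, ⟨inter_subset_left, ?_⟩, ?_,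
    fun y hy => hy.2, fun y hy a => ⟨hy, a⟩⟩
  · exact sp_of_closed (hg.cl.preimage k.continuous)
      ((h.mn.cl.union hr'.cl).preimage k.continuous) inter_subset_right
      (fun y hy => (u1 y hy.1.1).resolve_right fun a => hy.2 ⟨hy.1, a⟩)
      (disjoint_left.2 fun y hy => u2 y hy.1 hy.2) (disjoint_left.2 fun y hy a => hy.2 ⟨hy.1, a⟩)
  · rintro _ ⟨y, hy, rfl⟩
    exact ⟨hy.2, fun a => u2 y hy.1 hy.2 (Or.inl a)⟩

/-- an embedded open germ contains an embedded clopen neighbourhood -/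
lemma SC.pc (h : Ch n n' b b') {c W d : Set S} {x : S} (hc : Mem c) (nc : Nwd n c)
    (fc : c ∩ n ⊆ b') (hx : x ∈ c \ n) (hW : IsOpen W) (hxW : x ∈ W) (g : S ≃ₜ S)
    (hd : IsClosed d) (hg : g '' (c ∩ W) ⊆ d \ n) (fd : d ∩ (c ∪ n) ⊆ b') :
    ∃ (k : S ≃ₜ S) (N : Set S), ClopIn N (c \ n) ∧ x ∈ N ∧
      k '' N ⊆ g '' closure (c ∩ W) \ n := by
  have s : c ∩ (W ∩ nᶜ) ⊆ c ∩ W := fun y hy => ⟨hy.1, hy.2.1⟩
  obtain ⟨k, N, k1, -, k2, k3, -, k4⟩ := hS.cut h (D := ∅) (E := {x}) (Q := ∅) hc nc fc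
    (hW.inter h.mn.cl.isOpen_compl) g
    (fun y hy => ⟨hy.2.2, (hg (mem_image_of_mem _ (s hy))).2⟩)
    (fun y hy => fd ⟨by
      have := hy.1
      rw [img_cl] at this
      exact closure_minimal ((image_mono s).trans (hg.trans sdiff_subset)) hd this, hy.2⟩)
    cs_empty (r_nwd_disj (disjoint_empty _)) disc_empty (empty_subset _) (disc_single x)
    (singleton_subset_iff.2 ⟨⟨hx.1, hxW, hx.2⟩, id⟩) disc_empty (empty_subset _)
  refine ⟨k, N, k2, k4 x hx ?_, k3.trans (sdiff_subset_sdiff_left (image_mono (closure_mono s)))⟩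
  rw [show k x = g x by simpa using k1]
  exact mem_image_of_mem _ (subset_closure ⟨hx.1, hxW, hx.2⟩)

/-- clopen neighbourhoods off discrete sets -/
lemma SC.reg (h : Sys n n' b b' a0 a σ τ) {D : Set S} {x : S} (hD : Disc D) (sD : D ⊆ a \ n)
    (hx : x ∈ a \ n) (hxD : x ∉ D) : ∃ N, ClopIn N (a \ n) ∧ x ∈ N ∧ Disjoint N D := by
  have s0 : a \ n ⊆ a0 \ n := sdiff_subset_sdiff_left h.sub
  obtain ⟨O, o1, o2, o3⟩ := hS.rr h hD sD (s0 hx) hxD
  have hW : IsOpen ((closure (a0 ∩ O))ᶜ ∩ nᶜ) :=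
    isClosed_closure.isOpen_compl.inter h.ch.mn.cl.isOpen_compl
  have rc : closure (a0 ∩ ((closure (a0 ∩ O))ᶜ ∩ nᶜ)) ⊆ a0 :=
    closure_minimal inter_subset_left h.m0.cl
  obtain ⟨k, N, k1, k2, k3, -, k4, k5⟩ := hS.cut h.ch (D := D) (E := ∅) (Q := {x}) h.m0 h.n0 h.fr
    hW σ (fun y hy => ⟨hy.2.2, mt (r_fix_mem h.sn y).1 hy.2.2⟩)
    ((inter_subset_inter_left _ (image_mono rc)).trans h.sf) h.m1.cs
    (fun y hy => closure_mono (fun z hz => (Set.mem_sdiff z).2 ⟨Set.mem_inter hz.1.1 hz.2, hz.1.2⟩)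
      (cl_inter_open hW hy.2 (h.w0 hy.1))) hD
    (fun y hy => ⟨(s0 (sD hy)).1, fun e => e.elim (fun e => closure_minimal (t := Oᶜ)
      (fun z hz f => hz.2.1 (subset_closure ⟨hz.1, f⟩)) o1.isClosed_compl e (o2 hy)) (sD hy).2⟩)
    disc_empty (empty_subset _) (disc_single x)
    (singleton_subset_iff.2 ⟨⟨h.sub hx.1, o3, hx.2⟩, hx.1⟩)
  refine ⟨N ∩ (a \ n), k3.trace s0, ⟨k5 x (s0 hx) ?_, hx⟩, disjoint_left.2 fun y hy e => ?_⟩
  · rw [show k x = σ x by simpa using k2]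
    exact mem_image_of_mem _ (subset_closure ⟨h.sub hx.1, o3, hx.2⟩)
  · have : k y ∈ D := by
      rw [union_empty, image_empty, union_empty] at k1
      exact k1 ▸ mem_image_of_mem _ e
    exact (sD this).2 (h.ch.bn' (h.sf ⟨image_mono rc (k4 y hy.1), Or.inl (h.sub (sD this).1)⟩))

lemma SC.qc (h : Sys n n' b b' a0 a σ τ) : ∀ x ∈ a \ n, QC (a \ n) x = {x} := by
  intro x hx
  refine (subset_singleton_iff.2 fun y hy => ?_).antisymm
    (singleton_subset_iff.2 ⟨hx, fun _ _ k => k⟩)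
  by_contra hne
  obtain ⟨N, n1, n2, n3⟩ := hS.reg h (disc_single y) (singleton_subset_iff.2 hy.1) hx
    (Ne.symm hne)
  exact disjoint_singleton_right.1 n3 (hy.2 N n1 n2)

end

end Pool.Agent.Lib.MP_52f683_gt
end

-- part Pool.Agent.Lib.MP_52f683_gt.F.S3
section

set_option autoImplicit false
set_option linter.unusedSectionVars false

open Set Topology Filter

namespace Pool.Agent.Lib.MP_52f683_gt

variable {S : Type*} [TopologicalSpace S] [T1Space S] [Infinite S]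

/-- a sequence that follows a decreasing sequence of sets -/
lemma s3_der {M : ℕ → Set S} {z : ℕ → S} (hM : Antitone M) (hz : ∀ i, z i ∈ M i) (j : ℕ) :
    derivedSet (range z) ⊆ closure (M j) := by
  refine (der_sub_of_fin (((finite_Iio j).image z).subset ?_)).trans der_sub_cl
  rintro _ ⟨⟨i, rfl⟩, hi⟩
  exact ⟨i, not_le.1 fun e => hi (hM e (hz i)), rfl⟩

section
variable (hS : SC S) (hs : HasSharp S) {n n' b b' a0 a : Set S} {σ τ : S ≃ₜ S}
include hS hs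

/-- a sharp germ inside a given member -/
lemma SC.resharp {s n : Set S} {x : S} (h : Mem s) (hn : Mem n) (hx : x ∈ s \ n) :
    ∃ c, Mem c ∧ c ⊆ s ∧ Nwd n c ∧ x ∈ c ∧ Sharp (c \ n) x := by
  obtain ⟨V, cV, mV, xV, hV, hsh⟩ := hs
  have hxV : xV ∈ cV \ mV := by
    obtain ⟨W, h1, -⟩ := hsh
    exact hV.eq.subset ((h1 0).1.1 (h1 0).2)
  obtain ⟨k, rfl⟩ := hS.cb.thin.homog xV x
  obtain ⟨c1, m1, x1, f1⟩ := hS.h1 hn (Cs.image ⟨hV.cl, hV.crd, hV.sm⟩ k) (x := k xV)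
    fun e => hxV.2 ((mem_img k).1 e)
  have x2 : k xV ∈ k '' cV := mem_image_of_mem _ hxV.1
  have x3 : k xV ∈ (s ∩ k '' cV ∩ c1) \ n := ⟨⟨⟨hx.1, x2⟩, x1⟩, hx.2⟩
  obtain ⟨a1, a2, a3⟩ := s_core
    (hS.mem_inter (hS.mem_inter h (hV.mem.image k) hx.1 x2) m1 ⟨hx.1, x2⟩ x1) hn.cl x3
  refine ⟨_, a1, fun y hy => (a2 hy).1.1, a3, subset_closure x3,
    s21_sharp hsh k (fun y hy => ?_) ⟨subset_closure x3, hx.2⟩⟩
  rw [hV.eq, img_diff]
  exact ⟨(a2 hy.1).1.2, fun e => hy.2 (f1 ⟨(a2 hy.1).2, e⟩)⟩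

/-- members that decrease into `n` -/
lemma SC.sigma (h : Sys n n' b b' a0 a σ τ) : ∃ (M : ℕ → Set S) (z : ℕ → S),
    (∀ i, Mem (M i)) ∧ Antitone M ∧ (⋂ i, M i) ⊆ n ∧ ∀ i, z i ∈ M i \ n := by
  obtain ⟨x, hx⟩ := h.whole.ne
  obtain ⟨c, hc, ca, nc, -, V, v1, v2, v3⟩ := hS.resharp hs h.m1 h.ch.mn hx
  have cV : ∀ i, Crd (V i) := fun i => (s_whole hc h.ch.mn.cs nc).crdX.clop (v1 i).1
  have ez : ∀ i, ∃ z, z ∈ V i \ {x} := fun i =>
    closure_nonempty_iff.1 ⟨x, mem_cl_diff_single (cV i (v1 i).2)⟩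
  choose z hz using ez
  have zc : ∀ i, z i ∈ c \ n := fun i => (v1 i).1.1 (hz i).1
  have key : ∀ y ∈ c \ n, (∀ i, y ∈ closure (V i)) → y = x := fun y hy e =>
    v3.subset (mem_iInter.2 fun i => (v1 i).1.closed ⟨e i, hy⟩)
  have hD : Disc (range z) := by
    refine disjoint_left.2 ?_
    rintro _ ⟨j, rfl⟩ hd
    exact (hz j).2 (key _ (zc j) fun i => s3_der v2 (fun i => (hz i).1) i hd)
  obtain ⟨O, o1, o2, o3⟩ := hS.rr h hD (range_subset_iff.2 fun i => ⟨ca (zc i).1, (zc i).2⟩)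
    (x := x) ⟨h.sub hx.1, hx.2⟩ fun ⟨i, e⟩ => (hz i).2 e
  have sV : ∀ i, V i ∩ O ⊆ c := fun i y hy => ((v1 i).1.1 hy.1).1
  have zO : ∀ i, z i ∈ V i ∩ O := fun i => ⟨(hz i).1, o2 (mem_range_self i)⟩
  refine ⟨fun i => closure (V i ∩ O), z,
    fun i => mem_of_crd ((cV i).inter_open o1) ⟨_, zO i⟩ hc.cl hc.sm (sV i),
    fun i j e => closure_mono (inter_subset_inter_left _ (v2 e)), fun y hy => ?_,
    fun i => ⟨subset_closure (zO i), (zc i).2⟩⟩
  by_contra hn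
  have h1 := mem_iInter.1 hy
  have h2 := key y ⟨closure_minimal (sV 0) hc.cl (h1 0), hn⟩ fun i =>
    closure_mono inter_subset_left (h1 i)
  have h3 : V 0 ∩ O ⊆ a0 ∩ O := fun w hw => ⟨h.sub (ca (sV 0 hw)), hw.2⟩
  exact o3 (h2 ▸ closure_mono h3 (h1 0))

/-- a member over a countable discrete set misses another discrete set -/
lemma SC.sepw (h : Sys n n' b b' a0 a σ τ) {D E : Set S} (hD : CD D) (sD : D ⊆ a0 \ n)
    (hE : Disc E) (dE : Disjoint E n) (d : Disjoint D E) :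
    ∃ M, Mem M ∧ M ⊆ a0 ∧ D ⊆ M ∧ Disjoint M E := by
  obtain ⟨M, z, m1, m2, m3, m4⟩ := hS.sigma hs h
  have hn := h.ch.mn
  have off : ∀ y, y ∉ n → ∃ j, y ∉ M j := fun y hy => by
    by_contra e
    exact hy (m3 (mem_iInter.2 fun j => by_contra fun e' => e ⟨j, e'⟩))
  have zn : Disjoint (range z) n := disjoint_left.2 (by rintro _ ⟨i, rfl⟩; exact (m4 i).2)
  have hD0 : CD (range z) := by
    refine ⟨fun hf => ?_, countable_range z, zn.mono_right fun y hy => m3 (mem_iInter.2 fun j =>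
      (m1 j).cl.closure_subset (s3_der m2 (fun i => (m4 i).1) j hy))⟩
    have e : ∀ᶠ j in atTop, ∀ y ∈ range z, y ∉ M j := by
      refine (eventually_all_finite hf).2 fun y hy => ?_
      obtain ⟨j, hj⟩ := off y (disjoint_left.1 zn hy)
      exact (eventually_ge_atTop j).mono fun i hi e => hj (m2 hi e)
    obtain ⟨j, hj⟩ := e.exists
    exact hj _ (mem_range_self j) (m4 j).1
  obtain ⟨k, k1, k2⟩ := hS.cb.move_cd hn.crd hD0 hD (by rwa [hn.cl.closure_eq])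
    (by rw [hn.cl.closure_eq]; exact disjoint_left.2 fun y hy => (sD hy).2)
  have zD : ∀ i, k (z i) ∈ D := fun i => k2 ▸ mem_image_of_mem k (mem_range_self i)
  choose U u1 u2 u3 using fun i => hS.mi E n (k (z i)) hE hn dE (disjoint_left.1 d (zD i))
  have zV : ∀ i, k (z i) ∈ U i ∩ k '' M i ∩ a0 := fun i =>
    ⟨⟨u2 i, mem_image_of_mem _ (m4 i).1⟩, (sD (zD i)).1⟩
  have mV : ∀ i, Mem (U i ∩ k '' M i ∩ a0) := fun i =>
    hS.mem_inter (hS.mem_inter (u1 i) ((m1 i).image k) (zV i).1.1 (zV i).1.2) h.m0 (zV i).1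
      (zV i).2
  have sV : (⋃ i, U i ∩ k '' M i ∩ a0) ⊆ a0 := iUnion_subset fun i => inter_subset_right
  refine ⟨closure (⋃ i, U i ∩ k '' M i ∩ a0), mem_of_crd (crd_iUnion fun i => (mV i).crd)
    ⟨_, mem_iUnion.2 ⟨0, zV 0⟩⟩ h.m0.cl h.m0.sm sV, closure_minimal sV h.m0.cl, ?_,
    disjoint_right.2 fun e he he' => ?_⟩
  · rw [← k2]
    rintro _ ⟨_, ⟨i, rfl⟩, rfl⟩
    exact subset_closure (mem_iUnion.2 ⟨i, zV i⟩)
  · obtain ⟨j, hj⟩ := off (k.symm e) fun e' =>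
      disjoint_left.1 dE he ((r_fix_mem (r_fix_symm k1) e).1 e')
    have cl : IsClosed (k '' M j ∪ ⋃ i ∈ Iio j, U i) :=
      ((m1 j).image k).cl.union ((finite_Iio j).isClosed_biUnion fun i _ => (u1 i).cl)
    have sb : (⋃ i, U i ∩ k '' M i ∩ a0) ⊆ k '' M j ∪ ⋃ i ∈ Iio j, U i := by
      refine iUnion_subset fun i y hy => ?_
      rcases le_or_gt j i with e' | e'
      · exact Or.inl (image_mono (m2 e') hy.1.2)
      · exact Or.inr (mem_biUnion (mem_Iio.2 e') hy.1.1)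
    rcases closure_minimal sb cl he' with e' | e'
    · exact hj ((r_mem_img k).1 e')
    · obtain ⟨i, -, hi⟩ := mem_iUnion₂.1 e'
      exact disjoint_left.1 (u3 i) hi he

/-- a countable discrete set is not shadowed -/
lemma SC.sh (h : Sys n n' b b' a0 a σ τ) {D E : Set S} (hD : CD D) (sD : D ⊆ a0 \ n)
    (hE : Disc E) (sE : E ⊆ a \ n) (d : Disjoint D E) :
    ∃ O : Set S, IsOpen O ∧ E ⊆ O ∧ (D \ closure (a0 ∩ O)).Infinite := by
  obtain ⟨M, m1, m2, m3, m4⟩ := hS.sepw hs h hD sD hE (disjoint_left.2 fun y hy => (sE hy).2) d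
  obtain ⟨O, q, o1, o2, o3, o4⟩ := hS.shp h hE sE hD.disc (fun y hy => ⟨m3 hy, (sD hy).2⟩) m1 m2 m4
  refine ⟨O, o1, o2, fun hf => ?_⟩
  obtain ⟨y, hy, hy'⟩ := (hD.inf.sdiff (hf.union (hf.image q.symm))).nonempty
  exact hy' (Or.inr ((r_mem_symm q).2 ⟨o3 ▸ mem_image_of_mem q hy,
    o4 y hy (by_contra fun e => hy' (Or.inl ⟨hy, e⟩))⟩))

end

end Pool.Agent.Lib.MP_52f683_gt
end

-- part Pool.Agent.Lib.MP_52f683_gt.F.S4
section

set_option autoImplicit false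
set_option linter.unusedSectionVars false

open Set Topology Filter

namespace Pool.Agent.Lib.MP_52f683_gt

variable {S : Type*} [TopologicalSpace S] [T1Space S] [Infinite S]

section
variable (hS : SC S)
include hS

/-- a sharp point has no infinite family of hosts with crowded trace at infinity -/
lemma SC.host2 {X c m K Z : Set S} {x : S} (hX : Whole X c m) (hs : Sharp X x) (N V : ℕ → Set S)
    (g : ℕ → S ≃ₜ S) (hN : ∀ k, ClopIn (N k) X ∧ x ∈ N k) (hV : TauSum V)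
    (hg : ∀ k, g k '' N k ⊆ V k) (hK : Cs K) (sK : ∀ k, V k ⊆ K) (hZ : Cs Z)
    (d : ∀ k, Disjoint (g k '' N k) Z) (hc : closure (⋃ k, g k '' N k) ⊆ (⋃ k, V k) ∪ Z) :
    False := by
  have hL : LFin (c ∪ m) := hS.lf.mono (subset_univ _)
  obtain ⟨M, h1, h2, h3, h4, -⟩ := hp_diag hs hN (fun _ _ => ∅) fun _ _ => ⟨clopIn_empty X, id⟩
  have hP := hp_dist h1 h2 h3 h4 0
  set P := fun j => (M j \ M (j + 1)) ∩ M 0
  have sub : ∀ k, g k '' P k ⊆ V k := fun k => (image_mono (hP.sub k)).trans (hg k)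
  have hA : TauSum fun k => g k '' P k := hV.mono sub
  obtain ⟨f, hf⟩ := hS.cb.thin.glueF P (fun k => g k '' P k) (fun k => ⟨g k, rfl⟩)
    (tauSum_of_clop hP.cl hP.dis) hA
  have he : f x ∈ Iso (Rem (⋃ k, g k '' P k)) := by
    rw [← hf, ← img_rem, ← img_iso, hP.un, hp_iso hX hL hP.clM hP.mem]
    exact mem_image_of_mem _ rfl
  rcases hc (closure_mono (iUnion_mono fun k => image_mono (hP.sub k)) he.1.1) with a | a
  · obtain ⟨i, hi⟩ := mem_iUnion.1 a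
    have h5 : f x ∈ Rem (g i '' P i) :=
      ⟨en_cl_of_mem hV sub hi he.1.1, fun a => he.1.2 (mem_iUnion.2 ⟨i, a⟩)⟩
    have h6 : Crd (Rem (g i '' P i)) := by
      rw [← img_rem]
      exact (hX.rem_crd hL (hP.cl i)).image _
    exact he.2 (der_mono (en_rem_sub hA i) (h6 h5))
  · have h5 := (hS.cs_inter (cs_cl (crd_iUnion fun k => (hX.crdX.clop (hP.cl k)).image (g k))
      hK.cl hK.sm (iUnion_subset fun k => (sub k).trans (sK k))) hZ).crd ⟨he.1.1, a⟩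
    refine he.2 (der_mono (fun y hy => (Set.mem_sdiff y).2 ⟨hy.1, fun e => ?_⟩) h5)
    obtain ⟨i, hi⟩ := mem_iUnion.1 e
    exact disjoint_left.1 (d i) (image_mono (hP.sub i) hi) hy.2

/-- every germ has finitely many places -/
theorem SC.good (hs : HasSharp S) {n n' b b' a0 a : Set S} {σ τ : S ≃ₜ S}
    (h : Sys n n' b b' a0 a σ τ) : Good (a \ n) := by
  intro s y hm hy
  by_contra hinf
  have ch := h.ch
  obtain ⟨C, z, h1, h2⟩ := en1_split (hS.qc h) (I := _) (fun e => hinf (e.subset fun w hw =>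
    let ⟨g, O, _, a2, a3, a4⟩ := hw
    ⟨a4 ⟨y, ⟨hy, a2⟩, a3⟩, hw⟩))
  choose g O o1 o2 o3 o4 using fun k => (h1 k).2.2
  have hC := fun k => (h1 k).1
  have zX : ∀ k, z k ∈ a \ n := fun k => (hC k).1 (h1 k).2.1
  have x0 : z 0 ∈ g 0 '' s := ⟨y, hy, o3 0⟩
  obtain ⟨c, c1, c2, c3, c4, c5⟩ := hS.resharp hs (hS.mem_inter h.m1 (hm.image (g 0)) (zX 0).1 x0)
    ch.mn (x := z 0) ⟨⟨(zX 0).1, x0⟩, (zX 0).2⟩
  have ca : c ⊆ a0 := fun w hw => h.sub (c2 hw).1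
  have hτ := tauSum_of_clop hC h2
  have uX : (⋃ k, C k) ⊆ a \ n := iUnion_subset fun k => (hC k).1
  have ua : closure (⋃ k, C k) ⊆ a := closure_minimal (uX.trans sdiff_subset) h.m1.cl
  have hF : IsClosed (Rem (⋃ k, C k)) := by
    have e := (opn_iUnion fun k => (hC k).opn).nlc h.m1.cl ch.mn.cl
    refine isClosed_of_closure_subset fun w hw => ⟨cl_rem_sub _ hw, fun a => ?_⟩
    exact (e.subset ⟨a, hw⟩).elim
  have fa : Rem (⋃ k, C k) ⊆ a := sdiff_subset.trans ua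
  have hK := hS.cs_der h.m1.cl h.m1.sm fa
  have zi : Function.Injective z := fun i j e => by_contra fun ne =>
    disjoint_left.1 (h2 ne) (h1 i).2.1 (e ▸ (h1 j).2.1)
  obtain ⟨U, u1, u2, u3⟩ := hS.sh hs h (D := range z) (E := Iso (Rem (⋃ k, C k)) \ n)
    ⟨infinite_range_of_injective zi, countable_range z, r_disc_sel hτ fun k => (h1 k).2.1⟩
    (range_subset_iff.2 fun k => ⟨h.sub (zX k).1, (zX k).2⟩) ((disc_iso _).mono sdiff_subset)
    (fun w hw => ⟨fa hw.1.1, hw.2⟩) (disjoint_left.2 (by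
      rintro _ ⟨k, rfl⟩ e
      exact e.1.1.2 (mem_iUnion.2 ⟨k, (h1 k).2.1⟩)))
  have hI : {k | z k ∉ closure (a0 ∩ U)}.Infinite := fun e => u3 ((e.image z).subset (by
    rintro _ ⟨⟨k, rfl⟩, hk⟩
    exact ⟨k, hk, rfl⟩))
  let φ : ℕ → ℕ := fun k => hI.natEmbedding _ k
  have φi : Function.Injective φ := fun i j e => (hI.natEmbedding _).injective (Subtype.ext e)
  have φm : ∀ k, z (φ k) ∉ closure (a0 ∩ U) := fun k => (hI.natEmbedding _ k).2
  have key : ∀ j, z j ∉ closure (a0 ∩ U) → ∃ (k : S ≃ₜ S) (N : Set S), ClopIn N (c \ n) ∧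
      z 0 ∈ N ∧ ∀ w, σ w ∈ k '' N → w ∈ C j ∧ w ∈ closure (C j \ closure (a0 ∩ U)) := by
    intro j hj
    have oG : IsOpen ((closure ((a \ n) \ C j))ᶜ \ closure (a0 ∩ U)) :=
      isClosed_closure.isOpen_compl.sdiff isClosed_closure
    have e0 : (g 0).symm (z 0) = y := by rw [← o3 0, (g 0).symm_apply_apply]
    have s1 : ∀ w ∈ c ∩ (g 0).symm ⁻¹' (O j ∩ g j ⁻¹' ((closure ((a \ n) \ C j))ᶜ \
        closure (a0 ∩ U))), g j ((g 0).symm w) ∈ C j \ closure (a0 ∩ U) := fun w hw =>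
      ⟨(hC j).open_eq.superset ⟨o4 j (mem_image_of_mem _ ⟨(r_mem_img _).1 (c2 hw.1).2, hw.2.1⟩),
        hw.2.2.1⟩, hw.2.2.2⟩
    obtain ⟨k, N, n1, n2, n3⟩ := hS.pc ch c1 c3 (fun w hw => h.fr ⟨ca hw.1, hw.2⟩)
      (x := z 0) ⟨c4, (zX 0).2⟩
      (((o1 j).inter (oG.preimage (g j).continuous)).preimage (g 0).symm.continuous)
      (by
        rw [mem_preimage, e0]
        refine ⟨o2 j, ?_⟩
        rw [mem_preimage, o3 j]
        exact ⟨((hC j).open_eq.subset (h1 j).2.1).2, hj⟩)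
      (((g 0).symm.trans (g j)).trans σ) (h.m0.image σ).cl
      (by
        rintro _ ⟨w, hw, rfl⟩
        have := (hC j).1 (s1 w hw).1
        exact ⟨mem_image_of_mem σ (h.sub this.1), mt (r_fix_mem h.sn _).1 this.2⟩)
      ((inter_subset_inter_right _ (union_subset_union_left _ ca)).trans h.sf)
    refine ⟨k, N, n1, n2, fun w hw => ?_⟩
    obtain ⟨a1, a2⟩ := n3 hw
    rw [img_trans, mem_img, img_cl] at a1
    have a3 : w ∈ closure (C j \ closure (a0 ∩ U)) := by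
      refine closure_mono ?_ a1
      rintro _ ⟨v, hv, rfl⟩
      exact s1 v hv
    have a4 := closure_mono sdiff_subset a3
    exact ⟨(hC j).closed ⟨a4, closure_minimal ((hC j).1.trans sdiff_subset) h.m1.cl a4,
      mt (r_fix_mem h.sn w).2 a2⟩, a3⟩
  choose k N n1 n2 n3 using fun j => key (φ j) (φm j)
  have hV : TauSum fun j => σ '' C (φ j) := fun i => by
    have := (img_disj σ).2 (tauSum_of_clop (fun j => hC (φ j)) (fun i j e => h2 (φi.ne e)) i)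
    rwa [img_cl, image_iUnion₂] at this
  refine hS.host2 (s_whole c1 ch.mn.cs c3) c5 N (fun j => σ '' C (φ j)) k (fun j => ⟨n1 j, n2 j⟩)
    hV (fun j w hw => ?_) (h.m1.image σ).cs
    (fun j => image_mono ((hC _).1.trans sdiff_subset)) (hS.cs_union (hK.image σ) ch.mn.cs)
    (fun j => disjoint_left.2 fun w hw e => ?_) fun w hw => ?_
  · obtain ⟨w, rfl⟩ := σ.surjective w
    exact mem_image_of_mem _ (n3 j w hw).1
  · obtain ⟨w, rfl⟩ := σ.surjective w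
    have a1 := (n3 j w hw).1
    exact e.elim (fun e => (der_sub_closed hF subset_rfl ((mem_img σ).1 e)).2
      (mem_iUnion.2 ⟨_, a1⟩)) fun e => ((hC _).1 a1).2 ((r_fix_mem h.sn w).1 e)
  · obtain ⟨w, rfl⟩ := σ.surjective w
    have cl : ∀ T : Set S, IsClosed T → (∀ j v, σ v ∈ k j '' N j → v ∈ T) → w ∈ T :=
      fun T hT ht => by
        rw [← mem_img σ]
        refine closure_minimal (iUnion_subset fun j v hv => ?_) (σ.isClosed_image.2 hT) hw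
        obtain ⟨v, rfl⟩ := σ.surjective v
        exact mem_image_of_mem _ (ht j v hv)
    have a1 : w ∉ U := cl Uᶜ u1.isClosed_compl fun j v hv =>
      closure_minimal (t := Uᶜ) (fun p hp e => hp.2 (subset_closure
        ⟨h.sub ((hC _).1 hp.1).1, e⟩)) u1.isClosed_compl (n3 j v hv).2
    by_cases a2 : w ∈ n
    · exact Or.inr (Or.inr ((r_fix_mem h.sn w).2 a2))
    by_cases a3 : w ∈ ⋃ j, C j
    · obtain ⟨j, hj⟩ := mem_iUnion.1 a3
      by_cases a4 : j ∈ range φ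
      · obtain ⟨i, rfl⟩ := a4
        exact Or.inl (mem_iUnion.2 ⟨i, mem_image_of_mem _ hj⟩)
      · exact absurd (cl _ isClosed_closure fun i v hv => subset_closure
          (mem_biUnion (s := ({j}ᶜ : Set ℕ)) (x := φ i) (fun e => a4 ⟨i, e⟩) (n3 i v hv).1)) (disjoint_left.1 (hτ j) hj)
    · have a4 : w ∈ Rem (⋃ j, C j) := ⟨cl _ isClosed_closure fun i v hv =>
        subset_closure (mem_iUnion.2 ⟨_, (n3 i v hv).1⟩), a3⟩
      exact Or.inr (Or.inl (mem_image_of_mem _ (by_contra fun e => a1 (u2 ⟨⟨a4, e⟩, a2⟩))))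

end

end Pool.Agent.Lib.MP_52f683_gt
end

-- part Pool.Agent.Lib.MP_52f683_gt.F.S51
section

set_option autoImplicit false
set_option linter.unusedSectionVars false

open Set Topology Filter

namespace Pool.Agent.Lib.MP_52f683_gt

variable {S : Type*} [TopologicalSpace S] [T1Space S] [Infinite S]

/-- a proper self-embedding gives infinitely many places -/
lemma s51_shift {K b s Y : Set S} {y : S} (f : S ≃ₜ S) (hb : IsClosed b) (h1 : f '' K ⊆ K)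
    (h2 : f '' b = b) (h3 : s ⊆ K) (h4 : y ∈ s) (h5 : y ∉ b) (h6 : y ∉ f '' K)
    (h7 : (f '' K) \ b ⊆ Y) :
    {z | ∃ (g : S ≃ₜ S) (O : Set S), IsOpen O ∧ y ∈ O ∧ g y = z ∧ g '' (s ∩ O) ⊆ Y}.Infinite := by
  have a1 : Antitone fun k => s21_it f k '' K := antitone_nat_of_succ_le fun k => by
    rw [s21_it_succ]
    exact image_mono h1
  have a2 : ∀ k, s21_it f k '' b = b := fun k => by
    induction k with
    | zero => exact image_id b
    | succ k ih => rw [s21_it_succ, h2, ih]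
  refine infinite_of_injective_forall_mem (f := fun j => s21_it f (j + 1) y)
    (Function.Injective.of_lt_imp_ne fun i j hij e => h6 ?_) fun j => ⟨_, bᶜ, hb.isOpen_compl, h5, rfl, ?_⟩
  · have a3 := a1 (Nat.succ_le_of_lt (Nat.succ_lt_succ hij)) (mem_image_of_mem _ (h3 h4))
    rw [← e] at a3
    exact (mem_img _).1 ((s21_it_succ f (i + 1) K).subset a3)
  · rintro _ ⟨z, hz, rfl⟩
    refine h7 ⟨?_, fun h => hz.2 ((mem_img _).1 ((a2 (j + 1)).superset h))⟩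
    exact (image_id _).subset ((s21_it_succ f 0 K).subset
      (a1 (Nat.succ_le_succ j.zero_le) (mem_image_of_mem _ (h3 hz.1))))

section
variable (hS : SC S)
include hS

/-- transversal pairs meet inside the last member of the chain -/
lemma SC.td {Y n n' b b' a a' : Set S} (hY : Good Y) (h : Ch n n' b b') (ha : Mem a)
    (ha' : Mem a') (f : a ∩ n ⊆ b') (f' : a' ∩ n ⊆ b') (n1 : Nwd (a' ∪ n) a) (n2 : Nwd (a ∪ n) a')
    (g : S ≃ₜ S) (g1 : g '' n = n) (g2 : g '' b' = b') (g3 : g '' a' ∩ a ⊆ b')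
    (y1 : n' \ b ⊆ Y) (y2 : a \ n ⊆ Y) : a ∩ a' ⊆ b' := by
  obtain ⟨hn, hC, hC', hb, s1, s2, s3, w1, w2, w3⟩ := h
  have bn : b' ⊆ n := s3.trans (s2.trans s1)
  have hP : n \ n' ∪ b \ b' ⊆ n \ b' := union_subset (sdiff_subset_sdiff_right (s3.trans s2))
    (sdiff_subset_sdiff_left (s2.trans s1))
  have hg := ha'.image g
  have gF : g '' (a ∪ n) = g '' a ∪ n := by rw [image_union, g1]
  have fg : g '' a' ∩ n ⊆ b' := by
    rw [← g1, ← img_inter, ← g2]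
    exact image_mono f'
  have q1 : ∀ {u F : Set S}, IsClosed u → u ∩ n ⊆ b' → Sp (n \ n' ∪ b \ b') (u \ (F ∪ n)) :=
    fun hu hb => sp_of_closed hn.cl hu (hP.trans sdiff_subset) sdiff_subset
      (disjoint_left.2 fun y hy h2 => (hP hy).2 (hb ⟨h2, (hP hy).1⟩))
      (disjoint_left.2 fun y hy h2 => hy.2 (Or.inr h2))
  have p1 := q1 (F := a') ha.cl f
  have p2 := (q1 (F := a) ha'.cl f').union_left
    (sp_of_closed (A := a \ (a' ∪ n)) ha.cl ha'.cl sdiff_subset sdiff_subset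
      (disjoint_left.2 fun y hy h2 => hy.2 (Or.inl h2))
      (disjoint_left.2 fun y hy h2 => hy.2 (Or.inl h2)))
  have p3 := (q1 (F := g '' a) hg.cl fg).union_left
    (sp_of_closed (A := a \ (a' ∪ n)) ha.cl hg.cl sdiff_subset sdiff_subset
      (disjoint_left.2 fun y hy h2 => hy.2 (Or.inr (bn (g3 ⟨h2, hy.1⟩))))
      (disjoint_left.2 fun y hy h2 => hy.2 (Or.inr (bn (g3 ⟨hy.1, h2⟩)))))
  obtain ⟨k, e⟩ := hS.cb.thin.glueE (Eqv.rfl' _) ⟨g, by rw [img_diff, gF]⟩ p2 p3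
  obtain ⟨i1, i2⟩ := s21_inv hn.cl hC.cl s1 s2 w1 w2 ha.cl (ha'.cl.union hn.cl) n1 ha'.cl
    (ha.cl.union hn.cl) n2 p1 p2
  obtain ⟨j1, j2⟩ := s21_inv hn.cl hC.cl s1 s2 w1 w2 ha.cl (ha'.cl.union hn.cl) n1 hg.cl
    ((ha.image g).cl.union hn.cl) (gF ▸ n2.image g) p1 p3
  have e1 : k '' (n' ∪ a ∩ (a' ∪ n) ∪ a' ∩ (a ∪ n)) =
      n' ∪ a ∩ (a' ∪ n) ∪ g '' a' ∩ (g '' a ∪ n) := by
    rw [← i1, ← j1, img_cl, img_rem, e]
  have e2 : k '' (b \ b') = b \ b' := by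
    have e5 := congrArg NLC e
    rwa [← img_nlc, i2, j2] at e5
  have e3 : k '' b = b :=
    (World.fix ⟨hC'.cl, hC'.crd, hC'.sm, hb.cl, hb.crd, s3, w3⟩ e2).1
  intro r0 hr0
  by_contra hr
  have e4 := img_symm_img k (n' ∪ a ∩ (a' ∪ n) ∪ a' ∩ (a ∪ n))
  rw [e1] at e4
  refine hY _ (g r0) (hS.mem_inter hg (ha.image g) (mem_image_of_mem g hr0.2)
    (mem_image_of_mem g hr0.1)) ⟨mem_image_of_mem g hr0.2, mem_image_of_mem g hr0.1⟩ |>.not_infinite
    (s51_shift k.symm (K := n' ∪ a ∩ (a' ∪ n) ∪ g '' a' ∩ (g '' a ∪ n)) hC'.cl ?_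
      ((congrArg _ e3.symm).trans (img_symm_img k b)) (fun y hy => Or.inr ⟨hy.1, Or.inl hy.2⟩)
      ⟨mem_image_of_mem g hr0.2, mem_image_of_mem g hr0.1⟩ (fun h2 => ?_) ?_ ?_)
  · rw [e4]
    rintro y (h1 | ⟨h1, h2 | h2⟩)
    · exact Or.inl h1
    · exact Or.inl (Or.inr ⟨h2, Or.inl h1⟩)
    · exact Or.inl (Or.inl (s2 (s3 (f' ⟨h1, h2⟩))))
  · exact hr ((mem_img g).1 (g2.superset (fg ⟨mem_image_of_mem g hr0.2, s1 (s2 h2)⟩)))
  · rw [e4]
    have x1 := mem_image_of_mem g hr0.2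
    refine fun h1 => hr ((mem_img g).1 (g2.superset ?_))
    rcases h1 with (h1 | h1) | ⟨-, h2 | h2⟩
    exacts [fg ⟨x1, s1 h1⟩, g3 ⟨x1, h1.1⟩, g3 ⟨x1, h2⟩, fg ⟨x1, h2⟩]
  · rw [e4]
    rintro y ⟨(h1 | h1) | ⟨h1, h2 | h2⟩, h3⟩
    · exact y1 ⟨h1, h3⟩
    · exact y2 ⟨h1.1, fun h4 => h3 (s3 (f ⟨h1.1, h4⟩))⟩
    · exact y2 ⟨h2, fun h4 => h3 (s3 (f ⟨h2, h4⟩))⟩
    · exact absurd (s3 (f' ⟨h1, h2⟩)) h3

end

end Pool.Agent.Lib.MP_52f683_gt
end

-- part Pool.Agent.Lib.MP_52f683_gt.F.S5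
section

set_option autoImplicit false
set_option linter.unusedSectionVars false

open Set Topology Filter

namespace Pool.Agent.Lib.MP_52f683_gt

variable {S : Type*} [TopologicalSpace S] [T1Space S] [Infinite S]

section
variable (hS : SC S)
include hS

/-- the data for the end of the proof inside a given whole set -/
lemma SC.inner (hN : NNW S) {a m : Set S} (ha : Mem a) (hm : Cs m) (w : Nwd m a) :
    ∃ (n n' b b' c : Set S) (γ : S ≃ₜ S), Ch n n' b b' ∧ n' \ b ⊆ a \ m ∧ Mem c ∧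
      c \ n ⊆ a \ m ∧ c ∩ n ⊆ b' ∧ ¬ c ⊆ n ∧ γ '' n = n ∧ γ '' b' = b' ∧ γ '' c ∩ c ⊆ b' := by
  obtain ⟨n, a1, a2, a3, a4⟩ := hN.step ha hm w
  obtain ⟨n', b1, b2, b3, b4⟩ := hN.step a1 hm a4
  obtain ⟨u, c1, c2, c3, c4⟩ := hN.step b1 hm b4
  obtain ⟨b', d1, d2, d3, -⟩ := hN.step c1 hm c4
  have ch : Ch n n' (u ∪ n' ∩ m) b' := ⟨a1, b1,
    (hS.cs_union c1.cs (hS.cs_inter b1.cs hm)).mem (c1.ne.mono subset_union_left), d1, b2,
    union_subset c2 inter_subset_left, d2.trans subset_union_left, b3,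
    c3.union (b4.mono inter_subset_right) c1.cl, d3.union_right d2⟩
  have hF := hS.cs_union a1.cs hm
  obtain ⟨x, hx, hx'⟩ := (s_whole ha hF (a3.union w a1.cl)).ne
  obtain ⟨c0, m0, x0, f0⟩ := hS.h1 d1 hF hx'
  have m1 := hS.mem_inter m0 ha x0 hx
  obtain ⟨z, hz⟩ := hS.cb.exists_off (hS.cb.mem_union a1 m1).sm
  obtain ⟨γ, g1, g2, rfl⟩ := hS.cb.world_move ch.world (fun k => hz (Or.inl k))
    fun k => hx' (Or.inl k)
  obtain ⟨c2, m2, x2, f2⟩ := hS.h1 (x := γ z) d1 (m1.image γ).cs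
    fun k => hz (Or.inr ((mem_img γ).1 k))
  exact ⟨n, n', _, b', c0 ∩ a ∩ c2, γ, ch,
    fun y hy => ⟨a2 (b2 hy.1), fun k => hy.2 (Or.inr ⟨hy.1, k⟩)⟩, hS.mem_inter m1 m2 ⟨x0, hx⟩ x2,
    fun y hy => ⟨hy.1.1.2, fun k => hy.2 (ch.bn' (f0 ⟨hy.1.1.1, Or.inr k⟩))⟩,
    fun y hy => f0 ⟨hy.1.1.1, Or.inl hy.2⟩, fun k => hx' (Or.inl (k ⟨⟨x0, hx⟩, x2⟩)), g1, g2,
    fun y hy => f2 ⟨hy.2.2, image_mono inter_subset_left hy.1⟩⟩

/-- no good whole set is totally separated -/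
theorem SC.kill (hN : NNW S) {a m : Set S} (ha : Mem a) (hm : Cs m) (w : Nwd m a)
    (hY : Good (a \ m)) (hsep : ∀ x ∈ a \ m, QC (a \ m) x = {x}) : False := by
  obtain ⟨n, n', b, b', c, γ, ch, y1, hc, y2, f, out, g1, g2, g3⟩ := hS.inner hN ha hm w
  have hW := ch.world
  have hX : Whole (c \ n) c n := ⟨hc, hW.cln, hW.crn, hW.sm, rfl, nonempty_of_not_subset out⟩
  have ed := ed_of_perp hc hW.cln rfl fun s s' hs hs' a a' n1 n2 =>
    (hS.td hY ch hs hs' ((inter_subset_inter_left _ a).trans f)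
      ((inter_subset_inter_left _ a').trans f) n1 n2 γ g1 g2
      ((inter_subset_inter (image_mono a') a).trans g3) y1
      ((sdiff_subset_sdiff_left a).trans y2)).trans hW.sub
  refine hS.cb.the_end hX (hS.lf.mono (subset_univ _)) (fun x hx => ?_)
    (tot_of_td hc.cl rfl ed fun x hx y hy => ?_) fun x hx => ?_
  · refine (subset_singleton_iff.2 fun y hy => ?_).antisymm
      (singleton_subset_iff.2 ⟨hx, fun _ _ k => k⟩)
    exact (hsep x (y2 hx)).subset ⟨y2 hy.1, fun N k k' => (hy.2 _ (k.trace y2) ⟨k', hx⟩).1⟩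
  · obtain ⟨k, k1, k2, k3⟩ := hS.cb.world_move hW hx.2 hy.2
    refine ⟨k, k1, k3, ?_⟩
    have hk := hc.image k
    rcases ((c \ n) \ k '' c).eq_empty_or_nonempty with e | e
    · simp [e]
    rcases (k '' (c \ n) \ c).eq_empty_or_nonempty with e' | e'
    · simp [e']
    have a0 : (c \ n) \ k '' c ⊆ c := sdiff_subset.trans sdiff_subset
    have a0' : k '' (c \ n) \ c ⊆ k '' c := sdiff_subset.trans (image_mono sdiff_subset)
    have a := closure_minimal a0 hc.cl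
    have a' := closure_minimal a0' hk.cl
    have s1 := r_fix_symm k1
    have s2 := r_fix_symm k2
    refine (hS.td hY ch (mem_of_crd (hX.crdX.diff_closed hk.cl) e hc.cl hc.sm a0)
      (mem_of_crd ((hX.crdX.image k).diff_closed hc.cl) e' hk.cl hk.sm a0')
      ((inter_subset_inter_left _ a).trans f) ((inter_subset_inter_left _ a').trans ?_)
      (closure_mono fun z hz => ⟨subset_closure hz, fun w => w.elim (fun w => hz.2 (a' w)) hz.1.2⟩)
      (closure_mono fun z hz => ⟨subset_closure hz, fun w => w.elim (fun w => hz.2 (a w)) ?_⟩)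
      (k.symm.trans γ) (r_fix_trans s1 g1) (r_fix_trans s2 g2)
      ((inter_subset_inter ?_ a).trans g3) y1 ((sdiff_subset_sdiff_left a).trans y2)).trans hW.sub
    · rw [← k1, ← k2, ← img_inter]
      exact image_mono f
    · have w := hz.1
      rw [img_diff, k1] at w
      exact w.2
    · rw [img_trans]
      exact image_mono ((image_mono a').trans (img_symm_img k c).subset)
  · refine (hY c x hc hx.1).subset ?_
    rintro _ ⟨g, N, k1, k2, rfl, k3⟩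
    exact ⟨g, nᶜ ∩ (closure ((c \ n) \ N))ᶜ,
      hW.cln.isOpen_compl.inter isClosed_closure.isOpen_compl,
      ⟨hx.2, (k1.open_eq.subset k2).2⟩, rfl, (image_mono fun z hz =>
        k1.open_eq.superset ⟨⟨hz.1, hz.2.1⟩, hz.2.2⟩).trans (k3.trans y2)⟩

end

end Pool.Agent.Lib.MP_52f683_gt
end

-- part Pool.Agent.Lib.MP_52f683_gt.F.S7
section

set_option autoImplicit false
set_option linter.unusedSectionVars false

open Set Topology Filter

namespace Pool.Agent.Lib.MP_52f683_gt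

variable {S : Type*} [TopologicalSpace S] [T1Space S] [Infinite S]

/-- either every whole set has a nowhere dense member or some whole set is nodec -/
lemma s7_cases (S : Type*) [TopologicalSpace S] :
    NNW S ∨ ∃ X c m : Set S, Whole X c m ∧ NodecW X m := by
  by_contra h
  rw [not_or] at h
  refine h.1 fun X c m hX => ?_
  by_contra h'
  refine h.2 ⟨X, c, m, hX, fun a h1 h2 h3 => ?_⟩
  by_contra h4
  exact h' ⟨a, h1, h2, h3, h4⟩

/-- clopen neighbourhoods off countably many sets that cover -/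
lemma s7_sharp {X : Set S} {x : S} (E : ℕ → Set S) (h : X ⊆ ⋃ k, E k)
    (hr : ∀ k, ∃ N, ClopIn N X ∧ x ∈ N ∧ Disjoint N ((E k ∩ X) \ {x})) : Sharp X x := by
  choose N n1 n2 n3 using hr
  let V : ℕ → Set S := fun k => Nat.rec (N 0) (fun k A => A ∩ N (k + 1)) k
  have v1 : ∀ k, ClopIn (V k) X ∧ x ∈ V k := fun k => by
    induction k with
    | zero => exact ⟨n1 0, n2 0⟩
    | succ k ih => exact ⟨ih.1.inter (n1 _), ih.2, n2 _⟩
  have v2 : ∀ k, V k ⊆ N k := by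
    rintro (_ | k)
    · exact subset_rfl
    · exact inter_subset_right
  refine ⟨V, v1, antitone_nat_of_succ_le fun k => inter_subset_left, Subset.antisymm
    (fun y hy => ?_) (singleton_subset_iff.2 (mem_iInter.2 fun k => (v1 k).2))⟩
  by_contra hn
  have hyX := (v1 0).1.1 (mem_iInter.1 hy 0)
  obtain ⟨k, hk⟩ := mem_iUnion.1 (h hyX)
  exact disjoint_left.1 (n3 k) (v2 k (mem_iInter.1 hy k)) ⟨⟨hk, hyX⟩, hn⟩

section
variable (hS : SC S)
include hS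

theorem SC.no_sharp : ¬ HasSharp S := fun hs => by
  rcases s7_cases S with hN | ⟨X, c, m, hX, hn⟩
  · obtain ⟨V, c, m, x, hV, hx⟩ := id hs
    obtain ⟨n, n', b, b', a0, a, σ, τ, h, -⟩ := hS.exists_sys hN hV
    exact hS.kill hN h.m1 h.ch.mn.cs h.n1 (hS.good hs h) (hS.qc h)
  · obtain ⟨V, c', m', x, hV, hx⟩ := hs
    exact hS.cb.nd_dead hS.lf hX hn hV hx

theorem SC.sharp_of_sigma {X c m : Set S} (hX : Whole X c m) (E : ℕ → Set S)
    (hE : ∀ k, Disc (E k)) (h : X ⊆ ⋃ k, E k) : HasSharp S := by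
  rcases s7_cases S with hN | ⟨Y, d, n, hY, hn⟩
  · obtain ⟨n, n', b, b', a0, a, σ, τ, h1, h2⟩ := hS.exists_sys hN hX
    obtain ⟨x, hx⟩ := h1.whole.ne
    exact ⟨_, _, _, x, h1.whole, s7_sharp E
      (((sdiff_subset_sdiff_left h1.sub).trans h2).trans h) fun k =>
        hS.reg h1 ((hE k).mono (sdiff_subset.trans inter_subset_left))
          (sdiff_subset.trans inter_subset_right) hx fun h => h.2 rfl⟩
  · obtain ⟨x, hx⟩ := hX.ne
    obtain ⟨y, hy⟩ := hY.ne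
    obtain ⟨g, rfl⟩ := hS.cb.thin.homog y x
    have hZ := hY.image g
    have hn' : NodecW (g '' Y) (g '' n) := fun a a1 a2 a3 => by
      have b2 : g.symm '' a ⊆ closure Y := by
        rw [← img_cl] at a2
        exact (image_mono a2).trans (img_symm_img g _).subset
      have b3 := a3.image g.symm
      rw [← img_cl, img_symm_img] at b3
      rw [← img_img_symm g a]
      exact image_mono (hn _ (a1.image g.symm) b2 b3)
    obtain ⟨K, k1, k2⟩ := hS.mem_off (g y)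
    have i0 : g y ∈ g '' Y := mem_image_of_mem _ hy
    have i1 := hX.eq.subset hx
    have i2 := hZ.eq.subset i0
    have c1 := hS.cs_union (hS.cs_union ⟨hX.cl, hX.crd, hX.sm⟩ ⟨hZ.cl, hZ.crd, hZ.sm⟩) k1.cs
    have i3 : g y ∈ (c ∩ g '' d) \ (m ∪ g '' n ∪ K) :=
      ⟨⟨i1.1, i2.1⟩, fun h => h.elim (fun h => h.elim i1.2 i2.2) k2⟩
    have s1 : (c ∩ g '' d) \ (m ∪ g '' n ∪ K) ⊆ X := fun z hz =>
      hX.eq.superset ⟨hz.1.1, fun h => hz.2 (Or.inl (Or.inl h))⟩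
    have s2 : (c ∩ g '' d) \ (m ∪ g '' n ∪ K) ⊆ g '' Y := fun z hz =>
      hZ.eq.superset ⟨hz.1.2, fun h => hz.2 (Or.inl (Or.inr h))⟩
    refine ⟨_, _, _, g y, ⟨hS.mem_inter hX.mem hZ.mem i1.1 i2.1, c1.cl, c1.crd, c1.sm, rfl, _, i3⟩,
      s7_sharp E (s1.trans h) fun k => ?_⟩
    obtain ⟨M, m1, m2, m3⟩ := hS.mi ((E k ∩ ((c ∩ g '' d) \ (m ∪ g '' n ∪ K))) \ {g y}) K (g y)
      ((hE k).mono (sdiff_subset.trans inter_subset_left)) k1
      (disjoint_left.2 fun z hz h => hz.1.2.2 (Or.inr h)) fun h => h.2 rfl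
    exact ⟨_, (nd_clop hS.lf hZ hn' m1.cl m1.crd m1.sm).trace s2, ⟨⟨i0, m2⟩, i3⟩,
      m3.mono_left (inter_subset_left.trans inter_subset_right)⟩

theorem SC.rc : RC S :=
  ⟨hS.cb.thin, hS.cb.cl, hS.lf, hS.mi, fun X c m x hX hs => hS.no_sharp ⟨X, c, m, x, hX, hs⟩,
    fun K hK => (hS.res_or hK).resolve_right fun ⟨_, _, hX, hi⟩ =>
      let ⟨E, h1, h2⟩ := hS.sigma_disc hX hi
      hS.no_sharp (hS.sharp_of_sigma hX E h1 h2)⟩

end

end Pool.Agent.Lib.MP_52f683_gt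
end
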