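import Pool.Agent.Lib.MP_52f683_gt.F.R7
import Pool.Agent.Lib.MP_52f683_gt.F.S7
import Pool.Agent.Lib.MP_52f683_gt.F.M1
import Pool.Agent.Lib.MP_52f683_gt.F.N1
import Pool.Agent.Lib.MP_52f683_gt.F.Z6
import Pool.Agent.Lib.MP_52f683_gt.CA.Main
import Pool.Agent.Lib.MP_52f683_gt.Quot

-- part Pool.Agent.Lib.MP_52f683_gt.F.R8
section

set_option autoImplicit false
set_option linter.unusedSectionVars false

open Set Topology Filter

namespace Pool.Agent.Lib.MP_52f683_gt

universe u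

variable {S : Type u} [TopologicalSpace S] [T1Space S] [Infinite S]

/-- sets whose trace on every member is clopen -/
def AA (F : Set S) : Prop := ∀ K : Set S, Mem K → ClopIn (K ∩ F) K

/-- clopen parts of closed sets are closed -/
lemma r8_closed {N X : Set S} (h : ClopIn N X) (hX : IsClosed X) : IsClosed N :=
  isClosed_of_closure_subset fun _ hx => h.closed ⟨hx, closure_minimal h.1 hX hx⟩

/-- a point off the closures of two pieces is off the closure of every subset of their union -/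
lemma r8_not_cl {A B C : Set S} {x : S} (h : A ⊆ B ∪ C) (hB : x ∉ closure B)
    (hC : x ∉ closure C) : x ∉ closure A := fun hx => by
  have := closure_mono h hx
  rw [closure_union] at this
  exact this.elim hB hC

section
variable (hS : RC S)
include hS

/-- the two differences of two members have disjoint closures -/
lemma RC.r8_diff {K L : Set S} (hK : Mem K) (hL : Mem L) :
    Disjoint (closure (K \ L)) (closure (L \ K)) :=
  hS.nb (cs_cl (hK.crd.diff_closed hL.cl) hK.cl hK.sm sdiff_subset)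
    (cs_cl (hL.crd.diff_closed hK.cl) hL.cl hL.sm sdiff_subset)
    (r_nwd_cl (disjoint_left.2 fun _ hy h => hy.2 (closure_minimal sdiff_subset hK.cl h)))
    (r_nwd_cl (disjoint_left.2 fun _ hy h => hy.2 (closure_minimal sdiff_subset hL.cl h)))

lemma RC.loc {K : Set S} {x : S} (hK : Mem K) (hx : x ∈ K) :
    ∃ (c : Set S) (γ : S ≃ₜ S), Wd ∅ c γ ∧ c ⊆ K ∧ x ∈ c ∧ x ∉ closure (K \ c) := by
  obtain ⟨z, hz, hzx⟩ := hS.exists_off hK.cl hK.sm x
  obtain ⟨g, g1, g2⟩ := hS.two (a := x) (b := z) (a' := z) (b' := x) hzx.symm hzx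
  have h1 : x ∉ g '' K := by rw [← g2, mem_img]; exact hz
  have h2 : x ∉ g.symm '' K := by rw [r_mem_symm, g1]; exact hz
  have hg := hK.image g
  have hg' := hK.image g.symm
  have c1 : Cs (closure (K \ g '' K)) :=
    cs_cl (hK.crd.diff_closed hg.cl) hK.cl hK.sm sdiff_subset
  have c2 : Cs (closure (K \ g.symm '' K)) :=
    cs_cl (hK.crd.diff_closed hg'.cl) hK.cl hK.sm sdiff_subset
  have hxc : x ∈ closure (K \ g '' K) ∩ closure (K \ g.symm '' K) :=
    ⟨subset_closure ⟨hx, h1⟩, subset_closure ⟨hx, h2⟩⟩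
  refine ⟨closure (K \ g '' K) ∩ closure (K \ g.symm '' K), g,
    ⟨cs_empty, (hS.cs_inter c1 c2).mem ⟨x, hxc⟩, empty_subset _, ?_, image_empty _, ?_⟩,
    inter_subset_left.trans (closure_minimal sdiff_subset hK.cl), hxc, ?_⟩
  · rw [Nwd, sdiff_empty]; exact subset_closure
  · rintro y ⟨hy, hy'⟩
    have h3 : y ∈ g '' closure (K \ g.symm '' K) := image_mono inter_subset_right hy
    rw [img_cl, img_diff, img_img_symm] at h3
    exact disjoint_left.1 (hS.r8_diff hK hg) hy'.1 h3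
  · refine r8_not_cl (B := g '' K) (C := g.symm '' K) (fun y hy => ?_)
      (by rwa [hg.cl.closure_eq]) (by rwa [hg'.cl.closure_eq])
    by_contra hn
    exact hy.2 ⟨subset_closure ⟨hy.1, fun h => hn (Or.inl h)⟩,
      subset_closure ⟨hy.1, fun h => hn (Or.inr h)⟩⟩

omit hS in
lemma AA.image {F : Set S} (h : AA F) (g : S ≃ₜ S) : AA (g '' F) := by
  intro K hK
  have := (h _ (hK.image g.symm)).image g
  rwa [img_inter, img_img_symm] at this

omit hS in
lemma AA.compl {F : Set S} (h : AA F) : AA Fᶜ := by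
  intro K hK
  have := (h K hK).compl
  rwa [sdiff_self_inter] at this

omit hS in
lemma AA.inter {F G : Set S} (h : AA F) (h' : AA G) : AA (F ∩ G) := by
  intro K hK
  rw [inter_inter_distrib_left]
  exact (h K hK).inter (h' K hK)

lemma RC.aa_iUnion {F : ℕ → Set S} (h : ∀ i, AA (F i)) : AA (⋃ i, F i) := by
  intro K hK
  rw [inter_iUnion]
  refine (opn_iUnion fun i => (h i K hK).opn).clop fun x hx => ?_
  obtain ⟨c, γ, hW, hc, hxc, hn⟩ := hS.loc hK hx.2
  have h1 := hS.om hW (fun i => c ∩ F i) fun i => by rw [sdiff_empty]; exact h i c hW.mem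
  rw [sdiff_empty] at h1
  have h2 : x ∈ closure (⋃ i, c ∩ F i) := by
    by_contra h2
    refine r8_not_cl (fun y hy => ?_) hn h2 hx.1
    obtain ⟨i, hi⟩ := mem_iUnion.1 hy
    by_cases hyc : y ∈ c
    · exact Or.inr (mem_iUnion.2 ⟨i, hyc, hi.2⟩)
    · exact Or.inl ⟨hi.1, hyc⟩
  obtain ⟨i, hi⟩ := mem_iUnion.1 (h1.closed ⟨h2, hxc⟩)
  exact mem_iUnion.2 ⟨i, hx.2, hi.2⟩

lemma RC.aa_fix (k : S ≃ₜ S) : AA {y | k y = y} := by
  intro K hK
  have key : ∀ {c N : Set S} {x : S}, ClopIn N (c \ ∅) → x ∈ N → x ∉ closure (K \ c) →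
      x ∉ closure (K \ N) := fun {c N x} hN hx hn =>
    r8_not_cl (C := (c \ ∅) \ N) (fun y hy => by
      by_cases hyc : y ∈ c
      · exact Or.inr ⟨⟨hyc, notMem_empty y⟩, hy.2⟩
      · exact Or.inl ⟨hy.1, hyc⟩) hn (disjoint_left.1 hN.2.1 hx)
  refine Opn.clop ⟨inter_subset_left, disjoint_left.2 fun x hx => ?_⟩ fun x hx => ?_
  · obtain ⟨c, γ, hW, -, hxc, hn⟩ := hS.loc hK hx.1
    obtain ⟨N, n1, n2, n3⟩ := hS.fr hW (k := k) (image_empty _) ⟨hxc, notMem_empty x⟩ hx.2
    refine fun h => key n1 n2 hn (closure_mono (fun y hy => ?_) h)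
    exact (Set.mem_sdiff y).2 ⟨hy.1, fun h' => hy.2 ⟨hy.1, n3 y h'⟩⟩
  · refine ⟨hx.2, ?_⟩
    by_contra hk
    obtain ⟨c, γ, hW, -, hxc, hn⟩ := hS.loc hK hx.2
    obtain ⟨N, n1, n2, n3⟩ : ∃ N : Set S, IsClosed N ∧ x ∉ closure (K \ N) ∧ k x ∉ N := by
      by_cases hkc : k x ∈ c
      · obtain ⟨N, n1, n2, n3⟩ := hS.wsep hW (x := x) (y := k x) ⟨hxc, notMem_empty _⟩
          ⟨hkc, notMem_empty _⟩ (fun e => hk e.symm)
        exact ⟨N, r8_closed n1 (by rw [sdiff_empty]; exact hW.mem.cl), key n1 n2 hn, n3⟩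
      · exact ⟨c, hW.mem.cl, hn, hkc⟩
    refine r8_not_cl (C := k ⁻¹' N) (fun y hy => ?_) n2
      (by rw [(n1.preimage k.continuous).closure_eq]; exact n3) hx.1
    by_cases hyN : y ∈ N
    · exact Or.inr (show k y ∈ N by rw [show k y = y from hy.2]; exact hyN)
    · exact Or.inl ⟨hy.1, hyN⟩

lemma RC.aa_closed {A F : Set S} (h : AA A) (hF : IsClosed F) (hF' : F ≠ univ) :
    IsClosed (F ∩ A) := by
  have e : F ∩ A = derivedSet F ∩ A ∪ Iso F ∩ A := by
    ext y
    refine ⟨fun hy => ?_, fun hy => hy.elim (fun h => ⟨der_sub_closed hF subset_rfl h.1, h.2⟩)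
      fun h => ⟨h.1.1, h.2⟩⟩
    by_cases hd : y ∈ derivedSet F
    · exact Or.inl ⟨hd, hy.2⟩
    · exact Or.inr ⟨⟨hy.1, hd⟩, hy.2⟩
  rw [e]
  refine IsClosed.union ?_ (hS.closed _ ((disc_iso F).mono inter_subset_left))
  rcases (derivedSet F).eq_empty_or_nonempty with h0 | h0
  · rw [h0, empty_inter]; exact isClosed_empty
  · exact r8_closed (h _ ((hS.cs_der hF hF' subset_rfl).mem h0)) (isClosed_derivedSet F)

end

end Pool.Agent.Lib.MP_52f683_gt
end

-- part Pool.Agent.Lib.MP_52f683_gt.F.R9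
section

set_option autoImplicit false
set_option linter.unusedSectionVars false

open Set Topology Filter

namespace Pool.Agent.Lib.MP_52f683_gt

universe u

variable {S : Type u} [TopologicalSpace S] [T1Space S] [Infinite S]

/-- iterates of a map -/
def r9It (h : S ≃ₜ S) : ℕ → S ≃ₜ S
  | 0 => h
  | j + 1 => (r9It h j).trans h

lemma r9_iInter (hS : RC S) {F : ℕ → Set S} (h : ∀ i, AA (F i)) : AA (⋂ i, F i) := by
  have := (hS.aa_iUnion fun i => (h i).compl).compl
  rwa [compl_iUnion, iInter_congr fun i => compl_compl (F i)] at this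

/-- a set of the class with pairwise disjoint shifts -/
lemma RC.wander (hS : RC S) : ∃ (h : S ≃ₜ S) (U V : Set S), AA U ∧ V.Nonempty ∧ V ⊆ U ∧
    h '' U = U \ V := by
  obtain ⟨D, -, hD⟩ := hS.thin.exists_cd_closed isClosed_univ (infinite_univ (α := S))
  obtain ⟨x, hx⟩ := hD.inf.nonempty
  obtain ⟨h, hh⟩ := hS.thin.eqv_cd hD
    (hD.mono (sdiff_subset (t := {x})) (hD.inf.sdiff (finite_singleton x)))
  have h1 : ∀ j, r9It h j x ∈ D \ {x} := fun j => by
    induction j with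
    | zero => exact hh ▸ mem_image_of_mem _ hx
    | succ j ih => exact hh ▸ mem_image_of_mem h ih.1
  have h2 : ∀ j, ∃ k : S ≃ₜ S, k x = x ∧ k (r9It h j x) ≠ r9It h j x := fun j => by
    obtain ⟨z, z1, z2⟩ := hS.exists_off isClosed_singleton (hS.disc_ne (disc_single x))
      (r9It h j x)
    obtain ⟨k, k1, k2⟩ := hS.two (a := x) (b := r9It h j x) (a' := x) (b' := z)
      (Ne.symm (h1 j).2) (Ne.symm z1)
    exact ⟨k, k1, k2 ▸ z2⟩
  choose k k1 k2 using h2
  let V : Set S := ⋂ j, {y | k j y = y} ∩ ((r9It h j).symm '' {y | k j y = y})ᶜ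
  have hV : AA V := r9_iInter hS fun j => (hS.aa_fix _).inter ((hS.aa_fix _).image _).compl
  have hd : ∀ j, ∀ y ∈ V, r9It h j y ∉ V := fun j y hy hy' =>
    (mem_iInter.1 hy j).2 ((r_mem_symm _).2 (mem_iInter.1 hy' j).1)
  have hU := hS.aa_iUnion fun j => hV.image (r9It h j)
  refine ⟨h, V ∪ ⋃ j, r9It h j '' V, V, ?_,
    ⟨x, mem_iInter.2 fun j => ⟨k1 j, fun a => k2 j ((r_mem_symm (A := {y | k j y = y}) _).1 a)⟩⟩, subset_union_left, ?_⟩
  · have := (hV.compl.inter hU.compl).compl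
    rwa [← compl_union, compl_compl] at this
  · refine Subset.antisymm ?_ ?_
    · rintro _ ⟨y, hy | hy, rfl⟩
      · exact ⟨Or.inr (mem_iUnion.2 ⟨0, y, hy, rfl⟩), hd 0 y hy⟩
      · obtain ⟨j, z, hz, rfl⟩ := mem_iUnion.1 hy
        exact ⟨Or.inr (mem_iUnion.2 ⟨j + 1, z, hz, rfl⟩), hd (j + 1) z hz⟩
    · rintro y ⟨hy | hy, hy'⟩
      · exact absurd hy hy'
      · obtain ⟨_ | j, z, hz, rfl⟩ := mem_iUnion.1 hy
        · exact ⟨z, Or.inl hz, rfl⟩
        · exact ⟨_, Or.inr (mem_iUnion.2 ⟨j, z, hz, rfl⟩), rfl⟩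

lemma r9_cont (hS : RC S) {U : Set S} (hU : AA U) (h : S ≃ₜ S) [DecidablePred (· ∈ U)] :
    Continuous (U.piecewise h id) := by
  refine continuous_iff_isClosed.2 fun F hF => ?_
  by_cases e : F = univ
  · simp [e]
  have : U.piecewise h id ⁻¹' F = (h.symm '' F ∩ U) ∪ (F ∩ Uᶜ) := by
    ext y
    rw [mem_union, mem_inter_iff, r_mem_symm]
    by_cases hy : y ∈ U <;> simp [hy]
  rw [this]
  exact (hS.aa_closed hU (h.symm.isClosed_image.2 hF) (img_ne_univ _ e)).union
    (hS.aa_closed hU.compl hF e)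

theorem RC.false (hS : RC S) : False := by
  classical
  obtain ⟨h, U, V, hU, ⟨x, hx⟩, hVU, e⟩ := hS.wander
  suffices H : Nonempty ((univ : Set S) ≃ₜ (Vᶜ : Set S)) by
    obtain ⟨k, hk⟩ := hS.thin _ _ H
    have : k (k.symm x) ∈ Vᶜ := hk ▸ mem_image_of_mem _ trivial
    exact this (by simpa using hx)
  refine homeo_of_maps (U.piecewise h id)
    ((h '' U).piecewise h.symm id) (fun y _ => ?_) (fun _ _ => trivial) (fun y _ => ?_)
    (fun y hy => ?_) (r9_cont hS hU h).continuousOn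
    (r9_cont hS (hU.image h) h.symm).continuousOn
  · by_cases hy : y ∈ U
    · rw [piecewise_eq_of_mem _ _ _ hy]
      exact (e ▸ mem_image_of_mem h hy : h y ∈ U \ V).2
    · rw [piecewise_eq_of_notMem _ _ _ hy]
      exact fun a => hy (hVU a)
  · by_cases hy : y ∈ U
    · rw [piecewise_eq_of_mem _ _ _ hy, piecewise_eq_of_mem _ _ _ (mem_image_of_mem h hy),
        h.symm_apply_apply]
    · rw [piecewise_eq_of_notMem _ _ _ hy, piecewise_eq_of_notMem]
      · rfl
      · rw [e]; exact fun a => hy a.1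
  · by_cases hy' : y ∈ h '' U
    · rw [piecewise_eq_of_mem _ _ _ hy', piecewise_eq_of_mem _ _ _ ((r_mem_img h).1 hy'),
        h.apply_symm_apply]
    · rw [piecewise_eq_of_notMem _ _ _ hy', piecewise_eq_of_notMem]
      · rfl
      · exact fun a => hy' (e ▸ ⟨a, hy⟩)

end Pool.Agent.Lib.MP_52f683_gt
end

-- part Pool.Agent.Lib.MP_52f683_gt.F.Main
section

set_option autoImplicit false
set_option linter.unusedSectionVars false

open Set Topology Filter

namespace Pool.Agent.Lib.MP_52f683_gt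

universe u

variable {S : Type u} [TopologicalSpace S] [T1Space S] [Infinite S]

/-- crowded intersections of members are contradictory -/
theorem CB.post_lf (hS : CB S) (hL : LFin (univ : Set S)) : False :=
  (SC.rc ⟨hS, hL, fun D n x => hS.mi hL D n x⟩).false

/-- either a nodec member exists or every member has a nowhere dense submember -/
lemma CB.nodec_or (hS : CB S) : (∃ K : Set S, Nodec K) ∨ NN S := by
  by_cases h : ∃ K : Set S, Nodec K
  · exact Or.inl h
  · refine Or.inr fun K hK => ?_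
    by_contra hn
    refine h ⟨K, hK, fun C h1 h2 h3 => ?_⟩
    by_contra h4
    have h5 := der_sub_closed h1 subset_rfl
    exact hn ⟨_, hS.mem_der hK.cl hK.sm h2 (hS.der_ne h4), h5.trans h2, h3.mono h5⟩

theorem CB.false (hS : CB S) : False :=
  hS.post_lf (hS.nodec_or.elim
    (fun ⟨_, hK⟩ => hS.nodec_lf (fun _ hq => hS.poor_nodec hq) hK) hS.lf_nn)

/-- no infinite `T1` space is thin -/
theorem Thin.false_t1 (hS : Thin S) : False := CB.false ⟨hS, fun _ hD => hS.disc_closed hD⟩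

omit [T1Space S] in
/-- no infinite space is thin -/
theorem Thin.false (hS : Thin S) : False :=
  have := hS.infinite_quot
  have := hS.t1_quot
  hS.thin_quot.false_t1

end Pool.Agent.Lib.MP_52f683_gt
end
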