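import Pool.Agent.Lib.MP_52f683_gt.F.BasicTmp
import Pool.Agent.Lib.MP_52f683_gt.F.R1

-- part Pool.Agent.Lib.MP_52f683_gt.F.EN
section

set_option autoImplicit false
set_option linter.unusedSectionVars false

open Set Topology Filter

namespace Pool.Agent.Lib.MP_52f683_gt

variable {S : Type*} [TopologicalSpace S] [T1Space S] [Infinite S]

/-- a sum with an isolated remainder point has no whole host -/
lemma CB.host (hS : CB S) {Z : Set S} (hZ : IsClosed Z) (hZ' : Z ≠ univ) (hL : LFin Z)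
    (W V : ℕ → Set S) (g : ℕ → S ≃ₜ S) (hW : TauSum W) (hV : TauSum V)
    (hsub : ∀ i, g i '' W i ⊆ V i) (hc : ∀ i, Crd (W i)) (hr : ∀ i, Crd (Rem (W i)))
    (hVZ : (⋃ i, V i) ⊆ Z) (hV1 : IsClosed (Rem (⋃ i, V i))) (hV2 : Crd (Rem (⋃ i, V i)))
    (he : (Iso (Rem (⋃ i, W i))).Nonempty) : False := by
  have hA : TauSum fun i => g i '' W i := hV.mono hsub
  obtain ⟨h, hh⟩ := hS.thin.glueF W (fun i => g i '' W i) (fun i => ⟨g i, rfl⟩) hW hA
  obtain ⟨e, he⟩ := he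
  have h1 : h e ∈ Iso (Rem (⋃ i, g i '' W i)) := by
    rw [← hh, ← img_rem, ← img_iso]
    exact mem_image_of_mem _ he
  by_cases h2 : h e ∈ ⋃ i, V i
  · obtain ⟨i, hi⟩ := mem_iUnion.1 h2
    have h3 : h e ∈ Rem (g i '' W i) :=
      ⟨en_cl_of_mem hV hsub hi h1.1.1, fun a => h1.1.2 (mem_iUnion.2 ⟨i, a⟩)⟩
    have h4 : Crd (Rem (g i '' W i)) := by
      rw [← img_rem]
      exact (hr i).image _
    exact h1.2 (der_mono (en_rem_sub hA i) (h4 h3))
  · have h3 : (⋃ i, g i '' W i) ⊆ ⋃ i, V i := iUnion_mono hsub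
    have c1 : closure (⋃ i, g i '' W i) ⊆ Z := closure_minimal (h3.trans hVZ) hZ
    have c2 : Rem (⋃ i, V i) ⊆ Z := sdiff_subset.trans (closure_minimal hVZ hZ)
    have h4 := hL.crd isClosed_closure (crd_iUnion fun i => (hc i).image (g i)).closure
      (fun a => hZ' (eq_univ_of_univ_subset (a ▸ c1))) hV1 hV2
      (fun a => hZ' (eq_univ_of_univ_subset (a ▸ c2))) c1 c2
      ⟨h1.1.1, closure_mono h3 h1.1.1, h2⟩
    exact h1.2 (der_mono (fun y hy => (Set.mem_sdiff y).2 ⟨hy.1, fun a => hy.2.2 (h3 a)⟩) h4)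

/-- a partition of a punctured whole into clopen parts, each embedded in the one before -/
theorem CB.end_core (hS : CB S) {X c m : Set S} (hX : Whole X c m) (hL : LFin (c ∪ m)) {e : S}
    (he : e ∈ X) (W : ℕ → Set S) (g : ℕ → S ≃ₜ S) (hW : ∀ i, ClopIn (W i) X)
    (hd : Pairwise fun i j => Disjoint (W i) (W j)) (hu : (⋃ i, W i) = X \ {e})
    (hg : ∀ i, g i '' W (i + 1) ⊆ W i) : False := by
  have hZ : IsClosed (c ∪ m) := hX.mem.cl.union hX.cl
  have hZ' : c ∪ m ≠ univ := hS.union_ne hX.mem.cl hX.cl hX.mem.sm hX.sm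
  have hc : ∀ i, Crd (W i) := fun i => hX.crdX.clop (hW i)
  have hsub : ∀ p : ℕ → ℕ, (⋃ i, W (p i)) ⊆ c ∪ m := fun p =>
    iUnion_subset fun i => ((hW _).1.trans hX.sub).trans subset_union_left
  have hτ : ∀ p : ℕ → ℕ, Function.Injective p → TauSum fun i => W (p i) := fun p hp =>
    tauSum_of_clop (fun i => hW (p i)) fun i j hij => hd fun a => hij (hp a)
  have key : ∀ p : ℕ → ℕ, Function.Injective p → ClopIn (⋃ i, W (p i)) X →
      e ∈ Iso (Rem (⋃ i, W (p i + 1))) → False := fun p hp h1 h2 =>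
    hS.host hZ hZ' hL (fun i => W (p i + 1)) (fun i => W (p i)) (fun i => g (p i))
      (hτ _ fun i j a => hp (Nat.succ_injective a)) (hτ p hp) (fun i => hg _) (fun i => hc _)
      (fun i => hX.rem_crd hL (hW _)) (hsub p)
      (by rw [hX.rem_eq h1]; exact isClosed_closure.inter hX.cl) (hX.rem_crd hL h1) ⟨e, h2⟩
  have hsp : Sp (⋃ i, W (2 * i)) (⋃ i, W (2 * i + 1)) := en_sp hW hd fun i j => by omega
  have hun : (⋃ i, W (2 * i)) ∪ (⋃ i, W (2 * i + 1)) = X \ {e} := by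
    rw [← hu]
    refine (union_subset (iUnion_subset fun i => subset_iUnion W _)
      (iUnion_subset fun i => subset_iUnion W _)).antisymm (iUnion_subset fun i x hx => ?_)
    obtain ⟨j, rfl | rfl⟩ := Nat.even_or_odd' i
    · exact Or.inl (mem_iUnion.2 ⟨j, hx⟩)
    · exact Or.inr (mem_iUnion.2 ⟨j, hx⟩)
  have hiso := en_iso_whole hX he
  rw [← hun] at hiso
  by_cases h0 : e ∈ closure (⋃ i, W (2 * i))
  · have h1 : e ∈ Iso (Rem (⋃ i, W (2 * i))) := by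
      refine ⟨⟨h0, fun a => hiso.1.2 (Or.inl a)⟩, fun a => hiso.2 (der_mono ?_ a)⟩
      rw [rem_union hsp]
      exact subset_union_left
    have h2 := hL.iso_not hZ hZ' (crd_iUnion fun i => hc _) (crd_iUnion fun i => hc _) (hsub _)
      (hsub _) hsp h1
    have h3 : Sp (⋃ i, W (2 * i + 1 + 1)) (⋃ _ : Unit, W 0) := en_sp hW hd fun i j => by omega
    have h4 : (⋃ i, W (2 * i)) = (⋃ i, W (2 * i + 1 + 1)) ∪ ⋃ _ : Unit, W 0 := by
      refine (iUnion_subset fun i x hx => ?_).antisymm (union_subset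
        (iUnion_subset fun i => subset_iUnion (fun i => W (2 * i)) (i + 1))
        (iUnion_subset fun _ => subset_iUnion (fun i => W (2 * i)) 0))
      rcases i with _ | i
      · exact Or.inr (mem_iUnion.2 ⟨(), hx⟩)
      · exact Or.inl (mem_iUnion.2 ⟨i, hx⟩)
    refine key (fun i => 2 * i + 1) (fun i j a => by simpa using a) (en_clop hsp hun h2)
      (en_iso_part h3 (h4 ▸ h1) fun a => ?_)
    rw [iUnion_const] at a
    have h5 : e ∈ X \ {e} := hu ▸ mem_iUnion.2 ⟨0, (hW 0).closed ⟨a, he⟩⟩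
    exact h5.2 rfl
  · rw [union_comm] at hiso hun
    exact key (fun i => 2 * i) (fun i j a => by simpa using a) (en_clop hsp.symm hun h0)
      (en_iso_part hsp.symm hiso h0)

theorem CB.the_end (hS : CB S) {X c m : Set S} (hX : Whole X c m) (hL : LFin (c ∪ m))
    (hsep : ∀ x ∈ X, QC X x = {x}) (htot : ∀ x ∈ X, ∀ y ∈ X, Below X x y ∨ Below X y x)
    (hfin : ∀ x ∈ X, {y | Below X x y}.Finite) : False := by
  obtain ⟨e, he⟩ := hX.ne
  obtain ⟨W, g, hW, hd, hu, hg⟩ := par_seq he hX.crdX hsep htot hfin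
  exact hS.end_core hX hL he W g hW hd hu hg

end Pool.Agent.Lib.MP_52f683_gt
end

-- part Pool.Agent.Lib.MP_52f683_gt.F.ND
section

set_option autoImplicit false
set_option linter.unusedSectionVars false

open Set Topology Filter

namespace Pool.Agent.Lib.MP_52f683_gt

variable {S : Type*} [TopologicalSpace S] [T1Space S] [Infinite S]

/-- wholes without nowhere dense members -/
def NodecW (X m : Set S) : Prop := ∀ a, Mem a → a ⊆ closure X → Nwd a (closure X) → a ⊆ m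

section
variable (hL : LFin (univ : Set S)) {X c m : Set S} (hX : Whole X c m) (hn : NodecW X m)
include hL hX hn

/-- crowded closed sets cut clopen parts out of a nodec whole -/
lemma nd_clop {M : Set S} (h1 : IsClosed M) (h2 : Crd M) (h3 : M ≠ univ) : ClopIn (X ∩ M) X := by
  have c1 : closure X ⊆ c := closure_minimal hX.sub hX.mem.cl
  have c2 : closure (X \ M) ⊆ closure X := closure_mono sdiff_subset
  have c3 : closure (X \ M) ≠ univ := fun e =>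
    hX.mem.sm (eq_univ_of_univ_subset (e ▸ c2.trans c1))
  have c4 := hL.crd h1 h2 h3 isClosed_closure (hX.crdX.diff_closed h1).closure c3 (subset_univ _)
    (subset_univ _)
  rw [ClopIn, sdiff_self_inter]
  refine ⟨inter_subset_left, disjoint_left.2 fun z hz hz' => ?_, disjoint_left.2 fun z hz hz' =>
    hz.2 (closure_minimal inter_subset_right h1 hz')⟩
  have c5 := hn (M ∩ closure (X \ M)) ⟨h1.inter isClosed_closure, c4, ⟨z, hz.2, hz'⟩, fun e =>
    h3 (eq_univ_of_univ_subset (e ▸ inter_subset_left))⟩ (inter_subset_right.trans c2)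
    (closure_minimal (fun y hy => ?_) isClosed_closure) ⟨hz.2, hz'⟩
  · exact (hX.eq ▸ hz.1 : z ∈ c \ m).2 c5
  · by_cases k : y ∈ closure (X \ M)
    · exact closure_mono (fun w hw => (Set.mem_sdiff w).2
        ⟨subset_closure hw.1, fun h => hw.2 h.1⟩) k
    · exact subset_closure ⟨subset_closure hy, fun h => k h.2⟩

lemma nd_whole {V c' m' : Set S} (hV : Whole V c' m') : ClopIn (V ∩ X) X := by
  have h := (nd_clop hL hX hn hV.mem.cl hV.mem.crd hV.mem.sm).diff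
    (nd_clop hL hX hn hV.cl hV.crd hV.sm)
  have e : V ∩ X = (X ∩ c') \ (X ∩ m') := by
    rw [hV.eq]; ext z; simp only [mem_inter_iff, Set.mem_sdiff]; tauto
  rwa [e]

/-- all points of a nodec whole have the same germ -/
lemma Thin.nd_below (hS : Thin S) {x y : S} (hx : x ∈ X) (hy : y ∈ X) : Below X x y := by
  obtain ⟨g, rfl⟩ := hS.homog x y
  refine ⟨g, _, nd_whole hL hX hn (hX.image g.symm), ⟨⟨_, hy, by simp⟩, hx⟩, rfl, ?_⟩
  exact (image_mono inter_subset_left).trans (img_img_symm g X).subset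

/-- a nodec whole excludes sharp points -/
theorem CB.nd_dead (hS : CB S) {V c' m' : Set S} {y : S} (hV : Whole V c' m') (hs : Sharp V y) :
    False := by
  obtain ⟨x, hx⟩ := hX.ne
  obtain ⟨k, rfl⟩ := hS.thin.homog y x
  obtain ⟨U, u1, -, u3⟩ := hs
  have v1 : ∀ n, ClopIn (k '' U n ∩ (k '' V ∩ X)) X ∧ k y ∈ k '' U n ∩ (k '' V ∩ X) := fun n =>
    ⟨(((u1 n).1.image k).trace inter_subset_left).trans (nd_whole hL hX hn (hV.image k)),
      mem_image_of_mem _ (u1 n).2, mem_image_of_mem _ ((u1 n).1.1 (u1 n).2), hx⟩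
  have v2 : ∀ z, z ≠ k y → ∃ n, z ∉ k '' U n ∩ (k '' V ∩ X) := fun z hz => by
    by_contra h
    push Not at h
    have h1 : k.symm z ∈ ⋂ n, U n := mem_iInter.2 fun n => by
      obtain ⟨w, h2, rfl⟩ := (h n).1
      simpa using h2
    rw [u3] at h1
    exact hz (by rw [← mem_singleton_iff.1 h1]; simp)
  generalize k y = x at hx v1 v2
  generalize hU : (fun n => k '' U n ∩ (k '' V ∩ X)) = U' at v1 v2
  replace v1 : ∀ n, ClopIn (U' n) X ∧ x ∈ U' n := hU ▸ v1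
  replace v2 : ∀ z, z ≠ x → ∃ n, z ∉ U' n := hU ▸ v2
  have step : ∀ (n : ℕ) (M : {M : Set S // ClopIn M X ∧ x ∈ M}),
      ∃ (M' : {M : Set S // ClopIn M X ∧ x ∈ M}) (g : S ≃ₜ S),
        M'.1 ⊆ M.1 ∩ U' n ∧ g '' M'.1 ⊆ M.1 \ M'.1 := by
    rintro n ⟨M, h1, h2⟩
    obtain ⟨z, hz⟩ := (((hX.crdX.clop h1).inf ⟨x, h2⟩).sdiff (finite_singleton x)).nonempty
    obtain ⟨j, hj⟩ := v2 z hz.2
    obtain ⟨g, N, a1, a2, a3, a4⟩ := hS.thin.nd_below hL hX hn hx (h1.1 hz.1)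
    refine ⟨⟨M ∩ U' n ∩ U' j ∩ (N ∩ g ⁻¹' (M \ U' j)),
      ((h1.inter (v1 n).1).inter (v1 j).1).inter (en1_pull g a1 a4 (h1.diff (v1 j).1)),
      ⟨⟨h2, (v1 n).2⟩, (v1 j).2⟩, a2, ?_⟩, g, fun w hw => hw.1.1, ?_⟩
    · rw [mem_preimage, a3]; exact ⟨hz.1, hj⟩
    · rintro _ ⟨w, hw, rfl⟩
      exact ⟨hw.2.2.1, fun h => hw.2.2.2 h.1.2⟩
  choose F G hF hG using step
  let M : ℕ → {M : Set S // ClopIn M X ∧ x ∈ M} := fun n =>
    Nat.rec ⟨X, clopIn_self X, hx⟩ F n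
  have m1 : ∀ n, (M (n + 1)).1 ⊆ (M n).1 ∩ U' n := fun n => hF n (M n)
  refine hS.end_core hX (hL.mono (subset_univ _)) hx (fun n => (M n).1 \ (M (n + 1)).1)
    (fun n => G n (M n)) (fun n => (M n).2.1.diff (M (n + 1)).2.1)
    (en1_disj (R := fun n => (M n).1) (fun n => (m1 n).trans inter_subset_left)
      (fun n => sdiff_subset) fun n => disjoint_sdiff_left) ?_
    fun n => (image_mono sdiff_subset).trans (hG n (M n))
  refine (iUnion_subset fun n z hz => (Set.mem_sdiff z).2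
    ⟨(M n).2.1.1 hz.1, fun e => hz.2 (e ▸ (M (n + 1)).2.2)⟩).antisymm fun z hz => ?_
  by_contra h
  have h1 : ∀ n, z ∈ (M n).1 := fun n => by
    induction n with
    | zero => exact hz.1
    | succ n ih => exact by_contra fun k => h (mem_iUnion.2 ⟨n, ih, k⟩)
  obtain ⟨j, hj⟩ := v2 z hz.2
  exact hj (m1 j (h1 (j + 1))).2

end

end Pool.Agent.Lib.MP_52f683_gt
end

-- part Pool.Agent.Lib.MP_52f683_gt.CS.PL1
section

set_option autoImplicit false
set_option linter.unusedSectionVars false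

open Set Topology Filter

namespace Pool.Agent.Lib.MP_52f683_gt

variable {S : Type*} [TopologicalSpace S] [T1Space S] [Infinite S]

/-- abstract two-sided avoidance -/
lemma Ctx.ts_core (hS : Ctx S) (Γ : (S ≃ₜ S) → Prop) (Ad : Set S → Set S → Prop)
    (comp : ∀ h k, Γ h → Γ k → Γ (h.trans k)) (inv : ∀ h, Γ h → Γ h.symm)
    (adc : ∀ W M, Ad W M → IsClosed M ∧ M ≠ univ)
    (adi : ∀ W M k, Ad W M → Γ k → Ad (k '' W) (k '' M))
    (fixm : ∀ W M W2 W3, Ad W M → CD W2 → CD W3 → Disjoint W2 M → Disjoint W3 M →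
      ∃ k, Γ k ∧ k '' W = W ∧ k '' W2 = W3)
    (tr : ∀ W M W' M', Ad W M → Ad W' M' → ∃ k, Γ k ∧ k '' W = W')
    {W1 W2 M1 M2 : Set S} (a1 : Ad W1 M1) (a2 : Ad W2 M2) (c1 : CD W1) (c2 : CD W2)
    (d1 : Disjoint W2 M1) (d2 : Disjoint W1 M2)
    {D E MK ML : Set S} (aD : Ad D MK) (aE : Ad E ML) (cD : CD D) (cE : CD E) :
    ∃ k, Γ k ∧ Disjoint (k '' MK) E ∧ Disjoint (k '' D) ML := by
  have orbit : ∀ W M W' V N V', Ad W M → CD W' → Disjoint W' M → Ad V N → CD V' →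
      Disjoint V' N → ∃ k, Γ k ∧ k '' W = V ∧ k '' W' = V' := by
    intro W M W' V N V' h1 h2 h3 h4 h5 h6
    obtain ⟨k0, g0, e0⟩ := tr W M V N h1 h4
    have h7 : Ad V (k0 '' M) := e0 ▸ adi W M k0 h1 g0
    obtain ⟨W3, c3, d3⟩ := hS.exists_cd_off ((adc _ _ h7).1.union (adc _ _ h4).1)
      (hS.union_ne (adc _ _ h7).1 (adc _ _ h4).1 (adc _ _ h7).2 (adc _ _ h4).2)
    obtain ⟨k1, g1, e1, f1⟩ := fixm V (k0 '' M) (k0 '' W') W3 h7 (h2.image k0) c3
      ((img_disj k0).2 h3) (d3.mono_right subset_union_left)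
    obtain ⟨k2, g2, e2, f2⟩ := fixm V N V' W3 h4 h5 c3 h6 (d3.mono_right subset_union_right)
    refine ⟨(k0.trans k1).trans k2.symm, comp _ _ (comp _ _ g0 g1) (inv _ g2), ?_, ?_⟩
    · rw [img_trans, img_trans, e0, e1]
      conv_lhs => rw [← e2]
      exact img_symm_img k2 V
    · rw [img_trans, img_trans, f1, ← f2]
      exact img_symm_img k2 V'
  obtain ⟨D', cD', dD'⟩ := hS.exists_cd_off (adc _ _ aE).1 (adc _ _ aE).2
  obtain ⟨k, g, e, f⟩ := orbit E ML D' W2 M2 W1 aE cD' dD' a2 c1 d2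
  have a3 : Ad D' (k.symm '' M1) := by
    have := adi W1 M1 k.symm a1 (inv _ g)
    rwa [← f, img_symm_img] at this
  have d3 : Disjoint E (k.symm '' M1) := by
    rw [← img_disj k, img_img_symm, e]; exact d1
  obtain ⟨E0, cE0, dE0⟩ := hS.exists_cd_off (adc _ _ aD).1 (adc _ _ aD).2
  obtain ⟨k', g', e', f'⟩ := orbit D MK E0 D' (k.symm '' M1) E aD cE0 dE0 a3 cE d3
  exact ⟨k', g', by rw [← f']; exact (img_disj k').2 dE0.symm, by rw [e']; exact dD'⟩

/-- two members over a closed set, neither inside the other -/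
lemma Ctx.two_over (hS : Ctx S) {M : Set S} (hM : Mem M) : ∃ M1 M2 W1 W2 : Set S,
    Mem M1 ∧ Mem M2 ∧ M ⊆ M1 ∧ M ⊆ M2 ∧ CD W1 ∧ CD W2 ∧ W1 ⊆ M1 ∧ W2 ⊆ M2 ∧
      Disjoint W1 M2 ∧ Disjoint W2 M1 := by
  obtain ⟨x, hx⟩ := hS.exists_off hM.sm
  obtain ⟨y, hy⟩ := hM.ne
  obtain ⟨g, hg⟩ := hS.thin.homog y x
  have h0 := hM.image g
  have hA0 : Crd (g '' M \ M) := h0.crd.diff_closed hM.cl
  have hne : (g '' M \ M).Nonempty := ⟨x, ⟨y, hy, hg⟩, hx⟩
  have h1 := mem_of_crd hA0 hne h0.cl h0.sm sdiff_subset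
  obtain ⟨U, V, hU, hV, ⟨u, hu⟩, ⟨v, hv⟩, hd⟩ := hS.reducible h1
  have nA : ((g '' M \ M) ∩ U).Nonempty := closure_nonempty_iff.1 ⟨u, cl_inter_open hU hu.2 hu.1⟩
  have nB : ((g '' M \ M) ∩ V).Nonempty := closure_nonempty_iff.1 ⟨v, cl_inter_open hV hv.2 hv.1⟩
  have cA := hA0.inter_open hU
  have cB := hA0.inter_open hV
  have sA : (g '' M \ M) ∩ U ⊆ g '' M := inter_subset_left.trans sdiff_subset
  have sB : (g '' M \ M) ∩ V ⊆ g '' M := inter_subset_left.trans sdiff_subset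
  obtain ⟨W1, s1, c1⟩ := hS.exists_cd_crd cA nA h0.cl h0.sm sA
  obtain ⟨W2, s2, c2⟩ := hS.exists_cd_crd cB nB h0.cl h0.sm sB
  have dU : Disjoint U (closure ((g '' M \ M) ∩ V)) :=
    Disjoint.closure_right (disjoint_left.2 fun z hz hz' =>
      disjoint_left.1 hd ⟨subset_closure hz'.1, hz⟩ hz'.2) hU
  have dV : Disjoint V (closure ((g '' M \ M) ∩ U)) :=
    Disjoint.closure_right (disjoint_left.2 fun z hz hz' =>
      disjoint_left.1 hd ⟨subset_closure hz'.1, hz'.2⟩ hz) hV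
  refine ⟨M ∪ closure ((g '' M \ M) ∩ U), M ∪ closure ((g '' M \ M) ∩ V), W1, W2,
    hS.mem_union hM (mem_of_crd cA nA h0.cl h0.sm sA),
    hS.mem_union hM (mem_of_crd cB nB h0.cl h0.sm sB), subset_union_left, subset_union_left, c1, c2,
    (s1.trans subset_closure).trans subset_union_right,
    (s2.trans subset_closure).trans subset_union_right, ?_, ?_⟩
  · exact disjoint_union_right.2 ⟨disjoint_left.2 fun z hz => (s1 hz).1.2,
      dU.mono_left (s1.trans inter_subset_right)⟩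
  · exact disjoint_union_right.2 ⟨disjoint_left.2 fun z hz => (s2 hz).1.2,
      dV.mono_left (s2.trans inter_subset_right)⟩

lemma pl1_fixm (hS : Ctx S) {c M W W2 W3 : Set S} (hc : IsClosed c) (hc' : Crd c) (hM : Mem M)
    (h1 : c ⊆ M) (h2 : Nwd c M) (hW : CD W) (h3 : W ⊆ M) (h4 : Disjoint W c) (c2 : CD W2)
    (c3 : CD W3) (d2 : Disjoint W2 M) (d3 : Disjoint W3 M) :
    ∃ k : S ≃ₜ S, k '' c = c ∧ k '' W = W ∧ k '' W2 = W3 := by
  have a1 : Crd (M \ c) := hM.crd.diff_closed hc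
  have a2 : Crd ((M \ c) \ W) := hS.crd_diff a1 hW.disc
  have a3 : closure ((M \ c) \ W) = M :=
    (closure_minimal (sdiff_subset.trans sdiff_subset) hM.cl).antisymm
      (h2.trans (closure_minimal (hS.nwd_disc a1 hW.disc) isClosed_closure))
  obtain ⟨k, e, f⟩ := hS.move_cd a2 c2 c3 (by rwa [a3]) (by rwa [a3])
  have a4 : Rem ((M \ c) \ W) = W ∪ c := by
    rw [Rem, a3]
    ext x
    simp only [Set.mem_sdiff, mem_union, not_and, not_not]
    constructor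
    · rintro ⟨b1, b2⟩
      by_cases b3 : x ∈ c
      · exact Or.inr b3
      · exact Or.inl (b2 ⟨b1, b3⟩)
    · rintro (b | b)
      · exact ⟨h3 b, fun _ => b⟩
      · exact ⟨h1 b, fun b' => absurd b b'.2⟩
  have a5 : k '' (W ∪ c) = W ∪ c := by rw [← a4, img_rem, e]
  have a6 : Disjoint W (derivedSet (W ∪ c)) := by
    rw [derivedSet_union, hS.der_disc hW.disc, empty_union]
    exact h4.mono_right (der_sub_closed hc subset_rfl)
  have a7 : c ⊆ derivedSet (W ∪ c) := hc'.trans (der_mono subset_union_right)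
  obtain ⟨b1, b2⟩ := split_img k a5 a6 a7 a6 a7
  exact ⟨k, b2, b1, f⟩

/-- two-sided avoidance fixing a crowded closed set -/
lemma Ctx.ts_mem (hS : Ctx S) {c M0 K L D E : Set S} (hc : IsClosed c) (hc' : Crd c)
    (hM : Mem M0) (h1 : c ⊆ M0) (h2 : Nwd c M0) (hK : IsClosed K) (hK' : K ≠ univ)
    (hL : IsClosed L) (hL' : L ≠ univ) (hD : Disc D) (hE : Disc E) (hDc : Disjoint D c)
    (hEc : Disjoint E c) :
    ∃ k : S ≃ₜ S, k '' c = c ∧ Disjoint (k '' K) E ∧ Disjoint (k '' D) L := by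
  have nw : ∀ M : Set S, M0 ⊆ M → Nwd c M := fun M h => by
    have := h2.union_right (L := M) h1
    rwa [union_eq_right.2 h] at this
  have padd : ∀ K D : Set S, IsClosed K → K ≠ univ → Disc D → Disjoint D c →
      ∃ D' M : Set S, (Mem M ∧ c ⊆ M ∧ Nwd c M ∧ CD D' ∧ D' ⊆ M ∧ Disjoint D' c) ∧
        K ⊆ M ∧ D ⊆ D' := by
    intro K D hK hK' hD hDc
    have k1 := hK.union (hS.closed hD)
    obtain ⟨M, hm, hs⟩ := hS.cover (k1.union hM.cl)
      (hS.union_ne k1 hM.cl (hS.union_ne hK (hS.closed hD) hK' (hS.disc_ne hD)) hM.sm)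
    have s0 : M0 ⊆ M := subset_union_right.trans hs
    have sD : D ⊆ M := (subset_union_right.trans subset_union_left).trans hs
    have ne : (M \ c).Nonempty := closure_nonempty_iff.1 (hm.ne.mono (nw M s0))
    obtain ⟨D', cD, s1, s2⟩ := hS.pad (hm.crd.diff_closed hc) ne hm.cl hm.sm sdiff_subset hD
    exact ⟨D', M, ⟨hm, h1.trans s0, nw M s0, cD, s2.trans (union_subset sD sdiff_subset),
      (disjoint_union_left.2 ⟨hDc, disjoint_sdiff_left⟩).mono_left s2⟩,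
      (subset_union_left.trans subset_union_left).trans hs, s1⟩
  obtain ⟨D', MK, aD, sK, sD⟩ := padd K D hK hK' hD hDc
  obtain ⟨E', ML, aE, sL, sE⟩ := padd L E hL hL' hE hEc
  obtain ⟨M1, M2, W1, W2, m1, m2, s1, s2, c1, c2, t1, t2, d2, d1⟩ := hS.two_over hM
  obtain ⟨k, g, e, f⟩ := hS.ts_core (fun k => k '' c = c)
    (fun W M => Mem M ∧ c ⊆ M ∧ Nwd c M ∧ CD W ∧ W ⊆ M ∧ Disjoint W c)
    (fun h k a b => by rw [img_trans, a, b])
    (fun h a => by
      conv_lhs => rw [← a]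
      exact img_symm_img h c)
    (fun W M a => ⟨a.1.cl, a.1.sm⟩)
    (fun W M k a b => ⟨a.1.image k, b ▸ image_mono a.2.1, b ▸ a.2.2.1.image k,
      a.2.2.2.1.image k, image_mono a.2.2.2.2.1, b ▸ (img_disj k).2 a.2.2.2.2.2⟩)
    (fun W M W2 W3 a c2 c3 d2 d3 => pl1_fixm hS hc hc' a.1 a.2.1 a.2.2.1 a.2.2.2.1 a.2.2.2.2.1
      a.2.2.2.2.2 c2 c3 d2 d3)
    (fun W M W' M' a b => hS.move_cd hc' a.2.2.2.1 b.2.2.2.1
      (by rw [hc.closure_eq]; exact a.2.2.2.2.2) (by rw [hc.closure_eq]; exact b.2.2.2.2.2))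
    ⟨m1, h1.trans s1, nw M1 s1, c1, t1, d2.mono_right (h1.trans s2)⟩
    ⟨m2, h1.trans s2, nw M2 s2, c2, t2, d1.mono_right (h1.trans s1)⟩
    c1 c2 d1 d2 aD aE aD.2.2.2.1 aE.2.2.2.1
  exact ⟨k, g, e.mono (image_mono sK) sE, f.mono (image_mono sD) sL⟩

lemma Ctx.ts (hS : Ctx S) {K L D E : Set S} (hK : IsClosed K) (hK' : K ≠ univ)
    (hL : IsClosed L) (hL' : L ≠ univ) (hD : Disc D) (hE : Disc E) :
    ∃ k : S ≃ₜ S, Disjoint (k '' K) E ∧ Disjoint (k '' D) L := by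
  obtain ⟨M, hM⟩ := hS.exists_mem
  obtain ⟨k, -, h⟩ := hS.ts_mem isClosed_empty crd_empty hM (empty_subset _)
    (by simpa [Nwd] using subset_closure) hK hK' hL hL' hD hE (by simp) (by simp)
  exact ⟨k, h⟩

end Pool.Agent.Lib.MP_52f683_gt
end

-- part Pool.Agent.Lib.MP_52f683_gt.CS.PL
section

set_option autoImplicit false
set_option linter.unusedSectionVars false

open Set Topology Filter

namespace Pool.Agent.Lib.MP_52f683_gt

variable {S : Type*} [TopologicalSpace S] [T1Space S] [Infinite S]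

/-- the points of `E` through which a pointed translate of `K` misses the rest of `E` -/
def plGood (K : Set S) (x0 : S) (E : Set S) : Set S :=
  {y | y ∈ E ∧ ∃ k : S ≃ₜ S, k x0 = y ∧ k '' K ∩ E ⊆ {y}}

lemma pl_good_img (K : Set S) (x0 : S) (E : Set S) (h : S ≃ₜ S) :
    h '' plGood K x0 E ⊆ plGood K x0 (h '' E) := by
  rintro _ ⟨y, ⟨hy, k, e, f⟩, rfl⟩
  refine ⟨mem_image_of_mem _ hy, k.trans h, by simp [e], ?_⟩
  rw [img_trans, ← img_inter, ← image_singleton]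
  exact image_mono f

lemma pl_many (hS : Ctx S) {K : Set S} (x0 : S) (hK : IsClosed K) (hK' : K ≠ univ) (n : ℕ) :
    ∃ F L : Set S, F.Finite ∧ F.ncard = n ∧ IsClosed L ∧ L ≠ univ ∧
      ∀ y ∈ F, ∃ k : S ≃ₜ S, k x0 = y ∧ k '' K ⊆ L ∧ k '' K ∩ F ⊆ {y} := by
  induction n with
  | zero => exact ⟨∅, ∅, finite_empty, ncard_empty _, isClosed_empty, empty_ne_univ, by simp⟩
  | succ n ih =>
    obtain ⟨F, L, hF, hn, hL, hL', h⟩ := ih
    have dF := disc_finite hF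
    obtain ⟨k, e, f⟩ := hS.ts hK hK' (hL.union hF.isClosed)
      (hS.union_ne hL hF.isClosed hL' (hS.disc_ne dF)) (disc_single x0) dF
    rw [image_singleton, disjoint_singleton_left, mem_union, not_or] at f
    have hk : IsClosed (k '' K) := k.isClosed_image.2 hK
    refine ⟨insert (k x0) F, L ∪ k '' K, hF.insert _, by rw [ncard_insert_of_notMem f.2 hF, hn],
      hL.union hk, hS.union_ne hL hk hL' (img_ne_univ k hK'), ?_⟩
    rintro y (rfl | hy)
    · refine ⟨k, rfl, subset_union_right, ?_⟩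
      rintro z ⟨h1, rfl | h2⟩
      · rfl
      · exact absurd h2 (disjoint_left.1 e h1)
    · obtain ⟨k', a, b, c⟩ := h y hy
      refine ⟨k', a, b.trans subset_union_left, ?_⟩
      rintro z ⟨h1, rfl | h2⟩
      · exact absurd (b h1) f.1
      · exact c ⟨h1, h2⟩

lemma pl_good_inf (hS : Ctx S) {K E : Set S} (x0 : S) (hK : IsClosed K) (hK' : K ≠ univ)
    (hE : CD E) : (plGood K x0 E).Infinite := fun hf => by
  obtain ⟨F, L, hF, hn, hL, hL', h⟩ := pl_many hS x0 hK hK' ((plGood K x0 E).ncard + 1)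
  obtain ⟨E3, c3, d3⟩ := hS.exists_cd_off hL hL'
  have c2 : CD (F ∪ E3) :=
    hS.cd (hS.disc_union (disc_finite hF) c3.disc) (c3.inf.mono subset_union_right)
  have s : F ⊆ plGood K x0 (F ∪ E3) := fun y hy => by
    obtain ⟨k, a, b, c⟩ := h y hy
    refine ⟨Or.inl hy, k, a, ?_⟩
    rintro z ⟨h1, h2 | h2⟩
    · exact c ⟨h1, h2⟩
    · exact absurd (b h1) (disjoint_left.1 d3 h2)
  obtain ⟨g, hg⟩ := hS.thin.eqv_cd c2 hE
  have s2 : g '' F ⊆ plGood K x0 E := hg ▸ (image_mono s).trans (pl_good_img K x0 _ g)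
  have := ncard_le_ncard s2 hf
  rw [ncard_image_of_injective F g.injective, hn] at this
  omega

lemma pl_good_all (hS : Ctx S) {K E : Set S} (x0 : S) (hK : IsClosed K) (hK' : K ≠ univ)
    (hE : CD E) : E ⊆ plGood K x0 E := by
  have s : plGood K x0 E ⊆ E := fun _ hy => hy.1
  have c := hE.mono s (pl_good_inf hS x0 hK hK' hE)
  have s2 : plGood K x0 E ⊆ plGood K x0 (plGood K x0 E) := fun y hy =>
    let ⟨k, a, b⟩ := hy.2
    ⟨hy, k, a, (inter_subset_inter_right _ s).trans b⟩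
  obtain ⟨g, hg⟩ := hS.thin.eqv_cd c hE
  have := (image_mono s2).trans (pl_good_img K x0 _ g)
  rwa [hg] at this

/-- a pointed translate missing a discrete set -/
lemma Ctx.sep (hS : Ctx S) {K D : Set S} (x0 : S) {x : S} (hK : IsClosed K) (hK' : K ≠ univ)
    (hD : Disc D) (hx : x ∉ D) : ∃ k : S ≃ₜ S, k x0 = x ∧ Disjoint (k '' K) D := by
  obtain ⟨E1, c1, -⟩ := hS.exists_cd_off hK hK'
  have c : CD ((D ∪ {x}) ∪ E1) := hS.cd (hS.disc_union (hS.disc_union hD (disc_single x)) c1.disc)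
    (c1.inf.mono subset_union_right)
  obtain ⟨-, k, a, b⟩ := pl_good_all hS x0 hK hK' c (Or.inl (Or.inr rfl))
  refine ⟨k, a, disjoint_left.2 fun z h1 h2 => hx ?_⟩
  have : z = x := b ⟨h1, Or.inl (Or.inl h2)⟩
  exact this ▸ h2

lemma pl_move (hS : Ctx S) {C M W W2 W3 : Set S} {x : S} (hC : Mem C) (hM : Mem M) (hx : x ∈ C)
    (h1 : C ⊆ M) (h2 : Nwd C M) (hW : Disc W) (h3 : W ⊆ M) (h4 : Disjoint W C) (c2 : CD W2)
    (c3 : CD W3) (d2 : Disjoint W2 M) (d3 : Disjoint W3 M) :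
    ∃ k : S ≃ₜ S, k x = x ∧ k '' W = W ∧ k '' W2 = W3 := by
  have a1 : Crd (M \ C) := hM.crd.diff_closed hC.cl
  have a2 : Crd ((M \ C) \ W) := hS.crd_diff a1 hW
  have a3 : closure ((M \ C) \ W) = M :=
    (closure_minimal (sdiff_subset.trans sdiff_subset) hM.cl).antisymm
      (h2.trans (closure_minimal (hS.nwd_disc a1 hW) isClosed_closure))
  have b2 : Crd (((M \ C) \ W) ∪ {x}) := by
    refine union_subset (a2.trans (der_mono subset_union_left)) (singleton_subset_iff.2 ?_)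
    refine der_mono subset_union_left ((mem_cl_iff.1 ?_).resolve_left fun h => h.1.2 hx)
    rw [a3]; exact h1 hx
  have b3 : closure (((M \ C) \ W) ∪ {x}) = M := by
    rw [closure_union, a3, closure_singleton, union_eq_left.2 (singleton_subset_iff.2 (h1 hx))]
  obtain ⟨k, e, f⟩ := hS.move_cd b2 c2 c3 (by rwa [b3]) (by rwa [b3])
  have a4 : Rem (((M \ C) \ W) ∪ {x}) = W ∪ (C \ {x}) := by
    rw [Rem, b3]
    ext z
    simp only [Set.mem_sdiff, mem_union, not_or, not_and, not_not, mem_singleton_iff]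
    constructor
    · rintro ⟨b1, b2, b4⟩
      by_cases b3 : z ∈ C
      · exact Or.inr ⟨b3, b4⟩
      · exact Or.inl (b2 ⟨b1, b3⟩)
    · rintro (b | b)
      · exact ⟨h3 b, fun _ => b, fun h => disjoint_left.1 h4 b (h ▸ hx)⟩
      · exact ⟨h1 b.1, fun b' => absurd b.1 b'.2, b.2⟩
  have a8 : NLC (((M \ C) \ W) ∪ {x}) = {x} := by
    rw [NLC, a4, closure_union, (hS.closed hW).closure_eq]
    refine Subset.antisymm ?_ (singleton_subset_iff.2
      ⟨Or.inr rfl, Or.inr (mem_cl_diff_single (hC.crd hx))⟩)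
    rintro z ⟨h | h, h'⟩
    · rcases h' with h' | h'
      · exact absurd h' h.2
      · exact absurd (closure_minimal sdiff_subset hC.cl h') h.1.2
    · exact h
  have a9 : k '' {x} = {x} := by rw [← a8, img_nlc, e]
  have a5 : k '' (W ∪ (C \ {x})) = W ∪ (C \ {x}) := by rw [← a4, img_rem, e]
  have a6 : Disjoint W (derivedSet (W ∪ (C \ {x}))) := by
    rw [derivedSet_union, hS.der_disc hW, empty_union]
    exact h4.mono_right (der_sub_closed hC.cl sdiff_subset)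
  have a7 : C \ {x} ⊆ derivedSet (W ∪ (C \ {x})) :=
    (hS.crd_diff hC.crd (disc_single x)).trans (der_mono subset_union_right)
  exact ⟨k, by simpa using a9, (split_img k a5 a6 a7 a6 a7).1, f⟩

lemma pl_nwd {C M M' : Set S} (h1 : C ⊆ M) (h2 : Nwd C M) (h : M ⊆ M') : Nwd C M' := by
  have := h2.union_right (L := M') h1
  rwa [union_eq_right.2 h] at this

/-- two-sided avoidance fixing a point -/
lemma Ctx.ts_pt (hS : Ctx S) {C M K L D E : Set S} {x : S} (hC : Mem C) (hM : Mem M)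
    (hCM : C ⊆ M) (hn : Nwd C M) (hK : IsClosed K) (hK' : K ≠ univ)
    (hL : IsClosed L) (hL' : L ≠ univ) (hD : Disc D) (hE : Disc E) (hxD : x ∉ D) (hxE : x ∉ E) :
    ∃ k : S ≃ₜ S, k x = x ∧ Disjoint (k '' K) E ∧ Disjoint (k '' D) L := by
  obtain ⟨x0, hx0⟩ := hC.ne
  have padd : ∀ K D : Set S, IsClosed K → K ≠ univ → Disc D → x ∉ D →
      ∃ D' M' : Set S, (∃ C', Mem C' ∧ Mem M' ∧ x ∈ C' ∧ C' ⊆ M' ∧ Nwd C' M' ∧ CD D' ∧ D' ⊆ M' ∧
        Disjoint D' C') ∧ CD D' ∧ K ⊆ M' ∧ D ⊆ D' := by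
    intro K D hK hK' hD hxD
    obtain ⟨k0, e0, d0⟩ := hS.sep x0 hM.cl hM.sm hD hxD
    have m0 := hM.image k0
    have c0 := hC.image k0
    have t0 : k0 '' C ⊆ k0 '' M := image_mono hCM
    have k1 := hK.union (hS.closed hD)
    obtain ⟨M', hm, hs⟩ := hS.cover (k1.union m0.cl)
      (hS.union_ne k1 m0.cl (hS.union_ne hK (hS.closed hD) hK' (hS.disc_ne hD)) m0.sm)
    have s0 : k0 '' M ⊆ M' := subset_union_right.trans hs
    have sD : D ⊆ M' := (subset_union_right.trans subset_union_left).trans hs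
    have nw := pl_nwd t0 (hn.image k0) s0
    have ne : (M' \ k0 '' C).Nonempty := closure_nonempty_iff.1 (hm.ne.mono nw)
    obtain ⟨D', cD, s1, s2⟩ := hS.pad (hm.crd.diff_closed c0.cl) ne hm.cl hm.sm sdiff_subset hD
    exact ⟨D', M', ⟨k0 '' C, c0, hm, ⟨x0, hx0, e0⟩, t0.trans s0, nw, cD,
      s2.trans (union_subset sD sdiff_subset),
      (disjoint_union_left.2 ⟨d0.symm.mono_right t0, disjoint_sdiff_left⟩).mono_left s2⟩, cD,
      (subset_union_left.trans subset_union_left).trans hs, s1⟩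
  obtain ⟨D', MK, aD, cD, sK, sD⟩ := padd K D hK hK' hD hxD
  obtain ⟨E', ML, aE, cE, sL, sE⟩ := padd L E hL hL' hE hxE
  obtain ⟨g, hg⟩ := hS.thin.homog x0 x
  have t0 : g '' C ⊆ g '' M := image_mono hCM
  obtain ⟨M1, M2, W1, W2, m1, m2, s1, s2, c1, c2, t1, t2, d2, d1⟩ := hS.two_over (hM.image g)
  obtain ⟨k, a, e, f⟩ := hS.ts_core (fun k => k x = x)
    (fun W M' => ∃ C', Mem C' ∧ Mem M' ∧ x ∈ C' ∧ C' ⊆ M' ∧ Nwd C' M' ∧ CD W ∧ W ⊆ M' ∧
      Disjoint W C')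
    (fun h k a b => by rw [Homeomorph.trans_apply, a, b])
    (fun h a => by rw [Homeomorph.symm_apply_eq, a])
    (fun W M' ⟨_, _, a, _⟩ => ⟨a.cl, a.sm⟩)
    (fun W M' k ⟨C', a1, a2, a3, a4, a5, a6, a7, a8⟩ b => ⟨k '' C', a1.image k, a2.image k,
      ⟨x, a3, b⟩, image_mono a4, a5.image k, a6.image k, image_mono a7, (img_disj k).2 a8⟩)
    (fun W M' W2 W3 ⟨C', a1, a2, a3, a4, a5, a6, a7, a8⟩ c2 c3 d2 d3 =>
      pl_move hS a1 a2 a3 a4 a5 a6.disc a7 a8 c2 c3 d2 d3)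
    (fun W M' W' M'' ⟨C', a1, a2, a3, a4, a5, a6, _, a8⟩ ⟨C'', _, _, b3, _, _, b6, _, b8⟩ => by
      obtain ⟨k0, e0, d0⟩ := hS.sep x a2.cl a2.sm (hS.disc_union a6.disc b6.disc)
        (fun h => h.elim (fun h => disjoint_left.1 a8 h a3) fun h => disjoint_left.1 b8 h b3)
      obtain ⟨k, p1, -, p2⟩ := pl_move hS (a1.image k0) (a2.image k0) ⟨x, a3, e0⟩ (image_mono a4)
        (a5.image k0) disc_empty (empty_subset _) (empty_disjoint _) a6 b6
        (d0.symm.mono_left subset_union_left) (d0.symm.mono_left subset_union_right)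
      exact ⟨k, p1, p2⟩)
    ⟨g '' C, hC.image g, m1, ⟨x0, hx0, hg⟩, t0.trans s1, pl_nwd t0 (hn.image g) s1, c1, t1,
      d2.mono_right (t0.trans s2)⟩
    ⟨g '' C, hC.image g, m2, ⟨x0, hx0, hg⟩, t0.trans s2, pl_nwd t0 (hn.image g) s2, c2, t2,
      d1.mono_right (t0.trans s1)⟩
    c1 c2 d1 d2 aD aE cD cE
  exact ⟨k, a, e.mono (image_mono sK) sE, f.mono (image_mono sD) sL⟩

end Pool.Agent.Lib.MP_52f683_gt
end

-- part Pool.Agent.Lib.MP_52f683_gt.CS.MK1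
section

set_option autoImplicit false
set_option linter.unusedSectionVars false

open Set Topology Filter

namespace Pool.Agent.Lib.MP_52f683_gt

variable {S : Type*} [TopologicalSpace S] [T1Space S] [Infinite S]

lemma mk1_ne_univ {A F : Set S} (h : A ⊆ F) (hF : F ≠ univ) : A ≠ univ :=
  fun e => hF (eq_univ_of_univ_subset (e ▸ h))

lemma mk1_qc_sub (X : Set S) (x : S) : QC X x ⊆ X := fun _ hy => hy.1

lemma mk1_qc_eq {X : Set S} {x y : S} (hx : x ∈ X) (hy : y ∈ QC X x) : QC X y = QC X x := by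
  ext z
  constructor
  · exact fun hz => ⟨hz.1, fun N hN hxN => hz.2 N hN (hy.2 N hN hxN)⟩
  · refine fun hz => ⟨hz.1, fun N hN hyN => hz.2 N hN ?_⟩
    by_contra hxN
    exact (hy.2 _ hN.compl ⟨hx, hxN⟩).2 hyN

lemma mk1_qc_closed {X : Set S} {x z : S} (hz : z ∈ closure (QC X x)) (hzX : z ∈ X) :
    z ∈ QC X x :=
  ⟨hzX, fun N hN hxN =>
    hN.closed ⟨closure_mono (fun _ hy => hy.2 N hN hxN) hz, hzX⟩⟩

section
variable (hS : Ctx S) (hL : LFin (univ : Set S))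
include hS hL

/-- a member through a point whose trace on a closed set lies in a given member -/
lemma Ctx.h1 {b F : Set S} {x : S} (hb : Mem b) (hF : IsClosed F) (hF' : F ≠ univ) (hx : x ∉ F) :
    ∃ c, Mem c ∧ x ∈ c ∧ c ∩ F ⊆ b := by
  by_cases hxb : x ∈ b
  · exact ⟨b, hb, hxb, inter_subset_left⟩
  obtain ⟨y, hy⟩ := hb.ne
  have hD : Disc ({y} ∪ Iso F) := hS.disc_union (disc_single y) (disc_iso F)
  have hxD : x ∉ ({y} ∪ Iso F : Set S) := by
    rintro (h | h)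
    · rw [mem_singleton_iff] at h
      exact hxb (h ▸ hy)
    · exact hx h.1
  obtain ⟨k0, hk0, hd0⟩ := hS.sep y hb.cl hb.sm hD hxD
  have hm := hb.image k0
  have hxm : x ∈ k0 '' b := ⟨y, hy, hk0⟩
  have hdF : derivedSet F ⊆ F := der_sub_closed hF subset_rfl
  have hA0 : Crd (derivedSet F ∩ k0 '' b) :=
    hL.crd (isClosed_derivedSet F) (hS.crd_der F) (mk1_ne_univ hdF hF') hm.cl hm.crd hm.sm
      (subset_univ _) (subset_univ _)
  have hA : Crd ((derivedSet F ∩ k0 '' b) \ b) := hA0.diff_closed hb.cl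
  have hcl : closure ((derivedSet F ∩ k0 '' b) \ b) ⊆ derivedSet F ∩ k0 '' b :=
    closure_minimal sdiff_subset ((isClosed_derivedSet F).inter hm.cl)
  obtain ⟨k, hkA, hky⟩ := hS.move_pt (x := y) (y := x) hA
    (fun h => disjoint_left.1 hd0 (hcl h).2 (Or.inl rfl)) (fun h => hx (hdF (hcl h).1))
  have hkb := hb.image k
  have hxk : x ∈ k '' b := ⟨y, hy, hky⟩
  refine ⟨k '' b ∩ k0 '' b, ⟨hkb.cl.inter hm.cl,
    hL _ _ hkb hm (subset_univ _) (subset_univ _), ⟨x, hxk, hxm⟩,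
    mk1_ne_univ inter_subset_left hkb.sm⟩, ⟨hxk, hxm⟩, ?_⟩
  rintro z ⟨⟨hz1, hz2⟩, hz3⟩
  by_contra hzb
  have hzd : z ∈ derivedSet F := by
    by_contra h
    exact disjoint_left.1 hd0 hz2 (Or.inr ⟨hz3, h⟩)
  have hzA : z ∈ k '' ((derivedSet F ∩ k0 '' b) \ b) := by
    rw [hkA]
    exact ⟨⟨hzd, hz2⟩, hzb⟩
  obtain ⟨a, ha, rfl⟩ := hzA
  exact ha.2 ((mem_img k).1 hz1)

lemma Ctx.sharp_of_disc {X c m : Set S} {x : S} (hX : Whole X c m) (hx : x ∈ X)
    (hd : Disc (QC X x)) : ∃ (X' c' m' : Set S), Whole X' c' m' ∧ Sharp X' x := by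
  obtain ⟨k, hk, hdk⟩ := hS.sep (D := QC X x \ {x}) (x := x) x hX.mem.cl hX.mem.sm
    (hd.mono sdiff_subset) (fun h => h.2 rfl)
  have hc1 := hX.mem.image k
  have hxc : x ∈ c := hX.sub hx
  have hx1 : x ∈ k '' c := ⟨x, hxc, hk⟩
  have hxm : x ∉ m := by
    have h := hx
    rw [hX.eq] at h
    exact h.2
  have hsub : (c ∩ k '' c) \ m ⊆ X := by
    rw [hX.eq]
    exact sdiff_subset_sdiff_left inter_subset_left
  have hx' : x ∈ (c ∩ k '' c) \ m := ⟨⟨hxc, hx1⟩, hxm⟩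
  obtain ⟨V, hV, hanti, hI⟩ := hS.qc_seq hx
  refine ⟨(c ∩ k '' c) \ m, c ∩ k '' c, m, ⟨⟨hX.mem.cl.inter hc1.cl,
    hL _ _ hX.mem hc1 (subset_univ _) (subset_univ _), ⟨x, hxc, hx1⟩,
    mk1_ne_univ inter_subset_left hX.mem.sm⟩, hX.cl, hX.crd, hX.sm, rfl, ⟨x, hx'⟩⟩,
    fun n => V n ∩ ((c ∩ k '' c) \ m), fun n => ⟨(hV n).1.trace hsub, (hV n).2, hx'⟩,
    fun i j hij => inter_subset_inter_left _ (hanti hij), ?_⟩
  ext z
  rw [mem_iInter, mem_singleton_iff]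
  constructor
  · intro hz
    have h1 : z ∈ QC X x := by
      rw [← hI, mem_iInter]
      exact fun n => (hz n).1
    by_contra hne
    exact disjoint_left.1 hdk (hz 0).2.1.2 ⟨h1, hne⟩
  · rintro rfl n
    exact ⟨(hV n).2, hx'⟩

/-- a dense subset no clopen part of which looks like a clopen part of a whole set -/
lemma Ctx.mark {X c m : Set S} (hX : Whole X c m) (hq : ∀ x ∈ X, ¬ Disc (QC X x)) :
    ∃ B ⊆ X, X ⊆ closure B ∧ ∀ B', ClopIn B' B → Disjoint B' (closure (Rem B)) →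
      Crd (Rem B') → B' = ∅ := by
  have hex : ∀ Q : Set S, ∃ d : S, ¬ Disc Q → d ∈ Q ∧ d ∈ derivedSet Q := by
    intro Q
    by_cases hQ : Disc Q
    · obtain ⟨x, _⟩ := hX.ne
      exact ⟨x, fun h => absurd hQ h⟩
    · obtain ⟨d, h1, h2⟩ := not_disjoint_iff.1 hQ
      exact ⟨d, fun _ => ⟨h1, h2⟩⟩
  choose d hd using hex
  have hdQ : ∀ x ∈ X, d (QC X x) ∈ QC X x := fun x hx => (hd _ (hq x hx)).1
  have hdD : ∀ x ∈ X, d (QC X x) ∈ derivedSet (QC X x) := fun x hx => (hd _ (hq x hx)).2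
  obtain ⟨D, hD⟩ : ∃ D : Set S, ∀ z, z ∈ D ↔ ∃ x ∈ X, d (QC X x) = z :=
    ⟨{z | ∃ x ∈ X, d (QC X x) = z}, fun _ => Iff.rfl⟩
  have hmemX : ∀ z, z ∈ X ↔ z ∈ c ∧ z ∉ m := fun z => by rw [hX.eq]; rfl
  have hDX : D ⊆ X := fun z hz => by
    obtain ⟨x, hx, rfl⟩ := (hD z).1 hz
    exact (hdQ x hx).1
  have huniq : ∀ x ∈ X, ∀ z ∈ D, z ∈ QC X x → z = d (QC X x) := by
    intro x hx z hz hzx
    obtain ⟨x', hx', rfl⟩ := (hD z).1 hz
    rw [← mk1_qc_eq hx hzx, mk1_qc_eq hx' (hdQ x' hx')]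
  have hdense : X ⊆ closure (X \ D) := by
    intro z hz
    by_cases hzD : z ∈ D
    · obtain ⟨x, hx, rfl⟩ := (hD z).1 hzD
      refine closure_mono ?_ (mem_cl_diff_single (hdD x hx))
      exact fun y hy => ⟨hy.1.1, fun hyD => hy.2 (huniq x hx y hyD hy.1)⟩
    · exact subset_closure ⟨hz, hzD⟩
  have hBcrd : Crd (X \ D) := by
    intro z hz
    have h1 := der_mono hdense (hX.crdX hz.1)
    rwa [derivedSet_closure] at h1
  have hsmall : ∀ A : Set S, A ⊆ X → closure A ⊆ c := fun A hA =>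
    closure_minimal (hA.trans hX.sub) hX.mem.cl
  have free : ∀ w : Set S, IsClosed w → Crd w → w ≠ univ → w \ m ⊆ D → ∀ z ∈ w, z ∈ m := by
    intro w hw hw1 hw2 hwD z hz
    by_contra hzm
    obtain ⟨x, hx, rfl⟩ := (hD z).1 (hwD ⟨hz, hzm⟩)
    have hqc : derivedSet (QC X x) ⊆ c := der_sub_cl.trans (hsmall _ (mk1_qc_sub X x))
    have h1 : Crd (derivedSet (QC X x) ∩ w) :=
      hL.crd (isClosed_derivedSet _) (hS.crd_der _) (mk1_ne_univ hqc hX.mem.sm) hw hw1 hw2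
        (subset_univ _) (subset_univ _)
    have h2 := der_diff_closed hX.cl hzm (h1 ⟨hdD x hx, hz⟩)
    have h3 : (derivedSet (QC X x) ∩ w) \ m ⊆ {d (QC X x)} := by
      intro y hy
      have hyD : y ∈ D := hwD ⟨hy.1.2, hy.2⟩
      exact huniq x hx y hyD (mk1_qc_closed (der_sub_cl hy.1.1) (hDX hyD))
    exact hS.not_der (disc_single _) _ (der_mono h3 h2)
  refine ⟨X \ D, sdiff_subset, hdense, fun B' hB' hoff hcr => ?_⟩
  by_contra hne
  obtain ⟨x, hx⟩ := nonempty_iff_ne_empty.2 hne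
  have hB'X : B' ⊆ X := hB'.1.trans sdiff_subset
  have hc1 : closure B' ⊆ c := hsmall _ hB'X
  have hc2 : closure ((X \ D) \ B') ⊆ c := hsmall _ (sdiff_subset.trans sdiff_subset)
  have hw : ∀ z ∈ closure B' ∩ closure ((X \ D) \ B'), z ∈ m := by
    refine free _ (isClosed_closure.inter isClosed_closure)
      (hL.crd isClosed_closure (hBcrd.clop hB').closure (mk1_ne_univ hc1 hX.mem.sm)
        isClosed_closure (hBcrd.clop hB'.compl).closure (mk1_ne_univ hc2 hX.mem.sm)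
        (subset_univ _) (subset_univ _))
      (mk1_ne_univ (inter_subset_left.trans hc1) hX.mem.sm) ?_
    rintro z ⟨⟨h1, h2⟩, h3⟩
    by_contra hzD
    have hzB : z ∈ X \ D := ⟨(hmemX z).2 ⟨hc1 h1, h3⟩, hzD⟩
    exact disjoint_left.1 hB'.2.1 (hB'.closed ⟨h1, hzB⟩) h2
  have hN : ClopIn (closure B' ∩ X) X := by
    have h1 : X \ (closure B' ∩ X) ⊆ closure ((X \ D) \ B') := by
      intro z hz
      have h2 : z ∈ closure ((X \ D) \ closure B') :=
        cl_diff_closed isClosed_closure (fun h => hz.2 ⟨h, hz.1⟩) (hdense hz.1)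
      exact closure_mono (sdiff_subset_sdiff_right subset_closure) h2
    refine ⟨inter_subset_right, disjoint_left.2 fun z hz hz' => ?_,
      disjoint_left.2 fun z hz hz' => ?_⟩
    · exact ((hmemX z).1 hz.2).2 (hw z ⟨hz.1, closure_minimal h1 isClosed_closure hz'⟩)
    · exact hz.2 ⟨closure_minimal inter_subset_left isClosed_closure hz', hz.1⟩
  have hxX : x ∈ X := hB'X hx
  have hdN : d (QC X x) ∈ closure B' ∩ X := (hdQ x hxX).2 _ hN ⟨subset_closure hx, hxX⟩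
  have hdR : d (QC X x) ∈ Rem B' :=
    ⟨hdN.1, fun h => (hB'.1 h).2 ((hD _).2 ⟨x, hxX, rfl⟩)⟩
  have hRR : Rem B' ⊆ Rem (X \ D) := fun z hz =>
    ⟨closure_mono hB'.1 hz.1, fun h => hz.2 (hB'.closed ⟨hz.1, h⟩)⟩
  have hRc : IsClosed (Rem B') := by
    refine isClosed_of_closure_subset fun z hz => ⟨cl_rem_sub B' hz, fun h => ?_⟩
    exact disjoint_left.1 hoff h (closure_mono hRR hz)
  have hRs : Rem B' ⊆ c := sdiff_subset.trans hc1
  refine ((hmemX _).1 hdN.2).2 (free _ hRc hcr (mk1_ne_univ hRs hX.mem.sm) ?_ _ hdR)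
  rintro z ⟨h1, h2⟩
  by_contra hzD
  exact (hRR h1).2 ⟨(hmemX z).2 ⟨hRs h1, h2⟩, hzD⟩

end

end Pool.Agent.Lib.MP_52f683_gt
end

-- part Pool.Agent.Lib.MP_52f683_gt.CS.S21
section

set_option autoImplicit false
set_option linter.unusedSectionVars false

open Set Topology Filter

namespace Pool.Agent.Lib.MP_52f683_gt

variable {S : Type*} [TopologicalSpace S] [T1Space S] [Infinite S]

/-- iterates of a homeomorphism -/
def s21_it (f : S ≃ₜ S) : ℕ → S ≃ₜ S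
  | 0 => Homeomorph.refl S
  | k + 1 => f.trans (s21_it f k)

lemma s21_it_succ (f : S ≃ₜ S) (k : ℕ) (A : Set S) :
    s21_it f (k + 1) '' A = s21_it f k '' (f '' A) := img_trans _ _ _

lemma s21_cl {a F : Set S} (ha : IsClosed a) (h : Nwd F a) : closure (a \ F) = a :=
  (closure_minimal sdiff_subset ha).antisymm h

lemma s21_rem {a F : Set S} (ha : IsClosed a) (h : Nwd F a) : Rem (a \ F) = a ∩ F := by
  rw [Rem, s21_cl ha h]
  ext y
  simp only [Set.mem_sdiff, mem_inter_iff]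
  tauto

lemma s21_nlc {a F : Set S} (ha : IsClosed a) (hF : IsClosed F) (h : Nwd F a) :
    NLC (a \ F) = ∅ := by
  rw [NLC, s21_rem ha h, (ha.inter hF).closure_eq]
  exact eq_empty_of_forall_notMem fun y hy => hy.1.2 hy.2.2

lemma s21_pin {n C C' b : Set S} (hn : IsClosed n) (hC : IsClosed C) (s1 : C ⊆ n) (s2 : C' ⊆ C)
    (w1 : Nwd C n) (w2 : Nwd C' C) : closure (Rem (n \ C ∪ C' \ b)) = C := by
  have h1 : closure (n \ C ∪ C' \ b) = n :=
    (closure_minimal (union_subset sdiff_subset (sdiff_subset.trans (s2.trans s1))) hn).antisymm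
      (Subset.trans w1 (closure_mono subset_union_left))
  rw [Rem, h1]
  refine (closure_minimal (fun y hy => ?_) hC).antisymm
    (Subset.trans w2 (closure_mono fun y hy => ⟨s1 hy.1, ?_⟩))
  · by_contra h2
    exact hy.2 (Or.inl ⟨hy.1, h2⟩)
  · rintro (h2 | h2)
    · exact h2.2 hy.1
    · exact hy.2 h2.1

/-- invariants of a pinned set with two locally closed pieces -/
lemma s21_inv {n C C' b a F a' F' : Set S} (hn : IsClosed n) (hC : IsClosed C) (s1 : C ⊆ n)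
    (s2 : C' ⊆ C) (w1 : Nwd C n) (w2 : Nwd C' C) (ha : IsClosed a) (hF : IsClosed F)
    (h : Nwd F a) (ha' : IsClosed a') (hF' : IsClosed F') (h' : Nwd F' a')
    (p1 : Sp (n \ C ∪ C' \ b) (a \ F)) (p2 : Sp (n \ C ∪ C' \ b ∪ a \ F) (a' \ F')) :
    closure (Rem (n \ C ∪ C' \ b ∪ a \ F ∪ a' \ F')) = C ∪ a ∩ F ∪ a' ∩ F' ∧
      NLC (n \ C ∪ C' \ b ∪ a \ F ∪ a' \ F') = C' \ b := by
  constructor
  · rw [rem_union p2, rem_union p1, closure_union, closure_union, s21_pin hn hC s1 s2 w1 w2,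
      s21_rem ha h, s21_rem ha' h', (ha.inter hF).closure_eq, (ha'.inter hF').closure_eq]
  · rw [nlc_union p2, nlc_union p1, s21_nlc ha hF h, s21_nlc ha' hF' h', union_empty,
      union_empty, NLC, s21_pin hn hC s1 s2 w1 w2]
    refine Subset.antisymm ?_ fun y hy => ⟨Or.inr hy, s2 hy.1⟩
    rintro y ⟨h1 | h1, h2⟩
    · exact absurd h2 h1.2
    · exact h1

lemma s21_sharp {V N : Set S} {x : S} (hs : Sharp V x) (k : S ≃ₜ S) (hN : N ⊆ k '' V)
    (hx : k x ∈ N) : Sharp N (k x) := by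
  obtain ⟨W, h1, h2, h3⟩ := hs
  refine ⟨fun i => k '' W i ∩ N, fun i => ⟨((h1 i).1.image k).trace hN,
    mem_image_of_mem _ (h1 i).2, hx⟩,
    fun i j hij => inter_subset_inter_left _ (image_mono (h2 hij)), Subset.antisymm ?_ ?_⟩
  · intro y hy
    obtain ⟨z, rfl⟩ := k.surjective y
    have h4 : z ∈ ⋂ i, W i := mem_iInter.2 fun i => (mem_img k).1 (mem_iInter.1 hy i).1
    rw [h3] at h4
    exact congrArg k h4
  · rintro _ rfl
    exact mem_iInter.2 fun i => ⟨mem_image_of_mem _ (h1 i).2, hx⟩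

section
variable (hS : Ctx S) (hL : LFin (univ : Set S))
include hS hL

/-- a proper self-embedding fixing `b` gives infinitely many hosts -/
lemma Ctx.shift {K b N c : Set S} {r : S} (f : S ≃ₜ S) (hK : IsClosed K) (hK' : K ≠ univ)
    (h1 : f '' K ⊆ K) (h2 : f '' b = b) (h3 : b ⊆ K) (hN : Whole N c b) (h4 : c ⊆ K)
    (h5 : Disjoint N (f '' K)) (hs : Sharp N r) : False := by
  have a1 : Antitone fun k => s21_it f k '' K := antitone_nat_of_succ_le fun k => by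
    rw [s21_it_succ]
    exact image_mono h1
  have a2 : ∀ k, s21_it f k '' b = b := fun k => by
    induction k with
    | zero => exact image_id b
    | succ k ih => rw [s21_it_succ, h2, ih]
  have a3 : ∀ k, s21_it f k '' N ⊆ s21_it f k '' K := fun k => image_mono (hN.sub.trans h4)
  have a4 : ∀ k, Disjoint (s21_it f k '' N) (s21_it f (k + 1) '' K) := fun k => by
    rw [s21_it_succ]
    exact (img_disj _).2 h5
  have a5 : r ∈ N := by
    obtain ⟨W, k1, -⟩ := hs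
    exact (k1 0).1.sub (k1 0).2
  refine hS.hplus hN (hL.mono (subset_univ _)) hs hK hK' (hL.mono (subset_univ _)) (fun _ => N)
    (s21_it f) (fun _ => ⟨clopIn_self N, a5⟩)
    (fun k => (a3 k).trans ((a1 (Nat.zero_le k)).trans (image_id K).subset)) fun i => ?_
  have a6 : IsClosed (s21_it f (i + 1) '' K ∪ ⋃ j ∈ Iio i, s21_it f j '' c) :=
    ((Homeomorph.isClosed_image _).2 hK).union ((finite_Iio i).isClosed_biUnion fun j _ =>
      (Homeomorph.isClosed_image _).2 hN.mem.cl)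
  refine Disjoint.mono_right (closure_minimal (iUnion₂_subset fun j hj => ?_) a6)
    (disjoint_union_right.2 ⟨a4 i, disjoint_iUnion₂_right.2 fun j hj => ?_⟩)
  · rcases lt_or_gt_of_ne (show j ≠ i from hj) with h | h
    · exact (image_mono hN.sub).trans ((subset_biUnion_of_mem (u := fun j => s21_it f j '' c)
        (show j ∈ Iio i from h)).trans subset_union_right)
    · exact ((a3 j).trans (a1 h)).trans subset_union_left
  · refine disjoint_left.2 fun y hy ⟨z, hz, e⟩ => ?_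
    by_cases hb : z ∈ b
    · have a7 : y ∈ s21_it f i '' b := by
        rw [a2 i, ← a2 j]
        exact ⟨z, hb, e⟩
      obtain ⟨w, hw, rfl⟩ := hy
      exact (hN.eq.subset hw).2 ((mem_img _).1 a7)
    · exact disjoint_left.1 (a4 j) ⟨z, hN.eq.superset ⟨hz, hb⟩, e⟩ (a1 hj (a3 i hy))

lemma Ctx.td_sharp {V c m : Set S} {x : S} (hV : Whole V c m) (hs : Sharp V x)
    {n C C' b a a' : Set S} (hn : Mem n) (hC : Mem C) (hC' : Mem C') (hb : Mem b) (s1 : C ⊆ n)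
    (s2 : C' ⊆ C) (s3 : b ⊆ C') (w1 : Nwd C n) (w2 : Nwd C' C) (w3 : Nwd b C')
    (ha : Mem a) (ha' : Mem a') (f : a ∩ n ⊆ b)
    (f' : a' ∩ n ⊆ b) (n1 : Nwd (a' ∪ n) a) (n2 : Nwd (a ∪ n) a') (g : S ≃ₜ S) (g1 : g '' n = n)
    (g2 : g '' b = b) (g3 : g '' a' ∩ a ⊆ b) : a ∩ a' ⊆ b := by
  have bn : b ⊆ n := s3.trans (s2.trans s1)
  have hP : n \ C ∪ C' \ b ⊆ n \ b := union_subset (sdiff_subset_sdiff_right (s3.trans s2))
    (sdiff_subset_sdiff_left (s2.trans s1))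
  have hg := ha'.image g
  have gF : g '' (a ∪ n) = g '' a ∪ n := by rw [image_union, g1]
  have fg : g '' a' ∩ n ⊆ b := by
    rw [← g1, ← img_inter, ← g2]
    exact image_mono f'
  have q1 : ∀ {u F : Set S}, IsClosed u → u ∩ n ⊆ b → Sp (n \ C ∪ C' \ b) (u \ (F ∪ n)) :=
    fun hu hb => sp_of_closed hn.cl hu (hP.trans sdiff_subset) sdiff_subset
      (disjoint_left.2 fun y hy h2 => (hP hy).2 (hb ⟨h2, (hP hy).1⟩))
      (disjoint_left.2 fun y hy h2 => hy.2 (Or.inr h2))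
  have p1 := q1 (F := a') ha.cl f
  have p2 := (q1 (F := a) ha'.cl f').union_left
    (sp_of_closed (A := a \ (a' ∪ n)) ha.cl ha'.cl sdiff_subset sdiff_subset
      (disjoint_left.2 fun y hy h2 => hy.2 (Or.inl h2))
      (disjoint_left.2 fun y hy h2 => hy.2 (Or.inl h2)))
  have p3 := (q1 (F := g '' a) hg.cl fg).union_left
    (sp_of_closed (A := a \ (a' ∪ n)) ha.cl hg.cl sdiff_subset sdiff_subset
      (disjoint_left.2 fun y hy h2 => hy.2 (Or.inr (bn (g3 ⟨h2, hy.1⟩))))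
      (disjoint_left.2 fun y hy h2 => hy.2 (Or.inr (bn (g3 ⟨hy.1, h2⟩)))))
  obtain ⟨h, e⟩ := hS.thin.glueE (Eqv.rfl' _) ⟨g, by rw [img_diff, gF]⟩ p2 p3
  obtain ⟨i1, i2⟩ := s21_inv hn.cl hC.cl s1 s2 w1 w2 ha.cl (ha'.cl.union hn.cl) n1 ha'.cl
    (ha.cl.union hn.cl) n2 p1 p2
  obtain ⟨j1, j2⟩ := s21_inv hn.cl hC.cl s1 s2 w1 w2 ha.cl (ha'.cl.union hn.cl) n1 hg.cl
    ((ha.image g).cl.union hn.cl) (gF ▸ n2.image g) p1 p3
  have e1 : h '' (C ∪ a ∩ (a' ∪ n) ∪ a' ∩ (a ∪ n)) =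
      C ∪ a ∩ (a' ∪ n) ∪ g '' a' ∩ (g '' a ∪ n) := by
    rw [← i1, ← j1, img_cl, img_rem, e]
  have e2 : h '' (C' \ b) = C' \ b := by
    have e5 := congrArg NLC e
    rwa [← img_nlc, i2, j2] at e5
  have e3 : h '' b = b :=
    (World.fix ⟨hC'.cl, hC'.crd, hC'.sm, hb.cl, hb.crd, s3, w3⟩ e2).2
  intro r0 hr0
  by_contra hr
  obtain ⟨k, hk⟩ := hS.thin.homog x (g r0)
  have hx : x ∈ c \ m := by
    obtain ⟨W, k1, -⟩ := hs
    exact hV.eq.subset ((k1 0).1.sub (k1 0).2)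
  have hV' := hV.image k
  obtain ⟨c', m1, m2, m3⟩ := hS.h1 hL (x := k x) hb hV'.cl hV'.sm fun h2 => hx.2 ((mem_img k).1 h2)
  have hrb : k x ∉ b := by
    rw [hk, ← g2]
    exact fun h2 => hr ((mem_img g).1 h2)
  have l2 : ∀ {u w : Set S}, Mem u → Mem w → k x ∈ u → k x ∈ w → Mem (u ∩ w) :=
    fun hu hw h1 h2 => ⟨hu.cl.inter hw.cl, hL _ _ hu hw (subset_univ _) (subset_univ _),
      ⟨_, h1, h2⟩, fun h3 => hu.sm (eq_univ_of_univ_subset (h3.superset.trans inter_subset_left))⟩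
  have x1 : k x ∈ g '' a' := hk ▸ mem_image_of_mem g hr0.2
  have x2 : k x ∈ g '' a := hk ▸ mem_image_of_mem g hr0.1
  have x3 : k x ∈ k '' c := mem_image_of_mem k hx.1
  have m4 := l2 (l2 hg (ha.image g) x1 x2) (l2 hV'.mem m1 x3 m2) ⟨x1, x2⟩ ⟨x3, m2⟩
  have x4 : k x ∈ (g '' a' ∩ g '' a ∩ (k '' c ∩ c')) \ b := ⟨⟨⟨x1, x2⟩, x3, m2⟩, hrb⟩
  have e4 := img_symm_img h (C ∪ a ∩ (a' ∪ n) ∪ a' ∩ (a ∪ n))
  rw [e1] at e4
  refine hS.shift hL h.symm (K := C ∪ a ∩ (a' ∪ n) ∪ g '' a' ∩ (g '' a ∪ n))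
    (j1 ▸ isClosed_closure) ?_ ?_ ?_ ?_ ⟨m4, hb.cl, hb.crd, hb.sm, rfl, _, x4⟩
    (fun y hy => Or.inr ⟨hy.1.1, Or.inl hy.1.2⟩) ?_
    (s21_sharp hs k (fun y hy => hV'.eq.superset ⟨hy.1.2.1, fun h2 => hy.2 (m3 ⟨hy.1.2.2, h2⟩)⟩) x4)
  · exact fun h2 => (hS.mem_union (hS.mem_union hC ha) hg).sm (eq_univ_of_univ_subset
      (h2.superset.trans (union_subset_union (union_subset_union_right _ inter_subset_left)
        inter_subset_left)))
  · rw [e4]
    rintro y (h1 | ⟨h1, h2 | h2⟩)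
    · exact Or.inl h1
    · exact Or.inl (Or.inr ⟨h2, Or.inl h1⟩)
    · exact Or.inl (Or.inl (s2 (s3 (f' ⟨h1, h2⟩))))
  · exact (congrArg _ e3.symm).trans (img_symm_img h b)
  · exact fun y hy => Or.inl (Or.inl (s2 (s3 hy)))
  · rw [e4]
    refine disjoint_left.2 ?_
    rintro y hy ((h1 | h1) | ⟨-, h2 | h2⟩)
    · exact hy.2 (fg ⟨hy.1.1.1, s1 h1⟩)
    · exact hy.2 (g3 ⟨hy.1.1.1, h1.1⟩)
    · exact hy.2 (g3 ⟨hy.1.1.1, h2⟩)
    · exact hy.2 (fg ⟨hy.1.1.1, h2⟩)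

end

end Pool.Agent.Lib.MP_52f683_gt
end

-- part Pool.Agent.Lib.MP_52f683_gt.F.S0
section

set_option autoImplicit false
set_option linter.unusedSectionVars false

open Set Topology Filter

namespace Pool.Agent.Lib.MP_52f683_gt

variable {S : Type*} [TopologicalSpace S]

/-- closed discrete sets, crowded intersections of members, members off discrete sets -/
structure SC (S : Type*) [TopologicalSpace S] : Prop where
  cb : CB S
  lf : LFin (univ : Set S)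
  mi : ∀ (D n : Set S) (x : S), Disc D → Mem n → Disjoint D n → x ∉ D →
    ∃ M, Mem M ∧ x ∈ M ∧ Disjoint M D

/-- every whole set has a nowhere dense member -/
def NNW (S : Type*) [TopologicalSpace S] : Prop :=
  ∀ X c m : Set S, Whole X c m → ∃ a, Mem a ∧ a ⊆ closure X ∧ Nwd a (closure X) ∧ ¬ a ⊆ m

/-- some whole set has a sharp point -/
def HasSharp (S : Type*) [TopologicalSpace S] : Prop :=
  ∃ (V c m : Set S) (x : S), Whole V c m ∧ Sharp V x

/-- a chain of four members -/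
structure Ch (n n' b b' : Set S) : Prop where
  mn : Mem n
  mn' : Mem n'
  mb : Mem b
  mb' : Mem b'
  s1 : n' ⊆ n
  s2 : b ⊆ n'
  s3 : b' ⊆ b
  w1 : Nwd n' n
  w2 : Nwd b n'
  w3 : Nwd b' b

/-- the pin of a chain -/
def Pin (n n' b b' : Set S) : Set S := n \ n' ∪ b \ b'

/-- a chain with a small pair of members and two far copies -/
structure Sys (n n' b b' a0 a : Set S) (σ τ : S ≃ₜ S) : Prop where
  ch : Ch n n' b b'
  m0 : Mem a0
  m1 : Mem a
  sub : a ⊆ a0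
  w0 : Nwd a a0
  n0 : Nwd n a0
  n1 : Nwd n a
  fr : a0 ∩ n ⊆ b'
  sn : σ '' n = n
  tn : τ '' n = n
  sf : σ '' a0 ∩ (a0 ∪ n) ⊆ b'
  tf : τ '' a0 ∩ (a0 ∪ n) ⊆ b'
  st : σ '' a0 ∩ τ '' a0 ⊆ b'

/-- a piece with its two discrete labels -/
structure Pc (A Q E : Set S) : Prop where
  crd : Crd A
  nlc : NLC A = Q
  dq : Disc Q
  de : Disc E
  rem : ∃ R, Crd R ∧ Rem A = R ∪ E ∧ Disjoint E (closure R)

/-- every germ of a member has only finitely many places in the set -/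
def Good (Y : Set S) : Prop :=
  ∀ (s : Set S) (y : S), Mem s → y ∈ s →
    {z | ∃ (g : S ≃ₜ S) (O : Set S), IsOpen O ∧ y ∈ O ∧ g y = z ∧ g '' (s ∩ O) ⊆ Y}.Finite

lemma Good.mono {Y Y' : Set S} (h : Good Y) (h' : Y' ⊆ Y) : Good Y' := fun s y hs hy =>
  (h s y hs hy).subset fun _ ⟨g, O, a, b, c, d⟩ => ⟨g, O, a, b, c, d.trans h'⟩

lemma Ch.image {n n' b b' : Set S} (h : Ch n n' b b') (g : S ≃ₜ S) :
    Ch (g '' n) (g '' n') (g '' b) (g '' b') :=
  ⟨h.mn.image g, h.mn'.image g, h.mb.image g, h.mb'.image g, image_mono h.s1, image_mono h.s2,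
    image_mono h.s3, h.w1.image g, h.w2.image g, h.w3.image g⟩

lemma Ch.bn {n n' b b' : Set S} (h : Ch n n' b b') : b ⊆ n := h.s2.trans h.s1

lemma Ch.bn' {n n' b b' : Set S} (h : Ch n n' b b') : b' ⊆ n := h.s3.trans h.bn

lemma Ch.world {n n' b b' : Set S} (h : Ch n n' b b') : World n b' :=
  ⟨h.mn.cl, h.mn.crd, h.mn.sm, h.mb'.cl, h.mb'.crd, h.bn', h.w1.mono (h.s3.trans h.s2)⟩

lemma Ch.pin_sub {n n' b b' : Set S} (h : Ch n n' b b') : Pin n n' b b' ⊆ n \ b' :=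
  union_subset (sdiff_subset_sdiff_right (h.s3.trans h.s2)) (sdiff_subset_sdiff_left h.bn)

/-- a set off `n` inside a closed set that meets `n` in `b'` is separated from the pin -/
lemma Ch.sp {n n' b b' P A u : Set S} (h : Ch n n' b b') (hP : P ⊆ Pin n n' b b')
    (hu : IsClosed u) (f : u ∩ n ⊆ b') (hA : A ⊆ u \ n) : Sp P A :=
  sp_of_closed h.mn.cl hu (hP.trans (h.pin_sub.trans sdiff_subset)) (hA.trans sdiff_subset)
    (disjoint_left.2 fun _ hy h2 => (h.pin_sub (hP hy)).2 (f ⟨h2, (h.pin_sub (hP hy)).1⟩))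
    (disjoint_left.2 fun _ hy => (hA hy).2)

lemma Pc.image {A Q E : Set S} (h : Pc A Q E) (g : S ≃ₜ S) : Pc (g '' A) (g '' Q) (g '' E) := by
  obtain ⟨R, r1, r2, r3⟩ := h.rem
  exact ⟨h.crd.image g, by rw [← img_nlc, h.nlc], h.dq.image g, h.de.image g, g '' R, r1.image g,
    by rw [← img_rem, r2, image_union], by rw [← img_cl]; exact (img_disj g).2 r3⟩

lemma Pc.q_sub {A Q E : Set S} (h : Pc A Q E) : Q ⊆ A := h.nlc ▸ nlc_sub A

variable [T1Space S] [Infinite S]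

lemma s_whole {c n : Set S} (hc : Mem c) (hn : Cs n) (h : Nwd n c) : Whole (c \ n) c n :=
  ⟨hc, hn.cl, hn.crd, hn.sm, rfl, by
    by_contra h'
    rw [Nwd, not_nonempty_iff_eq_empty.1 h', closure_empty] at h
    exact hc.ne.ne_empty (subset_empty_iff.1 h)⟩

lemma Sys.whole {n n' b b' a0 a : Set S} {σ τ : S ≃ₜ S} (h : Sys n n' b b' a0 a σ τ) :
    Whole (a \ n) a n := s_whole h.m1 h.ch.mn.cs h.n1

/-- the part of a member off a closed crowded set -/
lemma s_core {c n : Set S} {x : S} (hc : Mem c) (hn : IsClosed n) (hx : x ∈ c \ n) :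
    Mem (closure (c \ n)) ∧ closure (c \ n) ⊆ c ∧ Nwd n (closure (c \ n)) :=
  ⟨mem_of_crd (hc.crd.diff_closed hn) ⟨x, hx⟩ hc.cl hc.sm sdiff_subset,
    closure_minimal sdiff_subset hc.cl, r_nwd_cl disjoint_sdiff_left⟩

lemma NNW.step (hN : NNW S) {c m : Set S} (hc : Mem c) (hm : Cs m) (h : Nwd m c) :
    ∃ a, Mem a ∧ a ⊆ c ∧ Nwd a c ∧ Nwd m a := by
  obtain ⟨a, a1, a2, a3, a4⟩ := hN _ _ _ (s_whole hc hm h)
  rw [r_nwd_eq h hc.cl] at a2 a3
  obtain ⟨x, hx, hx'⟩ := not_subset.1 a4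
  obtain ⟨b1, b2, b3⟩ := s_core a1 hm.cl (x := x) ⟨hx, hx'⟩
  exact ⟨_, b1, b2.trans a2, a3.mono b2, b3⟩

section
variable (hS : SC S)
include hS

lemma SC.cs_union {K L : Set S} (h : Cs K) (h' : Cs L) : Cs (K ∪ L) :=
  ⟨h.cl.union h'.cl, h.crd.union h'.crd, hS.cb.union_ne h.cl h'.cl h.sm h'.sm⟩

lemma SC.cs_inter {K L : Set S} (h : Cs K) (h' : Cs L) : Cs (K ∩ L) :=
  ⟨h.cl.inter h'.cl, hS.lf.crd h.cl h.crd h.sm h'.cl h'.crd h'.sm (subset_univ _) (subset_univ _),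
    r_ne_univ inter_subset_left h.sm⟩

lemma SC.mem_inter {K L : Set S} {x : S} (h : Mem K) (h' : Mem L) (h1 : x ∈ K) (h2 : x ∈ L) :
    Mem (K ∩ L) := (hS.cs_inter h.cs h'.cs).mem ⟨x, h1, h2⟩

lemma SC.cs_der {A F : Set S} (hF : IsClosed F) (hF' : F ≠ univ) (hA : A ⊆ F) :
    Cs (derivedSet A) :=
  ⟨isClosed_derivedSet A, hS.cb.crd_der A, r_ne_univ (der_sub_closed hF hA) hF'⟩

lemma SC.iso_union {A D : Set S} (hA : Crd A) (hD : Disc D) (h : Disjoint D (closure A)) :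
    Iso (A ∪ D) = D := by
  unfold Iso
  rw [derivedSet_union, hS.cb.der_disc hD, union_empty]
  exact Subset.antisymm (fun x hx => hx.1.resolve_left fun h' => hx.2 (hA h'))
    fun x hx => ⟨Or.inr hx, fun h' => disjoint_left.1 h hx (der_sub_cl h')⟩

/-- a map of a crowded set with a discrete set onto another one respects the two parts -/
lemma SC.split {A A' D D' : Set S} {k : S ≃ₜ S} (e : k '' (A ∪ D) = A' ∪ D') (hA : Crd A)
    (hA' : Crd A') (hD : Disc D) (hD' : Disc D') (h : Disjoint D (closure A))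
    (h' : Disjoint D' (closure A')) : k '' A = A' ∧ k '' D = D' := by
  have e1 : k '' D = D' := by
    rw [← hS.iso_union hA hD h, img_iso, e, hS.iso_union hA' hD' h']
  refine ⟨?_, e1⟩
  rw [← union_sdiff_cancel_right (s := A) (t := D) (h.mono_right subset_closure).symm.le_bot,
    img_diff, e, e1, union_sdiff_cancel_right (h'.mono_right subset_closure).symm.le_bot]

/-- some member misses a given point -/
lemma SC.mem_off (x : S) : ∃ M : Set S, Mem M ∧ x ∉ M := by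
  obtain ⟨K, hK⟩ := hS.cb.exists_mem
  obtain ⟨z, hz⟩ := hS.cb.exists_off hK.sm
  obtain ⟨g, rfl⟩ := hS.cb.thin.homog z x
  exact ⟨_, hK.image g, fun h => hz ((mem_img g).1 h)⟩

/-- a member through a point whose trace on a crowded closed set lies in a given member -/
lemma SC.h1 {b F : Set S} {x : S} (hb : Mem b) (hF : Cs F) (hx : x ∉ F) :
    ∃ c, Mem c ∧ x ∈ c ∧ c ∩ F ⊆ b := by
  by_cases hxb : x ∈ b
  · exact ⟨b, hb, hxb, inter_subset_left⟩
  obtain ⟨y, hy⟩ := hb.ne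
  obtain ⟨K, hK, hyK⟩ := hS.mem_off y
  obtain ⟨m, hm, hxm, hd⟩ := hS.mi {y} K x (disc_single y) hK (disjoint_singleton_left.2 hyK)
    fun h => hxb (mem_singleton_iff.1 h ▸ hy)
  have h0 := hS.cs_inter hF hm.cs
  have hcl : closure ((F ∩ m) \ b) ⊆ F ∩ m := closure_minimal sdiff_subset h0.cl
  obtain ⟨k, hkA, hky⟩ := hS.cb.move_pt (x := y) (y := x) (h0.crd.diff_closed hb.cl)
    (fun h => disjoint_left.1 hd (hcl h).2 rfl) fun h => hx (hcl h).1
  refine ⟨k '' b ∩ m, hS.mem_inter (hb.image k) hm ⟨y, hy, hky⟩ hxm, ⟨⟨y, hy, hky⟩, hxm⟩, ?_⟩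
  rintro z ⟨⟨hz1, hz2⟩, hz3⟩
  by_contra hzb
  have hzA : z ∈ k '' ((F ∩ m) \ b) := by
    rw [hkA]
    exact ⟨⟨hz3, hz2⟩, hzb⟩
  obtain ⟨a, ha, rfl⟩ := hzA
  exact ha.2 ((mem_img k).1 hz1)

/-- the standard piece -/
lemma SC.pc_mk {K F E Q : Set S} (hK : Cs K) (hF : Cs F) (hE : Disc E) (h1 : E ⊆ K \ F)
    (hQ : Disc Q) (h2 : Q ⊆ F ∩ closure (K \ F)) :
    Pc ((K \ F) \ E ∪ Q) Q E ∧ closure ((K \ F) \ E ∪ Q) = closure (K \ F) := by
  have c1 : Crd (K \ F) := hK.crd.diff_closed hF.cl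
  have c2 : Crd ((K \ F) \ E) := hS.cb.crd_diff c1 hE
  have e1 : closure ((K \ F) \ E) = closure (K \ F) :=
    (closure_mono sdiff_subset).antisymm (closure_minimal (hS.cb.nwd_disc c1 hE) isClosed_closure)
  have e2 : closure ((K \ F) \ E ∪ Q) = closure (K \ F) := by
    rw [closure_union, e1]
    exact union_eq_left.2 (closure_minimal (h2.trans inter_subset_right) isClosed_closure)
  have l1 : closure (K \ F) ⊆ K := closure_minimal sdiff_subset hK.cl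
  have l2 := hS.cs_inter (cs_cl c1 hK.cl hK.sm sdiff_subset) hF
  have e3 : Rem ((K \ F) \ E ∪ Q) = (closure (K \ F) ∩ F) \ Q ∪ E := by
    rw [Rem, e2]
    ext y
    constructor
    · rintro ⟨a, b⟩
      by_cases hy : y ∈ E
      · exact Or.inr hy
      · refine Or.inl ⟨⟨a, by_contra fun c => b (Or.inl ⟨⟨l1 a, c⟩, hy⟩)⟩, fun c => b (Or.inr c)⟩
    · rintro (⟨⟨a, b⟩, c⟩ | a)
      · exact ⟨a, fun d => d.elim (fun d => d.1.2 b) c⟩
      · exact ⟨subset_closure (h1 a), fun d => d.elim (fun d => d.2 a) fun d => (h1 a).2 (h2 d).1⟩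
  have l3 : closure ((closure (K \ F) ∩ F) \ Q) ⊆ F :=
    closure_minimal (fun y hy => hy.1.2) hF.cl
  refine ⟨⟨union_subset (c2.trans (der_mono subset_union_left)) fun y hy => ?_, ?_, hQ, hE, _,
    hS.cb.crd_diff l2.crd hQ, e3, disjoint_left.2 fun y hy h => (h1 hy).2 (l3 h)⟩, e2⟩
  · refine der_mono subset_union_left ((mem_cl_iff.1 ?_).resolve_left fun h => h.1.2 (h2 hy).1)
    rw [e1]
    exact (h2 hy).2
  · rw [NLC, e3, closure_union, (hS.cb.closed hE).closure_eq]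
    refine Subset.antisymm ?_ fun y hy =>
      ⟨Or.inr hy, Or.inl (hS.cb.nwd_disc l2.crd hQ ⟨(h2 hy).2, (h2 hy).1⟩)⟩
    rintro y ⟨a | a, b | b⟩
    · exact absurd (l3 b) a.1.2
    · exact absurd b a.2
    · exact a
    · exact a

lemma SC.pc_union {A Q E B Q' E' : Set S} (h : Pc A Q E) (h' : Pc B Q' E') (sp : Sp A B)
    (d : Disjoint E (closure B)) (d' : Disjoint E' (closure A)) :
    Pc (A ∪ B) (Q ∪ Q') (E ∪ E') := by
  obtain ⟨R, r1, r2, r3⟩ := h.rem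
  obtain ⟨R', t1, t2, t3⟩ := h'.rem
  have a : closure R ⊆ closure A :=
    (closure_mono (r2 ▸ subset_union_left : R ⊆ Rem A)).trans (cl_rem_sub A)
  have a' : closure R' ⊆ closure B :=
    (closure_mono (t2 ▸ subset_union_left : R' ⊆ Rem B)).trans (cl_rem_sub B)
  refine ⟨h.crd.union h'.crd, by rw [nlc_union sp, h.nlc, h'.nlc], hS.cb.disc_union h.dq h'.dq,
    hS.cb.disc_union h.de h'.de, R ∪ R', r1.union t1, ?_, ?_⟩
  · rw [rem_union sp, r2, t2, union_union_union_comm]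
  · rw [closure_union]
    exact disjoint_union_left.2 ⟨disjoint_union_right.2 ⟨r3, d.mono_right a'⟩,
      disjoint_union_right.2 ⟨d'.mono_right a, t3⟩⟩

/-- the pin with a hole -/
lemma SC.pin_hole {n n' b b' t : Set S} (h : Ch n n' b b') (ht : Cs t) (f : t ∩ b ⊆ b') :
    Crd (Pin n n' b b' \ t) ∧ NLC (Pin n n' b b' \ t) = b \ b' ∧ Crd (Rem (Pin n n' b b' \ t)) := by
  have c0 : Crd (Pin n n' b b' \ t) :=
    ((h.mn.crd.diff_closed h.mn'.cl).union (h.mb.crd.diff_closed h.mb'.cl)).diff_closed ht.cl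
  have s0 : Pin n n' b b' \ t ⊆ n := sdiff_subset.trans (h.pin_sub.trans sdiff_subset)
  have hL := cs_cl c0 h.mn.cl h.mn.sm s0
  have l1 : ∀ y ∈ n, y ∉ t → y ∈ closure (Pin n n' b b' \ t) := fun y hy hy' =>
    closure_mono (sdiff_subset_sdiff_left subset_union_left) (cl_diff_closed ht.cl hy' (h.w1 hy))
  have e : Rem (Pin n n' b b' \ t) = closure (Pin n n' b b' \ t) ∩ t ∪
      (closure (Pin n n' b b' \ t) ∩ n') \ b ∪ closure (Pin n n' b b' \ t) ∩ b' := by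
    ext y
    constructor
    · rintro ⟨a, c⟩
      by_cases h1 : y ∈ t
      · exact Or.inl (Or.inl ⟨a, h1⟩)
      have h2 : y ∈ n' := by_contra fun d =>
        c ⟨Or.inl ⟨closure_minimal s0 h.mn.cl a, d⟩, h1⟩
      by_cases h3 : y ∈ b
      · exact Or.inr ⟨a, by_contra fun d => c ⟨Or.inr ⟨h3, d⟩, h1⟩⟩
      · exact Or.inl (Or.inr ⟨⟨a, h2⟩, h3⟩)
    · rintro ((⟨a, c⟩ | ⟨⟨a, c⟩, d⟩) | ⟨a, c⟩)
      · exact ⟨a, fun d => d.2 c⟩
      · exact ⟨a, fun e => e.1.elim (fun e => e.2 c) fun e => d e.1⟩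
      · exact ⟨a, fun e => (h.pin_sub e.1).2 c⟩
  refine ⟨c0, Subset.antisymm ?_ fun y hy => ?_, ?_⟩
  · rintro y ⟨⟨a | a, c⟩, d⟩
    · have : closure (Rem (Pin n n' b b' \ t)) ⊆ t ∪ n' := by
        refine closure_minimal ?_ (ht.cl.union h.mn'.cl)
        rw [e]
        rintro z ((hz | hz) | hz)
        · exact Or.inl hz.2
        · exact Or.inr hz.1.2
        · exact Or.inr (h.s2 (h.s3 hz.2))
      exact absurd ((this d).resolve_left c) a.2
    · exact a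
  · have h1 : y ∉ t := fun a => hy.2 (f ⟨a, hy.1⟩)
    refine ⟨⟨Or.inr hy, h1⟩, closure_mono ?_ (cl_diff_closed ht.cl h1 (h.w2 (h.s2 hy.1)))⟩
    rw [e]
    exact fun z hz => Or.inl (Or.inr ⟨⟨l1 z (h.s1 hz.1.1) hz.2, hz.1.1⟩, hz.1.2⟩)
  · rw [e]
    exact ((hS.cs_inter hL ht).crd.union
      ((hS.cs_inter hL h.mn'.cs).crd.diff_closed h.mb.cl)).union (hS.cs_inter hL h.mb'.cs).crd

/-- a map between pinned sets respects all labels -/
lemma SC.plabel {n n' b b' t A Q E A' Q' E' : Set S} (h : Ch n n' b b') (ht : Cs t)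
    (f : t ∩ b ⊆ b') (p : Pc A Q E) (p' : Pc A' Q' E') (sp : Sp (Pin n n' b b' \ t) A)
    (sp' : Sp (Pin n n' b b' \ t) A') (d : Disjoint E n) (d' : Disjoint E' n) {k : S ≃ₜ S}
    (e : k '' (Pin n n' b b' \ t ∪ A) = Pin n n' b b' \ t ∪ A') :
    k '' b = b ∧ k '' b' = b' ∧ k '' Q = Q' ∧ k '' E = E' := by
  obtain ⟨-, c1, c2⟩ := hS.pin_hole h ht f
  have s0 : closure (Rem (Pin n n' b b' \ t)) ⊆ n := (cl_rem_sub _).trans
    (closure_minimal (sdiff_subset.trans (h.pin_sub.trans sdiff_subset)) h.mn.cl)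
  have s1 : closure (b \ b') ⊆ closure (Pin n n' b b' \ t) := closure_mono (c1 ▸ nlc_sub _)
  have e1 := congrArg NLC e
  rw [← img_nlc, nlc_union sp, nlc_union sp', c1, p.nlc, p'.nlc] at e1
  have cb := h.mb.crd.diff_closed h.mb'.cl
  obtain ⟨a1, a2⟩ := hS.split e1 cb cb p.dq p'.dq (sp.2.mono p.q_sub s1) (sp'.2.mono p'.q_sub s1)
  obtain ⟨a3, a4⟩ := World.fix ⟨h.mb.cl, h.mb.crd, h.mb.sm, h.mb'.cl, h.mb'.crd, h.s3, h.w3⟩ a1
  obtain ⟨R, r1, r2, r3⟩ := p.rem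
  obtain ⟨R', t1, t2, t3⟩ := p'.rem
  have e2 := congrArg Rem e
  rw [← img_rem, rem_union sp, rem_union sp', r2, t2, ← union_assoc, ← union_assoc] at e2
  refine ⟨a3, a4, a2, (hS.split e2 (c2.union r1) (c2.union t1) p.de p'.de ?_ ?_).2⟩
  · rw [closure_union]
    exact disjoint_union_right.2 ⟨d.mono_right s0, r3⟩
  · rw [closure_union]
    exact disjoint_union_right.2 ⟨d'.mono_right s0, t3⟩

lemma SC.exists_ch (hN : NNW S) (x : S) : ∃ n n' b b' : Set S, Ch n n' b b' ∧ x ∉ n := by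
  have st : ∀ c : Set S, Mem c → ∃ a, Mem a ∧ a ⊆ c ∧ Nwd a c := fun c hc =>
    let ⟨a, a1, a2, a3, _⟩ := hN.step hc cs_empty (r_nwd_disj (disjoint_empty c))
    ⟨a, a1, a2, a3⟩
  obtain ⟨n, h0, hx⟩ := hS.mem_off x
  obtain ⟨n', h1, s1, w1⟩ := st n h0
  obtain ⟨b, h2, s2, w2⟩ := st n' h1
  obtain ⟨b', h3, s3, w3⟩ := st b h2
  exact ⟨n, n', b, b', ⟨h0, h1, h2, h3, s1, s2, s3, w1, w2, w3⟩, hx⟩

/-- a system inside a given whole set -/
lemma SC.exists_sys (hN : NNW S) {X c m : Set S} (hX : Whole X c m) :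
    ∃ (n n' b b' a0 a : Set S) (σ τ : S ≃ₜ S), Sys n n' b b' a0 a σ τ ∧ a0 \ n ⊆ X := by
  obtain ⟨x, hx⟩ := hX.ne
  have hx' := hX.eq.subset hx
  obtain ⟨n, n', b, b', ch, hn⟩ := hS.exists_ch hN x
  obtain ⟨c0, m0, x0, f0⟩ := hS.h1 ch.mb' (hS.cs_union ch.mn.cs ⟨hX.cl, hX.crd, hX.sm⟩)
    (x := x) fun h => h.elim hn hx'.2
  have m1 := hS.mem_inter m0 hX.mem x0 hx'.1
  obtain ⟨w1, hw1⟩ := hS.cb.exists_off (hS.cb.mem_union ch.mn m1).sm
  obtain ⟨σ, s1, s2, rfl⟩ := hS.cb.world_move ch.world hn fun h => hw1 (Or.inl h)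
  obtain ⟨w2, hw2⟩ := hS.cb.exists_off
    (hS.cb.mem_union (hS.cb.mem_union ch.mn m1) (m1.image σ)).sm
  obtain ⟨τ, t1, t2, rfl⟩ := hS.cb.world_move ch.world hn fun h => hw2 (Or.inl (Or.inl h))
  obtain ⟨c2, m2, x2, f2⟩ := hS.h1 ch.mb' (x := x) (hS.cs_union (hS.cs_union
    (m1.image σ.symm).cs (m1.image τ.symm).cs) ((m1.image σ).image τ.symm).cs) (by
      rintro ((h | h) | h) <;> rw [r_mem_symm] at h
      · exact hw1 (Or.inr h)
      · exact hw2 (Or.inl (Or.inr h))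
      · exact hw2 (Or.inr h))
  obtain ⟨a1, a2, a3⟩ := s_core (hS.mem_inter m1 m2 ⟨x0, hx'.1⟩ x2) ch.mn.cl
    (x := x) ⟨⟨⟨x0, hx'.1⟩, x2⟩, hn⟩
  obtain ⟨a, b1, b2, b3, b4⟩ := hN.step a1 ch.mn.cs a3
  have fr : closure ((c0 ∩ c ∩ c2) \ n) ∩ n ⊆ b' := fun y hy => f0 ⟨(a2 hy.1).1.1, Or.inl hy.2⟩
  refine ⟨n, n', b, b', _, a, σ, τ, ⟨ch, a1, b1, b2, b3, a3, b4, fr, s1, t1, ?_, ?_, ?_⟩,
    fun y hy => hX.eq.superset ⟨(a2 hy.1).1.2,
      fun h => hy.2 (ch.bn' (f0 ⟨(a2 hy.1).1.1, Or.inr h⟩))⟩⟩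
  · rintro _ ⟨⟨y, hy, rfl⟩, h | h⟩ <;> rw [r_fix_mem s2]
    · exact f2 ⟨(a2 hy).2, Or.inl (Or.inl ((r_mem_symm σ).2 (a2 h).1))⟩
    · exact fr ⟨hy, (r_fix_mem s1 y).1 h⟩
  · rintro _ ⟨⟨y, hy, rfl⟩, h | h⟩ <;> rw [r_fix_mem t2]
    · exact f2 ⟨(a2 hy).2, Or.inl (Or.inr ((r_mem_symm τ).2 (a2 h).1))⟩
    · exact fr ⟨hy, (r_fix_mem t1 y).1 h⟩
  · rintro _ ⟨h, y, hy, rfl⟩
    rw [r_fix_mem t2]
    exact f2 ⟨(a2 hy).2, Or.inr ((r_mem_symm τ).2 (image_mono (a2.trans inter_subset_left) h))⟩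

end

end Pool.Agent.Lib.MP_52f683_gt
end
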